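import Mathlib

/-!
# Determinants of real and complex Hessians: linear algebra
-/

open scoped ComplexOrder
open Matrix

namespace Pool.Agent.KRFS.ABP

section real

variable {ι : Type*} [Fintype ι] [DecidableEq ι]

theorem one_le_det_one_add {X : Matrix ι ι ℝ} (hX : X.PosSemidef) : 1 ≤ (1 + X).det := by
  have hH : (1 + X).IsHermitian := by
    rw [Matrix.IsHermitian, Matrix.conjTranspose_add, Matrix.conjTranspose_one, hX.isHermitian.eq]
  have h1 : ∀ i, 1 ≤ hH.eigenvalues i := by
    intro i
    set v : ι → ℝ := ⇑(hH.eigenvectorBasis i) with hv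
    have h2 : hH.eigenvalues i = (star v ⬝ᵥ (1 + X) *ᵥ v) := hH.eigenvalues_eq i
    have h3 : star v ⬝ᵥ v = 1 := by
      have e1 : inner ℝ (hH.eigenvectorBasis i) (hH.eigenvectorBasis i) = (1 : ℝ) := by
        rw [inner_self_eq_norm_sq_to_K, hH.eigenvectorBasis.orthonormal.1 i]
        simp
      rw [EuclideanSpace.inner_eq_star_dotProduct, dotProduct_comm] at e1
      exact e1
    have h4 : 0 ≤ star v ⬝ᵥ X *ᵥ v := hX.dotProduct_mulVec_nonneg v
    rw [h2, Matrix.add_mulVec, Matrix.one_mulVec, dotProduct_add, h3]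
    linarith
  rw [hH.det_eq_prod_eigenvalues]
  calc (1 : ℝ) = ∏ _i : ι, (1 : ℝ) := by simp
    _ ≤ ∏ i, hH.eigenvalues i := Finset.prod_le_prod (fun _ _ => zero_le_one) fun i _ => h1 i

theorem det_le_det_add {M N : Matrix ι ι ℝ} (hM : M.PosSemidef) (hN : N.PosSemidef) :
    M.det ≤ (M + N).det := by
  by_cases h0 : M.det = 0
  · rw [h0]
    exact (hM.add hN).det_nonneg
  have hu : IsUnit M := (Matrix.isUnit_iff_isUnit_det _).mpr (isUnit_iff_ne_zero.2 h0)
  open scoped MatrixOrder in
  obtain ⟨y, hy⟩ := CStarAlgebra.nonneg_iff_eq_star_mul_self.mp hM.nonneg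
  have hy' : M = y.conjTranspose * y := by
    rw [hy, Matrix.star_eq_conjTranspose]
  have hdet : IsUnit y.conjTranspose.det := by
    have h1 : IsUnit M.det := (Matrix.isUnit_iff_isUnit_det _).mp hu
    rw [hy', Matrix.det_mul] at h1
    exact isUnit_of_mul_isUnit_left h1
  set K : Matrix ι ι ℝ := (y.conjTranspose)⁻¹ with hK
  have hK1 : K * y.conjTranspose = 1 := Matrix.nonsing_inv_mul _ hdet
  have hK2 : y * K.conjTranspose = 1 := by
    rw [← Matrix.conjTranspose_conjTranspose y, ← Matrix.conjTranspose_mul, hK1,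
      Matrix.conjTranspose_one]
  have hK3 : K * M * K.conjTranspose = 1 := by
    rw [hy', ← Matrix.mul_assoc, hK1, Matrix.one_mul, hK2]
  have hX : (K * N * K.conjTranspose).PosSemidef := hN.mul_mul_conjTranspose_same K
  have h1 := one_le_det_one_add hX
  have h2 : 1 + K * N * K.conjTranspose = K * (M + N) * K.conjTranspose := by
    rw [Matrix.mul_add, Matrix.add_mul, hK3]
  rw [h2, Matrix.det_mul, Matrix.det_mul, Matrix.det_conjTranspose, star_trivial] at h1
  have h3 : K.det * M.det * K.det = 1 := by
    have := congrArg Matrix.det hK3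
    rwa [Matrix.det_mul, Matrix.det_mul, Matrix.det_conjTranspose, star_trivial,
      Matrix.det_one] at this
  have h4 : 0 ≤ M.det := hM.det_nonneg
  have h5 : M.det * 1 ≤ M.det * (K.det * (M + N).det * K.det) := mul_le_mul_of_nonneg_left h1 h4
  calc M.det = M.det * 1 := (mul_one _).symm
    _ ≤ M.det * (K.det * (M + N).det * K.det) := h5
    _ = (K.det * M.det * K.det) * (M + N).det := by ring
    _ = (M + N).det := by rw [h3, one_mul]

end real

section complex

variable {k : ℕ}

/-- the determinant of the real form of a complex matrix -/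
theorem det_realForm (P Q : Matrix (Fin k) (Fin k) ℝ) :
    (Matrix.fromBlocks P (-Q) Q P).det =
      Complex.normSq (P.map Complex.ofReal + Complex.I • Q.map Complex.ofReal).det := by
  set p : Matrix (Fin k) (Fin k) ℂ := P.map Complex.ofReal with hp
  set q : Matrix (Fin k) (Fin k) ℂ := Q.map Complex.ofReal with hq
  have h1 : ((Matrix.fromBlocks P (-Q) Q P).det : ℂ) = (Matrix.fromBlocks p (-q) q p).det := by
    have h := RingHom.map_det Complex.ofRealHom (Matrix.fromBlocks P (-Q) Q P)
    rw [Complex.ofRealHom_eq_coe] at h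
    rw [h]
    congr 1
    ext i j
    rcases i with i | i <;> rcases j with j | j <;> simp [p, q]
  have h2 : Matrix.fromBlocks (1 : Matrix (Fin k) (Fin k) ℂ) (Complex.I • 1) 0 1 *
      Matrix.fromBlocks p (-q) q p * Matrix.fromBlocks 1 (-Complex.I • 1) 0 1 =
      Matrix.fromBlocks (p + Complex.I • q) 0 q (p - Complex.I • q) := by
    rw [Matrix.fromBlocks_multiply, Matrix.fromBlocks_multiply]
    congr 1
    · simp
    · simp only [Matrix.one_mul, Matrix.mul_one, Matrix.smul_mul, Matrix.mul_smul, smul_add,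
        smul_smul, neg_smul, Matrix.mul_neg]
      rw [Complex.I_mul_I]
      simp
      abel
    · simp
    · simp [sub_eq_add_neg, add_comm]
  have h3 : (Matrix.fromBlocks p (-q) q p).det =
      (p + Complex.I • q).det * (p - Complex.I • q).det := by
    have h := congrArg Matrix.det h2
    rw [Matrix.det_mul, Matrix.det_mul, Matrix.det_fromBlocks_zero₂₁, Matrix.det_fromBlocks_zero₂₁,
      Matrix.det_fromBlocks_zero₁₂] at h
    simpa using h
  have h4 : (p - Complex.I • q).det = (starRingEnd ℂ) (p + Complex.I • q).det := by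
    have h := RingHom.map_det (starRingEnd ℂ) (p + Complex.I • q)
    rw [h]
    congr 1
    ext i j
    simp [p, q, sub_eq_add_neg]
  apply Complex.ofReal_injective
  rw [h1, h3, h4, Complex.mul_conj]

/-- The determinant of a real Hessian is bounded by the square of the complex one. -/
theorem det_hess_le {A B C E : Matrix (Fin k) (Fin k) ℝ}
    (hM : (Matrix.fromBlocks A B C E).PosSemidef) :
    (Matrix.fromBlocks A B C E).det ≤ 16 ^ k * Complex.normSq
      (Matrix.of fun i j : Fin k => (⟨(A i j + E i j) / 4, (B i j - C i j) / 4⟩ : ℂ)).det := by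
  set Jm : Matrix (Fin k ⊕ Fin k) (Fin k ⊕ Fin k) ℝ := Matrix.fromBlocks 0 (-1) 1 0 with hJ
  have h1 : (Jm.conjTranspose * Matrix.fromBlocks A B C E * Jm).PosSemidef :=
    hM.conjTranspose_mul_mul_same Jm
  have h2 := det_le_det_add hM h1
  have h3 : Matrix.fromBlocks A B C E + Jm.conjTranspose * Matrix.fromBlocks A B C E * Jm =
      Matrix.fromBlocks (A + E) (-(C - B)) (C - B) (A + E) := by
    rw [hJ, Matrix.fromBlocks_conjTranspose, Matrix.fromBlocks_multiply,
      Matrix.fromBlocks_multiply, Matrix.fromBlocks_add]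
    congr 1 <;> simp [sub_eq_add_neg, add_comm]
  rw [h3, det_realForm] at h2
  refine h2.trans (le_of_eq ?_)
  have h4 : (A + E).map Complex.ofReal + Complex.I • (C - B).map Complex.ofReal =
      ((4 : ℂ) • (Matrix.of fun i j : Fin k =>
        (⟨(A i j + E i j) / 4, (B i j - C i j) / 4⟩ : ℂ))).map (starRingEnd ℂ) := by
    ext i j
    simp only [Matrix.add_apply, Matrix.map_apply, Matrix.smul_apply, Matrix.of_apply,
      Matrix.sub_apply, smul_eq_mul]
    apply Complex.ext
    · simp
      ring
    · simp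
      ring
  have h5 : ((A + E).map Complex.ofReal + Complex.I • (C - B).map Complex.ofReal).det =
      (starRingEnd ℂ) ((4 : ℂ) • (Matrix.of fun i j : Fin k =>
        (⟨(A i j + E i j) / 4, (B i j - C i j) / 4⟩ : ℂ))).det := by
    rw [h4, RingHom.map_det]
    rfl
  rw [h5, Complex.normSq_conj, Matrix.det_smul, Complex.normSq_mul, Fintype.card_fin, map_pow]
  congr 2
  simp
  norm_num

end complex

end Pool.Agent.KRFS.ABP
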