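import Pool.Agent.Work.MP_a2bf38_gt.I.Split

/-!
# The coordinates of `ℂ^(k+m) = ℂ^k × ℂ^m`
-/

open scoped ContDiff ENNReal ComplexOrder Topology
open Set MeasureTheory Filter Pool.Agent.ToricKRF Pool.Agent.ToricKRF.G Pool.Agent.KRFS

namespace Pool.Agent.KRFF

section Coord

variable {k m : ℕ}

/-- `fstC` as a continuous linear map -/
def fstL (k m : ℕ) : Cn (k + m) →L[ℝ] Cn k where
  toFun := fstC
  map_add' _ _ := rfl
  map_smul' _ _ := rfl
  cont := by
    unfold fstC
    fun_prop

/-- `sndC` as a continuous linear map -/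
def sndL (k m : ℕ) : Cn (k + m) →L[ℝ] Cn m where
  toFun := sndC
  map_add' _ _ := rfl
  map_smul' _ _ := rfl
  cont := by
    unfold sndC
    fun_prop

theorem joinC_add (u u' : Cn k) (y y' : Cn m) :
    joinC (u + u') (y + y') = joinC u y + joinC u' y' := by
  refine Prod.ext ?_ ?_
  · funext i
    refine Fin.addCases (fun j => ?_) (fun j => ?_) i <;> simp [joinC]
  · funext i
    refine Fin.addCases (fun j => ?_) (fun j => ?_) i <;> simp [joinC]

theorem joinC_smul (c : ℝ) (u : Cn k) (y : Cn m) : joinC (c • u) (c • y) = c • joinC u y := by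
  refine Prod.ext ?_ ?_
  · funext i
    refine Fin.addCases (fun j => ?_) (fun j => ?_) i <;> simp [joinC]
  · funext i
    refine Fin.addCases (fun j => ?_) (fun j => ?_) i <;> simp [joinC]

theorem joinC_J (u : Cn k) (y : Cn m) : joinC (J u) (J y) = J (joinC u y) := by
  refine Prod.ext ?_ ?_
  · funext i
    refine Fin.addCases (fun j => ?_) (fun j => ?_) i <;> simp [joinC, J]
  · funext i
    refine Fin.addCases (fun j => ?_) (fun j => ?_) i <;> simp [joinC, J]

theorem sndC_J (z : Cn (k + m)) : sndC (J z) = J (sndC z) := rfl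

theorem fstC_J (z : Cn (k + m)) : fstC (J z) = J (fstC z) := rfl

/-- `y ↦ (0, y)` as a continuous linear map -/
def inrL (k m : ℕ) : Cn m →L[ℝ] Cn (k + m) where
  toFun := fun y => joinC 0 y
  map_add' y y' := by
    have := joinC_add (0 : Cn k) 0 y y'
    rwa [add_zero] at this
  map_smul' c y := by
    have := joinC_smul c (0 : Cn k) y
    rwa [smul_zero] at this
  cont := continuous_joinC.comp (by fun_prop : Continuous fun y : Cn m => ((0 : Cn k), y))

theorem joinC_eq (u : Cn k) (y : Cn m) : joinC u y = joinC u 0 + inrL k m y := by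
  change joinC u y = joinC u 0 + joinC 0 y
  rw [← joinC_add, add_zero, zero_add]

/-- the section `z ↦ (u₀, y)` -/
theorem hasFDerivAt_sect (u₀ : Cn k) (z : Cn (k + m)) :
    HasFDerivAt (fun z : Cn (k + m) => joinC u₀ (sndC z)) ((inrL k m).comp (sndL k m)) z := by
  have h1 : (fun z : Cn (k + m) => joinC u₀ (sndC z)) = fun z =>
      joinC u₀ 0 + ((inrL k m).comp (sndL k m)) z := by
    funext z
    exact joinC_eq u₀ (sndC z)
  rw [h1]
  exact ((inrL k m).comp (sndL k m)).hasFDerivAt.const_add _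

theorem contDiff_sect (u₀ : Cn k) :
    ContDiff ℝ ∞ fun z : Cn (k + m) => joinC u₀ (sndC z) := by
  have h1 : (fun z : Cn (k + m) => joinC u₀ (sndC z)) = fun z =>
      joinC u₀ 0 + ((inrL k m).comp (sndL k m)) z := by
    funext z
    exact joinC_eq u₀ (sndC z)
  rw [h1]
  exact contDiff_const.add ((inrL k m).comp (sndL k m)).contDiff

theorem holOn_sect (u₀ : Cn k) (S : Set (Cn (k + m))) :
    HolOn (fun z : Cn (k + m) => joinC u₀ (sndC z)) S := by
  refine ⟨(contDiff_sect u₀).contDiffOn, fun z _ u => ?_⟩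
  rw [(hasFDerivAt_sect u₀ z).fderiv]
  change joinC 0 (sndC (J u)) = J (joinC 0 (sndC u))
  rw [sndC_J, ← joinC_J]
  congr 1
  simp [J, Prod.ext_iff]

theorem holOn_sndC (S : Set (Cn (k + m))) : HolOn (sndC : Cn (k + m) → Cn m) S := by
  refine ⟨(sndL k m).contDiff.contDiffOn, fun z _ u => ?_⟩
  have : HasFDerivAt (sndC : Cn (k + m) → Cn m) (sndL k m) z := (sndL k m).hasFDerivAt
  rw [this.fderiv]
  rfl

theorem isOpen_opd (r : ℝ) : IsOpen (opd (k := k) r) := by
  unfold opd
  rw [ofPred_forall]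
  exact isOpen_iInter_of_finite fun i => isOpen_lt (by fun_prop) continuous_const

theorem isClosed_cpd (r : ℝ) : IsClosed (cpd (k := k) r) := by
  unfold cpd
  rw [ofPred_forall]
  exact isClosed_iInter fun i => isClosed_le (by fun_prop) continuous_const

theorem cpd_subset_opd {r r' : ℝ} (hr : 0 ≤ r) (h : r < r') : cpd (k := k) r ⊆ opd r' := by
  intro u hu i
  have := hu i
  have h2 : r ^ 2 < r' ^ 2 := by nlinarith
  exact lt_of_le_of_lt this h2

end Coord

end Pool.Agent.KRFF
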