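import Pool.Agent.Work.MP_a2bf38_gt.H.BoundCalc
import Pool.Agent.Work.MP_a2bf38_gt.I.Coord
import Pool.Agent.Work.MP_a2bf38_gt.I.FBound

/-!
# The Levi form of `φ_c - (1 - κ) φ_{c'} ∘ section`
-/

open scoped ContDiff ENNReal ComplexOrder Topology
open Set MeasureTheory Filter Pool.Agent.ToricKRF Pool.Agent.ToricKRF.G Pool.Agent.KRFS

namespace Pool.Agent.KRFF

/-- comparison of two quadratic forms on a compact set -/
theorem quad_le {X V : Type*} [TopologicalSpace X] [NormedAddCommGroup V] [NormedSpace ℝ V]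
    [ProperSpace V] {A : Set X} (hA : IsCompact A) (f g : X → V → ℝ)
    (hf : ContinuousOn (fun q : X × V => f q.1 q.2) (A ×ˢ univ))
    (hg : ContinuousOn (fun q : X × V => g q.1 q.2) (A ×ˢ univ))
    (hf2 : ∀ x ∈ A, ∀ r : ℝ, ∀ v, f x (r • v) = r ^ 2 * f x v)
    (hg2 : ∀ x ∈ A, ∀ r : ℝ, ∀ v, g x (r • v) = r ^ 2 * g x v)
    (hpos : ∀ x ∈ A, ∀ v, v ≠ 0 → 0 < g x v) :
    ∃ C : ℝ, 0 ≤ C ∧ ∀ x ∈ A, ∀ v, f x v ≤ C * g x v := by
  have hK : IsCompact (A ×ˢ Metric.sphere (0 : V) 1) := hA.prod (isCompact_sphere _ _)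
  have hne : ∀ v ∈ Metric.sphere (0 : V) 1, v ≠ 0 := by
    intro v hv h
    rw [h] at hv
    simp at hv
  have hsub : A ×ˢ Metric.sphere (0 : V) 1 ⊆ A ×ˢ univ := prod_mono le_rfl (subset_univ _)
  have h1 : ContinuousOn (fun q : X × V => f q.1 q.2 / g q.1 q.2)
      (A ×ˢ Metric.sphere (0 : V) 1) :=
    (hf.mono hsub).div (hg.mono hsub) fun q hq => (hpos q.1 hq.1 q.2 (hne _ hq.2)).ne'
  obtain ⟨C, hC⟩ := (hK.image_of_continuousOn h1).bddAbove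
  refine ⟨max C 0, le_max_right _ _, fun x hx v => ?_⟩
  by_cases hv : v = 0
  · have e1 : f x 0 = 0 := by simpa using hf2 x hx 0 0
    have e2 : g x 0 = 0 := by simpa using hg2 x hx 0 0
    rw [hv, e1, e2, mul_zero]
  · have hr : 0 < ‖v‖ := norm_pos_iff.2 hv
    have h2 : v = ‖v‖ • (‖v‖⁻¹ • v) := by
      rw [smul_smul, mul_inv_cancel₀ hr.ne', one_smul]
    have h3 : ‖v‖⁻¹ • v ∈ Metric.sphere (0 : V) 1 := by
      rw [mem_sphere_zero_iff_norm, norm_smul, norm_inv, norm_norm, inv_mul_cancel₀ hr.ne']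
    have h4 := hC ⟨(x, ‖v‖⁻¹ • v), ⟨hx, h3⟩, rfl⟩
    have h5 := hpos x hx _ (hne _ h3)
    have h6 : f x (‖v‖⁻¹ • v) ≤ max C 0 * g x (‖v‖⁻¹ • v) := by
      rw [← div_le_iff₀ h5]
      exact h4.trans (le_max_left _ _)
    rw [h2, hf2 x hx, hg2 x hx]
    calc ‖v‖ ^ 2 * f x (‖v‖⁻¹ • v) ≤ ‖v‖ ^ 2 * (max C 0 * g x (‖v‖⁻¹ • v)) :=
          mul_le_mul_of_nonneg_left h6 (by positivity)
      _ = max C 0 * (‖v‖ ^ 2 * g x (‖v‖⁻¹ • v)) := by ring

theorem levz_continuousOn {n : ℕ} {f : Cn n → ℝ} {S : Set (Cn n)} (hS : IsOpen S)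
    (hf : ContDiffOn ℝ ∞ f S) :
    ContinuousOn (fun q : Cn n × Cn n => levz f q.2 q.1) (S ×ˢ univ) := by
  rintro ⟨z, u⟩ ⟨hz, -⟩
  exact (Bd.levz_continuousAt hS hf hz u).continuousWithinAt

section Fib

variable {k m : ℕ} {M Y : Type} [TopologicalSpace M] [TopologicalSpace Y] {κ P : Type} {T : ℝ}
  (F : Fib k m M Y κ P T)

theorem Fib.psi_smooth_slice (c : κ) {t : ℝ} (ht : t ∈ Ico 0 T) :
    ContDiffOn ℝ ∞ (fun z => F.ψ c (t, z)) (F.e c).target := by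
  obtain ⟨U, hU, hsub, hs⟩ := F.krf.smooth c
  exact hs.comp (contDiff_const.prodMk contDiff_id).contDiffOn fun z hz => hsub ⟨ht, hz⟩

theorem Fib.phi_smooth_slice (c : κ) {t : ℝ} (ht : t ∈ Ico 0 T) :
    ContDiffOn ℝ ∞ (fun z => F.phi c (t, z)) (F.e c).target := by
  obtain ⟨U, hU, hsub, hs⟩ := F.phi_isFun.smooth c
  exact hs.comp (contDiff_const.prodMk contDiff_id).contDiffOn fun z hz => hsub ⟨ht, hz⟩

theorem Fib.mem_target {c : κ} {z : Cn (k + m)} (h1 : fstC z ∈ opd 10) (h2 : sndC z ∈ opd 10) :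
    z ∈ (F.e c).target := by
  rw [F.fib.target c]
  exact ⟨h1, h2⟩

theorem Fib.join_mem_target {c : κ} {u : Cn k} {y : Cn m} (h1 : u ∈ opd 10) (h2 : y ∈ opd 10) :
    joinC u y ∈ (F.e c).target :=
  F.mem_target (by rwa [fstC_joinC]) (by rwa [sndC_joinC])

/-- the Levi form of `Θ` -/
theorem Fib.levz_Theta (c : κ) {z : Cn (k + m)} (hz : sndC z ∈ opd 10) (u : Cn (k + m)) :
    levz (F.Θ c) u z = levz (F.K (F.pc c)) (sndC u) (sndC z) := by
  rw [F.Θ_eq c]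
  have h := levz_comp (isOpen_opd 10) (F.lim.smooth (F.pc c)) isOpen_univ (holOn_sndC univ)
    (mem_univ z) hz u
  rw [h]
  congr 1
  have : HasFDerivAt (sndC : Cn (k + m) → Cn m) (sndL k m) z := (sndL k m).hasFDerivAt
  rw [this.fderiv]
  rfl

/-- the pull-back of `ω(0)` by a section is bounded by `θ` -/
theorem Fib.sect_le [Finite κ] (hT : 0 < T) : ∃ C₀ : ℝ, 0 ≤ C₀ ∧ ∀ c, ∀ u₀ ∈ cpd (k := k) 2,
    ∀ y ∈ cpd (k := m) 2, ∀ w : Cn m,
    lev (F.ψ c) (joinC 0 w) (0, joinC u₀ y) ≤ C₀ * levz (F.K (F.pc c)) w y := by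
  have h0 : (0 : ℝ) ∈ Ico 0 T := ⟨le_rfl, hT⟩
  have key : ∀ c, ∃ C : ℝ, 0 ≤ C ∧ ∀ x ∈ (cpd (k := k) 2) ×ˢ (cpd (k := m) 2), ∀ w : Cn m,
      levz (fun z => F.ψ c (0, z)) (joinC 0 w) (joinC x.1 x.2) ≤
        C * levz (F.K (F.pc c)) w x.2 := by
    intro c
    have hso : IsOpen (F.e c).target := (F.e c).open_target
    have hmem : ∀ x ∈ (cpd (k := k) 2) ×ˢ (cpd (k := m) 2), joinC x.1 x.2 ∈ (F.e c).target :=
      fun x hx => F.join_mem_target (cpd_subset_opd (by norm_num) (by norm_num) hx.1)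
        (cpd_subset_opd (by norm_num) (by norm_num) hx.2)
    have hmem2 : ∀ x ∈ (cpd (k := k) 2) ×ˢ (cpd (k := m) 2), x.2 ∈ opd (k := m) 10 :=
      fun x hx => cpd_subset_opd (by norm_num) (by norm_num) hx.2
    refine quad_le ((isCompact_cpd 2).prod (isCompact_cpd 2))
      (fun x w => levz (fun z => F.ψ c (0, z)) (joinC 0 w) (joinC x.1 x.2))
      (fun x w => levz (F.K (F.pc c)) w x.2) ?_ ?_ ?_ ?_ ?_
    · refine (levz_continuousOn hso (F.psi_smooth_slice c h0)).comp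
        (f := fun q : (Cn k × Cn m) × Cn m => (joinC q.1.1 q.1.2, joinC (0 : Cn k) q.2)) ?_ ?_
      · refine Continuous.continuousOn ?_
        refine Continuous.prodMk ?_ ?_
        · exact continuous_joinC.comp continuous_fst
        · exact continuous_joinC.comp
            (by fun_prop : Continuous fun q : (Cn k × Cn m) × Cn m => ((0 : Cn k), q.2))
      · intro q hq
        exact ⟨hmem _ hq.1, mem_univ _⟩
    · refine (levz_continuousOn (isOpen_opd 10) (F.lim.smooth (F.pc c))).comp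
        (f := fun q : (Cn k × Cn m) × Cn m => (q.1.2, q.2)) (by fun_prop) ?_
      intro q hq
      exact ⟨hmem2 _ hq.1, mem_univ _⟩
    · intro x hx r w
      have h1 : joinC (0 : Cn k) (r • w) = r • joinC (0 : Cn k) w := by
        rw [← joinC_smul, smul_zero]
      simp only [h1]
      exact Bd.levz_smul hso (F.psi_smooth_slice c h0) (hmem x hx) r _
    · intro x hx r w
      exact Bd.levz_smul (isOpen_opd 10) (F.lim.smooth (F.pc c)) (hmem2 x hx) r _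
    · intro x hx w hw
      exact F.lim.psh (F.pc c) x.2 (hmem2 x hx) w hw
  choose C hC hC' using key
  obtain ⟨B, hB⟩ := (Set.finite_range C).bddAbove
  refine ⟨max B 0, le_max_right _ _, fun c u₀ hu₀ y hy w => ?_⟩
  have h1 : levz (fun z => F.ψ c (0, z)) (joinC 0 w) (joinC u₀ y) ≤
      C c * levz (F.K (F.pc c)) w y := hC' c (u₀, y) ⟨hu₀, hy⟩ w
  have hy' : y ∈ opd (k := m) 10 := cpd_subset_opd (by norm_num) (by norm_num) hy
  have hm : joinC u₀ y ∈ (F.e c).target :=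
    F.join_mem_target (cpd_subset_opd (by norm_num) (by norm_num) hu₀) hy'
  obtain ⟨U, hU, hsub, hs⟩ := F.krf.smooth c
  have h2 : levz (fun z => F.ψ c (0, z)) (joinC 0 w) (joinC u₀ y) =
      lev (F.ψ c) (joinC 0 w) (0, joinC u₀ y) := levz_slice hU hs (hsub ⟨h0, hm⟩) _
  rw [h2] at h1
  refine h1.trans (mul_le_mul_of_nonneg_right ((hB ⟨c, rfl⟩).trans (le_max_left _ _)) ?_)
  by_cases hw : w = 0
  · rw [hw]
    have := Bd.levz_smul (isOpen_opd 10) (F.lim.smooth (F.pc c)) hy' 0 0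
    simp at this
    exact this.ge
  · exact (F.lim.psh (F.pc c) y hy' w hw).le

/-- the function `z ↦ φ_c(s,z) - (1-κ) φ_{c'}(t₀,(u₀,y))` is smooth -/
theorem Fib.sect_smooth (c c' : κ) {s t₀ : ℝ} (hs : s ∈ Ico 0 T) (ht₀ : t₀ ∈ Ico 0 T)
    {u₀ : Cn k} (hu₀ : u₀ ∈ opd (k := k) 10) (a : ℝ) :
    ContDiffOn ℝ ∞ (fun z => F.phi c (s, z) - a * F.phi c' (t₀, joinC u₀ (sndC z)))
      {z | fstC z ∈ opd 10 ∧ sndC z ∈ opd 10} := by
  refine ContDiffOn.sub ?_ (contDiffOn_const.mul ?_)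
  · exact (F.phi_smooth_slice c hs).mono fun z hz => F.mem_target hz.1 hz.2
  · exact (F.phi_smooth_slice c' ht₀).comp (contDiff_sect u₀).contDiffOn
      fun z hz => F.join_mem_target hu₀ hz.2

theorem Fib.sect [Finite κ] : ∃ C₀ : ℝ, 0 ≤ C₀ ∧ ∀ c c', F.pc c = F.pc c' → ∀ u₀ ∈ cpd (k := k) 2,
    ∀ t₀ ∈ Ico 0 T, T / 2 ≤ t₀ → 2 * C₀ * (1 - t₀ / T) ≤ 1 → ∀ s ∈ Ico t₀ T, ∀ z,
    fstC z ∈ cpd 2 → sndC z ∈ cpd 2 → ∀ u,
    levz (fun z => F.phi c (s, z) -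
      (1 - 2 * C₀ * (1 - t₀ / T)) * F.phi c' (t₀, joinC u₀ (sndC z))) u z ≤
      lev (F.ψ c) u (s, z) - (1 - s / T) * lev (F.ψ c) u (0, z) := by
  by_cases hT : 0 < T
  swap
  · exact ⟨0, le_rfl, fun c c' _ u₀ _ t₀ ht₀ => absurd (lt_of_le_of_lt ht₀.1 ht₀.2) hT⟩
  obtain ⟨C₀, hC₀, h⟩ := F.sect_le hT
  refine ⟨C₀, hC₀, fun c c' hcc u₀ hu₀ t₀ ht₀ hT2 hκ s hs z hz1 hz2 u => ?_⟩
  have h10 : (2 : ℝ) < 10 := by norm_num
  have hs0 : s ∈ Ico 0 T := ⟨ht₀.1.trans hs.1, hs.2⟩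
  have hz1' : fstC z ∈ opd 10 := cpd_subset_opd (by norm_num) h10 hz1
  have hz2' : sndC z ∈ opd 10 := cpd_subset_opd (by norm_num) h10 hz2
  have hu₀' : u₀ ∈ opd 10 := cpd_subset_opd (by norm_num) h10 hu₀
  have hzt : z ∈ (F.e c).target := F.mem_target hz1' hz2'
  have hpt : joinC u₀ (sndC z) ∈ (F.e c').target := F.join_mem_target hu₀' hz2'
  obtain ⟨U, hU, hsub, hphi⟩ := F.phi_isFun.smooth c
  obtain ⟨U', hU', hsub', hphi'⟩ := F.phi_isFun.smooth c'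
  set a : ℝ := 1 - 2 * C₀ * (1 - t₀ / T) with ha
  have d1 : ContDiffAt ℝ 2 (fun z => F.phi c (s, z)) z :=
    ((F.phi_smooth_slice c hs0).contDiffAt ((F.e c).open_target.mem_nhds hzt)).of_le two_le_infty
  have d2 : ContDiffAt ℝ 2 (fun z => F.phi c' (t₀, joinC u₀ (sndC z))) z := by
    have e1 : ContDiffAt ℝ ∞ (fun z => F.phi c' (t₀, z)) (joinC u₀ (sndC z)) :=
      (F.phi_smooth_slice c' ht₀).contDiffAt ((F.e c').open_target.mem_nhds hpt)
    exact (ContDiffAt.comp (f := fun z : Cn (k + m) => joinC u₀ (sndC z)) z e1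
      (contDiff_sect u₀).contDiffAt).of_le two_le_infty
  rw [Bd.levz_sub d1 (contDiffAt_const.mul d2), Bd.levz_const_mul _ d2]
  have e3 : levz (fun z => F.phi c (s, z)) u z = lev (F.phi c) u (s, z) :=
    levz_slice hU hphi (hsub ⟨hs0, hzt⟩) u
  have e4 : levz (fun z => F.phi c' (t₀, joinC u₀ (sndC z))) u z =
      lev (F.phi c') (joinC 0 (sndC u)) (t₀, joinC u₀ (sndC z)) := by
    have h5 : levz (fun z => F.phi c' (t₀, z)) (joinC 0 (sndC u)) (joinC u₀ (sndC z)) =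
        lev (F.phi c') (joinC 0 (sndC u)) (t₀, joinC u₀ (sndC z)) :=
      levz_slice hU' hphi' (hsub' ⟨ht₀, hpt⟩) _
    rw [← h5]
    have := levz_comp (F.e c').open_target (F.phi_smooth_slice c' ht₀) isOpen_univ
      (holOn_sect u₀ univ) (mem_univ z) hpt u
    rw [this, (hasFDerivAt_sect u₀ z).fderiv]
    rfl
  rw [e3, e4, F.lev_phi hs0 hzt, F.lev_phi ht₀ hpt, F.levz_Theta c hz2',
    F.levz_Theta c' (by rwa [sndC_joinC]), sndC_joinC, sndC_joinC, ← hcc]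
  have h1 := h c' u₀ hu₀ (sndC z) hz2 (sndC u)
  rw [← hcc] at h1
  set θ : ℝ := levz (F.K (F.pc c)) (sndC u) (sndC z) with hθ
  have hθ0 : 0 ≤ θ := by
    by_cases hw : sndC u = 0
    · rw [hθ, hw]
      have := Bd.levz_smul (isOpen_opd 10) (F.lim.smooth (F.pc c)) hz2' 0 0
      simp at this
      exact this.ge
    · exact (F.lim.psh (F.pc c) _ hz2' _ hw).le
  have hpos : 0 ≤ lev (F.ψ c') (joinC 0 (sndC u)) (t₀, joinC u₀ (sndC z)) := by
    obtain ⟨V, hV, hVs, hVd⟩ := F.krf.smooth c'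
    by_cases hw : joinC (0 : Cn k) (sndC u) = 0
    · have h6 : levz (fun z => F.ψ c' (t₀, z)) 0 (joinC u₀ (sndC z)) =
          lev (F.ψ c') 0 (t₀, joinC u₀ (sndC z)) := levz_slice hV hVd (hVs ⟨ht₀, hpt⟩) _
      rw [hw, ← h6]
      have := Bd.levz_smul (F.e c').open_target (F.psi_smooth_slice c' ht₀) hpt 0 0
      simp at this
      exact this.ge
    · exact (lev_pos hV hVd (hVs ⟨ht₀, hpt⟩) (F.krf.pos c' t₀ ht₀ _ hpt) hw).le
  set A := lev (F.ψ c') (joinC 0 (sndC u)) (t₀, joinC u₀ (sndC z)) with hA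
  set B := lev (F.ψ c') (joinC 0 (sndC u)) (0, joinC u₀ (sndC z)) with hB
  set d : ℝ := 1 - t₀ / T with hd
  have hd0 : 0 ≤ d := by
    rw [hd, sub_nonneg, div_le_one hT]
    exact ht₀.2.le
  have ht₀T : t₀ / T = 1 - d := by rw [hd]; ring
  have hd2 : d ≤ 1 / 2 := by
    have : 1 / 2 ≤ t₀ / T := by
      rw [le_div_iff₀ hT]
      linarith
    linarith
  have hsT : 1 - d ≤ s / T := by
    rw [← ht₀T]
    exact div_le_div_of_nonneg_right hs.1 hT.le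
  have ha0 : 0 ≤ a := by
    rw [ha]
    linarith
  have ha1 : a ≤ 1 := by
    rw [ha]
    have : 0 ≤ 2 * C₀ * d := by positivity
    linarith
  rw [ht₀T]
  have k1 : (1 - d) * θ ≤ s / T * θ := mul_le_mul_of_nonneg_right hsT hθ0
  have k2 : 0 ≤ a * A := mul_nonneg ha0 hpos
  have hBB : 0 ≤ B ∨ B ≤ 0 := le_total 0 B
  have k3 : a * (d * B) ≤ d * (C₀ * θ) := by
    have h2 : d * B ≤ d * (C₀ * θ) := mul_le_mul_of_nonneg_left h1 hd0
    have h3 : 0 ≤ d * (C₀ * θ) := by positivity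
    calc a * (d * B) ≤ a * (d * (C₀ * θ)) := mul_le_mul_of_nonneg_left h2 ha0
      _ ≤ 1 * (d * (C₀ * θ)) := mul_le_mul_of_nonneg_right ha1 h3
      _ = d * (C₀ * θ) := one_mul _
  have k4 : d * (C₀ * θ) ≤ (1 - a) * ((1 - d) * θ) := by
    rw [ha]
    have h2 : 0 ≤ d * (C₀ * θ) * (1 - 2 * d) := by
      have : 0 ≤ 1 - 2 * d := by linarith
      positivity
    nlinarith
  nlinarith

end Fib

end Pool.Agent.KRFF
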