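import Pool.Agent.Work.MP_a2bf38_gt.I.NatDefs
import Pool.Agent.Work.MP_a2bf38_gt.H.Chain
import Pool.Agent.Work.MP_a2bf38_gt.H.BoundLin
import Pool.Agent.Work.MP_a2bf38_gt.G.Chart2

/-!
# Change of charts for a Kähler-Ricci flow
-/

open scoped ContDiff ENNReal ComplexOrder Topology
open Set Filter Pool.Agent.ToricKRF Pool.Agent.ToricKRF.G Pool.Agent.KRFS

namespace Pool.Agent.KRFF

/-! ### Holomorphic functions -/

namespace NF

section Hol

variable {n m l : ℕ}

/-- `h` is a holomorphic function on the open set `S`. -/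
def HolC (h : Cn n → ℂ) (S : Set (Cn n)) : Prop :=
  ContDiffOn ℝ ∞ h S ∧ ∀ z ∈ S, ∀ u, fderiv ℝ h z (J u) = Complex.I * fderiv ℝ h z u

theorem diffAt {V W : Type*} [NormedAddCommGroup V] [NormedSpace ℝ V] [NormedAddCommGroup W]
    [NormedSpace ℝ W] {h : V → W} {S : Set V} (hS : IsOpen S) (hh : ContDiffOn ℝ ∞ h S) {z : V}
    (hz : z ∈ S) : DifferentiableAt ℝ h z :=
  (hh.differentiableOn (by simp)).differentiableAt (hS.mem_nhds hz)

theorem HolC.const (c : ℂ) (S : Set (Cn n)) : HolC (fun _ => c) S :=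
  ⟨contDiffOn_const, fun z _ u => by simp⟩

theorem HolC.mul {h g : Cn n → ℂ} {S : Set (Cn n)} (hS : IsOpen S) (hh : HolC h S)
    (hg : HolC g S) : HolC (fun z => h z * g z) S := by
  refine ⟨hh.1.mul hg.1, fun z hz u => ?_⟩
  rw [((diffAt hS hh.1 hz).hasFDerivAt.fun_mul (diffAt hS hg.1 hz).hasFDerivAt).fderiv]
  simp only [add_apply, smul_apply, smul_eq_mul, hh.2 z hz,
    hg.2 z hz]
  ring

theorem HolC.add {h g : Cn n → ℂ} {S : Set (Cn n)} (hS : IsOpen S) (hh : HolC h S)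
    (hg : HolC g S) : HolC (fun z => h z + g z) S := by
  refine ⟨hh.1.add hg.1, fun z hz u => ?_⟩
  rw [((diffAt hS hh.1 hz).hasFDerivAt.fun_add (diffAt hS hg.1 hz).hasFDerivAt).fderiv]
  simp only [add_apply, hh.2 z hz, hg.2 z hz]
  ring

theorem HolC.prod {ι : Type*} (s : Finset ι) {h : ι → Cn n → ℂ} {S : Set (Cn n)} (hS : IsOpen S)
    (hh : ∀ i, HolC (h i) S) : HolC (fun z => ∏ i ∈ s, h i z) S := by
  classical
  induction s using Finset.induction_on with
  | empty => simpa using HolC.const 1 S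
  | insert a s ha ih =>
    simp only [Finset.prod_insert ha]
    exact (hh a).mul hS ih

theorem HolC.sum {ι : Type*} (s : Finset ι) {h : ι → Cn n → ℂ} {S : Set (Cn n)} (hS : IsOpen S)
    (hh : ∀ i, HolC (h i) S) : HolC (fun z => ∑ i ∈ s, h i z) S := by
  classical
  induction s using Finset.induction_on with
  | empty => simpa using HolC.const 0 S
  | insert a s ha ih =>
    simp only [Finset.sum_insert ha]
    exact (hh a).add hS ih

theorem HolC.det {A : Cn n → Matrix (Fin m) (Fin m) ℂ} {S : Set (Cn n)} (hS : IsOpen S)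
    (hA : ∀ i j, HolC (fun z => A z i j) S) : HolC (fun z => (A z).det) S := by
  simp only [Matrix.det_apply']
  exact HolC.sum _ hS fun σ => (HolC.const _ S).mul hS (HolC.prod _ hS fun i => hA _ _)

/-- the complex coordinate as a continuous linear map -/
noncomputable def ccL (a : Fin n) : Cn n →L[ℝ] ℂ :=
  (Complex.equivRealProdCLM.symm : ℝ × ℝ →L[ℝ] ℂ).comp
    (((ContinuousLinearMap.proj a).comp (ContinuousLinearMap.fst ℝ _ _)).prod
      ((ContinuousLinearMap.proj a).comp (ContinuousLinearMap.snd ℝ _ _)))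

theorem ccL_apply (a : Fin n) (u : Cn n) : ccL a u = cc u a := by
  apply Complex.ext <;> simp [ccL, cc]

theorem holOn_cc {H : Cn n → Cn m} {S : Set (Cn n)} (hS : IsOpen S) (hH : HolOn H S) (a : Fin m) :
    HolC (fun z => cc (H z) a) S := by
  have h1 : (fun z => G.cc (H z) a) = fun z => ccL a (H z) := by
    funext z
    rw [ccL_apply]
  rw [h1]
  refine ⟨(ccL a).contDiff.comp_contDiffOn hH.1, fun z hz u => ?_⟩
  have h2 : fderiv ℝ (fun z => ccL a (H z)) z = (ccL a).comp (fderiv ℝ H z) :=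
    ((ccL a).hasFDerivAt.comp z (diffAt hS hH.1 hz).hasFDerivAt).fderiv
  rw [h2, ContinuousLinearMap.comp_apply, ContinuousLinearMap.comp_apply, hH.2 z hz, ccL_apply,
    ccL_apply, cc_J]

/-- the derivative of a holomorphic map in a constant direction is holomorphic -/
theorem holOn_fderiv_const {H : Cn n → Cn m} {S : Set (Cn n)} (hS : IsOpen S) (hH : HolOn H S)
    (v : Cn n) : HolOn (fun z => fderiv ℝ H z v) S := by
  have h1 : ContDiffOn ℝ ∞ (fderiv ℝ H) S :=
    ((contDiffOn_infty_iff_fderiv_of_isOpen hS).1 hH.1).2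
  refine ⟨h1.clm_apply contDiffOn_const, fun z hz u => ?_⟩
  have hHz : ContDiffAt ℝ 2 H z := (hH.1.contDiffAt (hS.mem_nhds hz)).of_le two_le_infty
  have hd : DifferentiableAt ℝ (fderiv ℝ H) z := diffAt hS h1 hz
  have key : ∀ a b : Cn n, fderiv ℝ (fun q => fderiv ℝ H q b) z a =
      fderiv ℝ (fderiv ℝ H) z a b := by
    intro a b
    rw [fderiv_clm_apply hd (differentiableAt_const b)]
    simp
  have hs : IsSymmSndFDerivAt ℝ H z := by
    apply hHz.isSymmSndFDerivAt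
    rw [minSmoothness_of_isRCLikeNormedField]
  have hJ : ∀ a b : Cn n, fderiv ℝ (fun q => fderiv ℝ H q (J b)) z a =
      J (fderiv ℝ (fun q => fderiv ℝ H q b) z a) := by
    intro a b
    have h1 : (fun q => fderiv ℝ H q (J b)) =ᶠ[𝓝 z] fun q => Jl m (fderiv ℝ H q b) := by
      filter_upwards [hS.mem_nhds hz] with q hq
      exact hH.2 q hq b
    have h2 : DifferentiableAt ℝ (fun q => fderiv ℝ H q b) z := hd.clm_apply (differentiableAt_const b)
    have h3 := ((Jl m).hasFDerivAt.comp z h2.hasFDerivAt).fderiv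
    rw [h1.fderiv_eq]
    change fderiv ℝ ((Jl m) ∘ fun q => fderiv ℝ H q b) z a = _
    rw [h3]
    rfl
  rw [key, hs, ← key, hJ, key, hs, ← key]

theorem holOn_comp {H : Cn n → Cn m} {S : Set (Cn n)} {G : Cn m → Cn l} {S' : Set (Cn m)}
    (hS' : IsOpen S') (hG : HolOn G S') (hS : IsOpen S) (hH : HolOn H S) (h : MapsTo H S S') :
    HolOn (fun z => G (H z)) S := by
  refine ⟨hG.1.comp hH.1 h, fun z hz u => ?_⟩
  have h1 : fderiv ℝ (fun z => G (H z)) z = (fderiv ℝ G (H z)).comp (fderiv ℝ H z) :=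
    fderiv_comp z (diffAt hS' hG.1 (h hz)) (diffAt hS hH.1 hz)
  rw [h1, ContinuousLinearMap.comp_apply, ContinuousLinearMap.comp_apply, hH.2 z hz,
    hG.2 _ (h hz)]

theorem holOn_mono {H : Cn n → Cn m} {S S' : Set (Cn n)} (hH : HolOn H S) (h : S' ⊆ S) :
    HolOn H S' :=
  ⟨hH.1.mono h, fun z hz => hH.2 z (h hz)⟩

theorem holOn_congr {H H' : Cn n → Cn m} {S : Set (Cn n)} (hS : IsOpen S) (hH : HolOn H S)
    (h : EqOn H' H S) : HolOn H' S := by
  refine ⟨hH.1.congr h, fun z hz u => ?_⟩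
  have h1 : H' =ᶠ[𝓝 z] H := by
    filter_upwards [hS.mem_nhds hz] with x hx
    exact h hx
  rw [h1.fderiv_eq]
  exact hH.2 z hz u

/-- `log |h|^2` is pluriharmonic -/
theorem levz_log_normSq {h : Cn n → ℂ} {S : Set (Cn n)} (hS : IsOpen S) (hh : HolC h S)
    {z : Cn n} (hz : z ∈ S) (h0 : h z ≠ 0) (u : Cn n) :
    levz (fun z => Real.log (Complex.normSq (h z))) u z = 0 := by
  set x : Cn n → ℝ := fun z => (h z).re with hx
  set y : Cn n → ℝ := fun z => (h z).im with hy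
  have cx : ContDiffOn ℝ ∞ x S := Complex.reCLM.contDiff.comp_contDiffOn hh.1
  have cy : ContDiffOn ℝ ∞ y S := Complex.imCLM.contDiff.comp_contDiffOn hh.1
  have dx : ∀ q ∈ S, ∀ v, D v x q = (fderiv ℝ h q v).re := by
    intro q hq v
    have h1 : HasFDerivAt x (Complex.reCLM.comp (fderiv ℝ h q)) q :=
      Complex.reCLM.hasFDerivAt.comp q (diffAt hS hh.1 hq).hasFDerivAt
    rw [D, h1.fderiv]
    rfl
  have dy : ∀ q ∈ S, ∀ v, D v y q = (fderiv ℝ h q v).im := by
    intro q hq v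
    have h1 : HasFDerivAt y (Complex.imCLM.comp (fderiv ℝ h q)) q :=
      Complex.imCLM.hasFDerivAt.comp q (diffAt hS hh.1 hq).hasFDerivAt
    rw [D, h1.fderiv]
    rfl
  have jx : ∀ q ∈ S, D (J u) x q = -D u y q := by
    intro q hq
    rw [dx q hq, dy q hq, hh.2 q hq]
    simp
  have jy : ∀ q ∈ S, D (J u) y q = D u x q := by
    intro q hq
    rw [dx q hq, dy q hq, hh.2 q hq]
    simp
  have hev : ∀ᶠ q in 𝓝 z, q ∈ S := hS.mem_nhds hz
  have jjx : D (J u) (D (J u) x) z = -D u (D u x) z := by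
    have h1 : D (J u) x =ᶠ[𝓝 z] fun q => (-1 : ℝ) * D u y q := by
      filter_upwards [hev] with q hq
      rw [jx q hq]
      ring
    rw [LC.D_congr _ h1, LC.D_const_mul _ _ (diffAt_of_contDiffOn hS (contDiffOn_D hS cy _) hz),
      D_comm hS cy hz]
    have h2 : D (J u) y =ᶠ[𝓝 z] D u x := by
      filter_upwards [hev] with q hq
      exact jy q hq
    rw [LC.D_congr _ h2]
    ring
  have jjy : D (J u) (D (J u) y) z = -D u (D u y) z := by
    have h1 : D (J u) y =ᶠ[𝓝 z] D u x := by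
      filter_upwards [hev] with q hq
      exact jy q hq
    rw [LC.D_congr _ h1, D_comm hS cx hz]
    have h2 : D (J u) x =ᶠ[𝓝 z] fun q => (-1 : ℝ) * D u y q := by
      filter_upwards [hev] with q hq
      rw [jx q hq]
      ring
    rw [LC.D_congr _ h2, LC.D_const_mul _ _ (diffAt_of_contDiffOn hS (contDiffOn_D hS cy _) hz)]
    ring
  have cxa : ContDiffAt ℝ 2 x z := (cx.contDiffAt (hS.mem_nhds hz)).of_le two_le_infty
  have cya : ContDiffAt ℝ 2 y z := (cy.contDiffAt (hS.mem_nhds hz)).of_le two_le_infty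
  have cN : ContDiffAt ℝ 2 (fun q => x q * x q + y q * y q) z := (cxa.mul cxa).add (cya.mul cya)
  have hN : x z * x z + y z * y z ≠ 0 := by
    have := Complex.normSq_pos.2 h0
    rw [Complex.normSq_apply] at this
    exact this.ne'
  have hf : (fun z => Real.log (Complex.normSq (h z))) =
      fun q => Real.log (x q * x q + y q * y q) := by
    funext q
    rw [Complex.normSq_apply]
  have da : ∀ v, D v (fun q => x q * x q + y q * y q) z = 2 * (x z * D v x z + y z * D v y z) := by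
    intro v
    rw [LC.D_add v ((cxa.mul cxa).differentiableAt (by norm_num))
      ((cya.mul cya).differentiableAt (by norm_num)),
      LC.D_mul v (cxa.differentiableAt (by norm_num)) (cxa.differentiableAt (by norm_num)),
      LC.D_mul v (cya.differentiableAt (by norm_num)) (cya.differentiableAt (by norm_num))]
    ring
  rw [hf]
  unfold levz
  rw [LC.D_D_log _ _ cN hN, LC.D_D_log _ _ cN hN, da, da,
    LC.D_D_add _ _ (cxa.mul cxa) (cya.mul cya), LC.D_D_add _ _ (cxa.mul cxa) (cya.mul cya),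
    LC.D_D_mul _ _ cxa cxa, LC.D_D_mul _ _ cya cya, LC.D_D_mul _ _ cxa cxa,
    LC.D_D_mul _ _ cya cya, jjx, jjy, jx z hz, jy z hz]
  field_simp
  ring

end Hol

/-! ### The matrix of a complex linear map -/

section Mat

variable {n : ℕ}

/-- the matrix of the complex linear map `L` -/
noncomputable def mat (L : Cn n →L[ℝ] Cn n) : Matrix (Fin n) (Fin n) ℂ :=
  Matrix.of fun k a => cc (L ((Pi.single k 1, 0) : Cn n)) a

theorem cc_map (L : Cn n →L[ℝ] Cn n) (hL : ∀ u, L (J u) = J (L u)) (u : Cn n) (a : Fin n) :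
    cc (L u) a = ∑ k, cc u k * cc (L ((Pi.single k 1, 0) : Cn n)) a := by
  have h1 : ∀ k : Fin n, ((0 : Fin n → ℝ), (Pi.single k (1 : ℝ) : Fin n → ℝ)) =
      J ((Pi.single k 1, 0) : Cn n) := by
    intro k
    simp [J]
  rw [← ccL_apply]
  conv_lhs => rw [cn_eq_sum u]
  simp only [map_add, map_sum, map_smul, h1, hL, ccL_apply, cc_J]
  rw [← Finset.sum_add_distrib]
  refine Finset.sum_congr rfl fun k _ => ?_
  have h2 : cc u k = (u.1 k : ℂ) + (u.2 k : ℂ) * Complex.I := by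
    apply Complex.ext <;> simp [cc]
  rw [h2, Complex.real_smul, Complex.real_smul]
  ring

theorem mat_comp (L L' : Cn n →L[ℝ] Cn n) (hL' : ∀ u, L' (J u) = J (L' u)) :
    mat (L'.comp L) = mat L * mat L' := by
  ext k a
  rw [Matrix.mul_apply]
  simp only [mat, Matrix.of_apply, ContinuousLinearMap.comp_apply]
  rw [cc_map L' hL']

theorem mat_id : mat (ContinuousLinearMap.id ℝ (Cn n)) = 1 := by
  ext k a
  simp only [mat, Matrix.of_apply, ContinuousLinearMap.id_apply, Matrix.one_apply]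
  apply Complex.ext
  · simp only [cc, Pi.single_apply]
    by_cases h : a = k
    · simp [h]
    · simp [h, Ne.symm h]
  · simp only [cc]
    by_cases h : k = a <;> simp [h]

theorem mat_det_ne_zero {L L' : Cn n →L[ℝ] Cn n} (hL' : ∀ u, L' (J u) = J (L' u))
    (h : ∀ u, L' (L u) = u) : (mat L).det ≠ 0 := by
  have h1 : L'.comp L = ContinuousLinearMap.id ℝ (Cn n) := ContinuousLinearMap.ext h
  have h2 := mat_comp L L' hL'
  rw [h1, mat_id] at h2
  intro h3
  have h4 := congrArg Matrix.det h2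
  rw [Matrix.det_one, Matrix.det_mul, h3, zero_mul] at h4
  exact one_ne_zero h4

end Mat

end NF

/-! ### Refinements of an atlas -/

section Flow

variable {n : ℕ} {M : Type} [TopologicalSpace M] {κ κ' : Type}
  (e : κ → OpenPartialHomeomorph M (Cn n)) (e' : κ' → OpenPartialHomeomorph M (Cn n))
  (σ : κ' → κ)

/-- the atlas `e'` is a refinement of `e` -/
structure IsRefinement : Prop where
  cover : ∀ p, ∃ c, p ∈ (e' c).source
  sub : ∀ c, (e' c).source ⊆ (e (σ c)).source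
  holo : ∀ c, HolOn (fun w => e (σ c) ((e' c).symm w)) (e' c).target
  holo' : ∀ c, HolOn (fun z => e' c ((e (σ c)).symm z))
    {z | z ∈ (e (σ c)).target ∧ (e (σ c)).symm z ∈ (e' c).source}

/-- the change of coordinates -/
def gmap (c : κ') (w : Cn n) : Cn n := e (σ c) ((e' c).symm w)

/-- `|det G'|^2` for the change of coordinates `G` -/
noncomputable def jac (c : κ') (w : Cn n) : ℝ := Complex.normSq (Matrix.of fun k a =>
  cc (fderiv ℝ (gmap e e' σ c) w ((Pi.single k 1, 0) : Cn n)) a).det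

/-- the potentials in the new charts -/
noncomputable def newψ (ψ : κ → ℝ × Cn n → ℝ) (c : κ') : ℝ × Cn n → ℝ := fun q =>
  ψ (σ c) (q.1, gmap e e' σ c q.2) + q.1 * Real.log (jac e e' σ c q.2)

/-- the volume form in the new charts -/
noncomputable def newΩ (Ω : κ → Cn n → ℝ) (c : κ') : Cn n → ℝ := fun w =>
  Ω (σ c) (gmap e e' σ c w) * jac e e' σ c w

variable {e e' σ} {T : ℝ} {ψ : κ → ℝ × Cn n → ℝ} {Ω : κ → Cn n → ℝ}

theorem jac_eq (c : κ') (w : Cn n) : jac e e' σ c w =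
    Complex.normSq (NF.mat (fderiv ℝ (gmap e e' σ c) w)).det := rfl

theorem gmap_holo (h : IsRefinement e e' σ) (c : κ') : HolOn (gmap e e' σ c) (e' c).target :=
  h.holo c

theorem gmap_mem (h : IsRefinement e e' σ) {c : κ'} {w : Cn n} (hw : w ∈ (e' c).target) :
    gmap e e' σ c w ∈ (e (σ c)).target :=
  (e (σ c)).map_source (h.sub c ((e' c).map_target hw))

theorem gmap_apply {c : κ'} {p : M} (hp : p ∈ (e' c).source) :
    gmap e e' σ c (e' c p) = e (σ c) p := by
  rw [gmap, (e' c).left_inv hp]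

theorem symm_gmap (h : IsRefinement e e' σ) {c : κ'} {w : Cn n} (hw : w ∈ (e' c).target) :
    (e (σ c)).symm (gmap e e' σ c w) = (e' c).symm w :=
  (e (σ c)).left_inv (h.sub c ((e' c).map_target hw))

theorem isOpen_dom' (c : κ') : IsOpen {z | z ∈ (e (σ c)).target ∧ (e (σ c)).symm z ∈ (e' c).source} :=
  (e (σ c)).isOpen_inter_preimage_symm (e' c).open_source

theorem gmap_mem' (h : IsRefinement e e' σ) {c : κ'} {w : Cn n} (hw : w ∈ (e' c).target) :
    gmap e e' σ c w ∈ {z | z ∈ (e (σ c)).target ∧ (e (σ c)).symm z ∈ (e' c).source} := by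
  refine ⟨gmap_mem h hw, ?_⟩
  rw [symm_gmap h hw]
  exact (e' c).map_target hw

theorem gmap_fderiv_inv (h : IsRefinement e e' σ) {c : κ'} {w : Cn n} (hw : w ∈ (e' c).target)
    (u : Cn n) : fderiv ℝ (fun z => e' c ((e (σ c)).symm z)) (gmap e e' σ c w)
      (fderiv ℝ (gmap e e' σ c) w u) = u := by
  have h1 : DifferentiableAt ℝ (gmap e e' σ c) w :=
    NF.diffAt (e' c).open_target (gmap_holo h c).1 hw
  have h2 : DifferentiableAt ℝ (fun z => e' c ((e (σ c)).symm z)) (gmap e e' σ c w) :=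
    NF.diffAt (isOpen_dom' c) (h.holo' c).1 (gmap_mem' h hw)
  have h3 := (h2.hasFDerivAt.comp w h1.hasFDerivAt).fderiv
  have h4 : ((fun z => e' c ((e (σ c)).symm z)) ∘ gmap e e' σ c) =ᶠ[𝓝 w] id := by
    filter_upwards [(e' c).open_target.mem_nhds hw] with x hx
    change e' c ((e (σ c)).symm (gmap e e' σ c x)) = x
    rw [symm_gmap h hx, (e' c).right_inv hx]
  rw [h4.fderiv_eq, fderiv_id] at h3
  have h5 := congrArg (fun L : Cn n →L[ℝ] Cn n => L u) h3
  simpa using h5.symm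

theorem gmap_fderiv_ne_zero (h : IsRefinement e e' σ) {c : κ'} {w : Cn n}
    (hw : w ∈ (e' c).target) {u : Cn n} (hu : u ≠ 0) : fderiv ℝ (gmap e e' σ c) w u ≠ 0 := by
  intro h1
  apply hu
  rw [← gmap_fderiv_inv h hw u, h1, map_zero]

theorem det_gmap_ne_zero (h : IsRefinement e e' σ) {c : κ'} {w : Cn n}
    (hw : w ∈ (e' c).target) : (NF.mat (fderiv ℝ (gmap e e' σ c) w)).det ≠ 0 :=
  NF.mat_det_ne_zero ((h.holo' c).2 _ (gmap_mem' h hw)) (gmap_fderiv_inv h hw)

theorem jac_pos (h : IsRefinement e e' σ) {c : κ'} {w : Cn n} (hw : w ∈ (e' c).target) :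
    0 < jac e e' σ c w := by
  rw [jac_eq]
  exact Complex.normSq_pos.2 (det_gmap_ne_zero h hw)

theorem holC_det (h : IsRefinement e e' σ) (c : κ') :
    NF.HolC (fun w => (NF.mat (fderiv ℝ (gmap e e' σ c) w)).det) (e' c).target :=
  NF.HolC.det (e' c).open_target fun k a =>
    NF.holOn_cc (e' c).open_target
      (NF.holOn_fderiv_const (e' c).open_target (gmap_holo h c) (Pi.single k 1, 0)) a

theorem jac_smooth (h : IsRefinement e e' σ) (c : κ') :
    ContDiffOn ℝ ∞ (jac e e' σ c) (e' c).target := by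
  have h1 := (holC_det h c).1
  have h2 : ContDiffOn ℝ ∞ (fun w => ((NF.mat (fderiv ℝ (gmap e e' σ c) w)).det).re)
      (e' c).target := Complex.reCLM.contDiff.comp_contDiffOn h1
  have h3 : ContDiffOn ℝ ∞ (fun w => ((NF.mat (fderiv ℝ (gmap e e' σ c) w)).det).im)
      (e' c).target := Complex.imCLM.contDiff.comp_contDiffOn h1
  refine ((h2.mul h2).add (h3.mul h3)).congr fun _ _ => ?_
  rw [jac_eq, Complex.normSq_apply]

theorem log_jac_smooth (h : IsRefinement e e' σ) (c : κ') :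
    ContDiffOn ℝ ∞ (fun w => Real.log (jac e e' σ c w)) (e' c).target :=
  (jac_smooth h c).log fun _ hw => (jac_pos h hw).ne'

theorem levz_log_jac (h : IsRefinement e e' σ) {c : κ'} {w : Cn n} (hw : w ∈ (e' c).target)
    (u : Cn n) : levz (fun w => Real.log (jac e e' σ c w)) u w = 0 :=
  NF.levz_log_normSq (e' c).open_target (holC_det h c) hw (det_gmap_ne_zero h hw) u

/-! ### The atlas -/

theorem gmap_mem_dom (h : IsRefinement e e' σ) {c c' : κ'} {z : Cn n} (hz : z ∈ dom e' c c') :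
    gmap e e' σ c z ∈ dom e (σ c) (σ c') := by
  refine ⟨gmap_mem h hz.1, ?_⟩
  rw [symm_gmap h hz.1]
  exact h.sub c' hz.2

theorem gmap_tr (h : IsRefinement e e' σ) {c c' : κ'} {z : Cn n} (hz : z ∈ dom e' c c') :
    gmap e e' σ c' (tr e' c c' z) = tr e (σ c) (σ c') (gmap e e' σ c z) := by
  rw [tr, tr, gmap_apply hz.2, symm_gmap h hz.1]

theorem tr_target {c c' : κ'} {z : Cn n} (hz : z ∈ dom e' c c') :
    tr e' c c' z ∈ (e' c').target :=
  (e' c').map_source hz.2

theorem refine_atlas (he : IsAtlas e) (h : IsRefinement e e' σ) : IsAtlas e' := by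
  refine ⟨h.cover, fun c c' => ?_⟩
  have h1 : HolOn (gmap e e' σ c) (dom e' c c') :=
    NF.holOn_mono (gmap_holo h c) fun z hz => hz.1
  have h2 : HolOn (fun z => tr e (σ c) (σ c') (gmap e e' σ c z)) (dom e' c c') :=
    NF.holOn_comp (isOpen_dom _ _) (he.holo _ _) (isOpen_dom _ _) h1 fun z hz =>
      gmap_mem_dom h hz
  have h3 : HolOn (fun z => e' c' ((e (σ c')).symm (tr e (σ c) (σ c') (gmap e e' σ c z))))
      (dom e' c c') := by
    refine NF.holOn_comp (isOpen_dom' c') (h.holo' c') (isOpen_dom _ _) h2 fun z hz => ?_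
    rw [← gmap_tr h hz]
    exact gmap_mem' h (tr_target hz)
  refine NF.holOn_congr (isOpen_dom _ _) h3 fun z hz => ?_
  rw [← gmap_tr h hz, symm_gmap h (tr_target hz), (e' c').right_inv (tr_target hz)]

/-! ### The potentials -/

/-- an open set where the new potential is smooth -/
theorem newψ_smooth (h : IsRefinement e e' σ) {c : κ'} {U : Set (ℝ × Cn n)} (hU : IsOpen U)
    (hψ : ContDiffOn ℝ ∞ (ψ (σ c)) U) :
    IsOpen ((univ ×ˢ (e' c).target) ∩ (fun q : ℝ × Cn n => (q.1, gmap e e' σ c q.2)) ⁻¹' U) ∧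
      ContDiffOn ℝ ∞ (newψ e e' σ ψ c)
        ((univ ×ˢ (e' c).target) ∩ (fun q : ℝ × Cn n => (q.1, gmap e e' σ c q.2)) ⁻¹' U) := by
  have hSo : IsOpen ((univ : Set ℝ) ×ˢ (e' c).target) := isOpen_univ.prod (e' c).open_target
  have hHs : ContDiffOn ℝ ∞ (fun q : ℝ × Cn n => (q.1, gmap e e' σ c q.2))
      (univ ×ˢ (e' c).target) :=
    contDiffOn_fst.prodMk ((gmap_holo h c).1.comp contDiffOn_snd fun q hq => hq.2)
  refine ⟨hHs.continuousOn.isOpen_inter_preimage hSo hU, ?_⟩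
  refine (hψ.comp (hHs.mono inter_subset_left) fun q hq => hq.2).add ?_
  exact contDiffOn_fst.mul ((log_jac_smooth h c).comp contDiffOn_snd fun q hq => hq.1.2)

theorem newψ_smooth' (hψ : IsKRF e T ψ) (h : IsRefinement e e' σ) (c : κ') :
    ∃ U : Set (ℝ × Cn n), IsOpen U ∧ Ico 0 T ×ˢ (e' c).target ⊆ U ∧
      ContDiffOn ℝ ∞ (newψ e e' σ ψ c) U := by
  obtain ⟨U, hU, hsub, hs⟩ := hψ.smooth (σ c)
  obtain ⟨h1, h2⟩ := newψ_smooth h hU hs
  exact ⟨_, h1, fun q hq => ⟨⟨mem_univ _, hq.2⟩, hsub ⟨hq.1, gmap_mem h hq.2⟩⟩, h2⟩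

theorem refine_lev (hψ : IsKRF e T ψ) (h : IsRefinement e e' σ) {c : κ'}
    {t : ℝ} (ht : t ∈ Ico 0 T) {w : Cn n} (hw : w ∈ (e' c).target) (u : Cn n) :
    lev (newψ e e' σ ψ c) u (t, w) =
      lev (ψ (σ c)) (fderiv ℝ (gmap e e' σ c) w u) (t, gmap e e' σ c w) := by
  obtain ⟨U, hU, hsub, hs⟩ := hψ.smooth (σ c)
  obtain ⟨h1, h2⟩ := newψ_smooth h hU hs
  have hm : (t, gmap e e' σ c w) ∈ U := hsub ⟨ht, gmap_mem h hw⟩
  rw [← levz_slice h1 h2 ⟨⟨mem_univ _, hw⟩, hm⟩ u, ← levz_slice hU hs hm]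
  have hSl : IsOpen ((fun y : Cn n => (t, y)) ⁻¹' U) := hU.preimage (by fun_prop)
  have hfl : ContDiffOn ℝ ∞ (fun y : Cn n => ψ (σ c) (t, y)) ((fun y : Cn n => (t, y)) ⁻¹' U) :=
    hs.comp (contDiffOn_const.prodMk contDiffOn_id) fun y hy => hy
  rw [← levz_comp hSl hfl (e' c).open_target (gmap_holo h c) hw hm]
  have c1 : ContDiffAt ℝ 2 (fun x => ψ (σ c) (t, gmap e e' σ c x)) w := by
    have h3 : ContDiffAt ℝ ∞ (fun y : Cn n => ψ (σ c) (t, y)) (gmap e e' σ c w) :=
      hfl.contDiffAt (hSl.mem_nhds hm)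
    exact (h3.comp w ((gmap_holo h c).1.contDiffAt ((e' c).open_target.mem_nhds hw))).of_le
      two_le_infty
  have c2 : ContDiffAt ℝ 2 (fun x => Real.log (jac e e' σ c x)) w :=
    ((log_jac_smooth h c).contDiffAt ((e' c).open_target.mem_nhds hw)).of_le two_le_infty
  have h4 := levz_log_jac h hw u
  unfold levz at h4 ⊢
  simp only [newψ]
  rw [LC.D_D_add _ _ c1 (contDiffAt_const.mul c2), LC.D_D_add _ _ c1 (contDiffAt_const.mul c2),
    LC.D_D_const_mul _ _ _ c2, LC.D_D_const_mul _ _ _ c2]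
  linear_combination t * h4

theorem refine_pos (hψ : IsKRF e T ψ) (h : IsRefinement e e' σ) {c : κ'}
    {t : ℝ} (ht : t ∈ Ico 0 T) {w : Cn n} (hw : w ∈ (e' c).target) :
    (cHess (newψ e e' σ ψ c) (t, w)).PosDef := by
  obtain ⟨U, hU, hsub, hs⟩ := newψ_smooth' hψ h c
  obtain ⟨V, hV, hsubV, hsV⟩ := hψ.smooth (σ c)
  refine posDef_of_lev hU hs (hsub ⟨ht, hw⟩) fun u hu => ?_
  rw [refine_lev hψ h ht hw]
  exact G.lev_pos hV hsV (hsubV ⟨ht, gmap_mem h hw⟩) (hψ.pos _ _ ht _ (gmap_mem h hw))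
    (gmap_fderiv_ne_zero h hw hu)

/-- the determinants in the new charts -/
theorem refine_det (hψ : IsKRF e T ψ) (h : IsRefinement e e' σ) {c : κ'}
    {t : ℝ} (ht : t ∈ Ico 0 T) {w : Cn n} (hw : w ∈ (e' c).target) :
    (cHess (newψ e e' σ ψ c) (t, w)).det.re =
      jac e e' σ c w * (cHess (ψ (σ c)) (t, gmap e e' σ c w)).det.re := by
  obtain ⟨U, hU, hsub, hs⟩ := newψ_smooth' hψ h c
  obtain ⟨V, hV, hsubV, hsV⟩ := hψ.smooth (σ c)
  exact Bd.det_transform hU hs hV hsV (hsub ⟨ht, hw⟩) (hsubV ⟨ht, gmap_mem h hw⟩)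
    (fderiv ℝ (gmap e e' σ c) w) ((gmap_holo h c).2 w hw) (refine_lev hψ h ht hw)

theorem gmap_fderiv_tr (he : IsAtlas e) (h : IsRefinement e e' σ) {c c' : κ'} {z : Cn n}
    (hz : z ∈ dom e' c c') (u : Cn n) :
    fderiv ℝ (gmap e e' σ c') (tr e' c c' z) (fderiv ℝ (tr e' c c') z u) =
      fderiv ℝ (tr e (σ c) (σ c')) (gmap e e' σ c z) (fderiv ℝ (gmap e e' σ c) z u) := by
  have d1 : DifferentiableAt ℝ (tr e' c c') z :=
    NF.diffAt (isOpen_dom _ _) ((refine_atlas he h).holo c c').1 hz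
  have d2 : DifferentiableAt ℝ (gmap e e' σ c') (tr e' c c' z) :=
    NF.diffAt (e' c').open_target (gmap_holo h c').1 (tr_target hz)
  have d3 : DifferentiableAt ℝ (gmap e e' σ c) z :=
    NF.diffAt (e' c).open_target (gmap_holo h c).1 hz.1
  have d4 : DifferentiableAt ℝ (tr e (σ c) (σ c')) (gmap e e' σ c z) :=
    NF.diffAt (isOpen_dom _ _) (he.holo _ _).1 (gmap_mem_dom h hz)
  have h1 := (d2.hasFDerivAt.comp z d1.hasFDerivAt).fderiv
  have h2 := (d4.hasFDerivAt.comp z d3.hasFDerivAt).fderiv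
  have h3 : (gmap e e' σ c' ∘ tr e' c c') =ᶠ[𝓝 z] (tr e (σ c) (σ c') ∘ gmap e e' σ c) := by
    filter_upwards [(isOpen_dom c c').mem_nhds hz] with x hx
    exact gmap_tr h hx
  rw [h3.fderiv_eq, h2] at h1
  exact (congrArg (fun L : Cn n →L[ℝ] Cn n => L u) h1).symm

theorem refine_dt (hψ : IsKRF e T ψ) (h : IsRefinement e e' σ) {c : κ'}
    {t : ℝ} (ht : t ∈ Ico 0 T) {w : Cn n} (hw : w ∈ (e' c).target) :
    G.dt (newψ e e' σ ψ c) (t, w) =
      G.dt (ψ (σ c)) (t, gmap e e' σ c w) + Real.log (jac e e' σ c w) := by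
  obtain ⟨V, hV, hsubV, hsV⟩ := hψ.smooth (σ c)
  have hψd : DifferentiableAt ℝ (ψ (σ c)) (t, gmap e e' σ c w) :=
    NF.diffAt hV hsV (hsubV ⟨ht, gmap_mem h hw⟩)
  have hg : HasFDerivAt (fun q : ℝ × Cn n => (q.1, gmap e e' σ c q.2))
      ((ContinuousLinearMap.fst ℝ ℝ (Cn n)).prod
        ((fderiv ℝ (gmap e e' σ c) w).comp (ContinuousLinearMap.snd ℝ ℝ (Cn n)))) (t, w) := by
    have h1 : HasFDerivAt (gmap e e' σ c) (fderiv ℝ (gmap e e' σ c) w) ((t, w) : ℝ × Cn n).2 :=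
      (NF.diffAt (e' c).open_target (gmap_holo h c).1 hw).hasFDerivAt
    exact hasFDerivAt_fst.prodMk (h1.comp (t, w) hasFDerivAt_snd)
  have hl : HasFDerivAt (fun q : ℝ × Cn n => Real.log (jac e e' σ c q.2))
      ((fderiv ℝ (fun x => Real.log (jac e e' σ c x)) w).comp
        (ContinuousLinearMap.snd ℝ ℝ (Cn n))) (t, w) := by
    have h1 : HasFDerivAt (fun x => Real.log (jac e e' σ c x))
        (fderiv ℝ (fun x => Real.log (jac e e' σ c x)) w) ((t, w) : ℝ × Cn n).2 :=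
      (NF.diffAt (e' c).open_target (log_jac_smooth h c) hw).hasFDerivAt
    exact h1.comp (t, w) hasFDerivAt_snd
  have h1 := (HasFDerivAt.comp (t, w) (f := fun q : ℝ × Cn n => (q.1, gmap e e' σ c q.2))
    hψd.hasFDerivAt hg).fun_add
    ((hasFDerivAt_fst (𝕜 := ℝ) (E := ℝ) (F := Cn n) (p := (t, w))).fun_mul hl)
  have h2 : HasFDerivAt (newψ e e' σ ψ c) _ (t, w) := h1
  unfold G.dt D
  rw [h2.fderiv]
  simp

theorem refine_krf (he : IsAtlas e) (hψ : IsKRF e T ψ) (h : IsRefinement e e' σ) :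
    IsKRF e' T (newψ e e' σ ψ) where
  smooth := newψ_smooth' hψ h
  pos := fun c t ht w hw => refine_pos hψ h ht hw
  compat := by
    intro c c' t ht z hz u
    rw [refine_lev hψ h ht hz.1, refine_lev hψ h ht (tr_target hz), gmap_fderiv_tr he h hz,
      gmap_tr h hz]
    exact hψ.compat _ _ t ht _ (gmap_mem_dom h hz) _
  flow := by
    intro c t ht w hw
    have ht' : t ∈ Ico 0 T := ⟨ht.1.le, ht.2⟩
    have h1 : 0 < (cHess (ψ (σ c)) (t, gmap e e' σ c w)).det.re :=
      det_re_pos (hψ.pos _ _ ht' _ (gmap_mem h hw))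
    rw [refine_dt hψ h ht' hw, refine_det hψ h ht' hw, Real.log_mul (jac_pos h hw).ne' h1.ne',
      hψ.flow _ t ht _ (gmap_mem h hw)]
    ring

end Flow

end Pool.Agent.KRFF
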