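import Pool.Agent.Work.MP_a2bf38_gt.I.Setup

/-!
# Holomorphic maps, products and polydiscs
-/

open scoped ContDiff ENNReal ComplexOrder Topology
open Set Filter Pool.Agent.ToricKRF Pool.Agent.ToricKRF.G Pool.Agent.KRFS

namespace Pool.Agent.KRFF.NT

section Hol

variable {n m l : ℕ}

theorem hol_congr {H H' : Cn n → Cn m} {S : Set (Cn n)} (hS : IsOpen S) (hH : HolOn H S)
    (h : EqOn H' H S) : HolOn H' S := by
  refine ⟨hH.1.congr h, fun z hz u => ?_⟩
  have h1 : H' =ᶠ[𝓝 z] H := by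
    filter_upwards [hS.mem_nhds hz] with x hx using h hx
  rw [h1.fderiv_eq]
  exact hH.2 z hz u

theorem hol_mono {H : Cn n → Cn m} {S S' : Set (Cn n)} (hH : HolOn H S) (h : S' ⊆ S) :
    HolOn H S' := ⟨hH.1.mono h, fun z hz => hH.2 z (h hz)⟩

theorem hol_diff {H : Cn n → Cn m} {S : Set (Cn n)} (hS : IsOpen S) (hH : HolOn H S) {z : Cn n}
    (hz : z ∈ S) : DifferentiableAt ℝ H z :=
  (hH.1.contDiffAt (hS.mem_nhds hz)).differentiableAt (by simp)

theorem hol_cont {H : Cn n → Cn m} {S : Set (Cn n)} (hH : HolOn H S) : ContinuousOn H S :=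
  hH.1.continuousOn

theorem fderiv_hol_comp {G : Cn m → Cn l} {H : Cn n → Cn m} {S : Set (Cn n)} {S' : Set (Cn m)}
    (hS : IsOpen S) (hS' : IsOpen S') (hG : HolOn G S') (hH : HolOn H S) {z : Cn n} (hz : z ∈ S)
    (hz' : H z ∈ S') (u : Cn n) :
    fderiv ℝ (fun z => G (H z)) z u = fderiv ℝ G (H z) (fderiv ℝ H z u) := by
  have h := fderiv_comp z (hol_diff hS' hG hz') (hol_diff hS hH hz)
  change fderiv ℝ (G ∘ H) z u = _
  rw [h]
  rfl

theorem hol_comp {G : Cn m → Cn l} {H : Cn n → Cn m} {S : Set (Cn n)} {S' : Set (Cn m)}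
    (hS : IsOpen S) (hS' : IsOpen S') (hG : HolOn G S') (hH : HolOn H S) (h : MapsTo H S S') :
    HolOn (fun z => G (H z)) S := by
  refine ⟨hG.1.comp hH.1 h, fun z hz u => ?_⟩
  rw [fderiv_hol_comp hS hS' hG hH hz (h hz), fderiv_hol_comp hS hS' hG hH hz (h hz), hH.2 z hz,
    hG.2 _ (h hz)]

/-- an affine map whose linear part commutes with `J` -/
theorem hol_affine (L : Cn n →L[ℝ] Cn m) (hL : ∀ u, L (J u) = J (L u)) (c : Cn m)
    (S : Set (Cn n)) : HolOn (fun z => c + L z) S := by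
  refine ⟨(contDiff_const.add L.contDiff).contDiffOn, fun z _ u => ?_⟩
  have h : fderiv ℝ (fun z => c + L z) z = L := by
    rw [fderiv_const_add]
    exact L.fderiv
  rw [h, hL]

theorem J_smul' (r : ℝ) (u : Cn n) : J (r • u) = r • J u := by
  ext i <;> simp [J]

theorem hol_scale (r : ℝ) (c : Cn n) (S : Set (Cn n)) : HolOn (fun z => c + r • z) S :=
  hol_affine (r • ContinuousLinearMap.id ℝ (Cn n)) (fun u => by simp [J_smul']) c S

end Hol

section Prod

variable {k m : ℕ}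

@[simp] theorem fstC_joinC (u : Cn k) (y : Cn m) : fstC (joinC u y) = u := by
  ext i <;> simp [fstC, joinC]

@[simp] theorem sndC_joinC (u : Cn k) (y : Cn m) : sndC (joinC u y) = y := by
  ext i <;> simp [sndC, joinC]

@[simp] theorem joinC_fstC_sndC (z : Cn (k + m)) : joinC (fstC z) (sndC z) = z := by
  ext i
  · refine Fin.addCases (fun i => ?_) (fun i => ?_) i <;> simp [fstC, sndC, joinC]
  · refine Fin.addCases (fun i => ?_) (fun i => ?_) i <;> simp [fstC, sndC, joinC]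

/-- `fstC` and `sndC` together, as a linear equivalence -/
noncomputable def splitE (k m : ℕ) : Cn (k + m) ≃L[ℝ] Cn k × Cn m :=
  LinearEquiv.toContinuousLinearEquiv
    { toFun := fun z => (fstC z, sndC z)
      invFun := fun p => joinC p.1 p.2
      left_inv := fun z => joinC_fstC_sndC z
      right_inv := fun p => by simp
      map_add' := fun z w => by
        ext i <;> simp [fstC, sndC]
      map_smul' := fun r z => by
        ext i <;> simp [fstC, sndC] }

@[simp] theorem splitE_apply (z : Cn (k + m)) : splitE k m z = (fstC z, sndC z) := rfl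

@[simp] theorem splitE_symm_apply (p : Cn k × Cn m) : (splitE k m).symm p = joinC p.1 p.2 := rfl

theorem fstC_add (z w : Cn (k + m)) : fstC (z + w) = (fstC z + fstC w : Cn k) := by
  ext i <;> simp [fstC]

theorem sndC_add (z w : Cn (k + m)) : sndC (z + w) = (sndC z + sndC w : Cn m) := by
  ext i <;> simp [sndC]

theorem fstC_sub (z w : Cn (k + m)) : fstC (z - w) = (fstC z - fstC w : Cn k) := by
  ext i <;> simp [fstC]

theorem sndC_sub (z w : Cn (k + m)) : sndC (z - w) = (sndC z - sndC w : Cn m) := by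
  ext i <;> simp [sndC]

theorem fstC_smul (r : ℝ) (z : Cn (k + m)) : fstC (r • z) = (r • fstC z : Cn k) := by
  ext i <;> simp [fstC]

theorem sndC_smul (r : ℝ) (z : Cn (k + m)) : sndC (r • z) = (r • sndC z : Cn m) := by
  ext i <;> simp [sndC]

theorem fstC_J (z : Cn (k + m)) : fstC (J z) = (J (fstC z) : Cn k) := by
  ext i <;> simp [fstC, J]

theorem sndC_J (z : Cn (k + m)) : sndC (J z) = (J (sndC z) : Cn m) := by
  ext i <;> simp [sndC, J]

theorem joinC_J (u : Cn k) (y : Cn m) : joinC (J u) (J y) = J (joinC u y) := by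
  apply (splitE k m).injective
  simp [fstC_J, sndC_J]

theorem joinC_add (u u' : Cn k) (y y' : Cn m) :
    joinC (u + u') (y + y') = joinC u y + joinC u' y' := by
  apply (splitE k m).injective
  simp [fstC_add, sndC_add]

theorem joinC_smul (r : ℝ) (u : Cn k) (y : Cn m) : joinC (r • u) (r • y) = r • joinC u y := by
  apply (splitE k m).injective
  simp [fstC_smul, sndC_smul]

theorem joinC_inj {u u' : Cn k} {y y' : Cn m} : joinC u y = joinC u' y' ↔ u = u' ∧ y = y' := by
  constructor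
  · intro h
    have h1 := congrArg fstC h
    have h2 := congrArg sndC h
    rw [fstC_joinC, fstC_joinC] at h1
    rw [sndC_joinC, sndC_joinC] at h2
    exact ⟨h1, h2⟩
  · rintro ⟨rfl, rfl⟩
    rfl

theorem continuous_fstC : Continuous (fstC : Cn (k + m) → Cn k) :=
  continuous_fst.comp (splitE k m).continuous

theorem continuous_sndC : Continuous (sndC : Cn (k + m) → Cn m) :=
  continuous_snd.comp (splitE k m).continuous

theorem continuous_joinC : Continuous fun p : Cn k × Cn m => joinC p.1 p.2 :=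
  (splitE k m).symm.continuous

/-- a pair of holomorphic maps -/
theorem hol_join {n : ℕ} {G : Cn n → Cn k} {H : Cn n → Cn m} {S : Set (Cn n)} (hS : IsOpen S)
    (hG : HolOn G S) (hH : HolOn H S) : HolOn (fun z => joinC (G z) (H z)) S := by
  have key : ∀ z ∈ S, ∀ u, fderiv ℝ (fun z => joinC (G z) (H z)) z u =
      joinC (fderiv ℝ G z u) (fderiv ℝ H z u) := by
    intro z hz u
    have h1 := (hol_diff hS hG hz).hasFDerivAt.prodMk (hol_diff hS hH hz).hasFDerivAt
    have h2 := ((splitE k m).symm.hasFDerivAt (x := (G z, H z))).comp z h1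
    have h3 : (fun z => joinC (G z) (H z)) = (splitE k m).symm ∘ fun z => (G z, H z) := by
      funext z
      simp
    rw [h3, h2.fderiv]
    simp
  refine ⟨(splitE k m).symm.contDiff.comp_contDiffOn (hG.1.prodMk hH.1), fun z hz u => ?_⟩
  rw [key z hz, key z hz, hG.2 z hz, hH.2 z hz, joinC_J]

theorem fderiv_join {n : ℕ} {G : Cn n → Cn k} {H : Cn n → Cn m} {S : Set (Cn n)} (hS : IsOpen S)
    (hG : HolOn G S) (hH : HolOn H S) {z : Cn n} (hz : z ∈ S) (u : Cn n) :
    fderiv ℝ (fun z => joinC (G z) (H z)) z u = joinC (fderiv ℝ G z u) (fderiv ℝ H z u) := by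
  have h1 := (hol_diff hS hG hz).hasFDerivAt.prodMk (hol_diff hS hH hz).hasFDerivAt
  have h2 := ((splitE k m).symm.hasFDerivAt (x := (G z, H z))).comp z h1
  have h3 : (fun z => joinC (G z) (H z)) = (splitE k m).symm ∘ fun z => (G z, H z) := by
    funext z
    simp
  rw [h3, h2.fderiv]
  simp

/-- `sndC` as a linear map -/
noncomputable def sndL (k m : ℕ) : Cn (k + m) →L[ℝ] Cn m :=
  (ContinuousLinearMap.snd ℝ (Cn k) (Cn m)).comp (splitE k m : Cn (k + m) →L[ℝ] Cn k × Cn m)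

@[simp] theorem sndL_apply (z : Cn (k + m)) : sndL k m z = sndC z := rfl

/-- `fstC` as a linear map -/
noncomputable def fstL (k m : ℕ) : Cn (k + m) →L[ℝ] Cn k :=
  (ContinuousLinearMap.fst ℝ (Cn k) (Cn m)).comp (splitE k m : Cn (k + m) →L[ℝ] Cn k × Cn m)

@[simp] theorem fstL_apply (z : Cn (k + m)) : fstL k m z = fstC z := rfl

theorem hol_sndC (S : Set (Cn (k + m))) : HolOn (sndC : Cn (k + m) → Cn m) S := by
  have h := hol_affine (sndL k m) (fun u => by simp [sndC_J]) 0 S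
  simpa using h

theorem hol_fstC (S : Set (Cn (k + m))) : HolOn (fstC : Cn (k + m) → Cn k) S := by
  have h := hol_affine (fstL k m) (fun u => by simp [fstC_J]) 0 S
  simpa using h

theorem fderiv_sndC (z u : Cn (k + m)) : fderiv ℝ (sndC : Cn (k + m) → Cn m) z u = sndC u := by
  have h : (sndC : Cn (k + m) → Cn m) = sndL k m := rfl
  rw [h, ContinuousLinearMap.fderiv]

end Prod

section Poly

variable {k m : ℕ}

theorem isOpen_opd (r : ℝ) : IsOpen (opd r : Set (Cn k)) := by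
  have h : (opd r : Set (Cn k)) = ⋂ i : Fin k, {u | u.1 i ^ 2 + u.2 i ^ 2 < r ^ 2} := by
    ext u
    simp [opd]
  rw [h]
  exact isOpen_iInter_of_finite fun i => isOpen_lt (by fun_prop) (by fun_prop)

theorem zero_mem_opd {r : ℝ} (hr : 0 < r) : (0 : Cn k) ∈ opd r := by
  intro i
  simpa using pow_pos hr 2

theorem zero_mem_cpd (r : ℝ) : (0 : Cn k) ∈ cpd r := by
  intro i
  simpa using sq_nonneg r

theorem opd_mono {r s : ℝ} (hr : 0 ≤ r) (h : r ≤ s) : (opd r : Set (Cn k)) ⊆ opd s :=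
  fun u hu i => (hu i).trans_le (by nlinarith)

theorem smul_mem_opd {c r : ℝ} (hc : 0 < c) {u : Cn k} : c • u ∈ opd (c * r) ↔ u ∈ opd r := by
  have h : ∀ i, ((c • u).1 i ^ 2 + (c • u).2 i ^ 2 < (c * r) ^ 2 ↔
      u.1 i ^ 2 + u.2 i ^ 2 < r ^ 2) := fun i => by
    have h1 : (c • u).1 i ^ 2 + (c • u).2 i ^ 2 = c ^ 2 * (u.1 i ^ 2 + u.2 i ^ 2) := by
      simp only [Prod.smul_fst, Prod.smul_snd, Pi.smul_apply, smul_eq_mul]
      ring
    rw [h1, mul_pow]
    exact mul_lt_mul_iff_right₀ (pow_pos hc 2)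
  exact forall_congr' h

theorem smul_mem_cpd {c r : ℝ} (hc : 0 < c) {u : Cn k} : c • u ∈ cpd (c * r) ↔ u ∈ cpd r := by
  have h : ∀ i, ((c • u).1 i ^ 2 + (c • u).2 i ^ 2 ≤ (c * r) ^ 2 ↔
      u.1 i ^ 2 + u.2 i ^ 2 ≤ r ^ 2) := fun i => by
    have h1 : (c • u).1 i ^ 2 + (c • u).2 i ^ 2 = c ^ 2 * (u.1 i ^ 2 + u.2 i ^ 2) := by
      simp only [Prod.smul_fst, Prod.smul_snd, Pi.smul_apply, smul_eq_mul]
      ring
    rw [h1, mul_pow]
    exact mul_le_mul_iff_right₀ (pow_pos hc 2)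
  exact forall_congr' h

theorem opd_subset_cpd (r : ℝ) : (opd r : Set (Cn k)) ⊆ cpd r := fun _ hu i => (hu i).le

theorem norm_lt_of_mem_opd {r : ℝ} (hr : 0 < r) {u : Cn k} (hu : u ∈ opd r) : ‖u‖ < r := by
  rw [Prod.norm_def, max_lt_iff, pi_norm_lt_iff hr, pi_norm_lt_iff hr]
  refine ⟨fun i => ?_, fun i => ?_⟩
  · rw [Real.norm_eq_abs]
    exact abs_lt_of_sq_lt_sq (by nlinarith [hu i, sq_nonneg (u.2 i)]) hr.le
  · rw [Real.norm_eq_abs]
    exact abs_lt_of_sq_lt_sq (by nlinarith [hu i, sq_nonneg (u.1 i)]) hr.le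

/-- small polydiscs -/
theorem exists_opd {U : Set (Cn k)} (hU : IsOpen U) {y : Cn k} (hy : y ∈ U) :
    ∃ r > 0, ∀ w, w - y ∈ opd r → w ∈ U := by
  obtain ⟨r, hr, h⟩ := Metric.isOpen_iff.1 hU y hy
  refine ⟨r, hr, fun w hw => h ?_⟩
  rw [Metric.mem_ball, dist_eq_norm]
  exact norm_lt_of_mem_opd hr hw

/-- small products of polydiscs -/
theorem exists_opd_prod {U : Set (Cn (k + m))} (hU : IsOpen U) {z : Cn (k + m)} (hz : z ∈ U) :
    ∃ r > 0, ∀ w, fstC w - fstC z ∈ (opd r : Set (Cn k)) → sndC w - sndC z ∈ (opd r : Set (Cn m)) →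
      w ∈ U := by
  have h1 : IsOpen ((splitE k m).symm ⁻¹' U) := hU.preimage (splitE k m).symm.continuous
  have h2 : (fstC z, sndC z) ∈ (splitE k m).symm ⁻¹' U := by simpa using hz
  obtain ⟨r, hr, h⟩ := Metric.isOpen_iff.1 h1 _ h2
  refine ⟨r, hr, fun w hw1 hw2 => ?_⟩
  have h3 : (fstC w, sndC w) ∈ Metric.ball ((fstC z, sndC z) : Cn k × Cn m) r := by
    rw [Metric.mem_ball, Prod.dist_eq, max_lt_iff, dist_eq_norm, dist_eq_norm]
    exact ⟨norm_lt_of_mem_opd hr hw1, norm_lt_of_mem_opd hr hw2⟩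
  simpa using h h3

end Poly

end Pool.Agent.KRFF.NT
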