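import Pool.Agent.Work.MP_a2bf38_gt.I.Coord
import Pool.Agent.Work.MP_a2bf38_gt.G.Herm

/-!
# Complex linear algebra on `ℂ^n = ℝ^n × ℝ^n`
-/

open scoped ContDiff ENNReal ComplexOrder Topology
open Set Filter Pool.Agent.ToricKRF Pool.Agent.ToricKRF.G Pool.Agent.KRFS

namespace Pool.Agent.KRFF

/-- `ℂ^n` as a complex vector space -/
noncomputable def toCv (n : ℕ) : Cn n ≃ₗ[ℝ] (Fin n → ℂ) where
  toFun := cc
  invFun := fun x => (fun k => (x k).re, fun k => (x k).im)
  map_add' u v := by
    funext k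
    apply Complex.ext <;> simp [cc]
  map_smul' c u := by
    funext k
    apply Complex.ext <;> simp [cc]
  left_inv u := rfl
  right_inv x := by
    funext k
    rfl

theorem toCv_J {n : ℕ} (u : Cn n) : toCv n (J u) = Complex.I • toCv n u :=
  funext fun k => cc_J u k

theorem toCv_symm_I {n : ℕ} (x : Fin n → ℂ) :
    (toCv n).symm (Complex.I • x) = J ((toCv n).symm x) := by
  rw [LinearEquiv.symm_apply_eq, toCv_J, LinearEquiv.apply_symm_apply]

/-- a real linear map which commutes with `J`, as a complex linear map -/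
noncomputable def extC {n m : ℕ} (A : Cn n →L[ℝ] Cn m) (hJ : ∀ u, A (J u) = J (A u)) :
    (Fin n → ℂ) →ₗ[ℂ] (Fin m → ℂ) where
  toFun x := toCv m (A ((toCv n).symm x))
  map_add' x y := by simp only [map_add]
  map_smul' c x := by
    have h1 : c • x = c.re • x + c.im • (Complex.I • x) := by
      funext k
      apply Complex.ext <;> simp [sub_eq_add_neg]
    have h2 : ∀ y : Fin m → ℂ, c • y = c.re • y + c.im • (Complex.I • y) := by
      intro y
      funext k
      apply Complex.ext <;> simp [sub_eq_add_neg]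
    rw [h1, map_add, map_smul, map_smul, toCv_symm_I, map_add, map_smul, map_smul, hJ, map_add,
      map_smul, map_smul, toCv_J, RingHom.id_apply, h2]

theorem extC_apply {n m : ℕ} (A : Cn n →L[ℝ] Cn m) (hJ : ∀ u, A (J u) = J (A u))
    (x : Fin n → ℂ) : extC A hJ x = toCv m (A ((toCv n).symm x)) := rfl

/-- a complex linear map as a real linear map -/
noncomputable def resC {n m : ℕ} (B : (Fin n → ℂ) →ₗ[ℂ] (Fin m → ℂ)) : Cn n →L[ℝ] Cn m :=
  LinearMap.toContinuousLinearMap
    ((toCv m).symm.toLinearMap ∘ₗ (B.restrictScalars ℝ) ∘ₗ (toCv n).toLinearMap)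

theorem resC_apply {n m : ℕ} (B : (Fin n → ℂ) →ₗ[ℂ] (Fin m → ℂ)) (u : Cn n) :
    resC B u = (toCv m).symm (B (toCv n u)) := rfl

theorem resC_J {n m : ℕ} (B : (Fin n → ℂ) →ₗ[ℂ] (Fin m → ℂ)) (u : Cn n) :
    resC B (J u) = J (resC B u) := by
  rw [resC_apply, resC_apply, toCv_J, map_smul, toCv_symm_I]

theorem exists_compl {k m : ℕ} (A : Cn (k + m) →L[ℝ] Cn m) (hA : Function.Surjective A)
    (hJ : ∀ u, A (J u) = J (A u)) : ∃ B : Cn (k + m) →L[ℝ] Cn k, (∀ u, B (J u) = J (B u)) ∧
      Function.Bijective fun u => joinC (B u) (A u) := by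
  set A' := extC A hJ with hA'
  have hsurj : Function.Surjective A' := by
    intro y
    obtain ⟨u, hu⟩ := hA ((toCv m).symm y)
    exact ⟨toCv _ u, by rw [hA', extC_apply, LinearEquiv.symm_apply_apply, hu,
      LinearEquiv.apply_symm_apply]⟩
  have hfin : Module.finrank ℂ (LinearMap.ker A') = Module.finrank ℂ (Fin k → ℂ) := by
    have h1 := LinearMap.finrank_range_add_finrank_ker A'
    rw [LinearMap.range_eq_top.2 hsurj, finrank_top, Module.finrank_fin_fun,
      Module.finrank_fin_fun] at h1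
    rw [Module.finrank_fin_fun]
    omega
  obtain ⟨P, hP⟩ := (LinearMap.ker A').subtype.exists_leftInverse_of_injective
    (LinearMap.ker_eq_bot.2 (Submodule.subtype_injective _))
  let E := LinearEquiv.ofFinrankEq (LinearMap.ker A') (Fin k → ℂ) hfin
  let B := resC (E.toLinearMap ∘ₗ P)
  refine ⟨B, resC_J _, ?_⟩
  let L : Cn (k + m) →ₗ[ℝ] Cn (k + m) :=
    { toFun := fun u => joinC (B u) (A u)
      map_add' := fun u v => by rw [map_add, map_add, joinC_add]
      map_smul' := fun c u => by rw [map_smul, map_smul, joinC_smul, RingHom.id_apply] }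
  have hinj : Function.Injective L := by
    rw [injective_iff_map_eq_zero]
    intro u hu
    have h1 : joinC (B u) (A u) = 0 := hu
    have h2 : B u = 0 := by
      rw [← fstC_joinC (B u) (A u), h1]
      rfl
    have h3 : A u = 0 := by
      rw [← sndC_joinC (B u) (A u), h1]
      rfl
    have h4 : toCv _ u ∈ LinearMap.ker A' := by
      rw [LinearMap.mem_ker, hA', extC_apply, LinearEquiv.symm_apply_apply, h3, map_zero]
    have h5 : P (toCv _ u) = 0 := by
      have h6 : (toCv k).symm (E (P (toCv _ u))) = 0 := h2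
      rw [LinearEquiv.map_eq_zero_iff, LinearEquiv.map_eq_zero_iff] at h6
      exact h6
    have h7 : P (toCv _ u) = ⟨toCv _ u, h4⟩ := LinearMap.congr_fun hP ⟨toCv _ u, h4⟩
    have h8 : toCv _ u = 0 := by
      rw [h5] at h7
      exact (congrArg Subtype.val h7).symm
    exact (LinearEquiv.map_eq_zero_iff _).1 h8
  exact ⟨hinj, LinearMap.injective_iff_surjective.1 hinj⟩

theorem exists_dim {n m : ℕ} (A : Cn n →L[ℝ] Cn m) (hA : Function.Surjective A) :
    ∃ k, n = k + m := by
  have h1 := LinearMap.finrank_le_finrank_of_surjective (f := A.toLinearMap) hA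
  rw [Module.finrank_prod, Module.finrank_prod, Module.finrank_fin_fun, Module.finrank_fin_fun]
    at h1
  exact ⟨n - m, by omega⟩

end Pool.Agent.KRFF
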