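import Pool.Agent.Work.MP_a2bf38_gt.I.Setup

/-!
# Biholomorphic maps: the inverse function theorem
-/

open scoped ContDiff ENNReal ComplexOrder Topology
open Set Filter Pool.Agent.ToricKRF Pool.Agent.ToricKRF.G Pool.Agent.KRFS

namespace Pool.Agent.KRFF

/-- a biholomorphic map -/
structure IsBihol {n m : ℕ} (φ : OpenPartialHomeomorph (Cn n) (Cn m)) : Prop where
  holo : HolOn φ φ.source
  symm : HolOn φ.symm φ.target

/-- the inverse of a holomorphic map with invertible derivative is holomorphic -/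
theorem holOn_symm {n : ℕ} (φ : OpenPartialHomeomorph (Cn n) (Cn n)) (h : HolOn φ φ.source)
    (hb : ∀ z ∈ φ.source, Function.Bijective (fderiv ℝ φ z)) : HolOn φ.symm φ.target := by
  have key : ∀ w ∈ φ.target, ∃ E : Cn n ≃L[ℝ] Cn n,
      HasFDerivAt φ (E : Cn n →L[ℝ] Cn n) (φ.symm w) ∧ ∀ u, E (J u) = J (E u) := by
    intro w hw
    have hz := φ.map_target hw
    refine ⟨ContinuousLinearEquiv.ofBijective (fderiv ℝ φ (φ.symm w))
      (LinearMap.ker_eq_bot.2 (hb _ hz).1) (LinearMap.range_eq_top.2 (hb _ hz).2), ?_, fun u => ?_⟩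
    · rw [ContinuousLinearEquiv.coe_ofBijective]
      exact ((h.1.differentiableOn (by simp)).differentiableAt
        (φ.open_source.mem_nhds hz)).hasFDerivAt
    · exact h.2 _ hz u
  refine ⟨fun w hw => ?_, fun w hw u => ?_⟩
  · obtain ⟨E, hE, -⟩ := key w hw
    exact (φ.contDiffAt_symm hw hE
      (h.1.contDiffAt (φ.open_source.mem_nhds (φ.map_target hw)))).contDiffWithinAt
  · obtain ⟨E, hE, hJ⟩ := key w hw
    rw [(φ.hasFDerivAt_symm hw hE).fderiv]
    change E.symm (J u) = J (E.symm u)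
    rw [ContinuousLinearEquiv.symm_apply_eq, hJ, ContinuousLinearEquiv.apply_symm_apply]

theorem exists_bihol {n : ℕ} {G : Cn n → Cn n} {S : Set (Cn n)} (hS : IsOpen S) (hG : HolOn G S)
    {z₀ : Cn n} (hz : z₀ ∈ S) (hb : Function.Bijective (fderiv ℝ G z₀)) :
    ∃ φ : OpenPartialHomeomorph (Cn n) (Cn n), IsBihol φ ∧ z₀ ∈ φ.source ∧ φ.source ⊆ S ∧
      ∀ z, φ z = G z := by
  have hC : ContDiffAt ℝ ∞ G z₀ := hG.1.contDiffAt (hS.mem_nhds hz)
  let E := ContinuousLinearEquiv.ofBijective (fderiv ℝ G z₀)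
    (LinearMap.ker_eq_bot.2 hb.1) (LinearMap.range_eq_top.2 hb.2)
  have hE : HasFDerivAt G (E : Cn n →L[ℝ] Cn n) z₀ := by
    rw [ContinuousLinearEquiv.coe_ofBijective]
    exact (hC.differentiableAt (by simp)).hasFDerivAt
  let φ₀ := hC.toOpenPartialHomeomorph G hE (by simp)
  have hφ₀ : ∀ z, φ₀ z = G z := fun z => rfl
  have hz₀ : z₀ ∈ φ₀.source := hC.mem_toOpenPartialHomeomorph_source hE (by simp)
  -- the points where the derivative is invertible
  have hcont : ContinuousOn (fderiv ℝ G) S :=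
    ((contDiffOn_infty_iff_fderiv_of_isOpen hS).1 hG.1).2.continuousOn
  have hopen : IsOpen (S ∩ fderiv ℝ G ⁻¹' range ((↑) : (Cn n ≃L[ℝ] Cn n) → Cn n →L[ℝ] Cn n)) :=
    hcont.isOpen_inter_preimage hS ContinuousLinearEquiv.isOpen
  let φ := φ₀.restrOpen _ hopen
  have hsrc : φ.source = φ₀.source ∩
      (S ∩ fderiv ℝ G ⁻¹' range ((↑) : (Cn n ≃L[ℝ] Cn n) → Cn n →L[ℝ] Cn n)) :=
    φ₀.restrOpen_source _ hopen
  have hφ : ∀ z, φ z = G z := fun z => rfl
  have hφ' : (φ : Cn n → Cn n) = G := funext hφ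
  have hol : HolOn φ φ.source := by
    rw [hφ']
    have hsub : φ.source ⊆ S := by
      rw [hsrc]
      exact fun z hz => hz.2.1
    exact ⟨hG.1.mono hsub, fun z hz u => hG.2 z (hsub hz) u⟩
  refine ⟨φ, ⟨hol, holOn_symm φ hol ?_⟩, ?_, ?_, hφ⟩
  · intro z hz
    rw [hsrc] at hz
    obtain ⟨E', hE'⟩ := hz.2.2
    rw [hφ', ← hE']
    exact E'.bijective
  · rw [hsrc]
    exact ⟨hz₀, hz, ⟨E, hE.fderiv.symm⟩⟩
  · rw [hsrc]
    exact fun z hz => hz.2.1

end Pool.Agent.KRFF
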