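import Pool.Agent.Work.MP_a2bf38_gt.I.NatDefs
import Pool.Agent.Work.MP_a2bf38_gt.I.NatHol
import Pool.Agent.Work.MP_a2bf38_gt.I.NatLin
import Pool.Agent.Work.MP_a2bf38_gt.I.NatLoc
import Pool.Agent.Work.MP_a2bf38_gt.I.NatFlow

/-!
# Product charts of a holomorphic submersion
-/

open scoped ContDiff ENNReal ComplexOrder Topology
open Set Filter Pool.Agent.ToricKRF Pool.Agent.ToricKRF.G Pool.Agent.KRFS

namespace Pool.Agent.KRFF

namespace NT

theorem hol_add_smul {n m : ℕ} {H : Cn n → Cn m} {S : Set (Cn n)} (hS : IsOpen S)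
    (hH : HolOn H S) (r : ℝ) (c : Cn m) : HolOn (fun z => c + r • H z) S :=
  hol_comp (G := fun w => c + r • w) hS isOpen_univ (hol_scale r c univ) hH (mapsTo_univ _ _)

/-! ### Boxes -/

section Box

variable {X : Type} [TopologicalSpace X] {n : ℕ}

/-- the affine homeomorphism `w ↦ s (w - y)` -/
noncomputable def affH (y : Cn n) (s : ℝ) (hs : s ≠ 0) : Cn n ≃ₜ Cn n where
  toFun w := s • (w - y)
  invFun w := y + s⁻¹ • w
  left_inv w := by simp [smul_smul, inv_mul_cancel₀ hs]
  right_inv w := by simp [smul_smul, mul_inv_cancel₀ hs]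
  continuous_toFun := by fun_prop
  continuous_invFun := by fun_prop

/-- the chart `E`, restricted to the polydisc of radius `R` and centre `y`, and scaled to the
radius `10` -/
theorem exists_base (E : OpenPartialHomeomorph X (Cn n)) (y : Cn n) {R : ℝ} (hR : 0 < R)
    (h : ∀ w, w - y ∈ opd R → w ∈ E.target) :
    ∃ E' : OpenPartialHomeomorph X (Cn n), E'.target = opd 10 ∧
      (∀ p, p ∈ E'.source ↔ p ∈ E.source ∧ E p - y ∈ opd R) ∧
      (∀ p, E' p = (10 / R) • (E p - y)) ∧
      ∀ w, E'.symm w = E.symm (y + (R / 10) • w) := by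
  have hs : 10 / R ≠ 0 := by positivity
  have hopen : IsOpen {w : Cn n | w - y ∈ opd R} := (isOpen_opd R).preimage (by fun_prop)
  refine ⟨((E.trans (OpenPartialHomeomorph.ofSet _ hopen)).transHomeomorph (affH y _ hs)),
    ?_, ?_, ?_, ?_⟩
  · ext w
    simp only [OpenPartialHomeomorph.transHomeomorph_target, mem_preimage,
      OpenPartialHomeomorph.trans_target, OpenPartialHomeomorph.ofSet_target,
      OpenPartialHomeomorph.ofSet_symm, OpenPartialHomeomorph.ofSet_apply, mem_inter_iff,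
      mem_ofPred_eq, id]
    have h1 : (affH y (10 / R) hs).symm w = y + (10 / R)⁻¹ • w := rfl
    rw [h1]
    have h2 : y + (10 / R)⁻¹ • w - y = (10 / R)⁻¹ • w := by abel
    rw [h2]
    have h3 : (10 / R)⁻¹ • w ∈ (opd R : Set (Cn n)) ↔ w ∈ opd 10 := by
      have h4 := smul_mem_opd (c := (10 / R)⁻¹) (r := 10) (u := w) (by positivity)
      have h5 : (10 / R)⁻¹ * 10 = R := by field_simp
      rw [h5] at h4
      exact h4
    rw [h3]
    constructor
    · exact fun h => h.1
    · intro hw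
      refine ⟨hw, h _ ?_⟩
      rw [h2, h3]
      exact hw
  · intro p
    simp
  · intro p
    rfl
  · intro w
    have h1 : (affH y (10 / R) hs).symm w = y + (10 / R)⁻¹ • w := rfl
    simp only [OpenPartialHomeomorph.transHomeomorph_symm_apply,
      OpenPartialHomeomorph.coe_trans_symm, OpenPartialHomeomorph.ofSet_symm, Function.comp_apply,
      h1]
    rw [show (10 / R)⁻¹ = R / 10 by rw [inv_div]]
    rfl

variable {k m : ℕ}

/-- the affine homeomorphism of a product -/
noncomputable def affP (u : Cn k) (y : Cn m) (s s' : ℝ) (hs : s ≠ 0) (hs' : s' ≠ 0) :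
    Cn (k + m) ≃ₜ Cn (k + m) :=
  ((splitE k m).toHomeomorph.trans ((affH u s hs).prodCongr (affH y s' hs'))).trans
    (splitE k m).symm.toHomeomorph

theorem affP_apply (u : Cn k) (y : Cn m) (s s' : ℝ) (hs : s ≠ 0) (hs' : s' ≠ 0)
    (w : Cn (k + m)) : affP u y s s' hs hs' w = joinC (s • (fstC w - u)) (s' • (sndC w - y)) := rfl

theorem affP_symm_apply (u : Cn k) (y : Cn m) (s s' : ℝ) (hs : s ≠ 0) (hs' : s' ≠ 0)
    (w : Cn (k + m)) :
    (affP u y s s' hs hs').symm w = joinC (u + s⁻¹ • fstC w) (y + s'⁻¹ • sndC w) := rfl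

/-- the chart `E`, restricted to a product of polydiscs and scaled to the radius `10` -/
theorem exists_box (E : OpenPartialHomeomorph X (Cn (k + m))) (u : Cn k) (y : Cn m) {r R : ℝ}
    (hr : 0 < r) (hR : 0 < R)
    (h : ∀ w : Cn (k + m), fstC w - u ∈ opd r → sndC w - y ∈ opd R → w ∈ E.target) :
    ∃ E' : OpenPartialHomeomorph X (Cn (k + m)),
      E'.target = {z | fstC z ∈ (opd 10 : Set (Cn k)) ∧ sndC z ∈ (opd 10 : Set (Cn m))} ∧
      (∀ p, p ∈ E'.source ↔ p ∈ E.source ∧ fstC (E p) - u ∈ opd r ∧ sndC (E p) - y ∈ opd R) ∧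
      (∀ p, E' p = joinC ((10 / r) • (fstC (E p) - u)) ((10 / R) • (sndC (E p) - y))) ∧
      ∀ w, E'.symm w = E.symm (joinC (u + (r / 10) • fstC w) (y + (R / 10) • sndC w)) := by
  have hs : 10 / r ≠ 0 := by positivity
  have hs' : 10 / R ≠ 0 := by positivity
  have hopen : IsOpen {w : Cn (k + m) | fstC w - u ∈ opd r ∧ sndC w - y ∈ opd R} :=
    ((isOpen_opd r).preimage (continuous_fstC.sub continuous_const)).inter
      ((isOpen_opd R).preimage (continuous_sndC.sub continuous_const))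
  refine ⟨((E.trans (OpenPartialHomeomorph.ofSet _ hopen)).transHomeomorph
    (affP u y _ _ hs hs')), ?_, ?_, ?_, ?_⟩
  · ext w
    simp only [OpenPartialHomeomorph.transHomeomorph_target, mem_preimage,
      OpenPartialHomeomorph.trans_target, OpenPartialHomeomorph.ofSet_target,
      OpenPartialHomeomorph.ofSet_symm, OpenPartialHomeomorph.ofSet_apply, mem_inter_iff,
      mem_ofPred_eq, id, affP_symm_apply, fstC_joinC, sndC_joinC]
    have h2 : u + (10 / r)⁻¹ • fstC w - u = (10 / r)⁻¹ • fstC w := by abel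
    have h2' : y + (10 / R)⁻¹ • sndC w - y = (10 / R)⁻¹ • sndC w := by abel
    have h3 : (10 / r)⁻¹ • fstC w ∈ (opd r : Set (Cn k)) ↔ fstC w ∈ (opd 10 : Set (Cn k)) := by
      have h4 := smul_mem_opd (c := (10 / r)⁻¹) (r := 10) (u := (fstC w : Cn k)) (by positivity)
      have h5 : (10 / r)⁻¹ * 10 = r := by field_simp
      rw [h5] at h4
      exact h4
    have h3' : (10 / R)⁻¹ • sndC w ∈ (opd R : Set (Cn m)) ↔ sndC w ∈ (opd 10 : Set (Cn m)) := by
      have h4 := smul_mem_opd (c := (10 / R)⁻¹) (r := 10) (u := (sndC w : Cn m)) (by positivity)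
      have h5 : (10 / R)⁻¹ * 10 = R := by field_simp
      rw [h5] at h4
      exact h4
    rw [h2, h2', h3, h3']
    constructor
    · exact fun h => h.1
    · intro hw
      refine ⟨hw, h _ ?_ ?_⟩
      · rw [fstC_joinC, h2, h3]
        exact hw.1
      · rw [sndC_joinC, h2', h3']
        exact hw.2
  · intro p
    simp
  · intro p
    rfl
  · intro w
    simp only [OpenPartialHomeomorph.transHomeomorph_symm_apply,
      OpenPartialHomeomorph.coe_trans_symm, OpenPartialHomeomorph.ofSet_symm, Function.comp_apply,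
      affP_symm_apply]
    rw [show (10 / r)⁻¹ = r / 10 by rw [inv_div], show (10 / R)⁻¹ = R / 10 by rw [inv_div]]
    rfl

end Box

/-! ### The local product chart -/

section Local

variable {M Y : Type} [TopologicalSpace M] [TopologicalSpace Y] {k m : ℕ} {κ P : Type}
  {e : κ → OpenPartialHomeomorph M (Cn (k + m))} {b : P → OpenPartialHomeomorph Y (Cn m)}
  {f : M → Y}

theorem isOpen_cdom {n : ℕ} {e : κ → OpenPartialHomeomorph M (Cn n)} (hf : Continuous f) (c : κ)
    (j : P) : IsOpen (cdom e b f c j) := by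
  have h := (e c).isOpen_inter_preimage_symm ((b j).open_source.preimage hf)
  exact h

theorem exists_local (he : IsAtlas e) (hf : IsSubmersion e b f) (j : P) (p : M)
    (hp : f p ∈ (b j).source) :
    ∃ (c : κ) (E : OpenPartialHomeomorph M (Cn (k + m))), p ∈ E.source ∧
      E.source ⊆ (e c).source ∧ (∀ q ∈ E.source, f q ∈ (b j).source) ∧
      (∀ q ∈ E.source, sndC (E q) = b j (f q)) ∧
      HolOn (fun w => e c (E.symm w)) E.target ∧
      HolOn (fun z => E ((e c).symm z)) {z | z ∈ (e c).target ∧ (e c).symm z ∈ E.source} := by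
  obtain ⟨c, hc⟩ := he.cover p
  set S := cdom e b f c j with hS
  have hSo : IsOpen S := isOpen_cdom hf.continuous c j
  set z₀ := e c p with hz₀
  have hsymm : (e c).symm z₀ = p := (e c).left_inv hc
  have hz : z₀ ∈ S := ⟨(e c).map_source hc, by rw [hsymm]; exact hp⟩
  obtain ⟨B, hBJ, hB⟩ := exists_compl (fderiv ℝ (cmap e b f c j) z₀) (hf.surj c j z₀ hz)
    (fun u => (hf.holo c j).2 z₀ hz u)
  have hBh : HolOn (fun z => B z) S := by
    have h := hol_affine B hBJ 0 S
    simpa using h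
  have hG : HolOn (fun z => joinC (B z) (cmap e b f c j z)) S := hol_join hSo hBh (hf.holo c j)
  have hG' : ∀ u, fderiv ℝ (fun z => joinC (B z) (cmap e b f c j z)) z₀ u =
      joinC (B u) (fderiv ℝ (cmap e b f c j) z₀ u) := by
    intro u
    have h1 := fderiv_join hSo hBh (hf.holo c j) hz u
    have h2 : fderiv ℝ (fun z => B z) z₀ = B := B.fderiv
    rw [h2] at h1
    exact h1
  obtain ⟨φ, hφ, hzφ, hsub, hφG⟩ := exists_bihol hSo hG hz (by
    have : ⇑(fderiv ℝ (fun z => joinC (B z) (cmap e b f c j z)) z₀) =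
        fun u => joinC (B u) (fderiv ℝ (cmap e b f c j) z₀ u) := funext hG'
    rw [this]
    exact hB)
  refine ⟨c, (e c).trans φ, ?_, ?_, ?_, ?_, ?_, ?_⟩
  · rw [OpenPartialHomeomorph.trans_source]
    exact ⟨hc, hzφ⟩
  · rw [OpenPartialHomeomorph.trans_source]
    exact inter_subset_left
  · intro q hq
    rw [OpenPartialHomeomorph.trans_source] at hq
    have h1 := (hsub hq.2).2
    rwa [(e c).left_inv hq.1] at h1
  · intro q hq
    rw [OpenPartialHomeomorph.trans_source] at hq
    rw [OpenPartialHomeomorph.coe_trans, Function.comp_apply, hφG, sndC_joinC]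
    unfold cmap
    rw [(e c).left_inv hq.1]
  · have h1 : ((e c).trans φ).target ⊆ φ.target := by
      rw [OpenPartialHomeomorph.trans_target]
      exact inter_subset_left
    refine hol_congr ((e c).trans φ).open_target (hol_mono hφ.symm h1) ?_
    intro w hw
    rw [OpenPartialHomeomorph.trans_target] at hw
    simp only [OpenPartialHomeomorph.coe_trans_symm, Function.comp_apply]
    exact (e c).right_inv hw.2
  · have h0 : {z | z ∈ (e c).target ∧ (e c).symm z ∈ ((e c).trans φ).source} =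
        (e c).target ∩ (e c).symm ⁻¹' ((e c).trans φ).source := rfl
    have h2 : IsOpen {z | z ∈ (e c).target ∧ (e c).symm z ∈ ((e c).trans φ).source} := by
      rw [h0]
      exact (e c).isOpen_inter_preimage_symm ((e c).trans φ).open_source
    have h1 : {z | z ∈ (e c).target ∧ (e c).symm z ∈ ((e c).trans φ).source} ⊆ φ.source := by
      rintro z ⟨hz1, hz2⟩
      rw [OpenPartialHomeomorph.trans_source] at hz2
      have h3 := hz2.2
      rwa [mem_preimage, (e c).right_inv hz1] at h3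
    refine hol_congr h2 (hol_mono hφ.holo h1) ?_
    rintro z ⟨hz1, hz2⟩
    simp only [OpenPartialHomeomorph.coe_trans, Function.comp_apply]
    rw [(e c).right_inv hz1]

theorem exists_pos_le {α : Type} (t : Finset α) (r : α → ℝ) (hr : ∀ a, 0 < r a) :
    ∃ R > 0, ∀ a ∈ t, R ≤ r a := by
  classical
  induction t using Finset.induction_on with
  | empty => exact ⟨1, one_pos, by simp⟩
  | insert a s _ ih =>
    obtain ⟨R, hR, h⟩ := ih
    refine ⟨min R (r a), lt_min hR (hr a), fun x hx => ?_⟩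
    rcases Finset.mem_insert.1 hx with rfl | hx
    · exact min_le_right _ _
    · exact (min_le_left _ _).trans (h x hx)

/-- the product charts over a small neighbourhood of the point `y` -/
structure Data (e : κ → OpenPartialHomeomorph M (Cn (k + m)))
    (b : P → OpenPartialHomeomorph Y (Cn m)) (f : M → Y) (y : Y) where
  ι : Type
  fin : Finite ι
  j : P
  B : OpenPartialHomeomorph Y (Cn m)
  E : ι → OpenPartialHomeomorph M (Cn (k + m))
  σ : ι → κ
  target_B : B.target = opd 10
  mem_B : y ∈ B.source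
  B_zero : B y = 0
  sub_B : B.source ⊆ (b j).source
  aff : ∃ (y₀ : Cn m) (r : ℝ), 0 < r ∧ ∀ w ∈ B.target, b j (B.symm w) = y₀ + r • w
  target_E : ∀ i, (E i).target =
    {z | fstC z ∈ (opd 10 : Set (Cn k)) ∧ sndC z ∈ (opd 10 : Set (Cn m))}
  proj : ∀ i, ∀ p ∈ (E i).source, f p ∈ B.source ∧ B (f p) = sndC (E i p)
  cover : ∀ p, f p ∈ B.source → ∃ i, p ∈ (E i).source ∧ fstC (E i p) ∈ (cpd 1 : Set (Cn k))
  sub_E : ∀ i, (E i).source ⊆ (e (σ i)).source
  holo : ∀ i, HolOn (fun w => e (σ i) ((E i).symm w)) (E i).target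
  holo' : ∀ i, HolOn (fun z => E i ((e (σ i)).symm z))
    {z | z ∈ (e (σ i)).target ∧ (e (σ i)).symm z ∈ (E i).source}
  mem_range : ι → y ∈ range f

theorem exists_data [CompactSpace M] [T2Space Y] (he : IsAtlas e)
    (hb : ∀ y, ∃ j, y ∈ (b j).source) (hf : IsSubmersion e b f) (y : Y) :
    Nonempty (Data e b f y) := by
  classical
  obtain ⟨j, hj⟩ := hb y
  have hloc : ∀ p : {p // f p = y}, ∃ (c : κ) (E : OpenPartialHomeomorph M (Cn (k + m))),
      (p : M) ∈ E.source ∧
      E.source ⊆ (e c).source ∧ (∀ q ∈ E.source, f q ∈ (b j).source) ∧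
      (∀ q ∈ E.source, sndC (E q) = b j (f q)) ∧
      HolOn (fun w => e c (E.symm w)) E.target ∧
      HolOn (fun z => E ((e c).symm z)) {z | z ∈ (e c).target ∧ (e c).symm z ∈ E.source} :=
    fun p => exists_local he hf j p.1 (by rw [p.2]; exact hj)
  choose c E hpE hEc hEb hEs hh hh' using hloc
  have hrad : ∀ p : {p // f p = y}, ∃ r > 0, ∀ w : Cn (k + m),
      fstC w - fstC (E p p.1) ∈ (opd r : Set (Cn k)) →
      sndC w - sndC (E p p.1) ∈ (opd r : Set (Cn m)) → w ∈ (E p).target :=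
    fun p => exists_opd_prod (E p).open_target ((E p).map_source (hpE p))
  choose r hr hrE using hrad
  set y₀ := b j y with hy₀
  have hsnd : ∀ p : {p // f p = y}, sndC (E p p.1) = y₀ := fun p => by
    rw [hEs p _ (hpE p), p.2]
  set W : {p // f p = y} → Set M := fun p => (E p).source ∩ (E p) ⁻¹'
    {w | fstC w - fstC (E p p.1) ∈ (opd (r p / 10) : Set (Cn k)) ∧
      sndC w - y₀ ∈ (opd (r p) : Set (Cn m))} with hW
  have hWo : ∀ p, IsOpen (W p) := fun p => (E p).isOpen_inter_preimage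
    (((isOpen_opd _).preimage (continuous_fstC.sub continuous_const)).inter
      ((isOpen_opd _).preimage (continuous_sndC.sub continuous_const)))
  have hpW : ∀ p, (p : M) ∈ W p := fun p => ⟨hpE p, by
    show fstC (E p p.1) - fstC (E p p.1) ∈ _ ∧ sndC (E p p.1) - y₀ ∈ _
    rw [hsnd, sub_self, sub_self]
    exact ⟨zero_mem_opd (by have := hr p; positivity), zero_mem_opd (hr p)⟩⟩
  have hcomp : IsCompact (f ⁻¹' {y}) := (isClosed_singleton.preimage hf.continuous).isCompact
  obtain ⟨t, ht⟩ := hcomp.elim_finite_subcover W hWo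
    (fun p hp => mem_iUnion.2 ⟨⟨p, hp⟩, hpW ⟨p, hp⟩⟩)
  set W' : Set M := ⋃ p ∈ t, W p with hW'
  have hW'o : IsOpen W' := isOpen_biUnion fun p _ => hWo p
  set V : Set Y := (f '' W'ᶜ)ᶜ with hV
  have hVo : IsOpen V := (hW'o.isClosed_compl.isCompact.image hf.continuous).isClosed.isOpen_compl
  have hyV : y ∈ V := by
    rintro ⟨q, hq, hqy⟩
    exact hq (ht hqy)
  have hVW : ∀ p, f p ∈ V → p ∈ W' := by
    intro p hp
    by_contra h
    exact hp ⟨p, h, rfl⟩
  obtain ⟨R₀, hR₀, hR₀V⟩ := exists_opd ((b j).isOpen_inter_preimage_symm hVo)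
    (y := y₀) ⟨(b j).map_source hj, by rw [mem_preimage, hy₀, (b j).left_inv hj]; exact hyV⟩
  obtain ⟨R₁, hR₁, hR₁r⟩ := exists_pos_le t r hr
  set R := min R₀ R₁ with hR
  have hRpos : 0 < R := lt_min hR₀ hR₁
  have hRV : ∀ w : Cn m, w - y₀ ∈ opd R → w ∈ (b j).target ∧ (b j).symm w ∈ V := fun w hw =>
    hR₀V w (opd_mono hRpos.le (min_le_left _ _) hw)
  have hRr : ∀ p ∈ t, R ≤ r p := fun p hp => (min_le_right _ _).trans (hR₁r p hp)
  obtain ⟨B, hBt, hBs, hBv, hBsymm⟩ := exists_base (b j) y₀ hRpos fun w hw => (hRV w hw).1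
  have hbox : ∀ p : {p : {p // f p = y} // p ∈ t}, ∃ E' : OpenPartialHomeomorph M (Cn (k + m)),
      E'.target = {z | fstC z ∈ (opd 10 : Set (Cn k)) ∧ sndC z ∈ (opd 10 : Set (Cn m))} ∧
      (∀ q, q ∈ E'.source ↔ q ∈ (E p).source ∧
        fstC (E p q) - fstC (E p p.1.1) ∈ (opd (r p) : Set (Cn k)) ∧ sndC (E p q) - y₀ ∈ opd R) ∧
      (∀ q, E' q = joinC ((10 / r p) • (fstC (E p q) - fstC (E p p.1.1)))
        ((10 / R) • (sndC (E p q) - y₀))) ∧
      ∀ w, E'.symm w = (E p).symm (joinC (fstC (E p p.1.1) + (r p / 10) • fstC w)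
        (y₀ + (R / 10) • sndC w)) := fun p =>
    exists_box (E p) _ y₀ (hr p) hRpos fun w hw1 hw2 => hrE p w hw1 (by
      rw [hsnd]
      exact opd_mono hRpos.le (hRr p.1 p.2) hw2)
  choose E' hE't hE's hE'v hE'symm using hbox
  refine ⟨⟨{p : {p // f p = y} // p ∈ t}, inferInstance, j, B, E', fun p => c p, hBt, ?_, ?_, ?_,
    ?_, hE't, ?_, ?_, ?_, ?_, ?_, fun p => ⟨p.1.1, p.1.2⟩⟩⟩
  · rw [hBs]
    refine ⟨hj, ?_⟩
    rw [← hy₀, sub_self]
    exact zero_mem_opd hRpos
  · rw [hBv, ← hy₀, sub_self, smul_zero]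
  · intro q hq
    exact ((hBs q).1 hq).1
  · refine ⟨y₀, R / 10, by positivity, fun w hw => ?_⟩
    rw [hBsymm, (b j).right_inv]
    apply (hRV _ _).1
    rw [add_sub_cancel_left]
    have h4 := smul_mem_opd (c := R / 10) (r := 10) (u := w) (by positivity)
    have h5 : R / 10 * 10 = R := by ring
    rw [h5] at h4
    rw [h4, ← hBt]
    exact hw
  · intro i p hp
    rw [hE's] at hp
    obtain ⟨h1, -, h3⟩ := hp
    rw [hEs i p h1] at h3
    refine ⟨(hBs _).2 ⟨hEb i p h1, h3⟩, ?_⟩
    rw [hBv, hE'v, sndC_joinC, hEs i p h1]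
  · intro p hp
    rw [hBs] at hp
    have h1 : p ∈ W' := by
      apply hVW
      have h2 := (hRV _ hp.2).2
      rwa [(b j).left_inv hp.1] at h2
    obtain ⟨q, hq, hpq⟩ := mem_iUnion₂.1 h1
    obtain ⟨h2, h3⟩ := hpq
    have h3' : fstC (E q p) - fstC (E q q.1) ∈ (opd (r q / 10) : Set (Cn k)) := h3.1
    refine ⟨⟨q, hq⟩, (hE's ⟨q, hq⟩ p).2 ⟨h2, ?_, ?_⟩, ?_⟩
    · exact opd_mono (by have := hr q; positivity) (by have := hr q; linarith) h3'
    · rw [hEs q p h2]
      exact hp.2
    · rw [hE'v, fstC_joinC]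
      have h4 := smul_mem_cpd (c := 10 / r q) (r := r q / 10)
        (u := (fstC (E q p) - fstC (E q q.1) : Cn k)) (by have := hr q; positivity)
      have h5 : 10 / r q * (r q / 10) = 1 := by
        have := (hr q).ne'
        field_simp
      rw [h5] at h4
      exact h4.2 (opd_subset_cpd _ h3')
  · intro i q hq
    exact hEc i (((hE's i q).1 hq).1)
  · intro i
    have h1 : (fun w => e (c i) ((E' i).symm w)) = fun w => e (c i) ((E i).symm
        (joinC (fstC (E i i.1.1) + (r i / 10) • fstC w) (y₀ + (R / 10) • sndC w))) := by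
      funext w
      rw [hE'symm]
    show HolOn (fun w => e (c i) ((E' i).symm w)) (E' i).target
    rw [h1]
    have h2 : HolOn (fun w : Cn (k + m) => joinC (fstC (E i i.1.1) + (r i / 10) • fstC w)
        (y₀ + (R / 10) • sndC w)) (E' i).target := by
      refine hol_join (E' i).open_target ?_ ?_
      · exact hol_add_smul (E' i).open_target (hol_fstC _) _ _
      · exact hol_add_smul (E' i).open_target (hol_sndC _) _ _
    refine hol_comp (E' i).open_target (E i).open_target (hh i) h2 ?_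
    intro w hw
    rw [hE't] at hw
    refine hrE i _ ?_ ?_
    · rw [fstC_joinC, add_sub_cancel_left]
      have h4 := smul_mem_opd (c := r i / 10) (r := 10) (u := (fstC w : Cn k))
        (by have := hr i; positivity)
      have h5 : r i / 10 * 10 = r i := by ring
      rw [h5] at h4
      exact h4.2 hw.1
    · rw [hsnd, sndC_joinC, add_sub_cancel_left]
      have h4 := smul_mem_opd (c := R / 10) (r := 10) (u := (sndC w : Cn m))
        (by positivity)
      have h5 : R / 10 * 10 = R := by ring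
      rw [h5] at h4
      exact opd_mono hRpos.le (hRr i.1 i.2) (h4.2 hw.2)
  · intro i
    have h1 : (fun z => E' i ((e (c i)).symm z)) = fun z =>
        joinC ((10 / r i) • (fstC (E i ((e (c i)).symm z)) - fstC (E i i.1.1)))
        ((10 / R) • (sndC (E i ((e (c i)).symm z)) - y₀)) := by
      funext z
      rw [hE'v]
    set D : Set (Cn (k + m)) := {z | z ∈ (e (c i)).target ∧ (e (c i)).symm z ∈ (E' i).source}
      with hD
    have hDo : IsOpen D := (e (c i)).isOpen_inter_preimage_symm (E' i).open_source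
    have h3 : HolOn (fun z => E i ((e (c i)).symm z)) D :=
      hol_mono (hh' i) fun z hz => ⟨hz.1, ((hE's i _).1 hz.2).1⟩
    show HolOn (fun z => E' i ((e (c i)).symm z)) D
    rw [h1]
    refine hol_join hDo ?_ ?_
    · have h4 : (fun z => (10 / r i) • (fstC (E i ((e (c i)).symm z)) - fstC (E i i.1.1))) =
          fun z => (-((10 / r i) • fstC (E i i.1.1)) : Cn k) +
            (10 / r i) • fstC (E i ((e (c i)).symm z)) := by
        funext z
        rw [smul_sub]
        abel
      rw [h4]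
      exact hol_add_smul hDo (hol_comp (G := fstC) hDo isOpen_univ (hol_fstC univ) h3
        (mapsTo_univ _ _)) _ _
    · have h4 : (fun z => (10 / R) • (sndC (E i ((e (c i)).symm z)) - y₀)) =
          fun z => (-((10 / R) • y₀) : Cn m) +
            (10 / R) • sndC (E i ((e (c i)).symm z)) := by
        funext z
        rw [smul_sub]
        abel
      rw [h4]
      exact hol_add_smul hDo (hol_comp (G := sndC) hDo isOpen_univ (hol_sndC univ) h3
        (mapsTo_univ _ _)) _ _

end Local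

end NT

section Top

variable {M Y : Type} [TopologicalSpace M] [CompactSpace M] [TopologicalSpace Y]
  [T2Space Y] {k m : ℕ} {κ P : Type} {e : κ → OpenPartialHomeomorph M (Cn (k + m))}
  {b : P → OpenPartialHomeomorph Y (Cn m)} {f : M → Y}

theorem exists_product_charts (he : IsAtlas e) (hb : IsAtlas b) (hf : IsSubmersion e b f)
    (hconn : ∀ y, IsPreconnected (f ⁻¹' {y})) :
    ∃ (κ' P' : Type) (_ : Finite κ') (e' : κ' → OpenPartialHomeomorph M (Cn (k + m)))
      (b' : P' → OpenPartialHomeomorph Y (Cn m)) (pc : κ' → P') (σ : κ' → κ) (ρ : P' → P),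
      IsFibration e' b' pc f ∧ IsRefinement e e' σ ∧ (∀ j, (b' j).source ⊆ (b (ρ j)).source) ∧
      (∀ j, ∃ (y₀ : Cn m) (r : ℝ), 0 < r ∧ ∀ w ∈ (b' j).target,
        b (ρ j) ((b' j).symm w) = y₀ + r • w) := by
  classical
  have D : ∀ y : Y, NT.Data e b f y := fun y => (NT.exists_data he hb.cover hf y).some
  -- the unit parts
  set U : Y → Set Y := fun y => (D y).B.source ∩ (D y).B ⁻¹' (opd 1) with hU
  have hUo : ∀ y, IsOpen (U y) := fun y => (D y).B.isOpen_inter_preimage (NT.isOpen_opd 1)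
  have hyU : ∀ y, y ∈ U y := fun y => ⟨(D y).mem_B, by
    rw [mem_preimage, (D y).B_zero]
    exact NT.zero_mem_opd one_pos⟩
  obtain ⟨t, ht⟩ := (isCompact_range hf.continuous).elim_finite_subcover U hUo
    (fun y _ => mem_iUnion.2 ⟨y, hyU y⟩)
  -- the index sets
  let P' : Type := {y : Y // y ∈ t ∨ y ∉ range f}
  let κ' : Type := Σ y : {y : Y // y ∈ t}, (D y).ι
  have : ∀ y : {y : Y // y ∈ t}, Finite (D y).ι := fun y => (D y).fin
  have hfin : Finite κ' := inferInstance
  have hinc : ∀ y : {y : Y // y ∈ t}, y.1 ∈ t ∨ y.1 ∉ range f := fun y => Or.inl y.2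
  refine ⟨κ', P', hfin, fun c => (D c.1).E c.2, fun j => (D j.1).B,
    fun c => ⟨c.1.1, hinc c.1⟩, fun c => (D c.1).σ c.2, fun j => (D j.1).j, ?_, ?_, ?_, ?_⟩
  · refine ⟨fun j => (D j.1).target_B, ?_, fun c => (D c.1).target_E c.2, ?_, ?_, hconn⟩
    · intro y
      by_cases hy : y ∈ range f
      · obtain ⟨z, hz, hyz⟩ := mem_iUnion₂.1 (ht hy)
        exact ⟨⟨z, Or.inl hz⟩, hyz.1, NT.opd_subset_cpd _ hyz.2⟩
      · refine ⟨⟨y, Or.inr hy⟩, (D y).mem_B, ?_⟩
        show (D y).B y ∈ cpd 1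
        rw [(D y).B_zero]
        exact NT.zero_mem_cpd 1
    · intro c p hp
      exact (D c.1).proj c.2 p hp
    · intro j p hp
      obtain ⟨i, hi1, hi2⟩ := (D j.1).cover p hp
      rcases j with ⟨y, hy | hy⟩
      · exact ⟨⟨⟨y, hy⟩, i⟩, rfl, hi1, hi2⟩
      · exact absurd ((D y).mem_range i) hy
  · refine ⟨?_, fun c => (D c.1).sub_E c.2, fun c => (D c.1).holo c.2, fun c => (D c.1).holo' c.2⟩
    intro p
    obtain ⟨z, hz, hyz⟩ := mem_iUnion₂.1 (ht (mem_range_self p))
    obtain ⟨i, hi1, -⟩ := (D z).cover p hyz.1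
    exact ⟨⟨⟨z, hz⟩, i⟩, hi1⟩
  · exact fun j => (D j.1).sub_B
  · exact fun j => (D j.1).aff

end Top

end Pool.Agent.KRFF
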