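import Pool.Agent.Work.MP_a2bf38_gt.I.Defs
import Pool.Agent.Work.MP_a2bf38_gt.H.Chain

/-!
# The setup of a Kähler-Ricci flow with semi-positive limit class
-/

open scoped ContDiff ENNReal ComplexOrder
open Set Pool.Agent.ToricKRF Pool.Agent.ToricKRF.G Pool.Agent.KRFS

namespace Pool.Agent.KRFF

/-- the point `(u, y)` -/
def joinC {k m : ℕ} (u : Cn k) (y : Cn m) : Cn (k + m) :=
  (Fin.append u.1 y.1, Fin.append u.2 y.2)

/-- A Kähler-Ricci flow with a semi-positive form `i ∂ ∂bar Θ` in the limit class. -/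
structure Flow (n : ℕ) (M : Type) [TopologicalSpace M] (κ : Type) (T : ℝ) where
  e : κ → OpenPartialHomeomorph M (Cn n)
  ψ : κ → ℝ × Cn n → ℝ
  Ω : κ → Cn n → ℝ
  Θ : κ → Cn n → ℝ
  atlas : IsAtlas e
  krf : IsKRF e T ψ
  vol : IsVolume e ψ Ω
  smooth : ∀ c, ContDiffOn ℝ ∞ (Θ c) (e c).target
  psh : ∀ c, ∀ z ∈ (e c).target, ∀ u, 0 ≤ levz (Θ c) u z
  theta : ∀ c, ∀ z ∈ (e c).target, ∀ u,
    lev (ψ c) u (0, z) + T * levz (fun z => Real.log (Ω c z)) u z = levz (Θ c) u z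

section

variable {n : ℕ} {M : Type} [TopologicalSpace M] {κ : Type} {T : ℝ} (F : Flow n M κ T)

/-- `φ = ψ(t) - ψ(0) - t log Ω` in the chart `c` -/
noncomputable def Flow.phi (c : κ) : ℝ × Cn n → ℝ := fun q =>
  F.ψ c q - F.ψ c (0, q.2) - q.1 * Real.log (F.Ω c q.2)

/-- `φ' = log (ω(t)^n / Ω)` -/
noncomputable def Flow.dphi (c : κ) : ℝ × Cn n → ℝ := fun q =>
  Real.log (cHess (F.ψ c) q).det.re - Real.log (F.Ω c q.2)

/-- `φ` as a function on `M` -/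
noncomputable def Flow.Phi (t : ℝ) (p : M) : ℝ := glob F.atlas F.phi (t, p)

/-- the estimate on which everything depends: `φ(t₀) - φ(t) ≤ C (T - t₀)^a` for `t ≥ t₀` -/
def Flow.Drop (a : ℝ) : Prop := ∃ C : ℝ, 0 ≤ C ∧ ∀ t₀ ∈ Ico 0 T, ∀ t ∈ Ico t₀ T, ∀ p,
  F.Phi t₀ p - F.Phi t p ≤ C * (T - t₀) ^ a

end

/-- A Kähler-Ricci flow on a fibration. -/
structure Fib (k m : ℕ) (M Y : Type) [TopologicalSpace M] [TopologicalSpace Y] (κ P : Type)
    (T : ℝ) extends Flow (k + m) M κ T where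
  b : P → OpenPartialHomeomorph Y (Cn m)
  pc : κ → P
  f : M → Y
  K : P → Cn m → ℝ
  fib : IsFibration e b pc f
  lim : IsFibreLimit e pc T ψ Ω K
  Θ_eq : ∀ c, Θ c = fun z => K (pc c) (sndC z)

/-- the Laplacian -/
noncomputable def lapC (G : ℂ → ℝ) (z : ℂ) : ℝ :=
  D (1 : ℂ) (D (1 : ℂ) G) z + D Complex.I (D Complex.I G) z

/-- the average over the circle of radius `r` -/
noncomputable def cavg (G : ℂ → ℝ) (r : ℝ) : ℝ :=
  (2 * Real.pi)⁻¹ * ∫ θ in (0 : ℝ)..2 * Real.pi, G (r * Complex.exp (θ * Complex.I))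

/-- the point `z + ζ v` -/
def line {n : ℕ} (z v : Cn n) (ζ : ℂ) : Cn n := z + ζ.re • v + ζ.im • J v

end Pool.Agent.KRFF
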