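import Pool.Agent.Work.MP_a2bf38_gt.I.Setup
import Pool.Agent.Work.MP_a2bf38_gt.H.BoundCalc

/-!
# Section 6, preparations: linear algebra, polydiscs, measures
-/

open scoped ContDiff ENNReal ComplexOrder Topology
open Set MeasureTheory Filter Pool.Agent.ToricKRF Pool.Agent.ToricKRF.G Pool.Agent.KRFS

namespace Pool.Agent.KRFF

namespace Gap

section lin

variable {k m : ℕ}

theorem fstC_joinC (u : Cn k) (y : Cn m) : fstC (joinC u y) = u := by
  ext i <;> simp [fstC, joinC]

theorem sndC_joinC (u : Cn k) (y : Cn m) : sndC (joinC u y) = y := by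
  ext i <;> simp [sndC, joinC]

theorem joinC_fst_snd (z : Cn (k + m)) : joinC (fstC z) (sndC z) = z := by
  apply Prod.ext
  · funext i
    refine Fin.addCases (fun i => ?_) (fun i => ?_) i <;> simp [joinC, fstC, sndC]
  · funext i
    refine Fin.addCases (fun i => ?_) (fun i => ?_) i <;> simp [joinC, fstC, sndC]

theorem joinC_add (u u' : Cn k) (y y' : Cn m) :
    joinC (u + u') (y + y') = joinC u y + joinC u' y' := by
  apply Prod.ext
  · funext i
    refine Fin.addCases (fun i => ?_) (fun i => ?_) i <;> simp [joinC]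
  · funext i
    refine Fin.addCases (fun i => ?_) (fun i => ?_) i <;> simp [joinC]

theorem joinC_smul (r : ℝ) (u : Cn k) (y : Cn m) : joinC (r • u) (r • y) = r • joinC u y := by
  apply Prod.ext
  · funext i
    refine Fin.addCases (fun i => ?_) (fun i => ?_) i <;> simp [joinC]
  · funext i
    refine Fin.addCases (fun i => ?_) (fun i => ?_) i <;> simp [joinC]

theorem J_joinC (u : Cn k) (y : Cn m) : J (joinC u y) = joinC (J u) (J y) := by
  apply Prod.ext
  · funext i
    refine Fin.addCases (fun i => ?_) (fun i => ?_) i <;> simp [joinC, J]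
  · funext i
    refine Fin.addCases (fun i => ?_) (fun i => ?_) i <;> simp [joinC, J]

/-- `(u, y) ↦ joinC u y` -/
noncomputable def jl (k m : ℕ) : (Cn k × Cn m) ≃L[ℝ] Cn (k + m) :=
  LinearEquiv.toContinuousLinearEquiv
    { toFun := fun q => joinC q.1 q.2
      map_add' := fun q q' => joinC_add _ _ _ _
      map_smul' := fun r q => joinC_smul _ _ _
      invFun := fun z => (fstC z, sndC z)
      left_inv := fun q => by simp [fstC_joinC, sndC_joinC]
      right_inv := fun z => joinC_fst_snd z }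

theorem jl_apply (q : Cn k × Cn m) : jl k m q = joinC q.1 q.2 := rfl

theorem jl_symm_apply (z : Cn (k + m)) : (jl k m).symm z = (fstC z, sndC z) := rfl

/-- `u ↦ joinC u 0` -/
noncomputable def Il (k m : ℕ) : Cn k →L[ℝ] Cn (k + m) :=
  (jl k m : Cn k × Cn m →L[ℝ] Cn (k + m)).comp (ContinuousLinearMap.inl ℝ (Cn k) (Cn m))

/-- `sndC` -/
noncomputable def Sl (k m : ℕ) : Cn (k + m) →L[ℝ] Cn m :=
  (ContinuousLinearMap.snd ℝ (Cn k) (Cn m)).comp ((jl k m).symm : Cn (k + m) →L[ℝ] Cn k × Cn m)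

theorem Il_apply (u : Cn k) : Il k m u = joinC u 0 := rfl

theorem Sl_apply (z : Cn (k + m)) : Sl k m z = sndC z := rfl

theorem joinC_eq (u : Cn k) (y : Cn m) : joinC u y = Il k m u + joinC 0 y := by
  rw [Il_apply, ← joinC_add, add_zero, zero_add]

theorem continuous_fstC : Continuous (fstC : Cn (k + m) → Cn k) :=
  continuous_fst.comp (jl k m).symm.continuous

theorem continuous_sndC : Continuous (sndC : Cn (k + m) → Cn m) :=
  continuous_snd.comp (jl k m).symm.continuous

theorem contDiff_sndC : ContDiff ℝ ∞ (sndC : Cn (k + m) → Cn m) := (Sl k m).contDiff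

theorem contDiff_joinC : ContDiff ℝ ∞ (fun q : Cn k × Cn m => joinC q.1 q.2) :=
  (jl k m : Cn k × Cn m →L[ℝ] Cn (k + m)).contDiff

theorem fderiv_joinC (y : Cn m) (u w : Cn k) :
    fderiv ℝ (fun u => joinC u y) u w = joinC w 0 := by
  have h : HasFDerivAt (fun u : Cn k => joinC u y) (Il k m) u := by
    have h1 : (fun u : Cn k => joinC u y) = fun u => Il k m u + joinC 0 y := by
      funext u
      exact joinC_eq u y
    rw [h1]
    exact (Il k m).hasFDerivAt.add_const _
  rw [h.fderiv, Il_apply]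

theorem holOn_joinC (y : Cn m) : HolOn (fun u : Cn k => joinC u y) univ := by
  refine ⟨(contDiff_joinC.comp (contDiff_id.prodMk contDiff_const)).contDiffOn, fun z _ u => ?_⟩
  rw [fderiv_joinC, fderiv_joinC, J_joinC]
  have h0 : J (0 : Cn m) = 0 := by
    apply Prod.ext <;> simp [J]
  rw [h0]

theorem fderiv_sndC (z w : Cn (k + m)) : fderiv ℝ (sndC : Cn (k + m) → Cn m) z w = sndC w := by
  have h : HasFDerivAt (sndC : Cn (k + m) → Cn m) (Sl k m) z := (Sl k m).hasFDerivAt
  rw [h.fderiv, Sl_apply]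

theorem holOn_sndC (S : Set (Cn (k + m))) : HolOn (sndC : Cn (k + m) → Cn m) S :=
  ⟨contDiff_sndC.contDiffOn, fun z _ u => by rw [fderiv_sndC, fderiv_sndC]; rfl⟩

end lin

/-! ### `nsq` -/

section nsq

variable {n : ℕ}

theorem nsq_eq (z : Cn n) : nsq z = ∑ i, (z.1 i ^ 2 + z.2 i ^ 2) := by
  unfold nsq dotProduct
  rw [← Finset.sum_add_distrib]
  exact Finset.sum_congr rfl fun i _ => by ring

theorem nsq_nonneg (z : Cn n) : 0 ≤ nsq z := by
  rw [nsq_eq]
  exact Finset.sum_nonneg fun i _ => by positivity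

theorem nsq_zero : nsq (0 : Cn n) = 0 := by
  simp [nsq]

theorem nsq_pos {z : Cn n} (hz : z ≠ 0) : 0 < nsq z := by
  rcases (nsq_nonneg z).lt_or_eq with h | h
  · exact h
  · exfalso
    apply hz
    rw [nsq_eq] at h
    have h1 := (Finset.sum_eq_zero_iff_of_nonneg (fun i _ => by positivity)).1 h.symm
    apply Prod.ext
    · funext i
      have := h1 i (Finset.mem_univ i)
      have h2 : z.1 i ^ 2 = 0 := by nlinarith [sq_nonneg (z.1 i), sq_nonneg (z.2 i)]
      simpa using h2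
    · funext i
      have := h1 i (Finset.mem_univ i)
      have h2 : z.2 i ^ 2 = 0 := by nlinarith [sq_nonneg (z.1 i), sq_nonneg (z.2 i)]
      simpa using h2

theorem le_nsq (z : Cn n) (i : Fin n) : z.1 i ^ 2 + z.2 i ^ 2 ≤ nsq z := by
  rw [nsq_eq]
  exact Finset.single_le_sum (f := fun i => z.1 i ^ 2 + z.2 i ^ 2) (fun i _ => by positivity)
    (Finset.mem_univ i)

theorem nsq_J (z : Cn n) : nsq (J z) = nsq z := by
  rw [nsq_eq, nsq_eq]
  refine Finset.sum_congr rfl fun i _ => ?_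
  simp [J]
  ring

theorem contDiff_nsq' : ContDiff ℝ ∞ (nsq (n := n)) := by
  unfold nsq dotProduct
  fun_prop

theorem D_D_nsq (z₀ w z : Cn n) : D w (D w fun x => nsq (x - z₀)) z = 2 * nsq w := by
  have h1 : ∀ x : Cn n, HasFDerivAt (fun x : Cn n => nsq (x - z₀))
      (∑ i, ((2 * (x.1 i - z₀.1 i)) • ((ContinuousLinearMap.proj i).comp
        (ContinuousLinearMap.fst ℝ (Fin n → ℝ) (Fin n → ℝ))) +
        (2 * (x.2 i - z₀.2 i)) • ((ContinuousLinearMap.proj i).comp
        (ContinuousLinearMap.snd ℝ (Fin n → ℝ) (Fin n → ℝ))))) x := by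
    intro x
    have h2 : (fun x : Cn n => nsq (x - z₀)) =
        fun x => ∑ i, ((x.1 i - z₀.1 i) ^ 2 + (x.2 i - z₀.2 i) ^ 2) := by
      funext x
      rw [nsq_eq]
      rfl
    rw [h2]
    apply HasFDerivAt.fun_sum
    intro i _
    have a1 : HasFDerivAt (fun x : Cn n => x.1 i - z₀.1 i) ((ContinuousLinearMap.proj i).comp
        (ContinuousLinearMap.fst ℝ (Fin n → ℝ) (Fin n → ℝ))) x :=
      (((ContinuousLinearMap.proj i).comp
        (ContinuousLinearMap.fst ℝ (Fin n → ℝ) (Fin n → ℝ))) : Cn n →L[ℝ] ℝ).hasFDerivAt.sub_const _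
    have a2 : HasFDerivAt (fun x : Cn n => x.2 i - z₀.2 i) ((ContinuousLinearMap.proj i).comp
        (ContinuousLinearMap.snd ℝ (Fin n → ℝ) (Fin n → ℝ))) x :=
      (((ContinuousLinearMap.proj i).comp
        (ContinuousLinearMap.snd ℝ (Fin n → ℝ) (Fin n → ℝ))) : Cn n →L[ℝ] ℝ).hasFDerivAt.sub_const _
    have b1 := a1.pow 2
    have b2 := a2.pow 2
    convert b1.add b2 using 2 <;> simp
  have h3 : D w (fun x => nsq (x - z₀)) =
      fun x => ∑ i, (2 * (x.1 i - z₀.1 i) * w.1 i + 2 * (x.2 i - z₀.2 i) * w.2 i) := by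
    funext x
    unfold D
    rw [(h1 x).fderiv]
    simp
  rw [h3]
  have h4 : HasFDerivAt (fun x : Cn n => ∑ i, (2 * (x.1 i - z₀.1 i) * w.1 i +
      2 * (x.2 i - z₀.2 i) * w.2 i)) (∑ i, ((2 * w.1 i) • ((ContinuousLinearMap.proj i).comp
        (ContinuousLinearMap.fst ℝ (Fin n → ℝ) (Fin n → ℝ))) +
        (2 * w.2 i) • ((ContinuousLinearMap.proj i).comp
        (ContinuousLinearMap.snd ℝ (Fin n → ℝ) (Fin n → ℝ))))) z := by
    apply HasFDerivAt.fun_sum
    intro i _
    have a1 : HasFDerivAt (fun x : Cn n => x.1 i - z₀.1 i) ((ContinuousLinearMap.proj i).comp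
        (ContinuousLinearMap.fst ℝ (Fin n → ℝ) (Fin n → ℝ))) z :=
      (((ContinuousLinearMap.proj i).comp
        (ContinuousLinearMap.fst ℝ (Fin n → ℝ) (Fin n → ℝ))) : Cn n →L[ℝ] ℝ).hasFDerivAt.sub_const _
    have a2 : HasFDerivAt (fun x : Cn n => x.2 i - z₀.2 i) ((ContinuousLinearMap.proj i).comp
        (ContinuousLinearMap.snd ℝ (Fin n → ℝ) (Fin n → ℝ))) z :=
      (((ContinuousLinearMap.proj i).comp
        (ContinuousLinearMap.snd ℝ (Fin n → ℝ) (Fin n → ℝ))) : Cn n →L[ℝ] ℝ).hasFDerivAt.sub_const _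
    have b1 := a1.const_mul (2 * w.1 i)
    have b2 := a2.const_mul (2 * w.2 i)
    refine (b1.add b2).congr_of_eventuallyEq (Eventually.of_forall fun x => ?_)
    simp only [Pi.add_apply]
    ring
  unfold D
  rw [h4.fderiv, nsq_eq, Finset.mul_sum]
  simp only [FunLike.coe_sum, Finset.sum_apply]
  refine Finset.sum_congr rfl fun i _ => ?_
  simp
  ring

theorem levz_nsq (z₀ u z : Cn n) : levz (fun x => nsq (x - z₀)) u z = nsq u := by
  unfold levz
  rw [D_D_nsq, D_D_nsq, nsq_J]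
  ring

theorem levz_nsq' (u z : Cn n) : levz nsq u z = nsq u := by
  have h := levz_nsq 0 u z
  have h1 : (fun x : Cn n => nsq (x - 0)) = nsq := by
    funext x
    rw [sub_zero]
  rwa [h1] at h

end nsq

/-! ### polydiscs -/

section disc

variable {k m : ℕ}

theorem cpd_mono {a b : ℝ} (ha : 0 ≤ a) (h : a ≤ b) : cpd (k := k) a ⊆ cpd b := by
  intro u hu i
  have h1 := hu i
  have h2 : a ^ 2 ≤ b ^ 2 := pow_le_pow_left₀ ha h 2
  linarith

theorem cpd_subset_opd {a b : ℝ} (ha : 0 ≤ a) (h : a < b) : cpd (k := k) a ⊆ opd b := by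
  intro u hu i
  have h1 := hu i
  have h2 : a ^ 2 < b ^ 2 := pow_lt_pow_left₀ h ha (by norm_num)
  linarith

theorem opd_subset_cpd {a : ℝ} : opd (k := k) a ⊆ cpd a := fun _ hu i => (hu i).le

theorem isOpen_opd (r : ℝ) : IsOpen (opd (k := k) r) := by
  have h : opd (k := k) r = ⋂ i : Fin k, {u : Cn k | u.1 i ^ 2 + u.2 i ^ 2 < r ^ 2} := by
    ext u
    simp [opd]
  rw [h]
  exact isOpen_iInter_of_finite fun i => isOpen_lt (by fun_prop) (by fun_prop)

theorem isClosed_cpd (r : ℝ) : IsClosed (cpd (k := k) r) := by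
  have h : cpd (k := k) r = ⋂ i : Fin k, {u : Cn k | u.1 i ^ 2 + u.2 i ^ 2 ≤ r ^ 2} := by
    ext u
    simp [cpd]
  rw [h]
  exact isClosed_iInter fun i => isClosed_le (by fun_prop) (by fun_prop)

theorem isCompact_cpd (r : ℝ) : IsCompact (cpd (k := k) r) := by
  refine Metric.isCompact_of_isClosed_isBounded (isClosed_cpd r) ?_
  refine (Metric.isBounded_closedBall (x := (0 : Cn k)) (r := |r|)).subset fun u hu => ?_
  rw [mem_closedBall_zero_iff, norm_prod_le_iff, pi_norm_le_iff_of_nonneg (abs_nonneg r),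
    pi_norm_le_iff_of_nonneg (abs_nonneg r)]
  constructor
  · intro i
    rw [Real.norm_eq_abs]
    apply sq_le_sq.1
    have := hu i
    nlinarith [sq_nonneg (u.2 i)]
  · intro i
    rw [Real.norm_eq_abs]
    apply sq_le_sq.1
    have := hu i
    nlinarith [sq_nonneg (u.1 i)]

/-- the product of two closed polydiscs -/
def slab (k m : ℕ) (a b : ℝ) : Set (Cn (k + m)) := {z | fstC z ∈ cpd a ∧ sndC z ∈ cpd b}

theorem isCompact_slab (a b : ℝ) : IsCompact (slab k m a b) := by
  have h : slab k m a b = jl k m '' (cpd a ×ˢ cpd b) := by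
    ext z
    constructor
    · rintro ⟨h1, h2⟩
      exact ⟨(fstC z, sndC z), ⟨h1, h2⟩, joinC_fst_snd z⟩
    · rintro ⟨q, ⟨h1, h2⟩, rfl⟩
      rw [jl_apply]
      refine ⟨?_, ?_⟩
      · rw [fstC_joinC]; exact h1
      · rw [sndC_joinC]; exact h2
  rw [h]
  exact ((isCompact_cpd a).prod (isCompact_cpd b)).image (jl k m).continuous

theorem nsq_le_of_opd {r : ℝ} {u : Cn k} (hu : u ∈ cpd r) : nsq u ≤ k * r ^ 2 := by
  rw [nsq_eq]
  refine (Finset.sum_le_sum fun i _ => hu i).trans ?_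
  simp

theorem cpd_of_nsq {u u₀ : Cn k} {a b : ℝ} (hu₀ : u₀ ∈ cpd a) (ha : 0 ≤ a) (hb : 0 ≤ b)
    (h : nsq (u - u₀) ≤ b ^ 2) : u ∈ cpd (a + b) := by
  intro i
  have h1 := (le_nsq (u - u₀) i).trans h
  have h2 := hu₀ i
  simp only [Prod.fst_sub, Prod.snd_sub, Pi.sub_apply] at h1
  -- triangle inequality in the plane
  set x := u.1 i - u₀.1 i
  set y := u.2 i - u₀.2 i
  have e1 : u.1 i = u₀.1 i + x := by ring
  have e2 : u.2 i = u₀.2 i + y := by ring
  rw [e1, e2]
  have h3 : (u₀.1 i * x + u₀.2 i * y) ^ 2 ≤ (a * b) ^ 2 := by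
    calc (u₀.1 i * x + u₀.2 i * y) ^ 2
        ≤ (u₀.1 i ^ 2 + u₀.2 i ^ 2) * (x ^ 2 + y ^ 2) := by
          nlinarith [sq_nonneg (u₀.1 i * y - u₀.2 i * x)]
      _ ≤ a ^ 2 * b ^ 2 := mul_le_mul h2 h1 (by positivity) (by positivity)
      _ = (a * b) ^ 2 := by ring
  have h4 : u₀.1 i * x + u₀.2 i * y ≤ a * b := by
    have := abs_le_of_sq_le_sq' h3 (by positivity)
    exact this.2
  nlinarith

theorem nsq_fst_le (z : Cn (k + m)) : nsq (fstC z) ≤ nsq z := by
  rw [nsq_eq, nsq_eq, Fin.sum_univ_add]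
  have : 0 ≤ ∑ i : Fin m, (z.1 (Fin.natAdd k i) ^ 2 + z.2 (Fin.natAdd k i) ^ 2) :=
    Finset.sum_nonneg fun i _ => by positivity
  simp only [fstC]
  linarith

theorem nsq_snd_le (z : Cn (k + m)) : nsq (sndC z) ≤ nsq z := by
  rw [nsq_eq, nsq_eq, Fin.sum_univ_add]
  have : 0 ≤ ∑ i : Fin k, (z.1 (Fin.castAdd m i) ^ 2 + z.2 (Fin.castAdd m i) ^ 2) :=
    Finset.sum_nonneg fun i _ => by positivity
  simp only [sndC]
  linarith

theorem nsq_joinC_zero (u : Cn k) : nsq (joinC u (0 : Cn m)) = nsq u := by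
  rw [nsq_eq, nsq_eq, Fin.sum_univ_add]
  simp [joinC]

/-- the volume of `ℂ^(k+m)` and the product measure -/
theorem exists_volume (k m : ℕ) : ∃ c : ℝ≥0∞, c ≠ ⊤ ∧ ∀ S : Set (Cn (k + m)), MeasurableSet S →
    ∀ (a : ℝ≥0∞) (B : Set (Cn m)), MeasurableSet B → (∀ z ∈ S, sndC z ∈ B) →
    (∀ y ∈ B, volume {u : Cn k | joinC u y ∈ S} ≤ a) → volume S ≤ c * (a * volume B) := by
  have : (volume : Measure (Cn k)).IsAddHaarMeasure := Measure.prod.instIsAddHaarMeasure _ _
  have : (volume : Measure (Cn m)).IsAddHaarMeasure := Measure.prod.instIsAddHaarMeasure _ _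
  have : (volume : Measure (Cn (k + m))).IsAddHaarMeasure :=
    Measure.prod.instIsAddHaarMeasure _ _
  have : (volume : Measure (Cn k × Cn m)).IsAddHaarMeasure :=
    Measure.prod.instIsAddHaarMeasure _ _
  have : (Measure.map (jl k m) (volume : Measure (Cn k × Cn m))).IsAddHaarMeasure :=
    (jl k m).isAddHaarMeasure_map _
  have hvol := Measure.isAddLeftInvariant_eq_smul (volume : Measure (Cn (k + m)))
    (Measure.map (jl k m) (volume : Measure (Cn k × Cn m)))
  set c := Measure.addHaarScalarFactor (volume : Measure (Cn (k + m)))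
    (Measure.map (jl k m) (volume : Measure (Cn k × Cn m)))
  refine ⟨c, ENNReal.coe_ne_top, fun S hS a B hB hSB ha => ?_⟩
  rw [hvol, Measure.smul_apply, Measure.map_apply (jl k m).continuous.measurable hS]
  change (c : ℝ≥0∞) * _ ≤ _
  refine mul_le_mul_of_nonneg_left ?_ zero_le
  have hm : MeasurableSet (jl k m ⁻¹' S) := (jl k m).continuous.measurable hS
  rw [Measure.volume_eq_prod, Measure.prod_apply_symm hm]
  calc ∫⁻ y, volume ((fun u : Cn k => (u, y)) ⁻¹' (jl k m ⁻¹' S))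
      ≤ ∫⁻ y, B.indicator (fun _ => a) y := by
        refine lintegral_mono fun y => ?_
        by_cases hy : y ∈ B
        · rw [indicator_of_mem hy]
          exact ha y hy
        · rw [indicator_of_notMem hy]
          have : ((fun u : Cn k => (u, y)) ⁻¹' (jl k m ⁻¹' S)) = ∅ := by
            ext u
            simp only [mem_preimage, mem_empty_iff_false, iff_false]
            intro hu
            have := hSB _ hu
            rw [jl_apply, sndC_joinC] at this
            exact hy this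
          rw [this, measure_empty]
    _ = a * volume B := by
        rw [lintegral_indicator hB, lintegral_const, Measure.restrict_apply MeasurableSet.univ,
          univ_inter]

end disc

/-! ### an elementary limit -/

theorem exists_small (C a : ℝ) (k : ℕ) (hC : 0 ≤ C) (ha : 0 ≤ a) : ∃ δ : ℝ, 0 < δ ∧ δ ≤ 1 ∧
    ∀ x ∈ Ioc 0 δ, C * x * (1 + a * Real.log (1 / x)) ^ k ≤ √x := by
  have h1 := (Asymptotics.isLittleO_iff.1 (Real.isLittleO_pow_log_id_atTop (n := k)))
    (c := 1 / (C * (1 + 2 * a) ^ k + 1)) (by positivity)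
  obtain ⟨Y, hY⟩ := eventually_atTop.1 h1
  set Y' : ℝ := max Y (Real.exp 1) with hY'
  have hY'0 : 0 < Y' := lt_of_lt_of_le (Real.exp_pos 1) (le_max_right _ _)
  have hY'1 : 1 ≤ Y' := (Real.one_le_exp (by norm_num)).trans (le_max_right _ _)
  refine ⟨(Y' ^ 2)⁻¹, by positivity, ?_, fun x hx => ?_⟩
  · exact inv_le_one_of_one_le₀ (one_le_pow₀ hY'1)
  · have hx0 : 0 < x := hx.1
    have hs0 : 0 < √x := Real.sqrt_pos.2 hx0
    set y := (√x)⁻¹ with hy
    have hy0 : 0 < y := inv_pos.2 hs0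
    have hyY : Y' ≤ y := by
      rw [hy, le_inv_comm₀ hY'0 hs0]
      have h2 : √x ≤ √((Y' ^ 2)⁻¹) := Real.sqrt_le_sqrt hx.2
      rw [Real.sqrt_inv, Real.sqrt_sq hY'0.le] at h2
      exact h2
    have h3 := hY y ((le_max_left _ _).trans hyY)
    have hlog1 : 1 ≤ Real.log y := by
      rw [Real.le_log_iff_exp_le hy0]
      exact (le_max_right _ _).trans hyY
    rw [Real.norm_of_nonneg (by positivity), id, Real.norm_of_nonneg hy0.le] at h3
    have hxy : x = (y ^ 2)⁻¹ := by
      rw [hy, inv_pow, inv_inv, Real.sq_sqrt hx0.le]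
    have hl : Real.log (1 / x) = 2 * Real.log y := by
      rw [hxy, one_div, inv_inv, Real.log_pow]
      norm_num
    have h4 : 1 + a * Real.log (1 / x) ≤ (1 + 2 * a) * Real.log y := by
      rw [hl]
      nlinarith
    have h5 : 0 ≤ 1 + a * Real.log (1 / x) := by
      rw [hl]
      positivity
    have h6 : (1 + a * Real.log (1 / x)) ^ k ≤ (1 + 2 * a) ^ k * Real.log y ^ k := by
      rw [← mul_pow]
      exact pow_le_pow_left₀ h5 h4 k
    have h7 : (C * (1 + 2 * a) ^ k + 1) * Real.log y ^ k ≤ y := by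
      rw [div_mul_eq_mul_div, one_mul, le_div_iff₀ (by positivity)] at h3
      linarith
    have h8 : √x = y * x := by
      rw [hy, inv_mul_eq_div, eq_div_iff hs0.ne', Real.mul_self_sqrt hx0.le]
    rw [h8]
    calc C * x * (1 + a * Real.log (1 / x)) ^ k
        ≤ C * x * ((1 + 2 * a) ^ k * Real.log y ^ k) :=
          mul_le_mul_of_nonneg_left h6 (by positivity)
      _ = (C * (1 + 2 * a) ^ k * Real.log y ^ k) * x := by ring
      _ ≤ y * x := by
          apply mul_le_mul_of_nonneg_right _ hx0.le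
          have : 0 ≤ Real.log y ^ k := by positivity
          nlinarith

end Gap

end Pool.Agent.KRFF
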