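import Pool.Agent.Work.MP_a2bf38_gt.I.GapA

/-!
# Section 6, preparations: the fibration
-/

open scoped ContDiff ENNReal ComplexOrder Topology
open Set MeasureTheory Filter Pool.Agent.ToricKRF Pool.Agent.ToricKRF.G Pool.Agent.KRFS

namespace Pool.Agent.KRFF

namespace Gap

section Flow

variable {n : ℕ} {M : Type} [TopologicalSpace M] {κ : Type} {T : ℝ} (F : Flow n M κ T)

theorem smooth_psi_slice (c : κ) {t : ℝ} (ht : t ∈ Ico 0 T) :
    ContDiffOn ℝ ∞ (fun x => F.ψ c (t, x)) (F.e c).target := by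
  obtain ⟨U, hU, hsub, hψ⟩ := F.krf.smooth c
  exact hψ.comp (contDiff_const.prodMk contDiff_id).contDiffOn fun x hx => hsub ⟨ht, hx⟩

theorem levz_psi_slice {c : κ} {t : ℝ} (ht : t ∈ Ico 0 T) {z : Cn n} (hz : z ∈ (F.e c).target)
    (u : Cn n) : levz (fun x => F.ψ c (t, x)) u z = lev (F.ψ c) u (t, z) := by
  obtain ⟨U, hU, hsub, hψ⟩ := F.krf.smooth c
  exact levz_slice hU hψ (hsub ⟨ht, hz⟩) u

theorem lev_psi_pos' {c : κ} {t : ℝ} (ht : t ∈ Ico 0 T) {z : Cn n} (hz : z ∈ (F.e c).target)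
    {u : Cn n} (hu : u ≠ 0) : 0 < lev (F.ψ c) u (t, z) := by
  obtain ⟨U, hU, hsub, hψ⟩ := F.krf.smooth c
  exact lev_pos hU hψ (hsub ⟨ht, hz⟩) (F.krf.pos c t ht z hz) hu

theorem levz_zero_dir (f : Cn n → ℝ) (z : Cn n) : levz f 0 z = 0 := by
  have h : J (0 : Cn n) = 0 := by
    apply Prod.ext <;> simp [J]
  unfold levz
  rw [h]
  simp [D]

theorem lev_psi_nonneg {c : κ} {t : ℝ} (ht : t ∈ Ico 0 T) {z : Cn n} (hz : z ∈ (F.e c).target)
    (u : Cn n) : 0 ≤ lev (F.ψ c) u (t, z) := by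
  by_cases hu : u = 0
  · rw [hu, ← levz_psi_slice F ht hz, levz_zero_dir]
  · exact (lev_psi_pos' F ht hz hu).le

theorem det_pos' {c : κ} {t : ℝ} (ht : t ∈ Ico 0 T) {z : Cn n} (hz : z ∈ (F.e c).target) :
    0 < (cHess (F.ψ c) (t, z)).det.re := by
  have h := (F.krf.pos c t ht z hz).det_pos
  exact (Complex.lt_def.1 h).1

/-- constants of the initial data on a compact part of a chart -/
theorem exists_const_on (hT : 0 < T) (c : κ) {A : Set (Cn n)} (hA : IsCompact A)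
    (hAt : A ⊆ (F.e c).target) : ∃ C : ℝ, 0 ≤ C ∧ ∀ z ∈ A,
      (∀ u, nsq u ≤ C * lev (F.ψ c) u (0, z)) ∧ (∀ u, lev (F.ψ c) u (0, z) ≤ C * nsq u) ∧
      F.Ω c z ≤ C := by
  have h0 : (0 : ℝ) ∈ Ico 0 T := ⟨le_rfl, hT⟩
  have key : ∃ C : ℝ, 0 ≤ C ∧ ∀ z ∈ A, z ∈ (F.e c).target →
      (∀ u, nsq u ≤ C * lev (F.ψ c) u (0, z)) ∧ (∀ u, lev (F.ψ c) u (0, z) ≤ C * nsq u) ∧
      F.Ω c z ≤ C := by
    refine hA.induction_on (p := fun S : Set (Cn n) => ∃ C : ℝ, 0 ≤ C ∧
      ∀ z ∈ S, z ∈ (F.e c).target →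
      (∀ u, nsq u ≤ C * lev (F.ψ c) u (0, z)) ∧ (∀ u, lev (F.ψ c) u (0, z) ≤ C * nsq u) ∧
      F.Ω c z ≤ C) ?_ ?_ ?_ ?_
    · exact ⟨0, le_rfl, fun z hz => absurd hz (notMem_empty _)⟩
    · rintro S S' hSS' ⟨C, hC, h⟩
      exact ⟨C, hC, fun z hz => h z (hSS' hz)⟩
    · rintro S S' ⟨C, hC, h⟩ ⟨C', hC', h'⟩
      refine ⟨max C C', hC.trans (le_max_left _ _), fun z hz hzt => ?_⟩
      have hnn := lev_psi_nonneg F h0 hzt
      rcases hz with hz | hz
      · obtain ⟨h1, h2, h3⟩ := h z hz hzt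
        exact ⟨fun u => (h1 u).trans (mul_le_mul_of_nonneg_right (le_max_left _ _) (hnn u)),
          fun u => (h2 u).trans (mul_le_mul_of_nonneg_right (le_max_left _ _) (nsq_nonneg u)),
          h3.trans (le_max_left _ _)⟩
      · obtain ⟨h1, h2, h3⟩ := h' z hz hzt
        exact ⟨fun u => (h1 u).trans (mul_le_mul_of_nonneg_right (le_max_right _ _) (hnn u)),
          fun u => (h2 u).trans (mul_le_mul_of_nonneg_right (le_max_right _ _) (nsq_nonneg u)),
          h3.trans (le_max_right _ _)⟩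
    · intro x hx
      have hxt := hAt hx
      have hs0 := smooth_psi_slice F c h0
      have hn : ContDiffOn ℝ ∞ (nsq (n := n)) (F.e c).target := contDiff_nsq'.contDiffOn
      obtain ⟨C, hC, hev⟩ := Bd.levz_le_local (F.e c).open_target hn hs0 hxt
        (fun y hy u hu => by
          rw [levz_psi_slice F h0 hy]
          exact lev_psi_pos' F h0 hy hu)
      obtain ⟨C', hC', hev'⟩ := Bd.levz_le_local (F.e c).open_target hs0 hn hxt
        (fun y hy u hu => by
          rw [levz_nsq']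
          exact nsq_pos hu)
      have hc : ContinuousAt (F.Ω c) x :=
        (F.vol.smooth c).continuousOn.continuousAt ((F.e c).open_target.mem_nhds hxt)
      have hev'' : ∀ᶠ z in 𝓝 x, F.Ω c z < |F.Ω c x| + 1 :=
        hc.eventually_lt_const (by linarith [le_abs_self (F.Ω c x)])
      obtain ⟨W, hW, hWs⟩ := (hev.and (hev'.and hev'')).exists_mem
      refine ⟨W, mem_nhdsWithin_of_mem_nhds hW, max C (max C' (|F.Ω c x| + 1)),
        hC.trans (le_max_left _ _), fun z hz hzt => ?_⟩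
      obtain ⟨h1, h2, h3⟩ := hWs z hz
      have hnn := lev_psi_nonneg F h0 hzt
      refine ⟨fun u => ?_, fun u => ?_, ?_⟩
      · have := h1 u
        rw [levz_nsq', levz_psi_slice F h0 hzt] at this
        exact this.trans (mul_le_mul_of_nonneg_right (le_max_left _ _) (hnn u))
      · have := h2 u
        rw [levz_nsq', levz_psi_slice F h0 hzt] at this
        exact this.trans (mul_le_mul_of_nonneg_right
          ((le_max_left _ _).trans (le_max_right _ _)) (nsq_nonneg u))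
      · exact h3.le.trans ((le_max_right _ _).trans (le_max_right _ _))
  obtain ⟨C, hC, h⟩ := key
  exact ⟨C, hC, fun z hz => h z hz (hAt hz)⟩

end Flow

theorem exists_finite {κ : Type} [Finite κ] {Q : κ → ℝ → Prop}
    (h : ∀ c, ∃ C : ℝ, Q c C) (hm : ∀ c C C', C ≤ C' → Q c C → Q c C') :
    ∃ C : ℝ, 0 < C ∧ ∀ c, Q c C := by
  choose C hC using h
  obtain ⟨B, hB⟩ := (finite_range C).bddAbove
  refine ⟨max B 1, lt_of_lt_of_le one_pos (le_max_right _ _), fun c => ?_⟩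
  exact hm c _ _ ((hB ⟨c, rfl⟩).trans (le_max_left _ _)) (hC c)

section Fib

variable {k m : ℕ} {M Y : Type} [TopologicalSpace M] [TopologicalSpace Y] {κ P : Type} {T : ℝ}
  (F : Fib k m M Y κ P T)

theorem mem_target {c : κ} {z : Cn (k + m)} :
    z ∈ (F.e c).target ↔ fstC z ∈ opd (k := k) 10 ∧ sndC z ∈ opd (k := m) 10 := by
  rw [F.fib.target c]
  rfl

theorem slab_subset {a b : ℝ} (ha : 0 ≤ a) (ha' : a < 10) (hb : 0 ≤ b) (hb' : b < 10) (c : κ) :
    slab k m a b ⊆ (F.e c).target := fun _ hz =>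
  (mem_target F).2 ⟨cpd_subset_opd ha ha' hz.1, cpd_subset_opd hb hb' hz.2⟩

theorem f_eq {c : κ} {p : M} (hp : p ∈ (F.e c).source) :
    F.f p = (F.b (F.pc c)).symm (sndC (F.e c p)) := by
  obtain ⟨h1, h2⟩ := F.fib.proj c p hp
  rw [← h2, (F.b (F.pc c)).left_inv h1]

theorem f_symm {c : κ} {z : Cn (k + m)} (hz : z ∈ (F.e c).target) :
    F.f ((F.e c).symm z) = (F.b (F.pc c)).symm (sndC z) := by
  rw [f_eq F ((F.e c).map_target hz), (F.e c).right_inv hz]

theorem f_continuous : Continuous F.f := by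
  rw [continuous_iff_continuousAt]
  intro p
  obtain ⟨c, hc⟩ := F.atlas.cover p
  obtain ⟨h1, h2⟩ := F.fib.proj c p hc
  have h3 : sndC (F.e c p) ∈ (F.b (F.pc c)).target := by
    rw [← h2]
    exact (F.b (F.pc c)).map_source h1
  have h4 : ContinuousAt (fun q => (F.b (F.pc c)).symm (sndC (F.e c q))) p :=
    ContinuousAt.comp (f := fun q => sndC (F.e c q)) (g := (F.b (F.pc c)).symm)
      ((F.b (F.pc c)).continuousAt_symm h3)
      (continuous_sndC.continuousAt.comp ((F.e c).continuousAt hc))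
  refine h4.congr ?_
  filter_upwards [(F.e c).open_source.mem_nhds hc] with q hq
  exact (f_eq F hq).symm

/-- the limit form vanishes on the fibres -/
theorem levz_theta {c : κ} {z : Cn (k + m)} (hz : z ∈ (F.e c).target) (w : Cn k) :
    levz (F.Θ c) (joinC w 0) z = 0 := by
  rw [F.Θ_eq c]
  have h := levz_comp (isOpen_opd 10) (F.lim.smooth (F.pc c)) (F.e c).open_target
    (holOn_sndC _) hz ((mem_target F).1 hz).2 (joinC w 0)
  rw [h, fderiv_sndC, sndC_joinC, levz_zero_dir]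

/-- the constants on the parts of radius `9` of the charts -/
theorem exists_const_slab [Finite κ] (hT : 0 < T) : ∃ C : ℝ, 0 < C ∧ ∀ c, ∀ z ∈ slab k m 9 9,
      (∀ u, nsq u ≤ C * lev (F.ψ c) u (0, z)) ∧ (∀ u, lev (F.ψ c) u (0, z) ≤ C * nsq u) ∧
      F.Ω c z ≤ C := by
  have h0 : (0 : ℝ) ∈ Ico 0 T := ⟨le_rfl, hT⟩
  refine exists_finite (Q := fun c C => ∀ z ∈ slab k m 9 9,
      (∀ u, nsq u ≤ C * lev (F.ψ c) u (0, z)) ∧ (∀ u, lev (F.ψ c) u (0, z) ≤ C * nsq u) ∧
      F.Ω c z ≤ C) (fun c => ?_) ?_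
  · obtain ⟨C, -, h⟩ := exists_const_on F.toFlow hT c (isCompact_slab 9 9)
      (slab_subset F (by norm_num) (by norm_num) (by norm_num) (by norm_num) c)
    exact ⟨C, h⟩
  · intro c C C' hCC' h z hz
    have hzt := slab_subset F (by norm_num) (by norm_num) (by norm_num) (by norm_num) c hz
    obtain ⟨h1, h2, h3⟩ := h z hz
    exact ⟨fun u => (h1 u).trans (mul_le_mul_of_nonneg_right hCC'
        (lev_psi_nonneg F.toFlow h0 hzt u)),
      fun u => (h2 u).trans (mul_le_mul_of_nonneg_right hCC' (nsq_nonneg u)), h3.trans hCC'⟩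

/-- the maximum point of a continuous function on a fibre -/
theorem exists_max_fibre [CompactSpace M] [T1Space Y] {g : M → ℝ} (hg : Continuous g) (x : M) :
    ∃ q, F.f q = F.f x ∧ ∀ x', F.f x' = F.f q → g x' ≤ g q := by
  have hcl : IsClosed (F.f ⁻¹' {F.f x}) := isClosed_singleton.preimage (f_continuous F)
  obtain ⟨q, hq, hmax⟩ := hcl.isCompact.exists_isMaxOn ⟨x, rfl⟩ hg.continuousOn
  exact ⟨q, hq, fun x' hx' => hmax (show F.f x' = F.f x from hx'.trans hq)⟩

end Fib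

end Gap

end Pool.Agent.KRFF
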