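import Pool.Agent.Work.MP_a2bf38_gt.I.Setup
import Pool.Agent.Work.MP_a2bf38_gt.H.Gen

/-!
# The restriction of a potential to a complex line
-/

open scoped ContDiff ENNReal ComplexOrder
open Set Filter Topology Pool.Agent.ToricKRF Pool.Agent.ToricKRF.G Pool.Agent.KRFS

namespace Pool.Agent.KRFF

variable {n : ℕ}

theorem line_zero (z v : Cn n) : line z v 0 = z := by
  simp [line]

/-- the linear part of `line` -/
noncomputable def lineL (v : Cn n) : ℂ →L[ℝ] Cn n :=
  Complex.reCLM.smulRight v + Complex.imCLM.smulRight (J v)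

theorem lineL_apply (v : Cn n) (ζ : ℂ) : lineL v ζ = ζ.re • v + ζ.im • J v := rfl

theorem line_eq (z v : Cn n) (ζ : ℂ) : line z v ζ = z + lineL v ζ := by
  rw [line, lineL_apply, add_assoc]

theorem hasFDerivAt_line (z v : Cn n) (ζ : ℂ) : HasFDerivAt (line z v) (lineL v) ζ := by
  have h := (lineL v).hasFDerivAt (x := ζ)
  have h2 := h.const_add z
  refine h2.congr_of_eventuallyEq (Eventually.of_forall fun x => ?_)
  exact line_eq z v x

theorem contDiff_line (z v : Cn n) : ContDiff ℝ ∞ (line z v) := by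
  have h : line z v = fun ζ => z + lineL v ζ := funext (line_eq z v)
  rw [h]
  exact contDiff_const.add (lineL v).contDiff

theorem line_add (z v : Cn n) (ζ w : ℂ) : line z v (ζ + w) = line z v ζ + lineL v w := by
  rw [line_eq, line_eq, map_add, add_assoc]

theorem D_line {f : ℝ × Cn n → ℝ} {t : ℝ} {z v : Cn n} {ζ : ℂ}
    (hf : DifferentiableAt ℝ f (t, line z v ζ)) (w : ℂ) :
    D w (fun ζ => f (t, line z v ζ)) ζ = D ((0 : ℝ), lineL v w) f (t, line z v ζ) := by
  have h1 : HasFDerivAt (fun ζ : ℂ => (t, line z v ζ))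
      ((ContinuousLinearMap.inr ℝ ℝ (Cn n)).comp (lineL v)) ζ := by
    have h2 := (hasFDerivAt_const t ζ).prodMk (hasFDerivAt_line z v ζ)
    refine h2.congr_fderiv ?_
    ext x <;> simp
  have h3 := hf.hasFDerivAt.comp ζ h1
  change fderiv ℝ (fun ζ => f (t, line z v ζ)) ζ w = _
  have h4 : (fun ζ => f (t, line z v ζ)) = f ∘ fun ζ => (t, line z v ζ) := rfl
  rw [h4, h3.fderiv]
  rfl

theorem lineL_one (v : Cn n) : lineL v 1 = v := by simp [lineL_apply]

theorem lineL_I (v : Cn n) : lineL v Complex.I = J v := by simp [lineL_apply]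

theorem contDiffOn_line {f : ℝ × Cn n → ℝ} {U : Set (ℝ × Cn n)}
    (hf : ContDiffOn ℝ ∞ f U) {t : ℝ} {z v : Cn n} {S : Set ℂ}
    (hS : ∀ ζ ∈ S, (t, line z v ζ) ∈ U) :
    ContDiffOn ℝ ∞ (fun ζ => f (t, line z v ζ)) S :=
  hf.comp (contDiff_const.prodMk (contDiff_line z v)).contDiffOn hS

theorem lapC_line {f : ℝ × Cn n → ℝ} {U : Set (ℝ × Cn n)} (hU : IsOpen U)
    (hf : ContDiffOn ℝ ∞ f U) {t : ℝ} {z v : Cn n} {ζ : ℂ} (hζ : (t, line z v ζ) ∈ U) :
    lapC (fun ζ => f (t, line z v ζ)) ζ = 4 * lev f v (t, line z v ζ) := by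
  have hev : ∀ᶠ x in 𝓝 ζ, (t, line z v x) ∈ U := by
    have hc : Continuous fun x : ℂ => (t, line z v x) :=
      continuous_const.prodMk (contDiff_line z v).continuous
    exact hc.continuousAt.eventually_mem (hU.mem_nhds hζ)
  have h1 : ∀ w : ℂ, D w (D w fun x => f (t, line z v x)) ζ =
      D ((0 : ℝ), lineL v w) (D ((0 : ℝ), lineL v w) f) (t, line z v ζ) := by
    intro w
    have h2 : D w (fun x => f (t, line z v x)) =ᶠ[𝓝 ζ]
        fun x => D ((0 : ℝ), lineL v w) f (t, line z v x) := by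
      filter_upwards [hev] with x hx
      exact D_line (diffAt_of_contDiffOn hU hf hx) w
    rw [LC.D_congr w h2]
    exact D_line (diffAt_of_contDiffOn hU (contDiffOn_D hU hf _) hζ) w
  unfold lapC lev
  rw [h1, h1, lineL_one, lineL_I]
  ring

/-- the Levi form in the direction `w v`, `w` a complex number -/
theorem lev_lineL {f : ℝ × Cn n → ℝ} {p : ℝ × Cn n} (hf : ContDiffAt ℝ 2 f p) (v : Cn n) (w : ℂ) :
    lev f (lineL v w) p = Complex.normSq w * lev f v p := by
  rw [lev_eq_bilin hf, lev_eq_bilin hf, lineL_apply, J_add, J_smul, J_smul, J_J]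
  have e1 : ((0 : ℝ), w.re • v + w.im • J v) = w.re • ((0 : ℝ), v) + w.im • ((0 : ℝ), J v) := by
    simp
  have e2 : ((0 : ℝ), w.re • J v + w.im • -v) =
      w.re • ((0 : ℝ), J v) - w.im • ((0 : ℝ), v) := by
    simp [sub_eq_add_neg]
  have hs : IsSymmSndFDerivAt ℝ f p := by
    apply hf.isSymmSndFDerivAt
    rw [minSmoothness_of_isRCLikeNormedField]
  have h3 := hs ((0 : ℝ), v) ((0 : ℝ), J v)
  rw [e1, e2]
  simp only [map_add, map_sub, map_smul, add_apply, sub_apply, smul_apply,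
    smul_eq_mul, Complex.normSq_apply]
  rw [h3]
  ring

end Pool.Agent.KRFF
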