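import Pool.Agent.Work.MP_a2bf38_gt.I.Ray

/-!
# Two nearby points of the manifold, by the modulus of continuity of the circle averages
-/

open scoped ContDiff ENNReal ComplexOrder
open Set Filter Topology MeasureTheory Pool.Agent.ToricKRF Pool.Agent.ToricKRF.G Pool.Agent.KRFS

namespace Pool.Agent.KRFF

theorem nsq_nonneg {n : ℕ} (v : Cn n) : 0 ≤ nsq v := by
  unfold nsq dotProduct
  exact add_nonneg (Finset.sum_nonneg fun i _ => mul_self_nonneg _)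
    (Finset.sum_nonneg fun i _ => mul_self_nonneg _)

theorem nsq_smul' {n : ℕ} (r : ℝ) (v : Cn n) : nsq (r • v) = r ^ 2 * nsq v := by
  unfold nsq
  simp only [Prod.smul_fst, Prod.smul_snd, smul_dotProduct, dotProduct_smul, smul_eq_mul]
  ring

theorem norm_le_sqrt_nsq {n : ℕ} (v : Cn n) : ‖v‖ ≤ √(nsq v) := by
  apply Real.le_sqrt_of_sq_le
  have key : ∀ x : Fin n → ℝ, ‖x‖ ^ 2 ≤ x ⬝ᵥ x := by
    intro x
    have hs : 0 ≤ x ⬝ᵥ x := Finset.sum_nonneg fun i _ => mul_self_nonneg _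
    rw [← Real.sqrt_le_sqrt_iff hs, Real.sqrt_sq (norm_nonneg _)]
    refine (pi_norm_le_iff_of_nonneg (Real.sqrt_nonneg _)).2 fun i => ?_
    rw [Real.norm_eq_abs, ← Real.sqrt_sq_eq_abs]
    apply Real.sqrt_le_sqrt
    rw [sq]
    exact Finset.single_le_sum (f := fun i => x i * x i) (fun j _ => mul_self_nonneg _)
      (Finset.mem_univ i)
  have h0 : ∀ x : Fin n → ℝ, 0 ≤ x ⬝ᵥ x := fun x => Finset.sum_nonneg fun i _ => mul_self_nonneg _
  rw [Prod.norm_def]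
  unfold nsq
  rcases max_choice ‖v.1‖ ‖v.2‖ with h | h
  · rw [h]
    linarith [key v.1, h0 v.2]
  · rw [h]
    linarith [key v.2, h0 v.1]

theorem nsq_eq_zero_iff {n : ℕ} {v : Cn n} : nsq v = 0 ↔ v = 0 := by
  constructor
  · intro h
    have := norm_le_sqrt_nsq v
    rw [h, Real.sqrt_zero] at this
    exact norm_le_zero_iff.1 this
  · rintro rfl
    simp [nsq]

theorem nsq_continuous {n : ℕ} : Continuous (nsq : Cn n → ℝ) := by
  unfold nsq dotProduct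
  fun_prop

variable {n : ℕ} {M : Type} [TopologicalSpace M] {κ : Type} {T : ℝ} (F : Flow n M κ T)

theorem Flow.lev_nonneg (F : Flow n M κ T) {c : κ} {t : ℝ} (ht : t ∈ Ico 0 T) {z : Cn n}
    (hz : z ∈ (F.e c).target) (u : Cn n) : 0 ≤ lev (F.ψ c) u (t, z) := by
  obtain ⟨U, hU, hsub, hψ⟩ := F.krf.smooth c
  by_cases hu : u = 0
  · subst hu
    have h0 : ∀ g : ℝ × Cn n → ℝ, D ((0 : ℝ), (0 : Cn n)) g (t, z) = 0 := fun g =>
      map_zero (fderiv ℝ g (t, z))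
    have hJ : J (0 : Cn n) = 0 := by simp [J]
    simp only [lev]
    rw [hJ, h0]
    simp
  · exact (lev_pos hU hψ (hsub ⟨ht, hz⟩) (F.krf.pos c t ht z hz) hu).le

theorem Flow.two_points_of {a : ℝ}
    (hmod : ∀ (c : κ) (A : Set (Cn n)), IsCompact A → A ⊆ (F.e c).target →
      ∃ C : ℝ, 0 ≤ C ∧ ∀ t ∈ Ico 0 T, ∀ z v : Cn n, nsq v ≤ 1 →
        (∀ ζ : ℂ, ‖ζ‖ ≤ 1 / 2 → line z v ζ ∈ A) → ∀ r ∈ Ioc (0 : ℝ) (1 / 4),
        cavg (fun ζ => F.ψ c (t, line z v ζ)) r - F.ψ c (t, z) ≤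
          C * Real.log (1 / r) ^ (-a))
    (hrad : ∀ C : ℝ, ∃ C' : ℝ, 0 ≤ C' ∧ ∀ G : ℂ → ℝ,
      ContDiffOn ℝ ∞ G (Metric.ball 0 (1 / 2)) →
      (∀ z ∈ Metric.ball (0 : ℂ) (1 / 2), 0 ≤ lapC G z) →
      (∀ r ∈ Ioc (0 : ℝ) (1 / 4), cavg G r - G 0 ≤ C * Real.log (1 / r) ^ (-a)) →
      ∫ θ in (0 : ℝ)..2 * Real.pi, ∫ r in (0 : ℝ)..1 / 16,
        √(lapC G (r * Complex.exp (θ * Complex.I))) ≤ C')
    (p : M) :
    ∃ C : ℝ, ∀ᶠ q in 𝓝 p, ∀ t ∈ Ico 0 T, rdist F.e F.ψ t p q ≤ ENNReal.ofReal C := by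
  obtain ⟨c, hc⟩ := F.atlas.cover p
  set zp := F.e c p with hzp
  have hzt : zp ∈ (F.e c).target := (F.e c).map_source hc
  obtain ⟨R, hR, hRs⟩ := Metric.nhds_basis_closedBall.mem_iff.1
    ((F.e c).open_target.mem_nhds hzt)
  obtain ⟨C, hC, hmodC⟩ := hmod c (Metric.closedBall zp R) (isCompact_closedBall _ _) hRs
  obtain ⟨C', hC', hradC⟩ := hrad C
  set ε := min 1 (R / 2) with hε
  have hε0 : 0 < ε := lt_min one_pos (by positivity)
  have hε1 : ε ≤ 1 := min_le_left _ _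
  have hεR : ε ≤ R / 2 := min_le_right _ _
  refine ⟨4 * (C' + 1), ?_⟩
  have hcont : Tendsto (fun q => √(nsq (F.e c q - zp))) (𝓝 p) (𝓝 0) := by
    have h1 : Tendsto (F.e c) (𝓝 p) (𝓝 zp) := (F.e c).continuousAt hc
    have h2 : Tendsto (fun q => √(nsq (F.e c q - zp))) (𝓝 p) (𝓝 (√(nsq (zp - zp)))) :=
      (Real.continuous_sqrt.tendsto _).comp ((nsq_continuous.tendsto _).comp (h1.sub_const zp))
    rw [sub_self, nsq_eq_zero_iff.2 rfl, Real.sqrt_zero] at h2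
    exact h2
  filter_upwards [(F.e c).open_source.mem_nhds hc,
    hcont.eventually_lt_const (show (0 : ℝ) < ε / 16 by positivity)] with q hq hqε
  intro t ht
  obtain ⟨U, hU, hsub, hψ⟩ := F.krf.smooth c
  have hsub' : ∀ z ∈ (F.e c).target, (t, z) ∈ U := fun z hz => hsub ⟨ht, hz⟩
  set w := F.e c q - zp with hw
  by_cases hw0 : w = 0
  · have : q = p := (F.e c).injOn hq hc (sub_eq_zero.1 hw0)
    rw [this, rdist_self_of_cover F.atlas.cover]
    exact bot_le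
  set N := √(nsq w) with hN
  have hN0 : 0 < N := Real.sqrt_pos.2
    (lt_of_le_of_ne (nsq_nonneg w) fun h => hw0 (nsq_eq_zero_iff.1 h.symm))
  set v := (ε / N) • w with hv
  set δ := N / ε with hδ
  have hδ0 : 0 ≤ δ := by positivity
  have hδ1 : δ ≤ 1 / 16 := by
    rw [hδ, div_le_iff₀ hε0]
    linarith
  have hnv : nsq v = ε ^ 2 := by
    rw [hv, nsq_smul', div_pow, hN, Real.sq_sqrt (nsq_nonneg w)]
    have : nsq w ≠ 0 := fun h => hw0 (nsq_eq_zero_iff.1 h)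
    field_simp
  have hnv1 : nsq v ≤ 1 := by
    rw [hnv]
    exact pow_le_one₀ hε0.le hε1
  have hvn : ‖v‖ ≤ ε := by
    have := norm_le_sqrt_nsq v
    rwa [hnv, Real.sqrt_sq hε0.le] at this
  have hline : ∀ ζ : ℂ, ‖ζ‖ ≤ 1 / 2 → ‖lineL v ζ‖ ≤ ε := by
    intro ζ hζ
    rw [lineL_apply]
    refine (norm_add_le _ _).trans ?_
    rw [norm_smul ζ.re v, norm_smul ζ.im (J v), norm_J, Real.norm_eq_abs, Real.norm_eq_abs]
    have h1 := (Complex.abs_re_le_norm ζ).trans hζ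
    have h2 := (Complex.abs_im_le_norm ζ).trans hζ
    nlinarith [norm_nonneg v, abs_nonneg ζ.re, abs_nonneg ζ.im,
      mul_le_mul h1 hvn (norm_nonneg v) (by norm_num : (0:ℝ) ≤ 1 / 2),
      mul_le_mul h2 hvn (norm_nonneg v) (by norm_num : (0:ℝ) ≤ 1 / 2)]
  have hA : ∀ ζ : ℂ, ‖ζ‖ ≤ 1 / 2 → line zp v ζ ∈ Metric.closedBall zp R := by
    intro ζ hζ
    rw [Metric.mem_closedBall, dist_eq_norm, line_eq, add_sub_cancel_left]
    linarith [hline ζ hζ]
  have hA' : ∀ ζ : ℂ, ‖ζ‖ ≤ 1 / 2 → line (zp + δ • v) v ζ ∈ Metric.closedBall zp R := by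
    intro ζ hζ
    rw [Metric.mem_closedBall, dist_eq_norm, line_eq, add_assoc, add_sub_cancel_left]
    refine (norm_add_le _ _).trans ?_
    rw [norm_smul, Real.norm_of_nonneg hδ0]
    nlinarith [hline ζ hζ, mul_le_mul hδ1 hvn (norm_nonneg v) (by norm_num : (0:ℝ) ≤ 1 / 16)]
  have hrays : ∀ z : Cn n, (∀ ζ : ℂ, ‖ζ‖ ≤ 1 / 2 → line z v ζ ∈ Metric.closedBall zp R) →
      ∫ θ in (0 : ℝ)..2 * Real.pi, ∫ r in (0 : ℝ)..1 / 16,
        √(lapC (fun ζ => F.ψ c (t, line z v ζ)) (r * Complex.exp (θ * Complex.I))) ≤ C' + 1 := by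
    intro z hz
    have hz' : ∀ ζ ∈ Metric.ball (0 : ℂ) (1 / 2), (t, line z v ζ) ∈ U := fun ζ hζ =>
      hsub' _ (hRs (hz ζ (mem_ball_zero_iff.1 hζ).le))
    refine (hradC (fun ζ => F.ψ c (t, line z v ζ)) ?_ ?_ ?_).trans (by linarith)
    · exact hψ.comp (contDiffOn_const.prodMk (line_contDiff z v).contDiffOn) hz'
    · intro ζ hζ
      rw [lapC_line' hU hψ z v (hz' ζ hζ)]
      have := F.lev_nonneg ht (hRs (hz ζ (mem_ball_zero_iff.1 hζ).le)) v
      positivity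
    · intro r hr
      have := hmodC t ht z v hnv1 hz r hr
      simpa only [line_zero] using this
  have h16 : ∀ ζ : ℂ, ‖ζ‖ ≤ 1 / 16 → ‖ζ‖ ≤ 1 / 2 := fun ζ h => h.trans (by norm_num)
  have hfin := rdist_rays hU hψ hsub' (fun z hz u => F.lev_nonneg ht hz u) hδ0 hδ1
    (fun ζ hζ => hRs (hA ζ (h16 ζ hζ))) (fun ζ hζ => hRs (hA' ζ (h16 ζ hζ)))
    (by positivity : 0 < C' + 1) (hrays zp hA) (hrays (zp + δ • v) hA')
  have e1 : zp + δ • v = F.e c q := by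
    rw [hv, smul_smul, hδ, div_mul_div_comm, mul_comm N ε, div_self (by positivity), one_smul, hw]
    abel
  rw [e1, (F.e c).left_inv hq, hzp, (F.e c).left_inv hc] at hfin
  exact hfin

/-- **The diameter is bounded if the distance is bounded locally.** -/
theorem Flow.diam_of_local [CompactSpace M] [ConnectedSpace M]
    (h : ∀ p, ∃ C : ℝ, ∀ᶠ q in 𝓝 p, ∀ t ∈ Ico 0 T, rdist F.e F.ψ t p q ≤ ENNReal.ofReal C) :
    ⨆ t ∈ Ico 0 T, rdiam F.e F.ψ t < ⊤ := by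
  -- the points which can be reached from `p₀` with a bounded cost
  obtain ⟨p₀⟩ : Nonempty M := inferInstance
  set S : Set M := {p | ∃ C : ℝ, ∀ t ∈ Ico 0 T, rdist F.e F.ψ t p₀ p ≤ ENNReal.ofReal C} with hS
  have hopen : IsOpen S := by
    rw [isOpen_iff_mem_nhds]
    rintro p ⟨C, hC⟩
    obtain ⟨C', hC'⟩ := h p
    filter_upwards [hC'] with q hq
    refine ⟨max C 0 + max C' 0, fun t ht => ?_⟩
    refine (rdist_triangle' p₀ p q).trans ?_
    rw [ENNReal.ofReal_add (le_max_right _ _) (le_max_right _ _)]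
    exact add_le_add ((hC t ht).trans (ENNReal.ofReal_le_ofReal (le_max_left _ _)))
      ((hq t ht).trans (ENNReal.ofReal_le_ofReal (le_max_left _ _)))
  have hclosed : IsClosed S := by
    rw [← isOpen_compl_iff, isOpen_iff_mem_nhds]
    intro p hp
    obtain ⟨C', hC'⟩ := h p
    filter_upwards [hC'] with q hq
    rintro ⟨C, hC⟩
    refine hp ⟨max C 0 + max C' 0, fun t ht => ?_⟩
    refine (rdist_triangle' p₀ q p).trans ?_
    rw [ENNReal.ofReal_add (le_max_right _ _) (le_max_right _ _), rdist_comm' q p]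
    exact add_le_add ((hC t ht).trans (ENNReal.ofReal_le_ofReal (le_max_left _ _)))
      ((hq t ht).trans (ENNReal.ofReal_le_ofReal (le_max_left _ _)))
  have hne : S.Nonempty := ⟨p₀, 0, fun t _ => by
    rw [rdist_self_of_cover F.atlas.cover]
    exact bot_le⟩
  have huniv : S = univ := IsClopen.eq_univ ⟨hclosed, hopen⟩ hne
  -- finitely many neighbourhoods
  choose C hC using h
  obtain ⟨s, -, hs⟩ := isCompact_univ.elim_nhds_subcover
    (fun p => {q | ∀ t ∈ Ico 0 T, rdist F.e F.ψ t p q ≤ ENNReal.ofReal (C p)})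
    fun p _ => hC p
  have hreach : ∀ p : M, ∃ C : ℝ, ∀ t ∈ Ico 0 T, rdist F.e F.ψ t p₀ p ≤ ENNReal.ofReal C := by
    intro p
    have : p ∈ S := by rw [huniv]; exact mem_univ p
    exact this
  choose B hB using hreach
  set K : ℝ≥0∞ := ∑ p ∈ s, (ENNReal.ofReal (B p) + ENNReal.ofReal (C p)) with hK
  have hKt : K < ⊤ := by
    rw [hK]
    exact ENNReal.sum_lt_top.2 fun p _ => ENNReal.add_lt_top.2
      ⟨ENNReal.ofReal_lt_top, ENNReal.ofReal_lt_top⟩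
  have hKq : ∀ t ∈ Ico 0 T, ∀ q : M, rdist F.e F.ψ t p₀ q ≤ K := by
    intro t ht q
    obtain ⟨p, hp, hq⟩ := mem_iUnion₂.1 (hs (mem_univ q))
    refine (rdist_triangle' p₀ p q).trans ((add_le_add (hB p t ht) (hq t ht)).trans ?_)
    exact Finset.single_le_sum
      (f := fun p => ENNReal.ofReal (B p) + ENNReal.ofReal (C p)) (fun _ _ => bot_le) hp
  refine lt_of_le_of_lt (b := K + K) ?_ (ENNReal.add_lt_top.2 ⟨hKt, hKt⟩)
  refine iSup₂_le fun t ht => iSup₂_le fun p q => ?_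
  refine (rdist_triangle' p p₀ q).trans (add_le_add ?_ (hKq t ht q))
  rw [rdist_comm']
  exact hKq t ht p

end Pool.Agent.KRFF
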