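import Pool.Agent.Work.MP_a2bf38_gt.I.Line

/-!
# The modulus of continuity of the potentials, up to the time `T`

The inputs (exponential bound, `φ` and its upper bound in time, Jensen's formula) are hypotheses
here; `I/Modulus.lean` inserts them.
-/

open scoped ContDiff ENNReal ComplexOrder Topology
open Set MeasureTheory Filter Pool.Agent.ToricKRF Pool.Agent.ToricKRF.G Pool.Agent.KRFS

namespace Pool.Agent.KRFF

/-- monotonicity of circle averages -/
theorem cavg_le {G G' : ℂ → ℝ} {r K : ℝ}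
    (hG : Continuous fun θ : ℝ => G (r * Complex.exp (θ * Complex.I)))
    (hG' : Continuous fun θ : ℝ => G' (r * Complex.exp (θ * Complex.I)))
    (h : ∀ θ : ℝ, G (r * Complex.exp (θ * Complex.I)) ≤
      G' (r * Complex.exp (θ * Complex.I)) + K) : cavg G r ≤ cavg G' r + K := by
  have h2 : (0 : ℝ) < 2 * Real.pi := by positivity
  have h1 : ∫ θ in (0 : ℝ)..2 * Real.pi, G (r * Complex.exp (θ * Complex.I)) ≤
      ∫ θ in (0 : ℝ)..2 * Real.pi, (G' (r * Complex.exp (θ * Complex.I)) + K) :=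
    intervalIntegral.integral_mono_on h2.le (hG.intervalIntegrable _ _)
      ((hG'.add continuous_const).intervalIntegrable _ _) fun θ _ => h θ
  rw [intervalIntegral.integral_add (hG'.intervalIntegrable _ _)
    (continuous_const.intervalIntegrable _ _), intervalIntegral.integral_const, smul_eq_mul,
    sub_zero] at h1
  unfold cavg
  calc (2 * Real.pi)⁻¹ * ∫ θ in (0 : ℝ)..2 * Real.pi, G (r * Complex.exp (θ * Complex.I))
      ≤ (2 * Real.pi)⁻¹ * ((∫ θ in (0 : ℝ)..2 * Real.pi, G' (r * Complex.exp (θ * Complex.I))) +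
          2 * Real.pi * K) := mul_le_mul_of_nonneg_left h1 (inv_nonneg.2 h2.le)
    _ = _ := by rw [mul_add, inv_mul_cancel_left₀ h2.ne']

theorem norm_circle {r : ℝ} (hr : 0 ≤ r) (θ : ℝ) : ‖(r : ℂ) * Complex.exp (θ * Complex.I)‖ = r := by
  rw [norm_mul, Complex.norm_exp_ofReal_mul_I, mul_one, Complex.norm_real, Real.norm_of_nonneg hr]

section

variable {n : ℕ} {M : Type} [TopologicalSpace M] {κ : Type} {T : ℝ} (F : Flow n M κ T)

theorem Flow.modulus_aux {a : ℝ} (ha : 0 < a) (ha1 : a ≤ 1)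
    (hd : F.Drop a) (c : κ) {A : Set (Cn n)}
    (hA : IsCompact A) (hAt : A ⊆ (F.e c).target)
    (hexp' : ∃ C : ℝ, 0 ≤ C ∧ ∀ t ∈ Ico 0 T, ∀ z ∈ A, ∀ u,
      lev (F.ψ c) u (t, z) ≤ Real.exp (C / (T - t)) * nsq u)
    (hPhi : ∀ t ∈ Ico 0 T, ∀ p ∈ (F.e c).source, F.Phi t p = F.phi c (t, F.e c p))
    (hmono' : ∃ C : ℝ, 0 ≤ C ∧
      ∀ t₀ ∈ Ico 0 T, ∀ t ∈ Ico t₀ T, ∀ p, F.Phi t p ≤ F.Phi t₀ p + C * (t - t₀))
    (hcavg : ∀ {G : ℂ → ℝ} {R B : ℝ}, ContDiffOn ℝ ∞ G (Metric.ball 0 R) →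
      (∀ z ∈ Metric.ball (0 : ℂ) R, lapC G z ≤ 4 * B) → ∀ {r : ℝ}, r ∈ Ico 0 R →
      cavg G r - G 0 ≤ B * r ^ 2) :
    ∃ C : ℝ, 0 ≤ C ∧ ∀ t ∈ Ico 0 T, ∀ z v : Cn n, nsq v ≤ 1 →
      (∀ ζ : ℂ, ‖ζ‖ ≤ 1 / 2 → line z v ζ ∈ A) → ∀ r ∈ Ioc (0 : ℝ) (1 / 4),
      cavg (fun ζ => F.ψ c (t, line z v ζ)) r - F.ψ c (t, z) ≤
        C * Real.log (1 / r) ^ (-a) := by
  by_cases hT : 0 < T
  swap
  · exact ⟨0, le_rfl, fun t ht => absurd (ht.1.trans_lt ht.2) hT⟩
  obtain ⟨Ce, hCe, hexp⟩ := hexp'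
  obtain ⟨Cm, hCm, hmono⟩ := hmono'
  obtain ⟨Cd, hCd, hdrop⟩ := hd
  obtain ⟨U, hU, hsub, hsm⟩ := F.krf.smooth c
  have hΩc : ContinuousOn (fun w => Real.log (F.Ω c w)) A := by
    refine ContinuousOn.log ((F.vol.smooth c).continuousOn.mono hAt) fun w hw => ?_
    exact (F.vol.pos c w (hAt hw)).ne'
  obtain ⟨B, hB⟩ := hA.exists_bound_of_continuousOn hΩc
  set B' : ℝ := max B 0 with hB'
  have hBb : ∀ w ∈ A, |Real.log (F.Ω c w)| ≤ B' := fun w hw => (hB w hw).trans (le_max_left _ _)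
  have hB0 : 0 ≤ B' := le_max_right _ _
  set C₁ : ℝ := Ce + 1 with hC₁
  have hC₁0 : 0 < C₁ := by linarith
  refine ⟨Real.exp (Ce / T) + (Cm + 2 * B') * C₁ + Cd * C₁ ^ a, by positivity, ?_⟩
  intro t ht z v hv hline r hr
  set L : ℝ := Real.log (1 / r) with hL
  have hr0 : 0 < r := hr.1
  have h4r : 4 ≤ 1 / r := by
    rw [le_div_iff₀ hr0]; linarith [hr.2]
  have hL1 : 1 ≤ L := by
    rw [hL, Real.le_log_iff_exp_le (by positivity)]
    exact (Real.exp_one_lt_d9.le.trans (by norm_num)).trans h4r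
  have hL0 : 0 < L := by linarith
  have hexpL : Real.exp L = 1 / r := Real.exp_log (by positivity)
  have hLa : r ≤ L ^ (-a) := by
    have h1 : L ^ a ≤ L := by
      calc L ^ a ≤ L ^ (1 : ℝ) := Real.rpow_le_rpow_of_exponent_le hL1 ha1
        _ = L := Real.rpow_one L
    have h2 : L ≤ 1 / r := by
      rw [← hexpL]
      exact (Real.add_one_le_exp L).trans' (by linarith)
    rw [Real.rpow_neg hL0.le]
    rw [le_inv_comm₀ hr0 (Real.rpow_pos_of_pos hL0 a), ← one_div]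
    exact h1.trans h2
  have hL1a : L⁻¹ ≤ L ^ (-a) := by
    rw [← Real.rpow_neg_one]
    exact Real.rpow_le_rpow_of_exponent_le hL1 (by linarith)
  set s : ℝ := min T (C₁ / L) with hs
  have hs0 : 0 < s := lt_min hT (by positivity)
  have hsT : s ≤ T := min_le_left _ _
  have hsL : s ≤ C₁ / L := min_le_right _ _
  set t₀ : ℝ := T - s with ht₀
  have ht₀m : t₀ ∈ Ico 0 T := ⟨by linarith, by linarith⟩
  -- points
  have hzA : z ∈ A := by
    have := hline 0 (by simp)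
    rwa [line_zero] at this
  have hcirc : ∀ θ : ℝ, line z v (r * Complex.exp (θ * Complex.I)) ∈ A := fun θ =>
    hline _ (by rw [norm_circle hr0.le]; linarith [hr.2])
  have hcont : ∀ t' ∈ Ico 0 T, Continuous fun θ : ℝ =>
      F.ψ c (t', line z v (r * Complex.exp (θ * Complex.I))) := by
    intro t' ht'
    have h1 : Continuous fun θ : ℝ => (t', line z v (r * Complex.exp (θ * Complex.I))) := by
      refine continuous_const.prodMk ((contDiff_line z v).continuous.comp ?_)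
      fun_prop
    exact hsm.continuousOn.comp_continuous h1 fun θ => hsub ⟨ht', hAt (hcirc θ)⟩
  -- early times
  have hearly : ∀ t' ∈ Icc 0 t₀, cavg (fun ζ => F.ψ c (t', line z v ζ)) r - F.ψ c (t', z) ≤
      Real.exp (Ce / T) * r := by
    intro t' ht'
    have ht'm : t' ∈ Ico 0 T := ⟨ht'.1, ht'.2.trans_lt ht₀m.2⟩
    have hball : ∀ ζ ∈ Metric.ball (0 : ℂ) (1 / 2), line z v ζ ∈ A := fun ζ hζ =>
      hline ζ (by rw [mem_ball_zero_iff] at hζ; exact hζ.le)
    have hG : ContDiffOn ℝ ∞ (fun ζ => F.ψ c (t', line z v ζ)) (Metric.ball 0 (1 / 2)) := by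
      refine hsm.comp (f := fun ζ => (t', line z v ζ))
        (contDiffOn_const.prodMk (contDiff_line z v).contDiffOn) ?_
      intro ζ hζ
      exact hsub ⟨ht'm, hAt (hball ζ hζ)⟩
    have key := hcavg (B := Real.exp (Ce / T) / r) hG (fun ζ hζ => by
      rw [lapC_line hU hsm (hsub ⟨ht'm, hAt (hball ζ hζ)⟩)]
      have h1 := hexp t' ht'm _ (hball ζ hζ) v
      have h2 : Real.exp (Ce / (T - t')) ≤ Real.exp (Ce / T) / r := by
        have h3 : Ce / (T - t') ≤ Ce / T + L := by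
          have h4 : s ≤ T - t' := by linarith [ht'.2]
          have h5 : Ce / (T - t') ≤ Ce / s := by
            apply div_le_div_of_nonneg_left hCe hs0 h4
          refine h5.trans ?_
          rcases min_cases T (C₁ / L) with h6 | h6
          · rw [hs, h6.1]; linarith
          · rw [hs, h6.1, div_div_eq_mul_div, div_le_iff₀ hC₁0]
            have h7 : 0 ≤ Ce / T := by positivity
            nlinarith
        calc Real.exp (Ce / (T - t')) ≤ Real.exp (Ce / T + L) := Real.exp_le_exp.2 h3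
          _ = _ := by rw [Real.exp_add, hexpL, mul_one_div]
      have h3 : Real.exp (Ce / (T - t')) * nsq v ≤ Real.exp (Ce / T) / r := by
        calc Real.exp (Ce / (T - t')) * nsq v ≤ Real.exp (Ce / (T - t')) * 1 :=
              mul_le_mul_of_nonneg_left hv (Real.exp_pos _).le
          _ ≤ _ := by rw [mul_one]; exact h2
      linarith) (r := r) ⟨hr0.le, by linarith [hr.2]⟩
    simp only [line_zero] at key
    refine key.trans (le_of_eq ?_)
    field_simp
  have hE : Real.exp (Ce / T) * r ≤ Real.exp (Ce / T) * L ^ (-a) :=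
    mul_le_mul_of_nonneg_left hLa (Real.exp_pos _).le
  have hLa0 : 0 ≤ L ^ (-a) := Real.rpow_nonneg hL0.le _
  rcases le_or_gt t t₀ with htt | htt
  · refine (hearly t ⟨ht.1, htt⟩).trans (hE.trans ?_)
    apply mul_le_mul_of_nonneg_right _ hLa0
    have : 0 ≤ (Cm + 2 * B') * C₁ + Cd * C₁ ^ a := by positivity
    linarith
  · -- late times
    have hphi : ∀ t' ∈ Ico 0 T, ∀ w ∈ A, F.Phi t' ((F.e c).symm w) =
        F.ψ c (t', w) - F.ψ c (0, w) - t' * Real.log (F.Ω c w) := by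
      intro t' ht' w hw
      rw [hPhi t' ht' _ ((F.e c).map_target (hAt hw)), (F.e c).right_inv (hAt hw)]
      rfl
    have hup : ∀ w ∈ A, F.ψ c (t, w) ≤ F.ψ c (t₀, w) + (Cm + B') * (t - t₀) := by
      intro w hw
      have h1 := hmono t₀ ht₀m t ⟨htt.le, ht.2⟩ ((F.e c).symm w)
      rw [hphi t ht w hw, hphi t₀ ht₀m w hw] at h1
      have h2 := (abs_le.1 (hBb w hw)).2
      have h3 : (t - t₀) * Real.log (F.Ω c w) ≤ (t - t₀) * B' :=
        mul_le_mul_of_nonneg_left h2 (by linarith)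
      nlinarith
    have hlow : F.ψ c (t₀, z) - B' * (t - t₀) - Cd * s ^ a ≤ F.ψ c (t, z) := by
      have h1 := hdrop t₀ ht₀m t ⟨htt.le, ht.2⟩ ((F.e c).symm z)
      rw [hphi t ht z hzA, hphi t₀ ht₀m z hzA, show T - t₀ = s by rw [ht₀]; ring] at h1
      have h2 := (abs_le.1 (hBb z hzA)).1
      have h3 : (t - t₀) * (-B') ≤ (t - t₀) * Real.log (F.Ω c z) :=
        mul_le_mul_of_nonneg_left h2 (by linarith)
      nlinarith
    have h1 := cavg_le (hcont t ht) (hcont t₀ ht₀m)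
      (G := fun ζ => F.ψ c (t, line z v ζ)) (G' := fun ζ => F.ψ c (t₀, line z v ζ))
      fun θ => hup _ (hcirc θ)
    have h2 := hearly t₀ ⟨ht₀m.1, le_rfl⟩
    have h3 : t - t₀ ≤ s := by linarith [ht.2]
    have h4 : s ≤ C₁ * L ^ (-a) := by
      refine hsL.trans ?_
      rw [div_eq_mul_inv]
      exact mul_le_mul_of_nonneg_left hL1a hC₁0.le
    have h5 : s ^ a ≤ C₁ ^ a * L ^ (-a) := by
      calc s ^ a ≤ (C₁ / L) ^ a := Real.rpow_le_rpow hs0.le hsL ha.le
        _ = C₁ ^ a * L ^ (-a) := by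
          rw [Real.div_rpow hC₁0.le hL0.le, Real.rpow_neg hL0.le, div_eq_mul_inv]
    have h6 : (Cm + 2 * B') * (t - t₀) ≤ (Cm + 2 * B') * (C₁ * L ^ (-a)) :=
      mul_le_mul_of_nonneg_left (h3.trans h4) (by positivity)
    have h7 : Cd * s ^ a ≤ Cd * (C₁ ^ a * L ^ (-a)) := mul_le_mul_of_nonneg_left h5 hCd
    have h8 : (Real.exp (Ce / T) + (Cm + 2 * B') * C₁ + Cd * C₁ ^ a) * L ^ (-a) =
      Real.exp (Ce / T) * L ^ (-a) + (Cm + 2 * B') * (C₁ * L ^ (-a)) +
        Cd * (C₁ ^ a * L ^ (-a)) := by ring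
    rw [h8]
    linarith

end

end Pool.Agent.KRFF
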