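import Pool.Agent.Work.MP_a2bf38_gt.I.ABP

/-!
# The contact set estimate on a ball, for a function whose Levi form is below a metric
-/

open scoped ContDiff ENNReal ComplexOrder Pointwise
open Set Filter Topology MeasureTheory Matrix Pool.Agent.ToricKRF Pool.Agent.ToricKRF.G
  Pool.Agent.KRFS Pool.Agent.KRFS.ABP

namespace Pool.Agent.KRFF

variable {n : ℕ}

theorem continuous_nsq_sub (z₀ : Cn n) : Continuous fun z : Cn n => nsq (z - z₀) :=
  continuous_nsq.comp (continuous_id.sub continuous_const)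

theorem isCompact_nsq_sub (z₀ : Cn n) {r : ℝ} (hr : 0 < r) :
    IsCompact {z : Cn n | nsq (z - z₀) ≤ r ^ 2} := by
  have h1 : {z : Cn n | nsq (z - z₀) ≤ r ^ 2} =
      (fun x : Cn n => z₀ + r • x) '' {x : Cn n | nsq x ≤ 1} := by
    ext z
    simp only [mem_image, mem_ofPred_eq]
    constructor
    · intro h
      refine ⟨r⁻¹ • (z - z₀), ?_, ?_⟩
      · rw [nsq_smul, inv_pow, inv_mul_le_iff₀ (by positivity), mul_one]
        exact h
      · rw [smul_inv_smul₀ hr.ne']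
        abel
    · rintro ⟨x, hx, rfl⟩
      have : z₀ + r • x - z₀ = r • x := by abel
      rw [this, nsq_smul]
      nlinarith [sq_nonneg r]
  rw [h1]
  exact isCompact_nsq.image (by fun_prop)

/-- comparison of the determinants of a semidefinite and of a definite matrix -/
theorem det_re_le_of_posSemidef {A B : Matrix (Fin n) (Fin n) ℂ} (hA : A.PosSemidef)
    (hB : B.PosDef) (h : ∀ x : Fin n → ℂ, (star x ⬝ᵥ A *ᵥ x).re ≤ (star x ⬝ᵥ B *ᵥ x).re) :
    A.det.re ≤ B.det.re := by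
  by_cases h0 : A.det = 0
  · rw [h0, Complex.zero_re]
    exact (Complex.pos_iff.1 hB.det_pos).1.le
  · have hA' : A.PosDef := hA.posDef_iff_det_ne_zero.2 h0
    have := Bd.det_re_le hA' hB (C := 1) fun x => by
      rw [one_mul]
      exact h x
    simpa using this

section

variable {v : Cn n → ℝ} {V : Set (Cn n)} {z₀ : Cn n} {r ε : ℝ}

/-- the contact set -/
def cset (v : Cn n → ℝ) (z₀ : Cn n) (r b : ℝ) : Set (Cn n) :=
  {z | nsq (z - z₀) < r ^ 2 ∧ v z ≤ b ∧ ∀ u, 0 ≤ D u (D u v) z}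

theorem exists_cset (hV : IsOpen V) (hv : ContDiffOn ℝ ∞ v V) (hr : 0 < r) (hε : 0 < ε)
    (hsub : {z : Cn n | nsq (z - z₀) ≤ r ^ 2} ⊆ V)
    (hb : ∀ z, nsq (z - z₀) = r ^ 2 → v z₀ + ε ≤ v z)
    {p : Cn n} (hp : nsq p < (ε / (2 * r)) ^ 2) :
    ∃ z ∈ cset v z₀ r (v z₀ + ε), grad v z = p := by
  set w : Cn n → ℝ := fun z => v z - ip p z with hw
  have hcw : ContDiffOn ℝ ∞ w V := hv.sub (contDiff_ip p).contDiffOn
  have hz₀ : z₀ ∈ {z : Cn n | nsq (z - z₀) ≤ r ^ 2} := by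
    have : nsq (0 : Cn n) = 0 := by simp [nsq]
    simp only [mem_ofPred_eq, sub_self, this]
    positivity
  obtain ⟨z, hz, hmin⟩ := (isCompact_nsq_sub z₀ hr).exists_isMinOn ⟨z₀, hz₀⟩
    (hcw.continuousOn.mono hsub)
  have hip : ip p z - ip p z₀ = ip p (z - z₀) := by
    simp only [ip, Prod.fst_sub, Prod.snd_sub, dotProduct_sub]
    ring
  have h1 : v z - ip p (z - z₀) ≤ v z₀ := by
    have := hmin hz₀
    have e : w z ≤ w z₀ := this
    simp only [hw] at e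
    linarith
  have habs : ip p (z - z₀) < ε / 2 := by
    have h2 := ip_sq_le p (z - z₀)
    have h3 : 0 ≤ nsq p := by
      unfold nsq
      exact add_nonneg (Finset.sum_nonneg fun i _ => mul_self_nonneg _)
        (Finset.sum_nonneg fun i _ => mul_self_nonneg _)
    have h4 : nsq p * nsq (z - z₀) ≤ nsq p * r ^ 2 := mul_le_mul_of_nonneg_left hz h3
    have h5 : nsq p * r ^ 2 < (ε / (2 * r)) ^ 2 * r ^ 2 := by gcongr
    have h6 : (ε / (2 * r)) ^ 2 * r ^ 2 = (ε / 2) ^ 2 := by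
      field_simp
    have h7 : ip p (z - z₀) ^ 2 < (ε / 2) ^ 2 := by
      rw [← h6]
      exact (h2.trans h4).trans_lt h5
    exact lt_of_pow_lt_pow_left₀ 2 (by positivity) h7
  have hlt : nsq (z - z₀) < r ^ 2 := by
    rcases (show nsq (z - z₀) ≤ r ^ 2 from hz).lt_or_eq with h | h
    · exact h
    · exfalso
      have h2 := hb z h
      linarith
  have hva : v z ≤ v z₀ + ε := by linarith
  have hzS : z ∈ V := hsub hz
  have hloc : IsLocalMin w z := by
    have hop : IsOpen {z : Cn n | nsq (z - z₀) < r ^ 2} :=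
      isOpen_lt (continuous_nsq_sub z₀) continuous_const
    filter_upwards [hop.mem_nhds hlt] with y hy
    exact hmin (le_of_lt hy)
  have hgrad : grad v z = p := by
    apply ip_left_injective
    intro u
    rw [← D_eq_ip]
    have h2 : D u w z = 0 := by
      unfold D
      rw [hloc.fderiv_eq_zero]
      rfl
    rw [hw, D_sub (diffAt_of_contDiffOn hV hv hzS)
      ((contDiff_ip p).differentiable (by simp)).differentiableAt, D_ip] at h2
    linarith
  refine ⟨z, ⟨hlt, hva, fun u => ?_⟩, hgrad⟩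
  have hcd : ContDiffAt ℝ 2 w z :=
    (hcw.contDiffAt (hV.mem_nhds hzS)).of_le (WithTop.coe_le_coe.2 le_top)
  obtain ⟨h2, h3, h4⟩ := line_facts u hcd
  have h5 : IsLocalMax (fun s : ℝ => -w (z + s • u)) 0 := by
    have hct : Tendsto (fun s : ℝ => z + s • u) (𝓝 0) (𝓝 z) := by
      have : Continuous fun s : ℝ => z + s • u := by fun_prop
      simpa using this.tendsto 0
    have := hct.eventually hloc
    filter_upwards [this] with s hs
    simpa using hs
  have h6 := deriv_deriv_nonpos_of_isLocalMax h2.neg h5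
  have h7 : deriv (deriv fun s : ℝ => -w (z + s • u)) 0 =
      -deriv (deriv fun s : ℝ => w (z + s • u)) 0 := by
    have : (deriv fun s : ℝ => -w (z + s • u)) = fun s => -deriv (fun s : ℝ => w (z + s • u)) s := by
      funext s
      exact deriv.fun_neg
    rw [this, deriv.fun_neg]
  rw [h7, h4] at h6
  have h8 : D u (D u w) z = D u (D u v) z := by
    have h9 : EqOn (D u w) (fun q => D u v q - ip p u) V := by
      intro q hq
      rw [hw, D_sub (diffAt_of_contDiffOn hV hv hq)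
        ((contDiff_ip p).differentiable (by simp)).differentiableAt, D_ip]
    rw [D_congr hV h9 u hzS, D_sub (diffAt_of_contDiffOn hV (contDiffOn_D hV hv u) hzS)
      (differentiableAt_const _), D_const, sub_zero]
  rw [← h8]
  have h10 : D u (D u w) z = fderiv ℝ (fun q => fderiv ℝ w q u) z u := rfl
  rw [h10]
  linarith

theorem measurableSet_cset (hV : IsOpen V) (hv : ContDiffOn ℝ ∞ v V)
    (hsub : {z : Cn n | nsq (z - z₀) ≤ r ^ 2} ⊆ V) (b : ℝ) : MeasurableSet (cset v z₀ r b) := by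
  have hc := continuous_nsq_sub z₀
  have hK : IsClosed {z : Cn n | nsq (z - z₀) ≤ r ^ 2} := isClosed_le hc continuous_const
  have h1 : IsClosed ({z : Cn n | nsq (z - z₀) ≤ r ^ 2} ∩ v ⁻¹' Iic b) :=
    (hv.continuousOn.mono hsub).preimage_isClosed_of_isClosed hK isClosed_Iic
  have h2 : ∀ u : Cn n, IsClosed ({z : Cn n | nsq (z - z₀) ≤ r ^ 2} ∩ (D u (D u v)) ⁻¹' Ici 0) :=
    fun u => ((contDiffOn_D hV (contDiffOn_D hV hv u) u).continuousOn.mono
      hsub).preimage_isClosed_of_isClosed hK isClosed_Ici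
  have h3 : cset v z₀ r b = ({z : Cn n | nsq (z - z₀) < r ^ 2} ∩
      ({z : Cn n | nsq (z - z₀) ≤ r ^ 2} ∩ v ⁻¹' Iic b)) ∩
      ⋂ u : Cn n, ({z : Cn n | nsq (z - z₀) ≤ r ^ 2} ∩ (D u (D u v)) ⁻¹' Ici 0) := by
    ext z
    simp only [cset, mem_ofPred_eq, mem_inter_iff, mem_preimage, mem_Iic, mem_iInter, mem_Ici]
    constructor
    · rintro ⟨h, h', h''⟩
      exact ⟨⟨h, h.le, h'⟩, fun u => ⟨h.le, h'' u⟩⟩
    · rintro ⟨⟨h, -, h'⟩, h''⟩
      exact ⟨h, h', fun u => (h'' u).2⟩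
  rw [h3]
  exact ((isOpen_lt hc continuous_const).measurableSet.inter h1.measurableSet).inter
    (isClosed_iInter h2).measurableSet

theorem posSemidef_cHess_snd (hV : IsOpen V) (hv : ContDiffOn ℝ ∞ v V) {z : Cn n} (hz : z ∈ V)
    (h : ∀ u, 0 ≤ D u (D u v) z) :
    (cHess (fun q : ℝ × Cn n => v q.2) (0, z)).PosSemidef := by
  have hU : IsOpen (Prod.snd ⁻¹' V : Set (ℝ × Cn n)) := hV.preimage continuous_snd
  have hU' := contDiffOn_snd hv
  have hzU : ((0 : ℝ), z) ∈ (Prod.snd ⁻¹' V : Set (ℝ × Cn n)) := hz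
  refine Matrix.PosSemidef.of_dotProduct_mulVec_nonneg (cHess_herm hU hU' hzU) fun x => ?_
  rw [Complex.nonneg_iff]
  constructor
  · rw [← Bd.lev_eq_form hU hU' hzU]
    have h2 : ∀ u : Cn n, 0 ≤ lev (fun q : ℝ × Cn n => v q.2) u (0, z) := by
      intro u
      unfold lev
      rw [D_D_snd hV hv hz, D_D_snd hV hv hz]
      have e1 := h u
      have e2 := h (J u)
      positivity
    exact h2 _
  · exact ((cHess_herm hU hU' hzU).im_star_dotProduct_mulVec_self x).symm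

theorem lev_snd (hV : IsOpen V) (hv : ContDiffOn ℝ ∞ v V) {z : Cn n} (hz : z ∈ V) (u : Cn n) :
    lev (fun q : ℝ × Cn n => v q.2) u (0, z) = levz v u z := by
  unfold lev levz
  rw [D_D_snd hV hv hz, D_D_snd hV hv hz]

theorem abs_det_le_cset (hV : IsOpen V) (hv : ContDiffOn ℝ ∞ v V)
    {f : ℝ × Cn n → ℝ} {t D₁ : ℝ} {U : Set (ℝ × Cn n)} (hU : IsOpen U)
    (hf : ContDiffOn ℝ ∞ f U) {z : Cn n} (hzV : z ∈ V) (hzU : (t, z) ∈ U)
    (hpos : (cHess f (t, z)).PosDef) (hD : (cHess f (t, z)).det.re ≤ D₁)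
    (hlev : ∀ u, levz v u z ≤ lev f u (t, z)) (hc : ∀ u, 0 ≤ D u (D u v) z) :
    |(fderiv ℝ (grad v) z).det| ≤ 16 ^ n * D₁ ^ 2 := by
  have hps := hess_posSemidef hV hv hzV hc
  rw [det_fderiv_grad hV hv hzV, abs_of_nonneg hps.det_nonneg]
  have h1 := det_hess_le hps
  have hU2 : IsOpen (Prod.snd ⁻¹' V : Set (ℝ × Cn n)) := hV.preimage continuous_snd
  have hU' := contDiffOn_snd hv
  have hzU' : ((0 : ℝ), z) ∈ (Prod.snd ⁻¹' V : Set (ℝ × Cn n)) := hzV
  set C := cHess (fun q : ℝ × Cn n => v q.2) (0, z) with hC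
  have hCpos : C.PosSemidef := posSemidef_cHess_snd hV hv hzV hc
  have h3 : 0 ≤ C.det.re := (Complex.nonneg_iff.1 hCpos.det_nonneg).1
  have h4 : C.det.im = 0 := ((Complex.nonneg_iff.1 hCpos.det_nonneg).2).symm
  have h7 : C.det.re ≤ D₁ := by
    refine (det_re_le_of_posSemidef hCpos hpos fun x => ?_).trans hD
    rw [← Bd.lev_eq_form hU2 hU' hzU', ← Bd.lev_eq_form hU hf hzU, lev_snd hV hv hzV]
    exact hlev _
  have h5 : Complex.normSq C.det ≤ D₁ ^ 2 := by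
    rw [Complex.normSq_apply, h4, mul_zero, add_zero]
    nlinarith
  have h6 : (Matrix.of fun i j : Fin n =>
      (⟨(hess v z (Sum.inl i) (Sum.inl j) + hess v z (Sum.inr i) (Sum.inr j)) / 4,
        (hess v z (Sum.inl i) (Sum.inr j) - hess v z (Sum.inr i) (Sum.inl j)) / 4⟩ : ℂ)) = C :=
    (cHess_snd hV hv hzV).symm
  calc (hess v z).det ≤ 16 ^ n * Complex.normSq C.det := by
        rw [← h6]
        exact h1
    _ ≤ 16 ^ n * D₁ ^ 2 := by gcongr

end

/-- **The contact set estimate.** -/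
theorem abp (n : ℕ) : ∃ C : ℝ, 0 < C ∧ ∀ (v : Cn n → ℝ) (f : ℝ × Cn n → ℝ) (t : ℝ)
    (V : Set (Cn n)) (U : Set (ℝ × Cn n)) (z₀ : Cn n) (r ε D₁ : ℝ),
    IsOpen V → ContDiffOn ℝ ∞ v V → IsOpen U → ContDiffOn ℝ ∞ f U → 0 < r → 0 < ε →
    {z | nsq (z - z₀) ≤ r ^ 2} ⊆ V →
    (∀ z, nsq (z - z₀) ≤ r ^ 2 → (t, z) ∈ U ∧ (cHess f (t, z)).PosDef ∧
      (cHess f (t, z)).det.re ≤ D₁ ∧ ∀ u, levz v u z ≤ lev f u (t, z)) →
    (∀ z, nsq (z - z₀) = r ^ 2 → v z₀ + ε ≤ v z) →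
    ENNReal.ofReal ((ε / r) ^ (2 * n)) ≤ ENNReal.ofReal (C * D₁ ^ 2) *
      volume {z | nsq (z - z₀) ≤ r ^ 2 ∧ v z ≤ v z₀ + ε} := by
  set V₀ := volume {p : Cn n | nsq p < 1} with hV₀
  have hV₀t : V₀ ≠ ⊤ := volume_ball_ne_top
  have hV₀p : 0 < V₀.toReal := ENNReal.toReal_pos (volume_ball_pos (k := n)).ne' hV₀t
  refine ⟨2 ^ (2 * n) * 16 ^ n / V₀.toReal, by positivity, ?_⟩
  intro v f t V U z₀ r ε D₁ hV hv hU hf hr hε hsub h hb
  have h1 : {p : Cn n | nsq p < (ε / (2 * r)) ^ 2} ⊆ grad v '' cset v z₀ r (v z₀ + ε) := by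
    intro p hp
    obtain ⟨z, hz, rfl⟩ := exists_cset hV hv hr hε hsub hb hp
    exact ⟨z, hz, rfl⟩
  have hms := measurableSet_cset hV hv hsub (v z₀ + ε)
  have h2 : volume (grad v '' cset v z₀ r (v z₀ + ε)) ≤
      ∫⁻ z in cset v z₀ r (v z₀ + ε), ENNReal.ofReal |(fderiv ℝ (grad v) z).det| := by
    have := haar_Cn n
    refine addHaar_image_le_lintegral_abs_det_fderiv volume hms fun z hz => ?_
    have hzV : z ∈ V := hsub hz.1.le
    exact (((contDiffOn_grad hV hv).differentiableOn (by simp)).differentiableAt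
      (hV.mem_nhds hzV)).hasFDerivAt.hasFDerivWithinAt
  have h3 : ∫⁻ z in cset v z₀ r (v z₀ + ε), ENNReal.ofReal |(fderiv ℝ (grad v) z).det| ≤
      ∫⁻ z in cset v z₀ r (v z₀ + ε), ENNReal.ofReal (16 ^ n * D₁ ^ 2) := by
    refine setLIntegral_mono' hms fun z hz => ENNReal.ofReal_le_ofReal ?_
    obtain ⟨e1, e2, e3, e4⟩ := h z hz.1.le
    exact abs_det_le_cset hV hv hU hf (hsub hz.1.le) e1 e2 e3 e4 hz.2.2
  have h4 : cset v z₀ r (v z₀ + ε) ⊆ {z | nsq (z - z₀) ≤ r ^ 2 ∧ v z ≤ v z₀ + ε} :=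
    fun z hz => ⟨hz.1.le, hz.2.1⟩
  have h6 : ENNReal.ofReal ((ε / (2 * r)) ^ (2 * n)) * V₀ ≤
      ENNReal.ofReal (16 ^ n * D₁ ^ 2) *
        volume {z | nsq (z - z₀) ≤ r ^ 2 ∧ v z ≤ v z₀ + ε} := by
    rw [← volume_ball (ε / (2 * r)) (by positivity)]
    refine (measure_mono h1).trans (h2.trans (h3.trans ?_))
    rw [setLIntegral_const]
    gcongr
  have h7 : ENNReal.ofReal ((ε / r) ^ (2 * n)) =
      ENNReal.ofReal (2 ^ (2 * n) / V₀.toReal) * (ENNReal.ofReal ((ε / (2 * r)) ^ (2 * n)) * V₀) := by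
    obtain ⟨W, hW⟩ : ∃ W, W = V₀.toReal := ⟨_, rfl⟩
    have hVW : V₀ = ENNReal.ofReal W := by
      rw [hW, ENNReal.ofReal_toReal hV₀t]
    rw [← hW] at hV₀p ⊢
    rw [hVW, ← ENNReal.ofReal_mul (by positivity), ← ENNReal.ofReal_mul (by positivity)]
    congr 1
    have : ε / (2 * r) = (ε / r) / 2 := by
      field_simp
    rw [this, div_pow (ε / r) 2]
    field_simp
  calc ENNReal.ofReal ((ε / r) ^ (2 * n))
      = ENNReal.ofReal (2 ^ (2 * n) / V₀.toReal) *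
          (ENNReal.ofReal ((ε / (2 * r)) ^ (2 * n)) * V₀) := h7
    _ ≤ ENNReal.ofReal (2 ^ (2 * n) / V₀.toReal) * (ENNReal.ofReal (16 ^ n * D₁ ^ 2) *
        volume {z | nsq (z - z₀) ≤ r ^ 2 ∧ v z ≤ v z₀ + ε}) := by gcongr
    _ = _ := by
        rw [← mul_assoc, ← ENNReal.ofReal_mul (by positivity)]
        congr 2
        ring

end Pool.Agent.KRFF
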