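import Pool.Agent.Work.MP_a2bf38_gt.LCalc
import Mathlib.Analysis.Calculus.LineDeriv.IntegrationByParts
import Mathlib.Analysis.Calculus.BumpFunction.FiniteDimension
import Mathlib.MeasureTheory.Measure.Haar.NormedSpace

/-!
# The mass of the Laplacian of a subharmonic function on a disc
-/

open scoped ContDiff ENNReal
open Set Filter Topology MeasureTheory Pool.Agent.ToricKRF

namespace Pool.Agent.KRFS

section

variable {W : Set ℂ} {χ f : ℂ → ℝ}

theorem integrable_mul_of_tsupport {a b : ℂ → ℝ} {K : Set ℂ} (hK : IsCompact K) (hKW : K ⊆ W)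
    (ha : Continuous a) (has : ∀ z ∉ K, a z = 0) (hb : ContinuousOn b W) :
    Integrable (fun z => a z * b z) := by
  have h1 : Function.support (fun z => a z * b z) ⊆ K := by
    intro z hz
    by_contra hzK
    exact hz (by simp [has z hzK])
  rw [← integrableOn_iff_integrable_of_support_subset h1]
  exact (ha.continuousOn.mul (hb.mono hKW)).integrableOn_compact hK

theorem D_eq_zero_of_notMem_tsupport (v : ℂ) {z : ℂ} (hz : z ∉ tsupport χ) : D v χ z = 0 := by
  have h1 : χ =ᶠ[𝓝 z] fun _ => 0 := by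
    filter_upwards [(isClosed_tsupport χ).isOpen_compl.mem_nhds hz] with y hy
    exact image_eq_zero_of_notMem_tsupport hy
  have : fderiv ℝ χ z = 0 := by
    rw [h1.fderiv_eq]
    simp
  simp [D, this]

theorem tsupport_D_subset (v : ℂ) : tsupport (D v χ) ⊆ tsupport χ := by
  refine closure_minimal (fun z hz => ?_) (isClosed_tsupport χ)
  by_contra h
  exact hz (D_eq_zero_of_notMem_tsupport v h)

theorem contDiff_D_infty (hχ : ContDiff ℝ ∞ χ) (v : ℂ) : ContDiff ℝ ∞ (D v χ) :=
  (hχ.fderiv_right (m := ∞) (by simp)).clm_apply contDiff_const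

theorem contDiffOn_D_infty (hW : IsOpen W) (hf : ContDiffOn ℝ ∞ f W) (v : ℂ) :
    ContDiffOn ℝ ∞ (D v f) W :=
  (hf.fderiv_of_isOpen hW (m := ∞) (by simp)).clm_apply contDiffOn_const

/-- integration by parts, twice -/
theorem ibp_twice (hW : IsOpen W) (hχ : ContDiff ℝ ∞ χ) (hc : IsCompact (tsupport χ))
    (hs : tsupport χ ⊆ W) (hf : ContDiffOn ℝ ∞ f W) (v : ℂ) (b : ℝ) :
    ∫ z, χ z * D v (D v f) z = ∫ z, D v (D v χ) z * (f z - b) := by
  have hD1 := contDiffOn_D_infty hW hf v
  have hD2 := contDiffOn_D_infty hW hD1 v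
  have hc1 := contDiff_D_infty hχ v
  have hc2 := contDiff_D_infty hc1 v
  have z0 : ∀ z ∉ tsupport χ, χ z = 0 := fun z hz => image_eq_zero_of_notMem_tsupport hz
  have z1 : ∀ z ∉ tsupport χ, D v χ z = 0 := fun z hz => D_eq_zero_of_notMem_tsupport v hz
  have z2 : ∀ z ∉ tsupport χ, D v (D v χ) z = 0 := fun z hz =>
    D_eq_zero_of_notMem_tsupport v fun h => hz (tsupport_D_subset v h)
  have hfb : ContDiffOn ℝ ∞ (fun z => f z - b) W := hf.sub contDiffOn_const
  have e1 : ∫ z, χ z * D v (D v f) z = - ∫ z, D v χ z * D v f z := by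
    refine integral_mul_fderiv_eq_neg_fderiv_mul_of_integrable ?_ ?_ ?_ ?_ ?_
    · exact integrable_mul_of_tsupport hc hs hc1.continuous z1 hD1.continuousOn
    · exact integrable_mul_of_tsupport hc hs hχ.continuous z0 hD2.continuousOn
    · exact integrable_mul_of_tsupport hc hs hχ.continuous z0 hD1.continuousOn
    · exact fun z _ => (hχ.differentiable (by simp)) z
    · exact fun z hz => (hD1.contDiffAt (hW.mem_nhds (hs hz))).differentiableAt (by simp)
  have hev : ∀ z ∈ tsupport χ, D v f z = fderiv ℝ (fun y => f y - b) z v := by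
    intro z hz
    have h1 : DifferentiableAt ℝ f z :=
      (hf.contDiffAt (hW.mem_nhds (hs hz))).differentiableAt (by simp)
    rw [fderiv_sub_const]
    rfl
  have e2 : ∫ z, D v χ z * D v f z = ∫ z, D v χ z * fderiv ℝ (fun y => f y - b) z v := by
    refine integral_congr_ae (Eventually.of_forall fun z => ?_)
    by_cases hz : z ∈ tsupport χ
    · simp only [hev z hz]
    · simp only [z1 z hz, zero_mul]
  have e3 : ∫ z, D v χ z * fderiv ℝ (fun y => f y - b) z v =
      - ∫ z, D v (D v χ) z * (f z - b) := by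
    refine integral_mul_fderiv_eq_neg_fderiv_mul_of_integrable ?_ ?_ ?_ ?_ ?_
    · exact integrable_mul_of_tsupport hc hs hc2.continuous z2 hfb.continuousOn
    · exact integrable_mul_of_tsupport hc hs hc1.continuous z1
        (contDiffOn_D_infty hW hfb v).continuousOn
    · exact integrable_mul_of_tsupport hc hs hc1.continuous z1 hfb.continuousOn
    · exact fun z _ => (hc1.differentiable (by simp)) z
    · exact fun z hz => (hfb.contDiffAt (hW.mem_nhds (hs (tsupport_D_subset v hz)))).differentiableAt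
        (by simp)
  rw [e1, e2, e3, neg_neg]

theorem D_comp_aff {g : ℂ → ℝ} (hg : Differentiable ℝ g) (r : ℝ) (p v : ℂ) :
    D v (fun z => g (r • (z - p))) = fun z => r * D v g (r • (z - p)) := by
  ext z
  have h1 : HasFDerivAt (fun z : ℂ => r • (z - p)) (r • ContinuousLinearMap.id ℝ ℂ) z :=
    ((hasFDerivAt_id z).sub_const p).const_smul r
  have h2 := ((hg (r • (z - p))).hasFDerivAt.comp z h1).fderiv
  simp only [D]
  rw [show (fun z => g (r • (z - p))) = g ∘ fun z => r • (z - p) from rfl, h2]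
  simp

/-- **The mass of the Laplacian of a subharmonic function of bounded oscillation.** -/
theorem exists_area_const : ∃ C > 0, ∀ (f : ℂ → ℝ) (p : ℂ) (s B : ℝ), 0 < s →
    ContDiffOn ℝ ∞ f (Metric.ball p (2 * s)) →
    (∀ z ∈ Metric.ball p (2 * s), 0 ≤ D 1 (D 1 f) z + D Complex.I (D Complex.I f) z) →
    (∀ z ∈ Metric.ball p (2 * s), ∀ z' ∈ Metric.ball p (2 * s), f z - f z' ≤ B) →
    ∫ z in Metric.closedBall p s, (D 1 (D 1 f) z + D Complex.I (D Complex.I f) z) ≤ C * B := by
  obtain ⟨β, hβ1, hβ2⟩ : ∃ β : ContDiffBump (0 : ℂ), β.rIn = 1 ∧ β.rOut = 3 / 2 :=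
    ⟨⟨1, 3 / 2, by norm_num, by norm_num⟩, rfl, rfl⟩
  have hβ : ContDiff ℝ ∞ (β : ℂ → ℝ) := β.contDiff
  have hβc : HasCompactSupport (β : ℂ → ℝ) := β.hasCompactSupport
  set Δβ : ℂ → ℝ := fun z => D 1 (D 1 β) z + D Complex.I (D Complex.I β) z with hΔβ
  have hΔc : Continuous Δβ :=
    (contDiff_D_infty (contDiff_D_infty hβ 1) 1).continuous.add
      (contDiff_D_infty (contDiff_D_infty hβ Complex.I) Complex.I).continuous
  refine ⟨(∫ z, |Δβ z|) + 1, by positivity, ?_⟩
  intro f p s B hs hf hsub hosc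
  set W := Metric.ball p (2 * s) with hWd
  have hW : IsOpen W := Metric.isOpen_ball
  have hpW : p ∈ W := Metric.mem_ball_self (by positivity)
  have hB : 0 ≤ B := by
    have := hosc p hpW p hpW
    linarith
  set χ : ℂ → ℝ := fun z => β (s⁻¹ • (z - p)) with hχd
  have hχ : ContDiff ℝ ∞ χ := hβ.comp (by fun_prop)
  have hχ0 : ∀ z, 0 ≤ χ z := fun z => β.nonneg
  have hnorm : ∀ z, dist (s⁻¹ • (z - p)) 0 = dist z p / s := by
    intro z
    rw [dist_zero_right, norm_smul, norm_inv, Real.norm_of_nonneg hs.le, dist_eq_norm]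
    ring
  have hχ1 : ∀ z ∈ Metric.closedBall p s, χ z = 1 := by
    intro z hz
    apply β.one_of_mem_closedBall
    rw [Metric.mem_closedBall, hnorm, hβ1, div_le_one hs]
    exact hz
  have hχz : ∀ z ∉ Metric.closedBall p (3 / 2 * s), χ z = 0 := by
    intro z hz
    apply β.zero_of_le_dist
    rw [hnorm, hβ2, le_div_iff₀ hs]
    rw [Metric.mem_closedBall, not_le] at hz
    exact hz.le
  have hts : tsupport χ ⊆ Metric.closedBall p (3 / 2 * s) := by
    refine closure_minimal (fun z hz => ?_) Metric.isClosed_closedBall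
    by_contra h
    exact hz (hχz z h)
  have htW : tsupport χ ⊆ W :=
    hts.trans (Metric.closedBall_subset_ball (by linarith))
  have htc : IsCompact (tsupport χ) :=
    (isCompact_closedBall p (3 / 2 * s)).of_isClosed_subset (isClosed_tsupport χ) hts
  have zz : ∀ v : ℂ, ∀ z ∉ tsupport χ, D v (D v χ) z = 0 := fun v z hz =>
    D_eq_zero_of_notMem_tsupport v fun h => hz (tsupport_D_subset v h)
  have z0 : ∀ z ∉ tsupport χ, χ z = 0 := fun z hz => image_eq_zero_of_notMem_tsupport hz
  have hDD : ∀ v : ℂ, ContinuousOn (D v (D v f)) W := fun v =>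
    (contDiffOn_D_infty hW (contDiffOn_D_infty hW hf v) v).continuousOn
  have i1 : ∀ v : ℂ, Integrable (fun z => χ z * D v (D v f) z) := fun v =>
    integrable_mul_of_tsupport htc htW hχ.continuous z0 (hDD v)
  have i2 : ∀ v : ℂ, Integrable (fun z => D v (D v χ) z * (f z - f p)) := fun v =>
    integrable_mul_of_tsupport htc htW
      (contDiff_D_infty (contDiff_D_infty hχ v) v).continuous (zz v)
      (hf.sub contDiffOn_const).continuousOn
  have i3 : Integrable (fun z => χ z * (D 1 (D 1 f) z + D Complex.I (D Complex.I f) z)) := by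
    refine ((i1 1).add (i1 Complex.I)).congr (Eventually.of_forall fun z => ?_)
    simp only [Pi.add_apply, mul_add]
  -- step 1
  have s1 : ∫ z in Metric.closedBall p s, (D 1 (D 1 f) z + D Complex.I (D Complex.I f) z) ≤
      ∫ z, χ z * (D 1 (D 1 f) z + D Complex.I (D Complex.I f) z) := by
    have k1 : ∫ z in Metric.closedBall p s, (D 1 (D 1 f) z + D Complex.I (D Complex.I f) z) =
        ∫ z in Metric.closedBall p s, χ z * (D 1 (D 1 f) z + D Complex.I (D Complex.I f) z) := by
      refine setIntegral_congr_fun Metric.isClosed_closedBall.measurableSet fun z hz => ?_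
      simp only [hχ1 z hz, one_mul]
    rw [k1]
    refine setIntegral_le_integral i3 (Eventually.of_forall fun z => ?_)
    by_cases hz : z ∈ W
    · exact mul_nonneg (hχ0 z) (hsub z hz)
    · simp only [Pi.zero_apply, z0 z fun h => hz (htW h), zero_mul, le_refl]
  -- step 2
  have s2 : ∫ z, χ z * (D 1 (D 1 f) z + D Complex.I (D Complex.I f) z) =
      ∫ z, (D 1 (D 1 χ) z + D Complex.I (D Complex.I χ) z) * (f z - f p) := by
    have k1 : ∫ z, χ z * (D 1 (D 1 f) z + D Complex.I (D Complex.I f) z) =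
        (∫ z, χ z * D 1 (D 1 f) z) + ∫ z, χ z * D Complex.I (D Complex.I f) z := by
      rw [← integral_add (i1 1) (i1 Complex.I)]
      simp only [mul_add]
    have k2 : ∫ z, (D 1 (D 1 χ) z + D Complex.I (D Complex.I χ) z) * (f z - f p) =
        (∫ z, D 1 (D 1 χ) z * (f z - f p)) + ∫ z, D Complex.I (D Complex.I χ) z * (f z - f p) := by
      rw [← integral_add (i2 1) (i2 Complex.I)]
      simp only [add_mul]
    rw [k1, k2, ibp_twice hW hχ htc htW hf 1 (f p), ibp_twice hW hχ htc htW hf Complex.I (f p)]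
  -- step 3
  have hdχ : ∀ z, D 1 (D 1 χ) z + D Complex.I (D Complex.I χ) z =
      s⁻¹ ^ 2 * Δβ (s⁻¹ • (z - p)) := by
    intro z
    have k : ∀ v : ℂ, D v (D v χ) z = s⁻¹ ^ 2 * D v (D v β) (s⁻¹ • (z - p)) := by
      intro v
      have k1 : D v χ = fun z => s⁻¹ * D v β (s⁻¹ • (z - p)) :=
        D_comp_aff (hβ.differentiable (by simp)) s⁻¹ p v
      have hd1 : Differentiable ℝ (D v β) := (contDiff_D_infty hβ v).differentiable (by simp)
      have k2 := D_comp_aff hd1 s⁻¹ p v
      have k3 : DifferentiableAt ℝ (fun z => D v β (s⁻¹ • (z - p))) z := by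
        have : Differentiable ℝ (fun z => D v β (s⁻¹ • (z - p))) := hd1.comp (by fun_prop)
        exact this z
      rw [k1, LC.D_const_mul v s⁻¹ k3, k2]
      ring
    rw [k, k, hΔβ]
    ring
  have i4 : Integrable (fun z => |Δβ z|) := by
    apply Integrable.abs
    refine hΔc.integrable_of_hasCompactSupport ?_
    refine HasCompactSupport.intro hβc fun z hz => ?_
    rw [hΔβ]
    simp only
    rw [D_eq_zero_of_notMem_tsupport 1 fun h => hz (tsupport_D_subset 1 h),
      D_eq_zero_of_notMem_tsupport Complex.I fun h => hz (tsupport_D_subset Complex.I h), add_zero]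
  have i5 : Integrable (fun z => |Δβ (s⁻¹ • (z - p))|) :=
    (i4.comp_smul (inv_ne_zero hs.ne')).comp_sub_right p
  have s3 : ∫ z, (D 1 (D 1 χ) z + D Complex.I (D Complex.I χ) z) * (f z - f p) ≤
      ∫ z, s⁻¹ ^ 2 * |Δβ (s⁻¹ • (z - p))| * B := by
    refine integral_mono ?_ ((i5.const_mul _).mul_const _) fun z => ?_
    · refine ((i2 1).add (i2 Complex.I)).congr (Eventually.of_forall fun z => ?_)
      simp only [Pi.add_apply, add_mul]
    · by_cases hz : z ∈ W
      · have k1 : |f z - f p| ≤ B := abs_le.2 ⟨by linarith [hosc p hpW z hz], hosc z hz p hpW⟩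
        simp only
        rw [hdχ]
        refine (le_abs_self _).trans ?_
        rw [abs_mul, abs_mul, abs_of_nonneg (by positivity : (0:ℝ) ≤ s⁻¹ ^ 2)]
        exact mul_le_mul_of_nonneg_left k1 (by positivity)
      · have hz' : z ∉ tsupport χ := fun h => hz (htW h)
        simp only
        rw [zz 1 z hz', zz Complex.I z hz', add_zero, zero_mul]
        positivity
  have s4 : ∫ z, s⁻¹ ^ 2 * |Δβ (s⁻¹ • (z - p))| * B = (∫ z, |Δβ z|) * B := by
    rw [integral_mul_const, integral_const_mul]
    congr 1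
    have k1 : ∫ z, |Δβ (s⁻¹ • (z - p))| = ∫ z, |Δβ (s⁻¹ • z)| :=
      integral_sub_right_eq_self (fun z => |Δβ (s⁻¹ • z)|) p
    rw [k1, Measure.integral_comp_smul volume (fun z => |Δβ z|) s⁻¹, Complex.finrank_real_complex,
      smul_eq_mul, abs_of_nonneg (by positivity)]
    field_simp
  rw [s2] at s1
  rw [s4] at s3
  refine s1.trans (s3.trans ?_)
  nlinarith
end

end Pool.Agent.KRFS
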