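import Pool.Agent.Work.MP_a2bf38_gt.H.Dist
import Mathlib.Analysis.SpecialFunctions.PolarCoord

/-!
# Selection of a circle on which the square root of a density has a small integral
-/

open scoped ContDiff ENNReal
open Set Filter Topology MeasureTheory

namespace Pool.Agent.KRFS

section

variable {f : ℂ → ℝ} {p : ℂ} {d A : ℝ}

theorem circle_mem {a : ℝ} (ha : a ∈ Icc (3 / 4 * d) (3 / 2 * d)) (hd : 0 < d) (θ : ℝ) :
    p + a * Complex.exp (θ * Complex.I) ∈ Metric.closedBall p (3 / 2 * d) := by
  rw [Metric.mem_closedBall, dist_eq_norm, add_sub_cancel_left, norm_mul,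
    Complex.norm_exp_ofReal_mul_I, mul_one, Complex.norm_real, Real.norm_eq_abs, abs_of_nonneg]
  · exact ha.2
  · have := ha.1
    linarith

theorem circle_cont (hf : ContinuousOn f (Metric.closedBall p (3 / 2 * d))) {a : ℝ}
    (ha : a ∈ Icc (3 / 4 * d) (3 / 2 * d)) (hd : 0 < d) :
    Continuous fun θ : ℝ => f (p + a * Complex.exp (θ * Complex.I)) :=
  hf.comp_continuous (by fun_prop) fun θ => circle_mem ha hd θ

/-- the average of the density on a circle with a large integral of the square root -/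
theorem circle_large (hd : 0 < d) (hA : 0 < A)
    (hf : ContinuousOn f (Metric.closedBall p (3 / 2 * d)))
    (h0 : ∀ z ∈ Metric.closedBall p (3 / 2 * d), 0 ≤ f z) {a : ℝ}
    (ha : a ∈ Icc (3 / 4 * d) (3 / 2 * d))
    (hL : 4 * √A < ∫ θ in (0 : ℝ)..2 * Real.pi, a * √(f (p + a * Complex.exp (θ * Complex.I)))) :
    16 * A / (3 * Real.pi * d) ≤
      ∫ θ in (0 : ℝ)..2 * Real.pi, a * f (p + a * Complex.exp (θ * Complex.I)) := by
  have hpi := Real.pi_pos
  have ha0 : 0 < a := by
    have := ha.1
    linarith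
  have hsA : 0 < √A := Real.sqrt_pos.2 hA
  have hc := circle_cont hf ha hd
  set l : ℝ := 2 * √A / Real.pi with hl
  have hl0 : 0 < l := by positivity
  have h1 : ∫ θ in (0 : ℝ)..2 * Real.pi, a * √(f (p + a * Complex.exp (θ * Complex.I))) ≤
      ∫ θ in (0 : ℝ)..2 * Real.pi,
        ((a / (2 * l)) * (a * f (p + a * Complex.exp (θ * Complex.I))) + l / 2) := by
    apply intervalIntegral.integral_mono_on (by positivity)
    · exact (Continuous.mul continuous_const (hc.sqrt)).intervalIntegrable _ _
    · exact (((hc.const_mul _).const_mul _).add continuous_const).intervalIntegrable _ _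
    · intro θ _
      have hn := h0 _ (circle_mem (p := p) ha hd θ)
      set y := f (p + a * Complex.exp (θ * Complex.I))
      have hy : √y ^ 2 = y := Real.sq_sqrt hn
      have h2 : (a / (2 * l)) * (a * y) + l / 2 - a * √y = (a * √y - l) ^ 2 / (2 * l) := by
        rw [← hy, Real.sqrt_sq (Real.sqrt_nonneg _)]
        field_simp
        ring
      have h3 : 0 ≤ (a * √y - l) ^ 2 / (2 * l) := by positivity
      linarith
  rw [intervalIntegral.integral_add (((hc.const_mul _).const_mul _).intervalIntegrable _ _)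
    (continuous_const.intervalIntegrable _ _), intervalIntegral.integral_const_mul (a / (2 * l)),
    intervalIntegral.integral_const] at h1
  set I := ∫ θ in (0 : ℝ)..2 * Real.pi, a * f (p + a * Complex.exp (θ * Complex.I)) with hI
  have h4 : (2 * Real.pi - 0) • (l / 2) = 2 * √A := by
    rw [smul_eq_mul, hl]
    field_simp
    ring
  rw [h4] at h1
  have h5 : 2 * √A < a / (2 * l) * I := by linarith
  have h6 : a / (2 * l) ≤ 3 / 2 * d / (2 * l) := by
    apply div_le_div_of_nonneg_right ha.2 (by positivity)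
  have hIpos : 0 < I := by
    by_contra hneg
    push Not at hneg
    have : a / (2 * l) * I ≤ 0 := mul_nonpos_of_nonneg_of_nonpos (by positivity) hneg
    linarith
  have h7 : 2 * √A ≤ 3 / 2 * d / (2 * l) * I :=
    h5.le.trans (mul_le_mul_of_nonneg_right h6 hIpos.le)
  have hsq : √A * √A = A := Real.mul_self_sqrt hA.le
  have h8 : 3 / 2 * d / (2 * l) = 3 * Real.pi * d / (8 * √A) := by
    rw [hl]
    field_simp
    ring
  rw [h8, div_mul_eq_mul_div, le_div_iff₀ (by positivity)] at h7
  rw [div_le_iff₀ (by positivity)]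
  nlinarith [h7, hsq]

theorem circle_inner (hd : 0 < d) (hf : ContinuousOn f (Metric.closedBall p (3 / 2 * d)))
    (h0 : ∀ z ∈ Metric.closedBall p (3 / 2 * d), 0 ≤ f z) {a : ℝ}
    (ha : a ∈ Icc (3 / 4 * d) (3 / 2 * d)) :
    ∫⁻ θ in Ioo (-Real.pi) Real.pi, ENNReal.ofReal (a * f (p + a * Complex.exp (θ * Complex.I))) =
      ENNReal.ofReal
        (∫ θ in (0 : ℝ)..2 * Real.pi, a * f (p + a * Complex.exp (θ * Complex.I))) := by
  have ha0 : 0 < a := by
    have := ha.1
    linarith
  have hc := (circle_cont hf ha hd).const_mul a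
  have hper : Function.Periodic
      (fun θ : ℝ => a * f (p + a * Complex.exp (θ * Complex.I))) (2 * Real.pi) := by
    intro θ
    have : Complex.exp (((θ + 2 * Real.pi : ℝ) : ℂ) * Complex.I) =
        Complex.exp (θ * Complex.I) := by
      push_cast
      rw [add_mul, Complex.exp_add, Complex.exp_two_pi_mul_I, mul_one]
    simp only [this]
  have h1 := hper.intervalIntegral_add_eq 0 (-Real.pi)
  rw [zero_add, show -Real.pi + 2 * Real.pi = Real.pi by ring] at h1
  rw [h1, intervalIntegral.integral_of_le (by linarith [Real.pi_pos]),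
    integral_Ioc_eq_integral_Ioo, ofReal_integral_eq_lintegral_ofReal]
  · exact (hc.integrableOn_Icc (a := -Real.pi) (b := Real.pi)).mono_set Ioo_subset_Icc_self
  · exact Eventually.of_forall fun θ => mul_nonneg ha0.le (h0 _ (circle_mem ha hd θ))

/-- **Selection of a circle.** -/
theorem exists_circle (hd : 0 < d) (hA : 0 < A)
    (hf : ContinuousOn f (Metric.closedBall p (3 / 2 * d)))
    (h0 : ∀ z ∈ Metric.closedBall p (3 / 2 * d), 0 ≤ f z)
    (hi : ∫ z in Metric.closedBall p (3 / 2 * d), f z ≤ A) :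
    ∃ a ∈ Icc (3 / 4 * d) (3 / 2 * d),
      ∫ θ in (0 : ℝ)..2 * Real.pi, a * √(f (p + a * Complex.exp (θ * Complex.I))) ≤ 4 * √A := by
  by_contra hcon
  push Not at hcon
  have hpi := Real.pi_pos
  set R := 3 / 2 * d with hR
  set S : Set (ℝ × ℝ) := Icc (3 / 4 * d) R ×ˢ Ioo (-Real.pi) Real.pi with hS
  set F : ℂ → ℝ≥0∞ := (Metric.closedBall p R).indicator fun z => ENNReal.ofReal (f z) with hF
  have hSm : MeasurableSet S := measurableSet_Icc.prod measurableSet_Ioo
  -- total mass
  have h1 : ∫⁻ z, F z ≤ ENNReal.ofReal A := by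
    rw [hF, lintegral_indicator Metric.isClosed_closedBall.measurableSet,
      ← ofReal_integral_eq_lintegral_ofReal]
    · exact ENNReal.ofReal_le_ofReal hi
    · exact hf.integrableOn_compact (isCompact_closedBall p R)
    · exact (ae_restrict_iff' Metric.isClosed_closedBall.measurableSet).2
        (Eventually.of_forall h0)
  have h2 : ∫⁻ z, F z = ∫⁻ z, F (p + z) := (lintegral_add_left_eq_self F p).symm
  have h3 : ∫⁻ q in S, ENNReal.ofReal (q.1 * f (p + q.1 * Complex.exp (q.2 * Complex.I))) ≤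
      ∫⁻ z, F (p + z) := by
    rw [← Complex.lintegral_comp_polarCoord_symm fun z => F (p + z)]
    have hsub : S ⊆ polarCoord.target := by
      rintro ⟨a, θ⟩ ⟨h, h'⟩
      rw [polarCoord_target]
      exact ⟨lt_of_lt_of_le (by positivity) h.1, h'⟩
    refine le_trans (le_of_eq ?_) (lintegral_mono_set hsub)
    refine setLIntegral_congr_fun hSm ?_
    rintro ⟨a, θ⟩ ⟨h, -⟩
    have ha0 : 0 ≤ a := le_trans (by positivity) h.1
    have hmem := circle_mem (p := p) h hd θ
    have e1 : (Complex.polarCoord.symm (a, θ)) = a * Complex.exp (θ * Complex.I) := by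
      rw [Complex.polarCoord_symm_apply, Complex.exp_mul_I, Complex.ofReal_cos,
        Complex.ofReal_sin]
    simp only
    rw [e1, hF, indicator_of_mem hmem, smul_eq_mul, ENNReal.ofReal_mul ha0]
  have h4 : ∫⁻ q in S, ENNReal.ofReal (q.1 * f (p + q.1 * Complex.exp (q.2 * Complex.I))) =
      ∫⁻ a in Icc (3 / 4 * d) R, ∫⁻ θ in Ioo (-Real.pi) Real.pi,
        ENNReal.ofReal (a * f (p + a * Complex.exp (θ * Complex.I))) := by
    rw [hS, Measure.volume_eq_prod, ← Measure.prod_restrict, lintegral_prod]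
    rw [Measure.prod_restrict]
    refine ContinuousOn.aemeasurable ?_ hSm
    refine ENNReal.continuous_ofReal.comp_continuousOn ?_
    refine continuousOn_fst.mul (hf.comp (by fun_prop) ?_)
    rintro ⟨a, θ⟩ ⟨h, -⟩
    exact circle_mem h hd θ
  have h5 : ∫⁻ _ in Icc (3 / 4 * d) R, ENNReal.ofReal (16 * A / (3 * Real.pi * d)) ≤
      ∫⁻ a in Icc (3 / 4 * d) R, ∫⁻ θ in Ioo (-Real.pi) Real.pi,
        ENNReal.ofReal (a * f (p + a * Complex.exp (θ * Complex.I))) := by
    refine setLIntegral_mono' measurableSet_Icc fun a ha => ?_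
    rw [circle_inner hd hf h0 ha]
    exact ENNReal.ofReal_le_ofReal (circle_large hd hA hf h0 ha (hcon a ha))
  have h6 : ∫⁻ _ in Icc (3 / 4 * d) R, ENNReal.ofReal (16 * A / (3 * Real.pi * d)) =
      ENNReal.ofReal (4 * A / Real.pi) := by
    rw [setLIntegral_const, Real.volume_Icc, ← ENNReal.ofReal_mul (by positivity)]
    congr 1
    rw [hR]
    field_simp
    ring
  have h7 : ENNReal.ofReal (4 * A / Real.pi) ≤ ENNReal.ofReal A := by
    rw [← h6]
    exact h5.trans (h4.symm.le.trans (h3.trans (h2.symm.le.trans h1)))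
  rw [ENNReal.ofReal_le_ofReal_iff hA.le, div_le_iff₀ hpi] at h7
  nlinarith [Real.pi_lt_d2, h7]

end

end Pool.Agent.KRFS
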