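import Pool.Agent.Work.MP_a2bf38_gt.H.Defs

/-!
# Smooth Fano fibrations

`f : M → Y` is a holomorphic submersion with connected fibres of a compact complex manifold `M` of
dimension `k + m` to a complex manifold `Y` of dimension `m`, given by product charts.
-/

open scoped ContDiff ENNReal ComplexOrder
open Set Pool.Agent.ToricKRF Pool.Agent.ToricKRF.G Pool.Agent.KRFS

namespace Pool.Agent.KRFF

/-- The first `k` coordinates of a point of `ℂ^(k+m)`. -/
def fstC {k m : ℕ} (z : Cn (k + m)) : Cn k :=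
  (fun i => z.1 (Fin.castAdd m i), fun i => z.2 (Fin.castAdd m i))

/-- The last `m` coordinates of a point of `ℂ^(k+m)`. -/
def sndC {k m : ℕ} (z : Cn (k + m)) : Cn m :=
  (fun i => z.1 (Fin.natAdd k i), fun i => z.2 (Fin.natAdd k i))

/-- The open polydisc of radius `r`. -/
def opd {k : ℕ} (r : ℝ) : Set (Cn k) := {u | ∀ i, u.1 i ^ 2 + u.2 i ^ 2 < r ^ 2}

/-- The closed polydisc of radius `r`. -/
def cpd {k : ℕ} (r : ℝ) : Set (Cn k) := {u | ∀ i, u.1 i ^ 2 + u.2 i ^ 2 ≤ r ^ 2}

/-- `f : M → Y` is a submersion with connected fibres.  The charts `b j` of `Y` have the polydisc of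
radius `10` as target and `f⁻¹` of the source of `b j` is covered by the charts `e c` with
`pc c = j`, which have the product of polydiscs of radius `10` as target and in which `f` is the
projection to the last `m` coordinates.  The parts of the charts of radius `1` cover everything. -/
structure IsFibration {M Y : Type} [TopologicalSpace M] [TopologicalSpace Y] {k m : ℕ}
    {κ P : Type} (e : κ → OpenPartialHomeomorph M (Cn (k + m)))
    (b : P → OpenPartialHomeomorph Y (Cn m)) (pc : κ → P) (f : M → Y) : Prop where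
  target_base : ∀ j, (b j).target = opd 10
  cover_base : ∀ y, ∃ j, y ∈ (b j).source ∧ b j y ∈ cpd 1
  target : ∀ c, (e c).target = {z | fstC z ∈ opd 10 ∧ sndC z ∈ opd 10}
  proj : ∀ c, ∀ p ∈ (e c).source, f p ∈ (b (pc c)).source ∧ b (pc c) (f p) = sndC (e c p)
  cover : ∀ j, ∀ p, f p ∈ (b j).source →
    ∃ c, pc c = j ∧ p ∈ (e c).source ∧ fstC (e c p) ∈ cpd 1
  connected : ∀ y, IsPreconnected (f ⁻¹' {y})

/-- The limit class `[ω(0)] - 2πT c_1(M)` is the pull-back of the Kähler class of `Y` with the local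
potentials `K j`: there is a volume form `Ω` on `M` with
`ω(0) + T i ∂ ∂bar log Ω = i ∂ ∂bar (K ∘ f)`. -/
structure IsFibreLimit {M : Type} [TopologicalSpace M] {k m : ℕ} {κ P : Type}
    (e : κ → OpenPartialHomeomorph M (Cn (k + m))) (pc : κ → P) (T : ℝ)
    (ψ : κ → ℝ × Cn (k + m) → ℝ) (Ω : κ → Cn (k + m) → ℝ) (K : P → Cn m → ℝ) : Prop where
  volume : IsVolume e ψ Ω
  smooth : ∀ j, ContDiffOn ℝ ∞ (K j) (opd 10)
  psh : ∀ j, ∀ y ∈ opd 10, ∀ u, u ≠ 0 → 0 < levz (K j) u y
  eq : ∀ c, ∀ z ∈ (e c).target, ∀ u,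
    lev (ψ c) u (0, z) + T * levz (fun z => Real.log (Ω c z)) u z =
      levz (fun z => K (pc c) (sndC z)) u z

end Pool.Agent.KRFF
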