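import Pool.Agent.Work.MP_a2bf38_gt.I.Setup
import Pool.Agent.Work.MP_a2bf38_gt.H.Dist

/-!
# From local bounds to a bound of the diameter
-/

open scoped ContDiff ENNReal ComplexOrder Topology
open Set MeasureTheory Filter Pool.Agent.ToricKRF Pool.Agent.ToricKRF.G Pool.Agent.KRFS

namespace Pool.Agent.KRFF

theorem Flow.diam_of_local {n : ℕ} {M : Type} [TopologicalSpace M] {κ : Type} {T : ℝ}
    (F : Flow n M κ T) [CompactSpace M] [ConnectedSpace M]
    (h : ∀ p, ∃ C : ℝ, ∀ᶠ q in 𝓝 p, ∀ t ∈ Ico 0 T, rdist F.e F.ψ t p q ≤ ENNReal.ofReal C) :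
    ⨆ t ∈ Ico 0 T, rdiam F.e F.ψ t < ⊤ := by
  have add_le : ∀ {a b : ℝ≥0∞} {C C' : ℝ}, a ≤ ENNReal.ofReal C → b ≤ ENNReal.ofReal C' →
      a + b ≤ ENNReal.ofReal (max C 0 + max C' 0) := by
    intro a b C C' h1 h2
    rw [ENNReal.ofReal_add (le_max_right _ _) (le_max_right _ _)]
    exact add_le_add (h1.trans (ENNReal.ofReal_le_ofReal (le_max_left _ _)))
      (h2.trans (ENNReal.ofReal_le_ofReal (le_max_left _ _)))
  have h1 : ∀ p q : M, ∃ C : ℝ, ∀ t ∈ Ico 0 T,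
      rdist F.e F.ψ t p q ≤ ENNReal.ofReal C := by
    intro p q
    refine (isPreconnected_univ (α := M)).induction₂ (fun p q => ∃ C : ℝ, ∀ t ∈ Ico 0 T,
      rdist F.e F.ψ t p q ≤ ENNReal.ofReal C) ?_ ?_ ?_ (mem_univ p) (mem_univ q)
    · intro x _
      obtain ⟨C, hC⟩ := h x
      exact (hC.filter_mono nhdsWithin_le_nhds).mono fun y hy => ⟨C, hy⟩
    · rintro x y z - - - ⟨C, hC⟩ ⟨C', hC'⟩
      exact ⟨_, fun t ht => (rdist_triangle' x y z).trans (add_le (hC t ht) (hC' t ht))⟩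
    · rintro x y - - ⟨C, hC⟩
      exact ⟨C, fun t ht => by
        rw [rdist_comm']
        exact hC t ht⟩
  obtain ⟨x0⟩ : Nonempty M := inferInstance
  obtain ⟨C, hC⟩ : ∃ C : ℝ, ∀ t ∈ Ico 0 T, ∀ q ∈ (univ : Set M),
      rdist F.e F.ψ t x0 q ≤ ENNReal.ofReal C := by
    refine isCompact_univ.induction_on (p := fun S => ∃ C : ℝ, ∀ t ∈ Ico 0 T, ∀ q ∈ S,
      rdist F.e F.ψ t x0 q ≤ ENNReal.ofReal C) ⟨0, fun t _ q hq => absurd hq (by simp)⟩
      ?_ ?_ ?_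
    · rintro S S' hS ⟨C, hC⟩
      exact ⟨C, fun t ht q hq => hC t ht q (hS hq)⟩
    · rintro S S' ⟨C, hC⟩ ⟨C', hC'⟩
      refine ⟨max C C', fun t ht q hq => ?_⟩
      rcases hq with hq | hq
      · exact (hC t ht q hq).trans (ENNReal.ofReal_le_ofReal (le_max_left _ _))
      · exact (hC' t ht q hq).trans (ENNReal.ofReal_le_ofReal (le_max_right _ _))
    · intro x _
      obtain ⟨C, hC⟩ := h x
      obtain ⟨C', hC'⟩ := h1 x0 x
      exact ⟨_, mem_nhdsWithin_of_mem_nhds hC, _, fun t ht q hq =>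
        (rdist_triangle' x0 x q).trans (add_le (hC' t ht) (hq t ht))⟩
  refine lt_of_le_of_lt (b := ENNReal.ofReal (max C 0 + max C 0)) ?_ ENNReal.ofReal_lt_top
  refine iSup₂_le fun t ht => iSup_le fun p => iSup_le fun q => ?_
  refine (rdist_triangle' p x0 q).trans (add_le ?_ (hC t ht q trivial))
  rw [rdist_comm']
  exact hC t ht p trivial

end Pool.Agent.KRFF
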