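import Pool.Agent.Work.MP_a2bf38_gt.I.Circle
import Pool.Agent.Work.MP_a2bf38_gt.H.Chain

/-!
# The distance of two points of a complex line, by the areas of discs
-/

open scoped ContDiff ENNReal
open Set Filter Topology MeasureTheory Pool.Agent.ToricKRF Pool.Agent.ToricKRF.G

namespace Pool.Agent.KRFS

/-- two circles with real centres meet -/
theorem circles_meet {x y a b : ℝ} (hne : x ≠ y) (ha : 0 ≤ a) (hb : 0 ≤ b)
    (h1 : |a - b| ≤ |x - y|) (h2 : |x - y| ≤ a + b) :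
    ∃ z : ℂ, ‖z - x‖ = a ∧ ‖z - y‖ = b := by
  have hD0 : (y - x) ≠ 0 := sub_ne_zero.2 hne.symm
  set D := y - x with hD
  have hD2 : |x - y| ^ 2 = D ^ 2 := by rw [sq_abs, hD]; ring
  have k1 : (a - b) ^ 2 ≤ D ^ 2 := by
    rw [← hD2, ← sq_abs (a - b)]
    exact pow_le_pow_left₀ (abs_nonneg _) h1 2
  have k2 : D ^ 2 ≤ (a + b) ^ 2 := by
    rw [← hD2]
    exact pow_le_pow_left₀ (abs_nonneg _) h2 2
  set u := (D ^ 2 + a ^ 2 - b ^ 2) / (2 * D) with hu
  have hu2 : u ^ 2 ≤ a ^ 2 := by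
    rw [hu, div_pow, div_le_iff₀ (by positivity)]
    nlinarith [mul_nonneg (sub_nonneg.2 k1) (sub_nonneg.2 k2)]
  refine ⟨⟨x + u, √(a ^ 2 - u ^ 2)⟩, ?_, ?_⟩
  · rw [Complex.norm_def, Complex.normSq_apply]
    simp only [Complex.sub_re, Complex.sub_im, Complex.ofReal_re, Complex.ofReal_im]
    rw [show (x + u - x) * (x + u - x) + (√(a ^ 2 - u ^ 2) - 0) * (√(a ^ 2 - u ^ 2) - 0) = a ^ 2 by
      rw [sub_zero, Real.mul_self_sqrt (by linarith)]; ring]
    exact Real.sqrt_sq ha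
  · rw [Complex.norm_def, Complex.normSq_apply]
    simp only [Complex.sub_re, Complex.sub_im, Complex.ofReal_re, Complex.ofReal_im]
    have e1 : x + u - y = u - D := by rw [hD]; ring
    have e2 : u * (2 * D) = D ^ 2 + a ^ 2 - b ^ 2 := by
      rw [hu]
      field_simp
    rw [show (x + u - y) * (x + u - y) + (√(a ^ 2 - u ^ 2) - 0) * (√(a ^ 2 - u ^ 2) - 0) = b ^ 2 by
      rw [sub_zero, Real.mul_self_sqrt (by linarith), e1]; nlinarith [e2]]
    exact Real.sqrt_sq hb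

theorem exists_angle {c ζ : ℂ} {a : ℝ} (h : ‖ζ - c‖ = a) :
    ∃ θ ∈ Icc (0 : ℝ) (2 * Real.pi), ζ = c + a * Complex.exp (θ * Complex.I) := by
  have hpi := Real.pi_pos
  have h1 : (‖ζ - c‖ : ℂ) * Complex.exp (Complex.arg (ζ - c) * Complex.I) = ζ - c :=
    Complex.norm_mul_exp_arg_mul_I _
  rw [h] at h1
  by_cases h0 : 0 ≤ Complex.arg (ζ - c)
  · exact ⟨_, ⟨h0, (Complex.arg_le_pi _).trans (by linarith)⟩, by rw [h1]; ring⟩
  · push Not at h0
    refine ⟨Complex.arg (ζ - c) + 2 * Real.pi, ⟨?_, by linarith⟩, ?_⟩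
    · have := Complex.neg_pi_lt_arg (ζ - c)
      linarith
    · push_cast
      rw [add_mul, Complex.exp_add, Complex.exp_two_pi_mul_I, mul_one, h1]
      ring

variable {M : Type} [TopologicalSpace M] {κ : Type} {n : ℕ}
  {e : κ → OpenPartialHomeomorph M (Cn n)} {ψ : κ → ℝ × Cn n → ℝ} {t : ℝ} {c : κ}
  {U : Set (ℝ × Cn n)}

/-- the point with the parameter `ζ` of a complex line -/
def cln (z0 v : Cn n) (ζ : ℂ) : Cn n := z0 + ζ.re • v + ζ.im • J v

theorem cln_continuous (z0 v : Cn n) : Continuous (cln z0 v) := by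
  unfold cln
  fun_prop

theorem lev_line {f : ℝ × Cn n → ℝ} (hU : IsOpen U) (hf : ContDiffOn ℝ ∞ f U) {p : ℝ × Cn n}
    (hp : p ∈ U) (v : Cn n) (a b : ℝ) :
    lev f (a • v + b • J v) p = (a ^ 2 + b ^ 2) * lev f v p := by
  have hf2 : ContDiffAt ℝ 2 f p := (hf.contDiffAt (hU.mem_nhds hp)).of_le two_le_infty
  have e1 : ((0 : ℝ), a • v + b • J v) = a • ((0 : ℝ), v) + b • ((0 : ℝ), J v) := by simp
  have e2 : ((0 : ℝ), J (a • v + b • J v)) = a • ((0 : ℝ), J v) + (-b) • ((0 : ℝ), v) := by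
    rw [J_add, J_smul, J_smul, J_J]
    simp
  simp only [lev]
  rw [D_D_eq hf2, D_D_eq hf2, D_D_eq hf2, D_D_eq hf2, e1, e2]
  simp only [map_add, map_smul, add_apply, smul_apply, smul_eq_mul]
  ring

/-- an arc of a circle of a complex line -/
theorem rdist_arc (hU : IsOpen U) (hψ : ContDiffOn ℝ ∞ (ψ c) U)
    (hsub : ∀ z ∈ (e c).target, (t, z) ∈ U) {z0 v : Cn n} {C : ℂ} {a : ℝ} (ha : 0 < a)
    (hC : ∀ θ : ℝ, cln z0 v (C + a * Complex.exp (θ * Complex.I)) ∈ (e c).target)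
    {θ₀ θ₁ : ℝ} (h0 : 0 ≤ θ₀) (h01 : θ₀ ≤ θ₁) (h1 : θ₁ ≤ 2 * Real.pi) :
    rdist e ψ t ((e c).symm (cln z0 v (C + a * Complex.exp (θ₀ * Complex.I))))
      ((e c).symm (cln z0 v (C + a * Complex.exp (θ₁ * Complex.I)))) ≤
      ENNReal.ofReal (∫ θ in (0 : ℝ)..2 * Real.pi,
        a * √(2 * lev (ψ c) v (t, cln z0 v (C + a * Complex.exp (θ * Complex.I))))) := by
  set L := θ₁ - θ₀ with hL
  have hL0 : 0 ≤ L := sub_nonneg.2 h01
  set ζ : ℝ → ℂ := fun s => C + a * Complex.exp (((L * s + θ₀ : ℝ) : ℂ) * Complex.I) with hζ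
  set γ : ℝ → Cn n := fun s => cln z0 v (ζ s) with hγ
  set g : ℝ → ℝ := fun θ =>
    a * √(2 * lev (ψ c) v (t, cln z0 v (C + a * Complex.exp (θ * Complex.I)))) with hg
  have hζd : ∀ s, HasDerivAt ζ (a * (Complex.exp (((L * s + θ₀ : ℝ) : ℂ) * Complex.I) *
      (L * Complex.I))) s := by
    intro s
    have k1 : HasDerivAt (fun s : ℝ => L * s + θ₀) L s := by
      simpa using ((hasDerivAt_id s).const_mul L).add_const θ₀
    have k2 : HasDerivAt (fun s : ℝ => (((L * s + θ₀ : ℝ) : ℂ) * Complex.I)) (L * Complex.I) s :=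
      k1.ofReal_comp.mul_const Complex.I
    exact (k2.cexp.const_mul (a : ℂ)).const_add C
  have hγd : ∀ s, HasDerivAt γ
      ((a * (Complex.exp (((L * s + θ₀ : ℝ) : ℂ) * Complex.I) * (L * Complex.I)) : ℂ).re • v +
        (a * (Complex.exp (((L * s + θ₀ : ℝ) : ℂ) * Complex.I) * (L * Complex.I)) : ℂ).im • J v)
      s := by
    intro s
    have k1 := Complex.reCLM.hasFDerivAt.comp_hasDerivAt s (hζd s)
    have k2 := Complex.imCLM.hasFDerivAt.comp_hasDerivAt s (hζd s)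
    exact ((k1.smul_const v).const_add z0).add (k2.smul_const (J v))
  have hmemU : ∀ θ : ℝ, (t, cln z0 v (C + a * Complex.exp (θ * Complex.I))) ∈ U := fun θ =>
    hsub _ (hC θ)
  have hgc : Continuous g := by
    refine continuous_const.mul (Real.continuous_sqrt.comp (continuous_const.mul ?_))
    have h2 : ContinuousOn (lev (ψ c) v) U := by
      unfold lev
      exact (((contDiffOn_D hU (contDiffOn_D hU hψ _) _).continuousOn).add
        ((contDiffOn_D hU (contDiffOn_D hU hψ _) _).continuousOn)).div_const 4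
    refine h2.comp_continuous (continuous_const.prodMk ((cln_continuous z0 v).comp ?_)) hmemU
    fun_prop
  have hcc : ChartCurve e c γ
      ((e c).symm (cln z0 v (C + a * Complex.exp (θ₀ * Complex.I))))
      ((e c).symm (cln z0 v (C + a * Complex.exp (θ₁ * Complex.I)))) := by
    refine ⟨?_, fun s _ => hC _, ⟨(e c).map_target (hC θ₀), ?_⟩,
      ⟨(e c).map_target (hC θ₁), ?_⟩⟩
    · apply ContDiff.contDiffOn
      rw [hγ, hζ]
      unfold cln
      have k1 : ContDiff ℝ 1 fun s : ℝ => C + a * Complex.exp (((L * s + θ₀ : ℝ) : ℂ) * Complex.I) := by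
        have k3 : ContDiff ℝ 1 fun s : ℝ => L * s + θ₀ := by fun_prop
        have k2 : ContDiff ℝ 1 fun s : ℝ => (((L * s + θ₀ : ℝ) : ℂ) * Complex.I) :=
          (Complex.ofRealCLM.contDiff.comp k3).mul contDiff_const
        exact contDiff_const.add (contDiff_const.mul k2.cexp)
      exact (contDiff_const.add ((Complex.reCLM.contDiff.comp k1).smul contDiff_const)).add
        ((Complex.imCLM.contDiff.comp k1).smul contDiff_const)
    · rw [(e c).right_inv (hC θ₀)]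
      simp [hγ, hζ]
    · rw [(e c).right_inv (hC θ₁)]
      simp [hγ, hζ, hL]
  refine (rdist_le' hcc).trans (ENNReal.ofReal_le_ofReal ?_)
  have e1 : clen ψ t c γ = ∫ s in (0 : ℝ)..1, L * g (L * s + θ₀) := by
    unfold clen
    refine intervalIntegral.integral_congr fun s _ => ?_
    rw [(hγd s).deriv, lev_line hU hψ (hmemU _)]
    set w : ℂ := a * (Complex.exp (((L * s + θ₀ : ℝ) : ℂ) * Complex.I) * (L * Complex.I)) with hw
    have e2 : w.re ^ 2 + w.im ^ 2 = (L * a) ^ 2 := by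
      have : ‖w‖ = L * a := by
        rw [hw, norm_mul, norm_mul, norm_mul, Complex.norm_exp_ofReal_mul_I, Complex.norm_I,
          Complex.norm_real, Complex.norm_real, Real.norm_of_nonneg ha.le,
          Real.norm_of_nonneg hL0]
        ring
      rw [← this, Complex.sq_norm, Complex.normSq_apply]
      ring
    rw [e2, hg]
    simp only
    rw [show (2 : ℝ) * ((L * a) ^ 2 * lev (ψ c) v (t, γ s)) =
      (L * a) ^ 2 * (2 * lev (ψ c) v (t, γ s)) by ring, Real.sqrt_mul (by positivity),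
      Real.sqrt_sq (by positivity), mul_assoc]
  rw [e1, intervalIntegral.integral_const_mul]
  have e3 := intervalIntegral.mul_integral_comp_mul_add (a := 0) (b := 1) (f := g) L θ₀
  rw [e3]
  have e4 : L * 0 + θ₀ = θ₀ := by ring
  have e5 : L * 1 + θ₀ = θ₁ := by rw [hL]; ring
  rw [e4, e5]
  refine intervalIntegral.integral_mono_interval h0 h01 h1 ?_ (hgc.intervalIntegrable _ _)
  exact Eventually.of_forall fun θ => mul_nonneg ha.le (Real.sqrt_nonneg _)

theorem rdist_circle (hU : IsOpen U) (hψ : ContDiffOn ℝ ∞ (ψ c) U)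
    (hsub : ∀ z ∈ (e c).target, (t, z) ∈ U) {z0 v : Cn n} {C : ℂ} {a : ℝ} (ha : 0 < a)
    (hC : ∀ θ : ℝ, cln z0 v (C + a * Complex.exp (θ * Complex.I)) ∈ (e c).target)
    {ζ₀ ζ₁ : ℂ} (h0 : ‖ζ₀ - C‖ = a) (h1 : ‖ζ₁ - C‖ = a) :
    rdist e ψ t ((e c).symm (cln z0 v ζ₀)) ((e c).symm (cln z0 v ζ₁)) ≤
      ENNReal.ofReal (∫ θ in (0 : ℝ)..2 * Real.pi,
        a * √(2 * lev (ψ c) v (t, cln z0 v (C + a * Complex.exp (θ * Complex.I))))) := by
  obtain ⟨θ₀, hθ₀, e0⟩ := exists_angle h0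
  obtain ⟨θ₁, hθ₁, e1⟩ := exists_angle h1
  rw [e0, e1]
  rcases le_total θ₀ θ₁ with h | h
  · exact rdist_arc hU hψ hsub ha hC hθ₀.1 h hθ₁.2
  · rw [rdist_comm']
    exact rdist_arc hU hψ hsub ha hC hθ₁.1 h hθ₀.2

/-- nearby points in a chart -/
theorem rdist_near (hU : IsOpen U) (hψ : ContDiffOn ℝ ∞ (ψ c) U)
    (hsub : ∀ z ∈ (e c).target, (t, z) ∈ U) {z : Cn n} (hz : z ∈ (e c).target) {ε : ℝ}
    (hε : 0 < ε) :
    ∀ᶠ w in 𝓝 z, rdist e ψ t ((e c).symm z) ((e c).symm w) ≤ ENNReal.ofReal ε := by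
  obtain ⟨C, hC, hev⟩ := lev_bound hU hψ (p := (t, z)) (hsub _ hz)
  have h1 : ∀ᶠ w in 𝓝 z, ∀ u, lev (ψ c) u (t, w) ≤ C * ‖u‖ ^ 2 := by
    have : Tendsto (fun z => (t, z)) (𝓝 z) (𝓝 (t, z)) :=
      (continuous_const.prodMk continuous_id).tendsto' _ _ rfl
    exact this.eventually hev
  have h2 : ∀ᶠ w in 𝓝 z, w ∈ (e c).target := (e c).open_target.mem_nhds hz
  obtain ⟨r, hr, hrs⟩ := Metric.nhds_basis_closedBall.eventually_iff.mp (h1.and h2)
  have h4 : ∀ᶠ w in 𝓝 z, w ∈ Metric.closedBall z r := Metric.closedBall_mem_nhds _ hr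
  have h5 : ∀ᶠ w in 𝓝 z, √(2 * C) * ‖w - z‖ < ε := by
    have h6 : Tendsto (fun w => √(2 * C) * ‖w - z‖) (𝓝 z) (𝓝 (√(2 * C) * ‖z - z‖)) :=
      (((continuous_id.sub continuous_const).norm).const_mul _).tendsto _
    rw [sub_self, norm_zero, mul_zero] at h6
    exact h6.eventually_lt_const hε
  filter_upwards [h2, h4, h5] with w hw1 hw2 hw3
  have e1 : e c ((e c).symm z) = z := (e c).right_inv hz
  have e2 : e c ((e c).symm w) = w := (e c).right_inv hw1
  have := rdist_ball' (e := e) (ψ := ψ) (t := t) (p := (e c).symm z) (q := (e c).symm w)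
    ((e c).map_target hz) hC (r := r) (by rw [e1]; exact fun y hy => (hrs hy).2)
    (by rw [e1]; exact fun y hy => (hrs hy).1) ((e c).map_target hw1) (by rw [e1, e2]; exact hw2)
  rw [e1, e2] at this
  exact this.trans (ENNReal.ofReal_le_ofReal hw3.le)

/-- circles shrinking to a point of the real line -/
theorem rdist_end (hU : IsOpen U) (hψ : ContDiffOn ℝ ∞ (ψ c) U)
    (hsub : ∀ z ∈ (e c).target, (t, z) ∈ U)
    (hnn : ∀ z ∈ (e c).target, ∀ u, 0 ≤ lev (ψ c) u (t, z)) {z0 v : Cn n} {d : ℝ} (hd : 0 < d)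
    (hdisc : ∀ ζ : ℂ, ‖ζ‖ ≤ 8 * d → cln z0 v ζ ∈ (e c).target) {A : ℕ → ℝ} (hA : ∀ k, 0 < A k)
    (hsum : Summable fun k => √(A k))
    (harea : ∀ k, ∀ p : ℂ, ‖p‖ ≤ 4 * d →
      ∫ ζ in Metric.closedBall p (3 / 2 * d / 2 ^ k), lev (ψ c) v (t, cln z0 v ζ) ≤ A k)
    {x : ℝ} (hx0 : 0 ≤ x) (hxd : x ≤ d) :
    ∃ a ∈ Icc (3 / 4 * d) (3 / 2 * d), ∀ ζ : ℂ, ‖ζ - ((x + 9 / 4 * d : ℝ) : ℂ)‖ = a →
      rdist e ψ t ((e c).symm (cln z0 v ζ)) ((e c).symm (cln z0 v (x : ℂ))) ≤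
        ENNReal.ofReal (4 * √2 * ∑' k, √(A k)) := by
  have hdk : ∀ k : ℕ, 0 < d / 2 ^ k := fun k => by positivity
  have hdk1 : ∀ k : ℕ, d / 2 ^ k ≤ d := fun k =>
    div_le_self hd.le (one_le_pow₀ (by norm_num))
  have hdkS : ∀ k : ℕ, d / 2 ^ (k + 1) = d / 2 ^ k / 2 := fun k => by
    rw [pow_succ, div_div]
  have hpk : ∀ k : ℕ, ‖((x + 9 / 4 * (d / 2 ^ k) : ℝ) : ℂ)‖ ≤ 4 * d := by
    intro k
    rw [Complex.norm_real, Real.norm_of_nonneg (by have := hdk k; positivity)]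
    linarith [hdk1 k]
  have hin : ∀ (k : ℕ) (ζ : ℂ), ζ ∈ Metric.closedBall ((x + 9 / 4 * (d / 2 ^ k) : ℝ) : ℂ)
      (3 / 2 * (d / 2 ^ k)) → cln z0 v ζ ∈ (e c).target := by
    intro k ζ hζ
    apply hdisc
    rw [Metric.mem_closedBall, dist_eq_norm] at hζ
    have k1 : ζ = (ζ - ((x + 9 / 4 * (d / 2 ^ k) : ℝ) : ℂ)) + ((x + 9 / 4 * (d / 2 ^ k) : ℝ) : ℂ) := by
      ring
    rw [k1]
    refine (norm_add_le _ _).trans ?_
    linarith [hdk1 k, hpk k]
  have hcirc : ∀ k : ℕ, ∃ a ∈ Icc (3 / 4 * (d / 2 ^ k)) (3 / 2 * (d / 2 ^ k)),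
      ∫ θ in (0 : ℝ)..2 * Real.pi, a * √(2 * lev (ψ c) v (t, cln z0 v
        (((x + 9 / 4 * (d / 2 ^ k) : ℝ) : ℂ) + a * Complex.exp (θ * Complex.I)))) ≤
        4 * √(2 * A k) := by
    intro k
    refine exists_circle (f := fun ζ => 2 * lev (ψ c) v (t, cln z0 v ζ)) (hdk k)
      (by linarith [hA k]) ?_ ?_ ?_
    · refine continuousOn_const.mul ?_
      have h2 : ContinuousOn (lev (ψ c) v) U := by
        unfold lev
        exact (((contDiffOn_D hU (contDiffOn_D hU hψ _) _).continuousOn).add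
          ((contDiffOn_D hU (contDiffOn_D hU hψ _) _).continuousOn)).div_const 4
      exact h2.comp (continuous_const.prodMk (cln_continuous z0 v)).continuousOn
        fun ζ hζ => hsub _ (hin k ζ hζ)
    · intro ζ hζ
      have := hnn _ (hin k ζ hζ) v
      positivity
    · rw [integral_const_mul]
      have := harea k _ (hpk k)
      rw [mul_div_assoc] at this
      linarith
  choose a ha hLa using hcirc
  have ha0 : ∀ k, 0 < a k := fun k => lt_of_lt_of_le (by have := hdk k; positivity) (ha k).1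
  have hmeet : ∀ k : ℕ, ∃ z : ℂ, ‖z - ((x + 9 / 4 * (d / 2 ^ k) : ℝ) : ℂ)‖ = a k ∧
      ‖z - ((x + 9 / 4 * (d / 2 ^ (k + 1)) : ℝ) : ℂ)‖ = a (k + 1) := by
    intro k
    have k0 := hdk k
    have k1 := ha k
    have k2 := ha (k + 1)
    rw [hdkS] at k2 ⊢
    have k3 : |x + 9 / 4 * (d / 2 ^ k) - (x + 9 / 4 * (d / 2 ^ k / 2))| = 9 / 8 * (d / 2 ^ k) := by
      rw [show x + 9 / 4 * (d / 2 ^ k) - (x + 9 / 4 * (d / 2 ^ k / 2)) = 9 / 8 * (d / 2 ^ k) by
        ring]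
      exact abs_of_pos (by positivity)
    refine circles_meet ?_ (ha0 k).le (ha0 (k + 1)).le ?_ ?_
    · intro h
      rw [h, sub_self, abs_zero] at k3
      linarith
    · rw [k3, abs_le]
      constructor <;> linarith [k1.1, k1.2, k2.1, k2.2]
    · rw [k3]
      linarith [k1.1, k1.2, k2.1, k2.2]
  choose P hP1 hP2 using hmeet
  -- two points of the same circle
  have hsame : ∀ (k : ℕ) (ζ ζ' : ℂ), ‖ζ - ((x + 9 / 4 * (d / 2 ^ k) : ℝ) : ℂ)‖ = a k →
      ‖ζ' - ((x + 9 / 4 * (d / 2 ^ k) : ℝ) : ℂ)‖ = a k →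
      rdist e ψ t ((e c).symm (cln z0 v ζ)) ((e c).symm (cln z0 v ζ')) ≤
        ENNReal.ofReal (4 * √2 * √(A k)) := by
    intro k ζ ζ' h h'
    refine (rdist_circle hU hψ hsub (ha0 k) (fun θ => hin k _ ?_) h h').trans
      (ENNReal.ofReal_le_ofReal ((hLa k).trans (le_of_eq ?_)))
    · exact circle_mem (ha k) (hdk k) θ
    · rw [Real.sqrt_mul (by norm_num)]
      ring
  refine ⟨a 0, ?_, ?_⟩
  · have := ha 0
    rw [pow_zero, div_one] at this
    exact this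
  intro ζ hζ
  have hζ0 : ‖ζ - ((x + 9 / 4 * (d / 2 ^ 0) : ℝ) : ℂ)‖ = a 0 := by
    rw [pow_zero, div_one]
    exact hζ
  have hind : ∀ K : ℕ, rdist e ψ t ((e c).symm (cln z0 v ζ)) ((e c).symm (cln z0 v (P K))) ≤
      ∑ k ∈ Finset.range (K + 1), ENNReal.ofReal (4 * √2 * √(A k)) := by
    intro K
    induction K with
    | zero =>
      rw [zero_add, Finset.sum_range_one]
      exact hsame 0 _ _ hζ0 (hP1 0)
    | succ K ih =>
      rw [Finset.sum_range_succ]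
      exact (rdist_triangle' _ ((e c).symm (cln z0 v (P K))) _).trans
        (add_le_add ih (hsame (K + 1) _ _ (hP2 K) (hP1 (K + 1))))
  have hS : ∀ K : ℕ, rdist e ψ t ((e c).symm (cln z0 v ζ)) ((e c).symm (cln z0 v (P K))) ≤
      ENNReal.ofReal (4 * √2 * ∑' k, √(A k)) := by
    intro K
    refine (hind K).trans ?_
    rw [← ENNReal.ofReal_sum_of_nonneg fun k _ => by positivity]
    apply ENNReal.ofReal_le_ofReal
    rw [← Finset.mul_sum]
    exact mul_le_mul_of_nonneg_left (hsum.sum_le_tsum _ fun k _ => Real.sqrt_nonneg _)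
      (by positivity)
  have hlim : Tendsto P atTop (𝓝 (x : ℂ)) := by
    rw [tendsto_iff_norm_sub_tendsto_zero]
    have k1 : Tendsto (fun k : ℕ => 15 / 4 * (d / 2 ^ k)) atTop (𝓝 0) := by
      have k2 : Tendsto (fun k : ℕ => (1 / 2 : ℝ) ^ k) atTop (𝓝 0) :=
        tendsto_pow_atTop_nhds_zero_of_lt_one (by norm_num) (by norm_num)
      have k3 := k2.const_mul (15 / 4 * d)
      rw [mul_zero] at k3
      refine k3.congr fun k => ?_
      rw [one_div, inv_pow]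
      ring
    refine squeeze_zero (fun k => norm_nonneg _) (fun k => ?_) k1
    have k2 : P k - (x : ℂ) = (P k - ((x + 9 / 4 * (d / 2 ^ k) : ℝ) : ℂ)) +
        ((9 / 4 * (d / 2 ^ k) : ℝ) : ℂ) := by
      push_cast
      ring
    have k3 := hdk k
    rw [k2]
    refine (norm_add_le _ _).trans ?_
    rw [hP1 k, Complex.norm_real, Real.norm_of_nonneg (by positivity)]
    linarith [(ha k).2]
  have hx8 : cln z0 v (x : ℂ) ∈ (e c).target := by
    apply hdisc
    rw [Complex.norm_real, Real.norm_of_nonneg hx0]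
    linarith
  refine ENNReal.le_of_forall_pos_le_add fun ε hε _ => ?_
  have hε' : (0 : ℝ) < ε := by exact_mod_cast hε
  have h1 := rdist_near hU hψ hsub hx8 hε'
  have h2 : Tendsto (fun k => cln z0 v (P k)) atTop (𝓝 (cln z0 v (x : ℂ))) :=
    ((cln_continuous z0 v).tendsto _).comp hlim
  obtain ⟨K, hK⟩ := (h2.eventually h1).exists
  refine (rdist_triangle' _ ((e c).symm (cln z0 v (P K))) _).trans (add_le_add (hS K) ?_)
  rw [rdist_comm']
  refine hK.trans (le_of_eq ?_)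
  rw [ENNReal.ofReal_coe_nnreal]

/-- **The distance of two points of a complex line, by the areas of discs.** -/
theorem rdist_line (hU : IsOpen U) (hψ : ContDiffOn ℝ ∞ (ψ c) U)
    (hsub : ∀ z ∈ (e c).target, (t, z) ∈ U)
    (hnn : ∀ z ∈ (e c).target, ∀ u, 0 ≤ lev (ψ c) u (t, z)) {z0 v : Cn n} {d : ℝ} (hd : 0 < d)
    (hdisc : ∀ ζ : ℂ, ‖ζ‖ ≤ 8 * d → z0 + ζ.re • v + ζ.im • J v ∈ (e c).target) {A : ℕ → ℝ}
    (hA : ∀ k, 0 < A k) (hsum : Summable fun k => √(A k))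
    (harea : ∀ k, ∀ p : ℂ, ‖p‖ ≤ 4 * d →
      ∫ ζ in Metric.closedBall p (3 / 2 * d / 2 ^ k),
        lev (ψ c) v (t, z0 + ζ.re • v + ζ.im • J v) ≤ A k) :
    rdist e ψ t ((e c).symm z0) ((e c).symm (z0 + d • v)) ≤
      ENNReal.ofReal (16 * ∑' k, √(A k)) := by
  obtain ⟨a, ha, Ha⟩ := rdist_end hU hψ hsub hnn hd hdisc hA hsum harea (x := 0) le_rfl hd.le
  obtain ⟨b, hb, Hb⟩ := rdist_end hU hψ hsub hnn hd hdisc hA hsum harea (x := d) hd.le le_rfl
  obtain ⟨z, hz1, hz2⟩ := circles_meet (x := 0 + 9 / 4 * d) (y := d + 9 / 4 * d) (a := a) (b := b)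
    (by linarith) (by linarith [ha.1]) (by linarith [hb.1])
    (by rw [show 0 + 9 / 4 * d - (d + 9 / 4 * d) = -d by ring, abs_neg, abs_of_pos hd, abs_le]
        constructor <;> linarith [ha.1, ha.2, hb.1, hb.2])
    (by rw [show 0 + 9 / 4 * d - (d + 9 / 4 * d) = -d by ring, abs_neg, abs_of_pos hd]
        linarith [ha.1, ha.2, hb.1, hb.2])
  have h1 := Ha z hz1
  have h2 := Hb z hz2
  have e1 : cln z0 v ((0 : ℝ) : ℂ) = z0 := by simp [cln]
  have e2 : cln z0 v ((d : ℝ) : ℂ) = z0 + d • v := by simp [cln]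
  rw [e1] at h1
  rw [e2] at h2
  rw [rdist_comm'] at h1
  refine (rdist_triangle' _ ((e c).symm (cln z0 v z)) _).trans ((add_le_add h1 h2).trans ?_)
  have hS : 0 ≤ ∑' k, √(A k) := tsum_nonneg fun k => Real.sqrt_nonneg _
  rw [← ENNReal.ofReal_add (by positivity) (by positivity)]
  apply ENNReal.ofReal_le_ofReal
  have h3 : √2 ≤ 2 := by
    rw [Real.sqrt_le_left (by norm_num)]
    norm_num
  nlinarith [mul_le_mul_of_nonneg_right h3 hS]

end Pool.Agent.KRFS
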