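import Mathlib

/-!
# Levels propagate over a finite closed cover of a connected set
-/

open Set

namespace Pool.Agent.KRFF

theorem level_of_cover {M ι : Type} [TopologicalSpace M] [Finite ι] {S : Set M}
    (hS : IsPreconnected S) (U : ι → Set M) (hU : ∀ c, IsClosed (U c)) (hcov : S ⊆ ⋃ c, U c)
    (G : ℕ → ι → Prop) (c₀ : ι) (h0 : (S ∩ U c₀).Nonempty) (hG0 : G 0 c₀)
    (hmono : ∀ i c, G i c → G (i + 1) c)
    (hstep : ∀ i c c', G i c → (S ∩ (U c ∩ U c')).Nonempty → G (i + 1) c') :
    ∀ c, (S ∩ U c).Nonempty → G (Nat.card ι) c := by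
  have hc0 : ∀ i, G i c₀ := by
    intro i
    induction i with
    | zero => exact hG0
    | succ i ih => exact hmono i c₀ ih
  have key : ∀ i, (∀ c, (S ∩ U c).Nonempty → G i c) ∨ i + 1 ≤ {c | G i c}.ncard := by
    intro i
    induction i with
    | zero =>
      right
      have h1 : {c | G 0 c}.Nonempty := ⟨c₀, hG0⟩
      have h2 := (ncard_pos (toFinite {c | G 0 c})).2 h1
      omega
    | succ i ih =>
      rcases ih with h | h
      · left
        intro c hc
        exact hmono i c (h c hc)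
      · by_contra hcon
        rw [not_or] at hcon
        obtain ⟨hl, hr⟩ := hcon
        push Not at hl
        obtain ⟨c₁, hc₁, hc₁n⟩ := hl
        have hsub : {c | G i c} ⊆ {c | G (i + 1) c} := fun c hc => hmono i c hc
        have heq : {c | G i c} = {c | G (i + 1) c} := by
          refine eq_of_subset_of_ncard_le hsub ?_ (toFinite _)
          omega
        have hZ1 : IsClosed (⋃ c ∈ {c | G i c}, U c) :=
          (toFinite {c | G i c}).isClosed_biUnion fun c _ => hU c
        have hZ2 : IsClosed (⋃ c ∈ {c | ¬ G i c}, U c) :=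
          (toFinite {c | ¬ G i c}).isClosed_biUnion fun c _ => hU c
        have hcov2 : S ⊆ (⋃ c ∈ {c | G i c}, U c) ∪ ⋃ c ∈ {c | ¬ G i c}, U c := by
          intro x hx
          obtain ⟨c, hc⟩ := mem_iUnion.1 (hcov hx)
          by_cases hg : G i c
          · exact Or.inl (mem_biUnion (x := c) hg hc)
          · exact Or.inr (mem_biUnion (x := c) hg hc)
        have hn1 : (S ∩ ⋃ c ∈ {c | G i c}, U c).Nonempty := by
          obtain ⟨x, hx, hxU⟩ := h0
          exact ⟨x, hx, mem_biUnion (x := c₀) (hc0 i) hxU⟩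
        have hn2 : (S ∩ ⋃ c ∈ {c | ¬ G i c}, U c).Nonempty := by
          obtain ⟨x, hx, hxU⟩ := hc₁
          exact ⟨x, hx, mem_biUnion (x := c₁) (fun hg => hc₁n (hmono i c₁ hg)) hxU⟩
        obtain ⟨x, hx, hx1, hx2⟩ := (isPreconnected_closed_iff.1 hS) _ _ hZ1 hZ2 hcov2 hn1 hn2
        rw [mem_iUnion₂] at hx1 hx2
        obtain ⟨c, hc, hxc⟩ := hx1
        obtain ⟨c', hc', hxc'⟩ := hx2
        have h3 : c' ∈ {c | G (i + 1) c} := hstep i c c' hc ⟨x, hx, hxc, hxc'⟩
        rw [← heq] at h3
        exact hc' h3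
  rcases key (Nat.card ι) with h | h
  · exact h
  · have h1 : {c | G (Nat.card ι) c}.ncard ≤ Nat.card ι := by
      rw [← ncard_univ]
      exact ncard_le_ncard (subset_univ _) (toFinite _)
    omega

end Pool.Agent.KRFF
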