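import Pool.Agent.Work.MP_a2bf38_gt.I.FibreStep
import Pool.Agent.Work.MP_a2bf38_gt.I.Level

/-!
# The oscillation of the potential on the fibres
-/

open scoped ContDiff ENNReal ComplexOrder Topology
open Set MeasureTheory Filter Pool.Agent.ToricKRF Pool.Agent.ToricKRF.G Pool.Agent.KRFS

namespace Pool.Agent.KRFF

open Ov (cpd_mono cpd_subset_opd)

namespace Fbr

theorem zero_mem_cpd {k : ℕ} (r : ℝ) : (0 : Cn k) ∈ cpd r := fun i => by
  simp only [Prod.fst_zero, Prod.snd_zero, Pi.zero_apply]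
  nlinarith [sq_nonneg r]

end Fbr

open Fbr (zero_mem_cpd)

section Fib

variable {k m : ℕ} {M Y : Type} [TopologicalSpace M] [CompactSpace M] [T2Space M]
  [TopologicalSpace Y] [T2Space Y] {κ P : Type} [Finite κ] {T : ℝ} (F : Fib k m M Y κ P T)

omit [CompactSpace M] [T2Space M] [T2Space Y] [Finite κ] in
theorem Fib.fbr_f_eq {c : κ} {q : M} (hq : q ∈ (F.e c).source) :
    F.f q = (F.b (F.pc c)).symm (sndC (F.e c q)) := by
  obtain ⟨h1, h2⟩ := F.fib.proj c q hq
  rw [← h2, (F.b (F.pc c)).left_inv h1]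

omit [CompactSpace M] [T2Space M] [T2Space Y] [Finite κ] in
theorem Fib.fbr_mem_target {c : κ} {u : Cn k} {y : Cn m} (hu : u ∈ opd 10) (hy : y ∈ opd 10) :
    joinC u y ∈ (F.e c).target := by
  rw [F.fib.target c]
  exact ⟨by rwa [fstC_joinC], by rwa [sndC_joinC]⟩

omit [CompactSpace M] [T2Space M] [T2Space Y] [Finite κ] in
theorem Fib.fbr_continuous : Continuous F.f := by
  rw [continuous_iff_continuousAt]
  intro p
  obtain ⟨c, hc⟩ := F.atlas.cover p
  have h1 : sndC (F.e c p) ∈ (F.b (F.pc c)).target := by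
    rw [F.fib.target_base]
    have h2 := (F.e c).map_source hc
    rw [F.fib.target c] at h2
    exact h2.2
  have h2 : ContinuousAt (fun q => (F.b (F.pc c)).symm (sndC (F.e c q))) p :=
    ContinuousAt.comp (f := fun q => sndC (F.e c q)) (g := (F.b (F.pc c)).symm)
      ((F.b (F.pc c)).continuousAt_symm h1)
      (continuous_sndC.continuousAt.comp ((F.e c).continuousAt hc))
  refine h2.congr ?_
  filter_upwards [(F.e c).open_source.mem_nhds hc] with q hq
  exact (F.fbr_f_eq hq).symm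

/-- the closed part of radius one of a chart -/
def Fib.part (c : κ) : Set M := (F.e c).symm '' {z | fstC z ∈ cpd 1 ∧ sndC z ∈ cpd 2}

omit [CompactSpace M] [T2Space Y] [Finite κ] in
theorem Fib.isClosed_part (c : κ) : IsClosed (F.part c) := by
  have h1 : IsCompact {z : Cn (k + m) | fstC z ∈ cpd 1 ∧ sndC z ∈ cpd 2} := by
    have h2 : {z : Cn (k + m) | fstC z ∈ cpd 1 ∧ sndC z ∈ cpd 2} =
        (fun q : Cn k × Cn m => joinC q.1 q.2) '' (cpd 1 ×ˢ cpd 2) := by
      ext z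
      constructor
      · rintro ⟨h, h'⟩
        exact ⟨(fstC z, sndC z), ⟨h, h'⟩, joinC_fst_snd z⟩
      · rintro ⟨⟨u, y⟩, ⟨hu, hy⟩, rfl⟩
        exact ⟨by rwa [fstC_joinC], by rwa [sndC_joinC]⟩
    rw [h2]
    exact ((isCompact_cpd 1).prod (isCompact_cpd 2)).image continuous_joinC
  refine (h1.image_of_continuousOn ((F.e c).continuousOn_symm.mono ?_)).isClosed
  rintro z ⟨h2, h3⟩
  rw [F.fib.target c]
  exact ⟨cpd_subset_opd zero_le_one (by norm_num) h2,
    cpd_subset_opd zero_le_two (by norm_num) h3⟩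

omit [CompactSpace M] [T2Space M] [T2Space Y] [Finite κ] in
theorem Fib.mem_part_iff {c : κ} {q : M} : q ∈ F.part c ↔
    q ∈ (F.e c).source ∧ fstC (F.e c q) ∈ cpd 1 ∧ sndC (F.e c q) ∈ cpd 2 := by
  constructor
  · rintro ⟨z, ⟨h2, h3⟩, rfl⟩
    have hz : z ∈ (F.e c).target := by
      rw [F.fib.target c]
      exact ⟨cpd_subset_opd zero_le_one (by norm_num) h2,
        cpd_subset_opd zero_le_two (by norm_num) h3⟩
    rw [(F.e c).right_inv hz]
    exact ⟨(F.e c).map_target hz, h2, h3⟩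
  · rintro ⟨h1, h2, h3⟩
    exact ⟨F.e c q, ⟨h2, h3⟩, (F.e c).left_inv h1⟩

/-- the potential oscillates little on the fibres -/
theorem Fib.fibre_of (hpsh : PshGood k) : ∃ C : ℝ, 0 ≤ C ∧ ∀ t ∈ Ico 0 T, ∀ c, ∀ p,
    F.f p ∈ (F.b (F.pc c)).source → F.b (F.pc c) (F.f p) ∈ cpd 2 →
    ∃ u ∈ cpd 2, F.Phi t p - C * (T - t) ≤
      F.phi c (t, joinC u (F.b (F.pc c) (F.f p))) := by
  obtain ⟨B, hB, hstep⟩ := F.step_of hpsh
  -- the levels
  let a : ℕ → ℝ := fun i => Nat.rec 0 (fun _ x => B * (x + 1)) i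
  have ha0 : a 0 = 0 := rfl
  have has : ∀ i, a (i + 1) = B * (a i + 1) := fun i => rfl
  have hann : ∀ i, 0 ≤ a i := by
    intro i
    induction i with
    | zero => exact le_rfl
    | succ i ih =>
      rw [has]
      positivity
  have hmon : ∀ i, a i ≤ a (i + 1) := by
    intro i
    rw [has]
    nlinarith [hann i]
  refine ⟨a (Nat.card κ), hann _, fun t ht c p hp hy => ?_⟩
  set y := F.b (F.pc c) (F.f p) with hydef
  have hTt : 0 < T - t := by linarith [ht.2]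
  have hy10 : y ∈ opd 10 := cpd_subset_opd zero_le_two (by norm_num) hy
  set S : Set M := F.f ⁻¹' {F.f p} with hS
  have hScl : IsClosed S := isClosed_singleton.preimage F.fbr_continuous
  have hSne : S.Nonempty := ⟨p, rfl⟩
  have hPc : ContinuousOn (F.Phi t) S := by
    have h1 := F.Phi_continuousOn
    exact h1.comp (f := fun q : M => (t, q)) (Continuous.prodMk_right t).continuousOn
      fun q _ => ⟨ht, mem_univ _⟩
  obtain ⟨q₀, hq₀, hmax⟩ := hScl.isCompact.exists_isMaxOn hSne hPc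
  set Mx := F.Phi t q₀ with hMx
  have hpM : F.Phi t p ≤ Mx := hmax (a := p) rfl
  -- points of the fibre in charts
  have hpt : ∀ c', F.pc c' = F.pc c → ∀ u ∈ opd (k := k) 10,
      (F.e c').symm (joinC u y) ∈ (F.e c').source ∧
      F.e c' ((F.e c').symm (joinC u y)) = joinC u y ∧ (F.e c').symm (joinC u y) ∈ S ∧
      F.phi c' (t, joinC u y) = F.Phi t ((F.e c').symm (joinC u y)) := by
    intro c' hc' u hu
    have h1 : joinC u y ∈ (F.e c').target := F.fbr_mem_target hu hy10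
    have h2 := (F.e c').map_target h1
    have h3 := (F.e c').right_inv h1
    refine ⟨h2, h3, ?_, ?_⟩
    · rw [hS, mem_preimage, mem_singleton_iff, F.fbr_f_eq h2, h3, sndC_joinC, hc', hydef,
        (F.b (F.pc c)).left_inv hp]
    · rw [F.Phi_eq ht h2, h3]
  have hle : ∀ c', F.pc c' = F.pc c → ∀ u ∈ opd (k := k) 10, F.phi c' (t, joinC u y) ≤ Mx := by
    intro c' hc' u hu
    obtain ⟨-, -, h3, h4⟩ := hpt c' hc' u hu
    rw [h4]
    exact hmax h3
  have hsnd : ∀ c', F.pc c' = F.pc c → ∀ q ∈ S, q ∈ (F.e c').source →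
      sndC (F.e c' q) = y := by
    intro c' hc' q hq hqs
    have h1 := (F.fib.proj c' q hqs).2
    rw [hq, hc'] at h1
    exact h1.symm
  -- the cover
  let U : κ → Set M := fun c' => {q | F.pc c' = F.pc c ∧ q ∈ F.part c'}
  have hU : ∀ c', IsClosed (U c') := by
    intro c'
    by_cases h : F.pc c' = F.pc c
    · have : U c' = F.part c' := by
        ext q
        exact ⟨fun hq => hq.2, fun hq => ⟨h, hq⟩⟩
      rw [this]
      exact F.isClosed_part c'
    · have : U c' = ∅ := by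
        ext q
        exact ⟨fun hq => h hq.1, fun hq => absurd hq (notMem_empty q)⟩
      rw [this]
      exact isClosed_empty
  have hex : ∀ q ∈ S, ∃ c', q ∈ U c' := by
    intro q hq
    have h1 : F.f q ∈ (F.b (F.pc c)).source := by
      rw [hq]
      exact hp
    obtain ⟨c', hc', hqs, hq1⟩ := F.fib.cover (F.pc c) q h1
    refine ⟨c', hc', F.mem_part_iff.2 ⟨hqs, hq1, ?_⟩⟩
    rw [hsnd c' hc' q hq hqs]
    exact hy
  have hcov : S ⊆ ⋃ c', U c' := fun q hq => mem_iUnion.2 (hex q hq)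
  let G : ℕ → κ → Prop := fun i c' => F.pc c' = F.pc c ∧
    ∃ u ∈ cpd (k := k) 2, Mx - a i * (T - t) ≤ F.phi c' (t, joinC u y)
  obtain ⟨c₀, hc₀⟩ := hex q₀ hq₀
  have hc₀' := F.mem_part_iff.1 hc₀.2
  have hG0 : G 0 c₀ := by
    refine ⟨hc₀.1, fstC (F.e c₀ q₀), cpd_mono zero_le_one one_le_two hc₀'.2.1, ?_⟩
    have h1 : joinC (fstC (F.e c₀ q₀)) y = F.e c₀ q₀ := by
      rw [← hsnd c₀ hc₀.1 q₀ hq₀ hc₀'.1, joinC_fst_snd]
    rw [h1, ← F.Phi_eq ht hc₀'.1, ha0]
    linarith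
  have hmono : ∀ i c', G i c' → G (i + 1) c' := by
    rintro i c' ⟨h1, u, hu, h2⟩
    refine ⟨h1, u, hu, le_trans ?_ h2⟩
    have := hmon i
    nlinarith
  have hst : ∀ i c₁ c₂, G i c₁ → (S ∩ (U c₁ ∩ U c₂)).Nonempty → G (i + 1) c₂ := by
    rintro i c₁ c₂ ⟨h1, u, hu, h2⟩ ⟨q, hq, hq1, hq2⟩
    have hq1' := F.mem_part_iff.1 hq1.2
    have hq2' := F.mem_part_iff.1 hq2.2
    obtain ⟨u', hu', h3⟩ := hstep t ht c₁ c₂ (h1.trans hq2.1.symm) y hy Mx (a i * (T - t))
      (mul_nonneg (hann i) hTt.le) (hle c₁ h1) ⟨u, hu, h2⟩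
      ⟨q, hq1'.1, hq2'.1, hsnd c₁ h1 q hq hq1'.1, hq1'.2.1, hq2'.2.1⟩
    refine ⟨hq2.1, u', hu', le_trans (le_of_eq ?_) h3⟩
    rw [has]
    ring
  have hconn : IsPreconnected S := F.fib.connected (F.f p)
  have hfin := level_of_cover hconn U hU hcov G c₀ ⟨q₀, hq₀, hc₀⟩ hG0 hmono hst c
  have hne : (S ∩ U c).Nonempty := by
    obtain ⟨h1, h2, h3, -⟩ := hpt c rfl 0 (cpd_subset_opd zero_le_one (by norm_num)
      (zero_mem_cpd 1))
    refine ⟨_, h3, rfl, F.mem_part_iff.2 ⟨h1, ?_, ?_⟩⟩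
    · rw [h2, fstC_joinC]
      exact zero_mem_cpd 1
    · rw [h2, sndC_joinC]
      exact hy
  obtain ⟨-, u, hu, h1⟩ := hfin hne
  refine ⟨u, hu, le_trans ?_ h1⟩
  linarith

end Fib

end Pool.Agent.KRFF
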