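import Pool.Agent.Work.MP_a2bf38_gt.I.Coord
import Pool.Agent.Work.MP_a2bf38_gt.H.BoundCalc

/-!
# Fibrations: charts, continuity, second order condition
-/

open scoped ContDiff ENNReal ComplexOrder Topology
open Set MeasureTheory Filter Pool.Agent.ToricKRF Pool.Agent.ToricKRF.G Pool.Agent.KRFS

namespace Pool.Agent.KRFF

/-- second order condition at a local minimum -/
theorem levz_nonneg_of_min {n : ℕ} {h : Cn n → ℝ} {S : Set (Cn n)} (hS : IsOpen S)
    (hh : ContDiffOn ℝ ∞ h S) {z : Cn n} (hz : z ∈ S) (hmin : ∀ᶠ x in 𝓝 z, h z ≤ h x) (u : Cn n) :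
    0 ≤ levz h u z := by
  have hn : ContDiffOn ℝ ∞ (fun x => -h x) S := hh.neg
  have h1 : lev (fun q : ℝ × Cn n => -h q.2) u (0, z) = levz (fun x => -h x) u z :=
    lev_snd hS hn hz u
  have h2 : lev (fun q : ℝ × Cn n => -h q.2) u (0, z) ≤ 0 := by
    refine lev_nonpos_of_max ?_ ?_ u
    · exact ContDiffAt.comp (g := fun x => -h x) ((0 : ℝ), z) (hn.contDiffAt (hS.mem_nhds hz))
        contDiffAt_snd
    · filter_upwards [hmin] with x hx
      simpa using hx
  have h3 : levz (fun x => -h x) u z = -levz h u z := by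
    have := Bd.levz_const_mul (-1) ((hh.contDiffAt (hS.mem_nhds hz)).of_le two_le_infty) u
    simpa using this
  linarith

section Fib

variable {k m : ℕ} {M Y : Type} [TopologicalSpace M] [TopologicalSpace Y] {κ P : Type} {T : ℝ}
  (F : Fib k m M Y κ P T)

theorem Fib.exists_chart {x x' : M} (h : F.f x = F.f x') : ∃ c c', F.pc c = F.pc c' ∧
    x ∈ (F.e c).source ∧ x' ∈ (F.e c').source ∧ fstC (F.e c x) ∈ cpd 1 ∧
    fstC (F.e c' x') ∈ cpd 1 ∧ sndC (F.e c x) ∈ cpd 1 ∧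
    sndC (F.e c' x') = sndC (F.e c x) := by
  obtain ⟨j, hj, hj1⟩ := F.fib.cover_base (F.f x)
  obtain ⟨c, hc, hx, hx1⟩ := F.fib.cover j x hj
  obtain ⟨c', hc', hx', hx1'⟩ := F.fib.cover j x' (h ▸ hj)
  have h1 := (F.fib.proj c x hx).2
  have h2 := (F.fib.proj c' x' hx').2
  rw [hc] at h1
  rw [hc', ← h] at h2
  exact ⟨c, c', hc.trans hc'.symm, hx, hx', hx1, hx1', h1 ▸ hj1, h2.symm.trans h1⟩

theorem Fib.continuous_f : Continuous F.f := by
  rw [continuous_iff_continuousAt]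
  intro p
  obtain ⟨c, -, -, hc, -⟩ := F.exists_chart (x := p) (x' := p) rfl
  have h1 : ∀ q ∈ (F.e c).source, F.f q = (F.b (F.pc c)).symm (sndC (F.e c q)) := by
    intro q hq
    obtain ⟨h2, h3⟩ := F.fib.proj c q hq
    rw [← h3, (F.b (F.pc c)).left_inv h2]
  have h2 : ContinuousAt (fun q => (F.b (F.pc c)).symm (sndC (F.e c q))) p := by
    obtain ⟨h3, h4⟩ := F.fib.proj c p hc
    have h5 : sndC (F.e c p) ∈ (F.b (F.pc c)).target := by
      rw [← h4]
      exact (F.b (F.pc c)).map_source h3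
    have h6 := (F.b (F.pc c)).continuousAt_symm h5
    exact ContinuousAt.comp (f := fun q => sndC (F.e c q)) (x := p) h6
      ((continuous_sndC.continuousAt).comp ((F.e c).continuousAt hc))
  refine h2.congr ?_
  filter_upwards [(F.e c).open_source.mem_nhds hc] with q hq
  exact (h1 q hq).symm

theorem opd_mono {r s : ℝ} (hr : 0 ≤ r) (h : r ≤ s) : (opd r : Set (Cn k)) ⊆ opd s :=
  fun _ hu i => (hu i).trans_le (pow_le_pow_left₀ hr h 2)

theorem cpd_mono {r s : ℝ} (hr : 0 ≤ r) (h : r ≤ s) : (cpd r : Set (Cn k)) ⊆ cpd s :=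
  fun _ hu i => (hu i).trans (pow_le_pow_left₀ hr h 2)

/-- Both points move with the base point. -/
theorem Fib.move {c c' : κ} (hcc : F.pc c = F.pc c') {z : Cn (k + m)} (hz : z ∈ (F.e c).target)
    {u₀ : Cn k} (hu : u₀ ∈ opd 10) :
    joinC u₀ (sndC z) ∈ (F.e c').target ∧
      F.f ((F.e c).symm z) = F.f ((F.e c').symm (joinC u₀ (sndC z))) := by
  have h1 : joinC u₀ (sndC z) ∈ (F.e c').target := by
    rw [F.fib.target] at hz ⊢
    exact ⟨by simpa [fstC_joinC] using hu, by simpa [sndC_joinC] using hz.2⟩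
  refine ⟨h1, ?_⟩
  have hp := (F.e c).map_target hz
  have hp' := (F.e c').map_target h1
  obtain ⟨h2, h3⟩ := F.fib.proj c _ hp
  obtain ⟨h4, h5⟩ := F.fib.proj c' _ hp'
  rw [(F.e c).right_inv hz] at h3
  rw [(F.e c').right_inv h1, sndC_joinC] at h5
  rw [← hcc] at h4 h5
  exact (F.b (F.pc c)).injOn h2 h4 (h3.trans h5.symm)

end Fib

end Pool.Agent.KRFF
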