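import Pool.Agent.Work.MP_a2bf38_gt.I.Split

/-!
# The cut-off argument
-/

open scoped ContDiff ENNReal ComplexOrder Topology
open Set MeasureTheory Filter Pool.Agent.ToricKRF Pool.Agent.ToricKRF.G Pool.Agent.KRFS

namespace Pool.Agent.KRFF

namespace Cut

variable {k : ℕ}

theorem haar (k : ℕ) : (volume : Measure (Cn k)).IsAddHaarMeasure :=
  Measure.prod.instIsAddHaarMeasure (G := Fin k → ℝ) (H := Fin k → ℝ) volume volume

theorem norm_le_of_cpd {w : Cn k} (hw : w ∈ cpd (k := k) 1) : ‖w‖ ≤ 1 := by
  rw [Prod.norm_def]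
  refine max_le ?_ ?_
  · refine (pi_norm_le_iff_of_nonneg zero_le_one).2 fun i => ?_
    rw [Real.norm_eq_abs, abs_le_one_iff_mul_self_le_one]
    have := hw i
    nlinarith [sq_nonneg (w.2 i)]
  · refine (pi_norm_le_iff_of_nonneg zero_le_one).2 fun i => ?_
    rw [Real.norm_eq_abs, abs_le_one_iff_mul_self_le_one]
    have := hw i
    nlinarith [sq_nonneg (w.1 i)]

/-- the cut-off function -/
noncomputable def chi (z : Cn k) : ℝ := max 0 (1 - Metric.infDist z (cpd (k := k) 2))

theorem chi_nonneg (z : Cn k) : 0 ≤ chi z := le_max_left _ _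

theorem chi_le_one (z : Cn k) : chi z ≤ 1 := by
  refine max_le zero_le_one ?_
  have := Metric.infDist_nonneg (x := z) (s := cpd (k := k) 2)
  linarith

theorem chi_eq_one {z : Cn k} (hz : z ∈ cpd (k := k) 2) : chi z = 1 := by
  unfold chi
  rw [Metric.infDist_zero_of_mem hz]
  norm_num

theorem chi_lip (z z' : Cn k) : |chi z - chi z'| ≤ dist z z' := by
  have h1 := (Metric.lipschitz_infDist_pt (cpd (k := k) 2)).dist_le_mul z z'
  rw [NNReal.coe_one, one_mul, Real.dist_eq] at h1
  unfold chi
  rw [max_comm 0, max_comm 0]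
  refine (abs_max_sub_max_le_abs _ _ _).trans ?_
  rw [show 1 - Metric.infDist z (cpd (k := k) 2) - (1 - Metric.infDist z' (cpd (k := k) 2)) =
    -(Metric.infDist z (cpd (k := k) 2) - Metric.infDist z' (cpd (k := k) 2)) by ring, abs_neg]
  exact h1

theorem continuous_chi : Continuous (chi : Cn k → ℝ) := by
  unfold chi
  exact continuous_const.max (continuous_const.sub (Metric.continuous_infDist_pt _))

theorem chi_eq_zero {z : Cn k} (hz : z ∉ cpd (k := k) (7 / 2)) : chi z = 0 := by
  by_contra hne
  apply hz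
  have h1 : Metric.infDist z (cpd (k := k) 2) < 1 := by
    by_contra h
    push Not at h
    exact hne (max_eq_left (by linarith))
  have h0 : (cpd (k := k) 2).Nonempty := ⟨0, fun i => by norm_num⟩
  obtain ⟨y, hy, hd⟩ := (Metric.infDist_lt_iff h0).1 h1
  rw [dist_eq_norm, Prod.norm_def, max_lt_iff] at hd
  intro i
  have h2 : |(z - y).1 i| ≤ 1 := by
    have := norm_le_pi_norm (z - y).1 i
    rw [Real.norm_eq_abs] at this
    linarith [hd.1]
  have h3 : |(z - y).2 i| ≤ 1 := by
    have := norm_le_pi_norm (z - y).2 i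
    rw [Real.norm_eq_abs] at this
    linarith [hd.2]
  have h4 : z.1 i = y.1 i + (z - y).1 i := by simp
  have h5 : z.2 i = y.2 i + (z - y).2 i := by simp
  have h6 := hy i
  rw [h4, h5]
  set a := (z - y).1 i
  set b := (z - y).2 i
  set x := y.1 i
  set x' := y.2 i
  have ha : a ^ 2 ≤ 1 := by
    rw [← sq_abs]
    nlinarith [abs_nonneg a]
  have hb : b ^ 2 ≤ 1 := by
    rw [← sq_abs]
    nlinarith [abs_nonneg b]
  have h7 : (x * a + x' * b) ^ 2 ≤ 3 ^ 2 := by
    have e1 : (x * a + x' * b) ^ 2 ≤ (x ^ 2 + x' ^ 2) * (a ^ 2 + b ^ 2) := by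
      nlinarith [sq_nonneg (x * b - x' * a)]
    have e2 : (x ^ 2 + x' ^ 2) * (a ^ 2 + b ^ 2) ≤ 2 ^ 2 * 2 :=
      mul_le_mul h6 (by linarith) (by positivity) (by positivity)
    linarith
  have h8 : x * a + x' * b ≤ 3 := (abs_le_of_sq_le_sq' h7 (by norm_num)).2
  nlinarith

end Cut

open Cut in
theorem cut_bound {k : ℕ} {H : Cn k → ℝ} (hm : Measurable H) {B : ℝ} (hB : ∀ z, |H z| ≤ B)
    (hs : ∀ z, z ∉ cpd (9 / 2) → H z = 0) (hneg : ∀ z, H z ≤ 0) {ρ : ℝ} (hρ : ρ ∈ Ioc (0 : ℝ) 1)
    (hpos : ∀ z ∈ cpd (k := k) (7 / 2), (volume (cpd (k := k) 1)).toReal * H z ≤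
      ∫ w in cpd (k := k) 1, H (z + ρ • w)) :
    ∫ z in cpd (k := k) 2, ((∫ w in cpd (k := k) 1, H (z + ρ • w)) -
      (volume (cpd (k := k) 1)).toReal * H z) ≤
      (volume (cpd (k := k) 1)).toReal * (ρ * ∫ z in cpd (k := k) (9 / 2), -H z) := by
  have := haar k
  set V : ℝ := (volume (cpd (k := k) 1)).toReal with hV
  have hcm : ∀ r, MeasurableSet (cpd (k := k) r) := fun r => (isCompact_cpd r).isClosed.measurableSet
  have hfin : ∀ r, volume (cpd (k := k) r) < ⊤ := fun r => (isCompact_cpd r).measure_lt_top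
  have hfm : IsFiniteMeasure ((volume : Measure (Cn k)).restrict (cpd (k := k) 1)) :=
    ⟨by rw [Measure.restrict_apply_univ]; exact hfin 1⟩
  -- integrability of `H`
  have hHi : Integrable H := by
    have h1 : IntegrableOn H (cpd (k := k) (9 / 2)) :=
      Measure.integrableOn_of_bounded (hfin _).ne hm.aestronglyMeasurable
        (Eventually.of_forall fun z => by simpa using hB z)
    exact h1.integrable_of_forall_notMem_eq_zero hs
  have hHint : ∫ z, -H z = ∫ z in cpd (k := k) (9 / 2), -H z :=
    (setIntegral_eq_integral_of_forall_compl_eq_zero fun z hz => by rw [hs z hz, neg_zero]).symm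
  -- the inner integral
  set S : Cn k → ℝ := fun z => (∫ w in cpd (k := k) 1, H (z + ρ • w)) - V * H z with hS
  have hmw : ∀ z, Measurable fun w => H (z + ρ • w) := fun z => hm.comp (by fun_prop)
  have hiw : ∀ z, IntegrableOn (fun w => H (z + ρ • w)) (cpd (k := k) 1) := fun z =>
    Measure.integrableOn_of_bounded (hfin _).ne (hmw z).aestronglyMeasurable
      (Eventually.of_forall fun w => by simpa using hB _)
  have hSeq : ∀ z, chi z * S z = ∫ w in cpd (k := k) 1, chi z * (H (z + ρ • w) - H z) := by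
    intro z
    rw [integral_const_mul, integral_sub (hiw z) (integrable_const _)]
    simp only [hS, integral_const, smul_eq_mul, hV, measureReal_def, Measure.restrict_apply_univ]
  -- integrability on the product
  set G : Cn k → Cn k → ℝ := fun z w => chi z * (H (z + ρ • w) - H z) with hG
  have hGi : Integrable (Function.uncurry G)
      ((volume : Measure (Cn k)).prod (volume.restrict (cpd (k := k) 1))) := by
    have h1 : IntegrableOn (Function.uncurry G) (cpd (k := k) (7 / 2) ×ˢ univ)
        ((volume : Measure (Cn k)).prod (volume.restrict (cpd (k := k) 1))) := by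
      refine Measure.integrableOn_of_bounded (M := 2 * B) ?_ ?_ (Eventually.of_forall fun q => ?_)
      · rw [Measure.prod_prod, Measure.restrict_apply_univ]
        exact ENNReal.mul_ne_top (hfin _).ne (hfin _).ne
      · refine Measurable.aestronglyMeasurable ?_
        change Measurable fun q : Cn k × Cn k => chi q.1 * (H (q.1 + ρ • q.2) - H q.1)
        exact (continuous_chi.measurable.comp measurable_fst).mul
          ((hm.comp (by fun_prop)).sub (hm.comp measurable_fst))
      · change |chi q.1 * (H (q.1 + ρ • q.2) - H q.1)| ≤ 2 * B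
        rw [abs_mul, abs_of_nonneg (chi_nonneg _)]
        have e1 : |H (q.1 + ρ • q.2) - H q.1| ≤ 2 * B := by
          have := abs_sub (H (q.1 + ρ • q.2)) (H q.1)
          linarith [hB (q.1 + ρ • q.2), hB q.1]
        calc chi q.1 * |H (q.1 + ρ • q.2) - H q.1| ≤ 1 * (2 * B) :=
              mul_le_mul (chi_le_one _) e1 (abs_nonneg _) zero_le_one
          _ = 2 * B := one_mul _
    refine h1.integrable_of_forall_notMem_eq_zero fun q hq => ?_
    have h2 : q.1 ∉ cpd (k := k) (7 / 2) := fun h => hq ⟨h, mem_univ _⟩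
    change chi q.1 * (H (q.1 + ρ • q.2) - H q.1) = 0
    rw [chi_eq_zero h2, zero_mul]
  -- the first inequality
  have hSi : Integrable fun z => chi z * S z := by
    have h1 := hGi.integral_prod_left
    refine h1.congr (Eventually.of_forall fun z => ?_)
    exact (hSeq z).symm
  have hS0 : ∀ z, 0 ≤ chi z * S z := by
    intro z
    by_cases hz : z ∈ cpd (k := k) (7 / 2)
    · exact mul_nonneg (chi_nonneg z) (sub_nonneg.2 (hpos z hz))
    · rw [chi_eq_zero hz, zero_mul]
  have hfirst : ∫ z in cpd (k := k) 2, S z ≤ ∫ z, chi z * S z := by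
    have e1 : ∫ z in cpd (k := k) 2, S z = ∫ z in cpd (k := k) 2, chi z * S z :=
      setIntegral_congr_fun (hcm 2) fun z hz => by
        rw [chi_eq_one hz, one_mul]
    rw [e1]
    exact setIntegral_le_integral hSi (Eventually.of_forall hS0)
  -- Fubini
  have hswap : ∫ z, chi z * S z = ∫ w in cpd (k := k) 1, ∫ z, chi z * (H (z + ρ • w) - H z) := by
    have e1 : ∫ z, chi z * S z = ∫ z, ∫ w in cpd (k := k) 1, G z w :=
      integral_congr_ae (Eventually.of_forall hSeq)
    rw [e1]
    exact integral_integral_swap hGi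
  -- the bound for fixed `w`
  have hchiH : ∀ v v' : Cn k, Integrable fun z => chi (z + v') * H (z + v) := by
    intro v v'
    have h1 : Integrable fun z => H (z + v) := hHi.comp_add_right v
    refine h1.mono (((continuous_chi.measurable.comp (by fun_prop)).mul
      (hm.comp (by fun_prop))).aestronglyMeasurable) (Eventually.of_forall fun z => ?_)
    rw [norm_mul, Real.norm_eq_abs (chi (z + v')), abs_of_nonneg (chi_nonneg _)]
    exact mul_le_of_le_one_left (norm_nonneg _) (chi_le_one _)
  have hw : ∀ w ∈ cpd (k := k) 1, ∫ z, chi z * (H (z + ρ • w) - H z) ≤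
      ρ * ∫ z in cpd (k := k) (9 / 2), -H z := by
    intro w hw
    have i1 : Integrable fun z => chi z * H (z + ρ • w) := by
      simpa using hchiH (ρ • w) 0
    have i2 : Integrable fun z => chi z * H z := by
      simpa using hchiH 0 0
    have i3 : Integrable fun z => chi (z + -(ρ • w)) * H z := by
      simpa using hchiH 0 (-(ρ • w))
    have e1 : ∫ z, chi z * (H (z + ρ • w) - H z) =
        (∫ z, chi z * H (z + ρ • w)) - ∫ z, chi z * H z := by
      rw [← integral_sub i1 i2]
      refine integral_congr_ae (Eventually.of_forall fun z => ?_)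
      ring
    have e2 : ∫ z, chi z * H (z + ρ • w) = ∫ z, chi (z + -(ρ • w)) * H z := by
      rw [← integral_add_right_eq_self (fun z => chi (z + -(ρ • w)) * H z) (ρ • w)]
      refine integral_congr_ae (Eventually.of_forall fun z => ?_)
      simp
    rw [e1, e2, ← integral_sub i3 i2, ← hHint, ← integral_const_mul]
    refine integral_mono (i3.sub i2) (hHi.neg.const_mul ρ) fun z => ?_
    change chi (z + -(ρ • w)) * H z - chi z * H z ≤ ρ * -H z
    have h1 := chi_lip (z + -(ρ • w)) z
    have h2 : dist (z + -(ρ • w)) z ≤ ρ := by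
      rw [dist_eq_norm, add_sub_cancel_left, norm_neg, norm_smul, Real.norm_eq_abs,
        abs_of_pos hρ.1]
      exact mul_le_of_le_one_right hρ.1.le (norm_le_of_cpd hw)
    have h3 : -ρ ≤ chi (z + -(ρ • w)) - chi z := (abs_le.1 (h1.trans h2)).1
    have h4 := mul_le_mul_of_nonneg_right h3 (neg_nonneg.2 (hneg z))
    nlinarith
  have hlast : ∫ w in cpd (k := k) 1, ∫ z, chi z * (H (z + ρ • w) - H z) ≤
      ∫ _w in cpd (k := k) 1, ρ * ∫ z in cpd (k := k) (9 / 2), -H z := by
    refine setIntegral_mono_on ?_ (integrable_const _) (hcm 1) hw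
    exact hGi.integral_prod_right
  rw [integral_const, measureReal_def, Measure.restrict_apply_univ, smul_eq_mul] at hlast
  calc _ ≤ _ := hfirst
    _ = _ := hswap
    _ ≤ _ := hlast

end Pool.Agent.KRFF
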