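import Pool.Agent.Work.MP_a2bf38_gt.I.PshMean
import Pool.Agent.Work.MP_a2bf38_gt.I.FibBasic
import Pool.Agent.Work.MP_a2bf38_gt.I.PshCut

/-!
# Decay of the volume of the sublevel sets of a plurisubharmonic function
-/

open scoped ContDiff ENNReal ComplexOrder Topology
open Set MeasureTheory Filter Pool.Agent.ToricKRF Pool.Agent.ToricKRF.G Pool.Agent.KRFS

namespace Pool.Agent.KRFF

theorem add_smul_mem_cpd {k : ℕ} {z w : Cn k} {a ρ : ℝ} (ha : 0 ≤ a) (hρ : 0 ≤ ρ)
    (hz : z ∈ cpd (k := k) a) (hw : w ∈ cpd (k := k) 1) : z + ρ • w ∈ cpd (k := k) (a + ρ) := by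
  intro j
  have e : ∀ x y : ℝ, ‖(⟨x, y⟩ : ℂ)‖ ^ 2 = x ^ 2 + y ^ 2 := fun x y => by
    rw [← Complex.normSq_eq_norm_sq, Complex.normSq_mk]
    ring
  have h2 : ‖(⟨z.1 j, z.2 j⟩ : ℂ)‖ ≤ a := abs_le_of_sq_le_sq' (by rw [e]; exact hz j) ha |>.2
  have h3 : ‖(⟨w.1 j, w.2 j⟩ : ℂ)‖ ≤ 1 :=
    abs_le_of_sq_le_sq' (by rw [e]; exact hw j) zero_le_one |>.2
  have h4 : (⟨(z + ρ • w).1 j, (z + ρ • w).2 j⟩ : ℂ) =
      ⟨z.1 j, z.2 j⟩ + (ρ : ℂ) * ⟨w.1 j, w.2 j⟩ := by
    apply Complex.ext <;> simp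
  rw [← e, h4]
  have h5 : ‖(⟨z.1 j, z.2 j⟩ + (ρ : ℂ) * ⟨w.1 j, w.2 j⟩ : ℂ)‖ ≤ a + ρ := by
    refine (norm_add_le _ _).trans (add_le_add h2 ?_)
    rw [norm_mul, Complex.norm_real, Real.norm_of_nonneg hρ]
    exact mul_le_of_le_one_right hρ h3
  exact pow_le_pow_left₀ (norm_nonneg _) h5 2

/-- `I/Psh.lean` -/
theorem psh_decay_of_integral (k : ℕ) : ∃ C : ℝ, 0 < C ∧ ∀ (g : Cn k → ℝ) (L : ℝ),
    ContDiffOn ℝ ∞ g (opd 5) → (∀ z ∈ opd (k := k) 5, g z ≤ 0) →
    (∀ z ∈ opd (k := k) 5, ∀ u, 0 ≤ levz g u z) → ∫ z in cpd (k := k) (9 / 2), -g z ≤ L →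
    ∀ ρ ∈ Ioc (0 : ℝ) 1, ∀ N > 0, C * L * (1 + Real.log (1 / ρ)) ^ k ≤ N →
      volume {z | z ∈ cpd (k := k) 2 ∧ g z < -N} ≤ ENNReal.ofReal (C * L * ρ / N) := by
  classical
  set V : ℝ := (volume (cpd (k := k) 1)).toReal with hV
  have hV0 : 0 < V := ENNReal.toReal_pos (volume_cpd_pos zero_lt_one).ne' (volume_cpd_ne_top 1)
  refine ⟨2 + 2 / V, by positivity, fun g L hg hneg hpsh hL ρ hρ N hN hCN => ?_⟩
  set C : ℝ := 2 + 2 / V with hC
  have hC0 : 0 < C := by positivity
  -- the cut off function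
  set K : Set (Cn k) := cpd (9 / 2) with hK
  have hKm : MeasurableSet K := (isCompact_cpd _).measurableSet
  have hK5 : K ⊆ opd (k := k) 5 := cpd_subset_opd (by norm_num) (by norm_num)
  have hgc : ContinuousOn g K := hg.continuousOn.mono hK5
  set H : Cn k → ℝ := K.piecewise g 0 with hH
  have hHK : ∀ z ∈ K, H z = g z := fun z hz => Set.piecewise_eq_of_mem _ _ _ hz
  have hHn : ∀ z, z ∉ K → H z = 0 := fun z hz => Set.piecewise_eq_of_notMem _ _ _ hz
  have hm : Measurable H := hgc.measurable_piecewise continuousOn_const hKm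
  obtain ⟨B, hB⟩ := (isCompact_cpd (k := k) (9 / 2)).exists_bound_of_continuousOn hgc
  have hB0 : 0 ≤ B := (norm_nonneg _).trans (hB 0 (fun j => by simp; norm_num))
  have hHB : ∀ z, |H z| ≤ B := by
    intro z
    by_cases hz : z ∈ K
    · rw [hHK z hz]
      exact hB z hz
    · rw [hHn z hz, abs_zero]
      exact hB0
  have hHneg : ∀ z, H z ≤ 0 := by
    intro z
    by_cases hz : z ∈ K
    · rw [hHK z hz]
      exact hneg z (hK5 hz)
    · rw [hHn z hz]
  have hHint : Integrable H := by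
    have h1 : IntegrableOn H K :=
      (hgc.congr fun z hz => hHK z hz).integrableOn_compact (isCompact_cpd _)
    refine (integrableOn_iff_integrable_of_support_subset fun z hz => ?_).1 h1
    by_contra hcon
    exact hz (hHn z hcon)
  have hIL : ∫ z in K, -H z ≤ L := by
    refine le_trans (le_of_eq ?_) hL
    exact setIntegral_congr_fun hKm fun z hz => by simp only [hHK z hz]
  have hItot : ∫ z, -H z = ∫ z in K, -H z :=
    (setIntegral_eq_integral_of_forall_compl_eq_zero fun z hz => by rw [hHn z hz, neg_zero]).symm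
  have hL0 : 0 ≤ L := by
    refine le_trans ?_ hIL
    exact setIntegral_nonneg hKm fun z _ => by linarith [hHneg z]
  have hcut := cut_bound hm hHB hHn hHneg hρ fun z hz => by
    have h1 := psh_submean hg hpsh (a := 7 / 2) (ρ := ρ) (by norm_num) hρ.1
      (by linarith [hρ.2]) hz
    rw [hHK z (cpd_mono (by norm_num) (by norm_num) hz)]
    refine h1.trans (le_of_eq ?_)
    refine setIntegral_congr_fun (isCompact_cpd 1).measurableSet fun w hw => ?_
    exact (hHK _ (cpd_mono (by linarith [hρ.1]) (by linarith [hρ.2])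
      (add_smul_mem_cpd (by norm_num) hρ.1.le hz hw))).symm
  set S : Cn k → ℝ := fun z => (∫ w in cpd (k := k) 1, H (z + ρ • w)) - V * H z with hS
  have hVtop : volume (cpd (k := k) 1) ≠ ⊤ := volume_cpd_ne_top 1
  have hSi : IntegrableOn S (cpd (k := k) 2) := by
    have hm2 : StronglyMeasurable fun z => ∫ w in cpd (k := k) 1, H (z + ρ • w) := by
      have : StronglyMeasurable fun q : Cn k × Cn k => H (q.1 + ρ • q.2) :=
        (hm.comp (by fun_prop)).stronglyMeasurable
      exact this.integral_prod_right'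
    refine Measure.integrableOn_of_bounded (M := B * V + V * B) (volume_cpd_ne_top 2)
      (hm2.sub (hm.const_mul V).stronglyMeasurable).aestronglyMeasurable ?_
    refine Eventually.of_forall fun z => ?_
    have h1 : ‖∫ w in cpd (k := k) 1, H (z + ρ • w)‖ ≤ B * V := by
      exact norm_setIntegral_le_of_norm_le_const (lt_top_iff_ne_top.2 hVtop) fun w _ => hHB _
    have h2 : ‖V * H z‖ ≤ V * B := by
      rw [norm_mul, Real.norm_of_nonneg hV0.le]
      exact mul_le_mul_of_nonneg_left (hHB z) hV0.le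
    exact (norm_sub_le _ _).trans (add_le_add h1 h2)
  have hSint : ∫ z in cpd (k := k) 2, S z ≤ V * (ρ * L) := by
    refine hcut.trans ?_
    exact mul_le_mul_of_nonneg_left (mul_le_mul_of_nonneg_left hIL hρ.1.le) hV0.le
  have hmem2 : ∀ z ∈ cpd (k := k) 2, ∀ w ∈ cpd (k := k) 1, z + ρ • w ∈ K := fun z hz w hw =>
    cpd_mono (by linarith [hρ.1]) (by linarith [hρ.2])
      (add_smul_mem_cpd (by norm_num) hρ.1.le hz hw)
  have hmem1 : ∀ z ∈ cpd (k := k) 2, z ∈ K := fun z hz => cpd_mono (by norm_num) (by norm_num) hz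
  have hSeq : ∀ z ∈ cpd (k := k) 2, S z = (∫ w in cpd (k := k) 1, g (z + ρ • w)) - V * g z := by
    intro z hz
    simp only [hS]
    rw [hHK z (hmem1 z hz)]
    congr 1
    exact setIntegral_congr_fun (isCompact_cpd 1).measurableSet fun w hw => hHK _ (hmem2 z hz w hw)
  have hS0 : ∀ z ∈ cpd (k := k) 2, 0 ≤ S z := by
    intro z hz
    rw [hSeq z hz]
    have := psh_submean hg hpsh (a := 2) (ρ := ρ) (by norm_num) hρ.1 (by linarith [hρ.2]) hz
    linarith
  set Λ : ℝ := (1 + Real.log (1 / ρ)) ^ k with hΛ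
  have hlog : 0 ≤ 1 + Real.log (1 / ρ) := by
    have : 0 ≤ Real.log (1 / ρ) := Real.log_nonneg (by
      rw [le_div_iff₀ hρ.1]
      linarith [hρ.2])
    linarith
  have hΛ0 : 0 ≤ Λ := pow_nonneg hlog k
  have hSbig : ∀ z ∈ cpd (k := k) 2, g z < -N → V * N / 2 ≤ S z := by
    intro z hz hgz
    rw [hSeq z hz]
    have h1 := psh_dil hg hneg hpsh hz hρ
    have h2 : -L ≤ ∫ w in cpd (k := k) 1, g (z + w) := by
      have h3 : ∫ w in cpd (k := k) 1, -H (z + w) ≤ ∫ w, -H (z + w) := by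
        refine setIntegral_le_integral (hHint.comp_add_left z).neg (Eventually.of_forall fun w => ?_)
        simp only [Pi.zero_apply]
        linarith [hHneg (z + w)]
      have h3' : ∫ w, -H (z + w) = ∫ w, -H w :=
        integral_add_left_eq_self (μ := volume) (fun w => -H w) z
      rw [h3', hItot] at h3
      have h4 : ∫ w in cpd (k := k) 1, -H (z + w) = -∫ w in cpd (k := k) 1, g (z + w) := by
        rw [← integral_neg]
        refine setIntegral_congr_fun (isCompact_cpd 1).measurableSet fun w hw => ?_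
        have h5 : z + w ∈ K := by
          have := cpd_mono (k := k) (s := 9 / 2) (by norm_num) (by norm_num)
            (add_smul_mem_cpd (ρ := 1) (by norm_num) zero_le_one hz hw)
          rwa [one_smul] at this
        simp only [hHK _ h5]
      linarith
    have h6 := mul_le_mul_of_nonneg_left h2 hΛ0
    -- `Λ L ≤ V N / 2`
    have h7 : Λ * L ≤ V * N / 2 := by
      have h8 : 2 / V * (L * Λ) ≤ N := by
        refine le_trans ?_ hCN
        have h9 : 0 ≤ L * Λ := mul_nonneg hL0 hΛ0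
        have : (2 / V) * (L * Λ) ≤ C * (L * Λ) := mul_le_mul_of_nonneg_right (by linarith) h9
        linarith
      have h10 := mul_le_mul_of_nonneg_left h8 hV0.le
      have h11 : V * (2 / V * (L * Λ)) = 2 * (Λ * L) := by field_simp
      linarith
    have h12 : V * N ≤ -(V * g z) := by
      have := mul_le_mul_of_nonneg_left hgz.le hV0.le
      linarith
    linarith
  -- Chebyshev
  set A : Set (Cn k) := {z | z ∈ cpd (k := k) 2 ∧ g z < -N} with hA
  have hA2 : A ⊆ cpd (k := k) 2 := fun z hz => hz.1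
  have hAm : MeasurableSet A := by
    have : A = cpd (k := k) 2 ∩ H ⁻¹' Iio (-N) := by
      ext z
      constructor
      · rintro ⟨h1, h2⟩
        exact ⟨h1, by rw [mem_preimage, hHK z (hmem1 z h1)]; exact h2⟩
      · rintro ⟨h1, h2⟩
        rw [mem_preimage, hHK z (hmem1 z h1)] at h2
        exact ⟨h1, h2⟩
    rw [this]
    exact (isCompact_cpd 2).measurableSet.inter (hm measurableSet_Iio)
  have hAtop : volume A ≠ ⊤ := ((measure_mono hA2).trans_lt
    (lt_top_iff_ne_top.2 (volume_cpd_ne_top 2))).ne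
  have h1 : V * N / 2 * (volume A).toReal ≤ V * (ρ * L) := by
    have e1 : ∫ z in A, V * N / 2 = V * N / 2 * (volume A).toReal := by
      rw [setIntegral_const, smul_eq_mul, mul_comm]
      rfl
    have e2 : ∫ z in A, V * N / 2 ≤ ∫ z in A, S z :=
      setIntegral_mono_on (integrableOn_const hAtop) (hSi.mono_set hA2) hAm
        fun z hz => hSbig z hz.1 hz.2
    have e3 : ∫ z in A, S z ≤ ∫ z in cpd (k := k) 2, S z := by
      refine setIntegral_mono_set hSi ?_ (Eventually.of_forall hA2)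
      exact (ae_restrict_iff' (isCompact_cpd 2).measurableSet).2 (Eventually.of_forall hS0)
    linarith
  have h2 : (volume A).toReal ≤ C * L * ρ / N := by
    rw [le_div_iff₀ hN]
    have h3 : (volume A).toReal * N ≤ 2 * (ρ * L) := by
      have h4 : V * ((volume A).toReal * N) ≤ V * (2 * (ρ * L)) := by linarith
      exact le_of_mul_le_mul_left h4 hV0
    have h5 : 2 * (ρ * L) ≤ C * (ρ * L) := by
      have : 0 ≤ 2 / V := by positivity
      exact mul_le_mul_of_nonneg_right (by linarith) (mul_nonneg hρ.1.le hL0)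
    linarith
  rw [← ENNReal.ofReal_toReal hAtop]
  exact ENNReal.ofReal_le_ofReal h2

end Pool.Agent.KRFF
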