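import Pool.Agent.Work.MP_a2bf38_gt.I.PshGood
import Pool.Agent.Work.MP_a2bf38_gt.I.PshDecay

/-!
# The decay of the sublevel sets of plurisubharmonic functions
-/

open scoped ContDiff ENNReal ComplexOrder Topology
open Set MeasureTheory Filter Pool.Agent.ToricKRF Pool.Agent.ToricKRF.G Pool.Agent.KRFS

namespace Pool.Agent.KRFF

theorem psh_decay (k : ℕ) : ∃ C : ℝ, 0 < C ∧ ∀ (g : Cn k → ℝ) (L : ℝ) (z₁ : Cn k),
    ContDiffOn ℝ ∞ g (opd 9) → (∀ z ∈ opd (k := k) 9, g z ≤ 0) →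
    (∀ z ∈ opd (k := k) 9, ∀ u, 0 ≤ levz g u z) → z₁ ∈ cpd 2 → -L ≤ g z₁ →
    ∀ ρ ∈ Ioc (0 : ℝ) 1, ∀ N > 0, C * L * (1 + Real.log (1 / ρ)) ^ k ≤ N →
      volume {z | z ∈ cpd (k := k) 2 ∧ g z < -N} ≤ ENNReal.ofReal (C * L * ρ / N) := by
  obtain ⟨C₁, hC₁, h₁⟩ := psh_integral k
  obtain ⟨C₂, hC₂, h₂⟩ := psh_decay_of_integral k
  have h59 : opd (k := k) 5 ⊆ opd 9 := fun u hu i => lt_of_lt_of_le (hu i) (by norm_num)
  refine ⟨C₂ * C₁, by positivity, fun g L z₁ hg h0 hp hz₁ hL ρ hρ N hN hCN => ?_⟩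
  have := h₂ g (C₁ * L) (hg.mono h59) (fun z hz => h0 z (h59 hz)) (fun z hz => hp z (h59 hz))
    (h₁ g L z₁ hg h0 hp hz₁ hL) ρ hρ N hN (by rwa [← mul_assoc])
  rwa [← mul_assoc] at this

end Pool.Agent.KRFF
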