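import Pool.Agent.Work.MP_a2bf38_gt.I.PshMean
import Pool.Agent.Work.MP_a2bf38_gt.I.Coord

/-!
# The mean value inequality for plurisubharmonic functions
-/

open scoped ContDiff ENNReal ComplexOrder Topology Pointwise
open Set MeasureTheory Filter Pool.Agent.ToricKRF Pool.Agent.ToricKRF.G Pool.Agent.KRFS

namespace Pool.Agent.KRFF

namespace PshG

theorem norm_cc_le {a b x y : ℝ} {r s : ℝ} (hr : 0 ≤ r) (hs : 0 ≤ s) (h1 : a ^ 2 + b ^ 2 ≤ r ^ 2)
    (h2 : x ^ 2 + y ^ 2 ≤ s ^ 2) : (a + x) ^ 2 + (b + y) ^ 2 ≤ (r + s) ^ 2 := by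
  have h3 : (a * x + b * y) ^ 2 ≤ (r * s) ^ 2 := by
    have e1 : (a * x + b * y) ^ 2 ≤ (a ^ 2 + b ^ 2) * (x ^ 2 + y ^ 2) := by
      nlinarith [sq_nonneg (a * y - b * x)]
    have e2 : (a ^ 2 + b ^ 2) * (x ^ 2 + y ^ 2) ≤ r ^ 2 * s ^ 2 :=
      mul_le_mul h1 h2 (by positivity) (by positivity)
    calc (a * x + b * y) ^ 2 ≤ _ := e1
      _ ≤ _ := e2
      _ = (r * s) ^ 2 := by ring
  have h4 : a * x + b * y ≤ r * s := (abs_le_of_sq_le_sq' h3 (by positivity)).2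
  nlinarith

theorem add_mem_cpd {k : ℕ} {r s : ℝ} (hr : 0 ≤ r) (hs : 0 ≤ s) {u v : Cn k} (hu : u ∈ cpd r)
    (hv : v ∈ cpd s) : u + v ∈ cpd (r + s) := fun i => norm_cc_le hr hs (hu i) (hv i)

theorem neg_mem_cpd {k : ℕ} {r : ℝ} {u : Cn k} (hu : u ∈ cpd r) : -u ∈ cpd r := by
  intro i
  have := hu i
  simpa using this

theorem smul_mem_cpd {k : ℕ} {r c : ℝ} {u : Cn k} (hu : u ∈ cpd r) : c • u ∈ cpd (c * r) := by
  intro i
  have h := mul_le_mul_of_nonneg_left (hu i) (sq_nonneg c)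
  simp only [Prod.smul_fst, Prod.smul_snd, Pi.smul_apply, smul_eq_mul]
  nlinarith

theorem mem_smul_cpd {k : ℕ} {c : ℝ} (hc : 0 < c) {u : Cn k} (hu : u ∈ cpd c) :
    u ∈ c • cpd (k := k) 1 := by
  refine ⟨c⁻¹ • u, ?_, ?_⟩
  · have := smul_mem_cpd (c := c⁻¹) hu
    rwa [inv_mul_cancel₀ hc.ne'] at this
  · change c • c⁻¹ • u = u
    rw [smul_smul, mul_inv_cancel₀ hc.ne', one_smul]

theorem cpd_mono' {k : ℕ} {r s : ℝ} (hr : 0 ≤ r) (h : r ≤ s) : cpd (k := k) r ⊆ cpd s := by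
  intro u hu i
  have := hu i
  have h2 : r ^ 2 ≤ s ^ 2 := by nlinarith
  exact this.trans h2

theorem isAddHaar_Cn (k : ℕ) : (volume : Measure (Cn k)).IsAddHaarMeasure :=
  Measure.prod.instIsAddHaarMeasure (G := Fin k → ℝ) (H := Fin k → ℝ) volume volume

theorem finrank_Cn (k : ℕ) : Module.finrank ℝ (Cn k) = 2 * k := by
  rw [Module.finrank_prod, Module.finrank_fin_fun]
  ring

/-- the volume of a ball -/
theorem volume_nball (k : ℕ) (z : Cn k) {r : ℝ} (hr : 0 < r) :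
    volume {z' : Cn k | nsq (z' - z) ≤ r ^ 2} =
      ENNReal.ofReal (r ^ (2 * k)) * volume {z' : Cn k | nsq z' ≤ 1} := by
  have := isAddHaar_Cn k
  have h1 : {z' : Cn k | nsq (z' - z) ≤ r ^ 2} =
      (fun x => z + x) '' (r • {z' : Cn k | nsq z' ≤ 1}) := by
    ext x
    simp only [mem_ofPred_eq, mem_image]
    have hs : ∀ (c : ℝ) (y : Cn k), nsq (c • y) = c ^ 2 * nsq y := by
      intro c y
      simp only [nsq, Prod.smul_fst, Prod.smul_snd, dotProduct_smul, smul_dotProduct, smul_eq_mul]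
      ring
    constructor
    · intro hx
      refine ⟨x - z, ⟨r⁻¹ • (x - z), ?_, ?_⟩, by simp⟩
      · change nsq (r⁻¹ • (x - z)) ≤ 1
        rw [hs, inv_pow, inv_mul_le_iff₀ (by positivity), mul_one]
        exact hx
      · change r • r⁻¹ • (x - z) = x - z
        rw [smul_smul, mul_inv_cancel₀ hr.ne', one_smul]
    · rintro ⟨_, ⟨y, hy, rfl⟩, rfl⟩
      have hy' : nsq y ≤ 1 := hy
      change nsq (z + r • y - z) ≤ r ^ 2
      rw [add_sub_cancel_left, hs]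
      nlinarith [sq_nonneg r]
  rw [h1, image_add_left]
  rw [show (fun x => -z + x) ⁻¹' (r • {z' : Cn k | nsq z' ≤ 1}) =
    (fun x => -z + x) ⁻¹' (r • {z' : Cn k | nsq z' ≤ 1}) from rfl, measure_preimage_add,
    Measure.addHaar_smul, finrank_Cn, abs_of_pos (by positivity)]

end PshG

open PshG

/-- mean value inequality -/
theorem psh_integral (k : ℕ) : ∃ C : ℝ, 0 < C ∧ ∀ (g : Cn k → ℝ) (L : ℝ) (z₁ : Cn k),
    ContDiffOn ℝ ∞ g (opd 9) → (∀ z ∈ opd (k := k) 9, g z ≤ 0) →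
    (∀ z ∈ opd (k := k) 9, ∀ u, 0 ≤ levz g u z) → z₁ ∈ cpd 2 → -L ≤ g z₁ →
    ∫ z in cpd (k := k) (9 / 2), -g z ≤ C * L := by
  have := isAddHaar_Cn k
  set V : ℝ := (volume (cpd (k := k) 1)).toReal with hV
  have hV0 : 0 ≤ V := ENNReal.toReal_nonneg
  refine ⟨(13 / 2) ^ (2 * k) * V + 1, by positivity, fun g L z₁ hg h0 hp hz₁ hL => ?_⟩
  have hsub := psh_submean hg hp (by norm_num : (0 : ℝ) ≤ 2) (by norm_num : (0 : ℝ) < 13 / 2)
    (by norm_num) hz₁
  have hL0 : 0 ≤ L := by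
    have := h0 z₁ (cpd_subset_opd (by norm_num) (by norm_num) hz₁)
    linarith
  -- change of variables
  have hρ : (0 : ℝ) < 13 / 2 := by norm_num
  have e1 : ∫ w in cpd (k := k) 1, -g (z₁ + (13 / 2 : ℝ) • w) =
      ((13 / 2 : ℝ) ^ (2 * k))⁻¹ * ∫ x in (13 / 2 : ℝ) • cpd (k := k) 1, -g (z₁ + x) := by
    have := Measure.setIntegral_comp_smul (volume : Measure (Cn k)) (fun x => -g (z₁ + x))
      (cpd (k := k) 1) hρ.ne'
    rw [this, finrank_Cn, abs_of_pos (by positivity), smul_eq_mul]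
  have e2 : ∫ x in (13 / 2 : ℝ) • cpd (k := k) 1, -g (z₁ + x) =
      ∫ x in (fun x => z₁ + x) '' ((13 / 2 : ℝ) • cpd (k := k) 1), -g x :=
    ((measurePreserving_add_left (volume : Measure (Cn k)) z₁).setIntegral_image_emb
      (measurableEmbedding_addLeft z₁) (fun x => -g x) _).symm
  have hin : cpd (k := k) (9 / 2) ⊆ (fun x => z₁ + x) '' ((13 / 2 : ℝ) • cpd (k := k) 1) := by
    intro z hz
    refine ⟨-z₁ + z, mem_smul_cpd hρ ?_, by simp⟩
    have := add_mem_cpd (by norm_num) (by norm_num) (neg_mem_cpd hz₁) hz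
    norm_num at this
    exact this
  have hout : (fun x => z₁ + x) '' ((13 / 2 : ℝ) • cpd (k := k) 1) ⊆ cpd (k := k) (17 / 2) := by
    rintro _ ⟨_, ⟨w, hw, rfl⟩, rfl⟩
    have h1 := smul_mem_cpd (c := (13 / 2 : ℝ)) hw
    have h2 := add_mem_cpd (by norm_num) (by norm_num) hz₁ h1
    norm_num at h2
    exact h2
  have h17 : cpd (k := k) (17 / 2) ⊆ opd 9 := cpd_subset_opd (by norm_num) (by norm_num)
  have hint : IntegrableOn (fun z => -g z)
      ((fun x => z₁ + x) '' ((13 / 2 : ℝ) • cpd (k := k) 1)) := by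
    refine IntegrableOn.mono_set ?_ hout
    exact (hg.continuousOn.neg.mono h17).integrableOn_compact (isCompact_cpd _)
  have hmeas : MeasurableSet ((fun x => z₁ + x) '' ((13 / 2 : ℝ) • cpd (k := k) 1)) := by
    refine IsClosed.measurableSet (IsCompact.isClosed ?_)
    exact ((isCompact_cpd 1).smul (13 / 2 : ℝ)).image (by fun_prop)
  have e3 : ∫ z in cpd (k := k) (9 / 2), -g z ≤
      ∫ z in (fun x => z₁ + x) '' ((13 / 2 : ℝ) • cpd (k := k) 1), -g z := by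
    refine setIntegral_mono_set hint ?_ hin.eventuallyLE
    refine (ae_restrict_iff' hmeas).2 (Eventually.of_forall fun z hz => ?_)
    have := h0 z (h17 (hout hz))
    simpa using this
  have e4 : ∫ w in cpd (k := k) 1, -g (z₁ + (13 / 2 : ℝ) • w) ≤ V * L := by
    rw [integral_neg]
    have : V * -L ≤ V * g z₁ := mul_le_mul_of_nonneg_left hL hV0
    linarith
  rw [e1, e2] at e4
  have hpow : (0 : ℝ) < (13 / 2) ^ (2 * k) := by positivity
  rw [inv_mul_le_iff₀ hpow] at e4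
  calc _ ≤ _ := e3
    _ ≤ (13 / 2) ^ (2 * k) * (V * L) := e4
    _ ≤ ((13 / 2) ^ (2 * k) * V + 1) * L := by nlinarith

theorem psh_good (k : ℕ) : ∃ C : ℝ, 0 < C ∧ ∀ (g : Cn k → ℝ) (L : ℝ) (z₁ : Cn k),
    ContDiffOn ℝ ∞ g (opd 9) → (∀ z ∈ opd (k := k) 9, g z ≤ 0) →
    (∀ z ∈ opd (k := k) 9, ∀ u, 0 ≤ levz g u z) → z₁ ∈ cpd 2 → -L ≤ g z₁ →
    ∀ z ∈ cpd (k := k) 2, ∀ r ∈ Ioc (0 : ℝ) 1,
      ∃ z', nsq (z' - z) ≤ r ^ 2 ∧ -(C * L * (1 / r) ^ (2 * k)) ≤ g z' := by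
  have := isAddHaar_Cn k
  obtain ⟨C, hC, h⟩ := psh_integral k
  set b : ℝ≥0∞ := volume {z' : Cn k | nsq z' ≤ 1} with hb
  have hsubb : ∀ r ∈ Ioc (0 : ℝ) 1, ∀ z ∈ cpd (k := k) 2,
      {z' : Cn k | nsq (z' - z) ≤ r ^ 2} ⊆ cpd (9 / 2) := by
    intro r hr z hz x hx i
    have h1 : (x - z).1 i ^ 2 + (x - z).2 i ^ 2 ≤ 1 ^ 2 := by
      have h2 : nsq (x - z) ≤ r ^ 2 := hx
      unfold nsq dotProduct at h2
      have h3 : (x - z).1 i * (x - z).1 i ≤ ∑ j, (x - z).1 j * (x - z).1 j :=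
        Finset.single_le_sum (f := fun j => (x - z).1 j * (x - z).1 j)
          (fun j _ => mul_self_nonneg _) (Finset.mem_univ i)
      have h4 : (x - z).2 i * (x - z).2 i ≤ ∑ j, (x - z).2 j * (x - z).2 j :=
        Finset.single_le_sum (f := fun j => (x - z).2 j * (x - z).2 j)
          (fun j _ => mul_self_nonneg _) (Finset.mem_univ i)
      have h5 : r ^ 2 ≤ 1 := by nlinarith [hr.1, hr.2]
      nlinarith
    have h2 := norm_cc_le (by norm_num : (0 : ℝ) ≤ 1) (by norm_num : (0 : ℝ) ≤ 2) h1 (hz i)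
    have h3 : (x - z).1 i + z.1 i = x.1 i := by simp
    have h4 : (x - z).2 i + z.2 i = x.2 i := by simp
    rw [h3, h4] at h2
    nlinarith
  have hclosed : ∀ (z : Cn k) (r : ℝ), IsClosed {z' : Cn k | nsq (z' - z) ≤ r ^ 2} := by
    intro z r
    refine isClosed_le ?_ continuous_const
    unfold nsq dotProduct
    fun_prop
  have hb1 : b ≠ ⊤ := by
    have h1 := hsubb 1 ⟨one_pos, le_rfl⟩ 0 (by intro i; norm_num)
    simp only [sub_zero, one_pow] at h1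
    exact (lt_of_le_of_lt (measure_mono h1) (isCompact_cpd _).measure_lt_top).ne
  have hb0 : b ≠ 0 := by
    have h1 : IsOpen {z' : Cn k | nsq z' < 1} := by
      refine isOpen_lt ?_ continuous_const
      unfold nsq dotProduct
      fun_prop
    have h2 : (0 : Cn k) ∈ {z' : Cn k | nsq z' < 1} := by
      simp [nsq]
    have h3 := h1.measure_pos volume ⟨0, h2⟩
    exact (lt_of_lt_of_le h3 (measure_mono fun x hx => (le_of_lt hx : nsq x ≤ 1))).ne'
  have hbr : 0 < b.toReal := ENNReal.toReal_pos hb0 hb1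
  refine ⟨C / b.toReal, by positivity, fun g L z₁ hg h0 hp hz₁ hL z hz r hr => ?_⟩
  have hI := h g L z₁ hg h0 hp hz₁ hL
  have h92 : cpd (k := k) (9 / 2) ⊆ opd 9 := cpd_subset_opd (by norm_num) (by norm_num)
  have hvol := volume_nball k z hr.1
  rw [← hb] at hvol
  have hrk : 0 < r ^ (2 * k) := pow_pos hr.1 _
  have hvol0 : volume {z' : Cn k | nsq (z' - z) ≤ r ^ 2} ≠ 0 := by
    rw [hvol]
    exact mul_ne_zero (by simpa using hrk) hb0
  have hvol1 : volume {z' : Cn k | nsq (z' - z) ≤ r ^ 2} ≠ ⊤ := by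
    rw [hvol]
    exact ENNReal.mul_ne_top ENNReal.ofReal_ne_top hb1
  have hint92 : IntegrableOn (fun z => -g z) (cpd (k := k) (9 / 2)) :=
    (hg.continuousOn.neg.mono h92).integrableOn_compact (isCompact_cpd _)
  have hint : IntegrableOn (fun z => -g z) {z' : Cn k | nsq (z' - z) ≤ r ^ 2} :=
    hint92.mono_set (hsubb r hr z hz)
  obtain ⟨x, hx, hx'⟩ := exists_le_setAverage hvol0 hvol1 hint
  refine ⟨x, hx, ?_⟩
  have e1 : ∫ a in {z' : Cn k | nsq (z' - z) ≤ r ^ 2}, -g a ≤ C * L := by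
    refine (setIntegral_mono_set hint92 ?_ (hsubb r hr z hz).eventuallyLE).trans hI
    refine (ae_restrict_iff' (isClosed_cpd _).measurableSet).2 (Eventually.of_forall fun y hy => ?_)
    have := h0 y (h92 hy)
    simpa using this
  rw [setAverage_eq, smul_eq_mul, measureReal_def, hvol, ENNReal.toReal_mul,
    ENNReal.toReal_ofReal hrk.le] at hx'
  have e2 : (r ^ (2 * k) * b.toReal)⁻¹ * ∫ a in {z' : Cn k | nsq (z' - z) ≤ r ^ 2}, -g a ≤
      (r ^ (2 * k) * b.toReal)⁻¹ * (C * L) := mul_le_mul_of_nonneg_left e1 (by positivity)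
  have e3 : (r ^ (2 * k) * b.toReal)⁻¹ * (C * L) = C / b.toReal * L * (1 / r) ^ (2 * k) := by
    rw [one_div, inv_pow]
    field_simp
  rw [e3] at e2
  linarith

end Pool.Agent.KRFF
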