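import Pool.Agent.Work.MP_a2bf38_gt.I.GapE
import Pool.Agent.Work.MP_a2bf38_gt.I.Psh
import Pool.Agent.Work.MP_a2bf38_gt.I.PshGood
import Pool.Agent.Work.MP_a2bf38_gt.I.Fibre

/-!
# Section 6: the gap estimate
-/

open scoped ContDiff ENNReal ComplexOrder
open Set MeasureTheory Pool.Agent.ToricKRF Pool.Agent.ToricKRF.G Pool.Agent.KRFS

namespace Pool.Agent.KRFF

section Fib

variable {k m : ℕ} {M Y : Type} [TopologicalSpace M] [CompactSpace M] [T2Space M]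
  [TopologicalSpace Y] [T2Space Y] {κ P : Type} [Finite κ] {T : ℝ} (F : Fib k m M Y κ P T)

/-- the potential oscillates little on the fibres -/
theorem Fib.fibre : ∃ C : ℝ, 0 ≤ C ∧ ∀ t ∈ Ico 0 T, ∀ c, ∀ p,
    F.f p ∈ (F.b (F.pc c)).source → F.b (F.pc c) (F.f p) ∈ cpd 2 →
    ∃ u ∈ cpd 2, F.Phi t p - C * (T - t) ≤
      F.phi c (t, joinC u (F.b (F.pc c) (F.f p))) :=
  F.fibre_of (psh_good k)

/-- the gap estimate -/
theorem Fib.gap : ∃ C : ℝ, 0 ≤ C ∧ ∀ t ∈ Ico 0 T, ∀ p p', F.f p = F.f p' →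
    F.Phi t p' - F.Phi t p ≤ C * √(T - t) :=
  Gap.gap_of_decay F (psh_decay k) F.fibre

end Fib

end Pool.Agent.KRFF
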