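import Pool.Agent.Work.MP_a2bf38_gt.I.DropStep
import Pool.Agent.Work.MP_a2bf38_gt.I.Sect
import Pool.Agent.Work.MP_a2bf38_gt.I.Gap

/-!
# The estimate `φ(t₀) - φ(t) ≤ C (T - t₀)^(1/2)` for fibrations
-/

open scoped ContDiff ENNReal ComplexOrder Topology
open Set MeasureTheory Filter Pool.Agent.ToricKRF Pool.Agent.ToricKRF.G Pool.Agent.KRFS

namespace Pool.Agent.KRFF

section Fib

variable {k m : ℕ} {M Y : Type} [TopologicalSpace M] [CompactSpace M] [T2Space M]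
  [TopologicalSpace Y] [T2Space Y] {κ P : Type} [Finite κ] {T : ℝ} (F : Fib k m M Y κ P T)

/-- **The drop estimate**: `φ(t₀) - φ(t) ≤ C (T - t₀)^(1/2)` for `t ≥ t₀`. -/
theorem Fib.drop : F.toFlow.Drop (1 / 2) := by
  rcases le_or_gt T 0 with hT | hT
  · exact ⟨0, le_rfl, fun t₀ ht₀ => absurd (ht₀.1.trans_lt ht₀.2) (not_lt.2 hT)⟩
  obtain ⟨C₀, hC₀, hsect⟩ := F.sect
  obtain ⟨C₁, hC₁, h1⟩ := F.toFlow.dphi_ge_of_le
  obtain ⟨C₂, hC₂, h2⟩ := F.toFlow.Phi_bound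
  obtain ⟨C₃, hC₃, h3⟩ := F.gap
  set δ : ℝ := T / (2 * C₀ + 2) with hδ
  have hδ0 : 0 < δ := by positivity
  have hsδ : 0 < √δ := Real.sqrt_pos.2 hδ0
  have hsT : 0 < √T := Real.sqrt_pos.2 hT
  set K₁ : ℝ := C₃ + 2 * C₂ * (2 * C₀ / √T) +
    ((C₁ + 1 + (k + m : ℕ)) * √T + 2 * (k + m : ℕ) * √T) with hK₁
  have hK₁0 : 0 ≤ K₁ := by positivity
  refine ⟨K₁ + 2 * C₂ / √δ, by positivity, fun t₀ ht₀ t ht p => ?_⟩
  rw [← Real.sqrt_eq_rpow]
  have hs0 : 0 ≤ √(T - t₀) := Real.sqrt_nonneg _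
  have ht' : t ∈ Ico 0 T := ⟨ht₀.1.trans ht.1, ht.2⟩
  have hb1 := abs_le.1 (h2 t₀ ht₀ p)
  have hb2 := abs_le.1 (h2 t ht' p)
  have hTt : 0 < T - t₀ := sub_pos.2 ht₀.2
  rcases le_or_gt (T - t₀) δ with hc | hc
  · -- the good case
    have e1 : (1 - t₀ / T) = (T - t₀) / T := by field_simp
    have e2 : (1 - t₀ / T) ≤ 1 / (2 * C₀ + 2) := by
      rw [e1, div_le_div_iff₀ hT (by positivity)]
      have := mul_le_mul_of_nonneg_right hc (show 0 ≤ 2 * C₀ + 2 by positivity)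
      rw [hδ, div_mul_cancel₀ _ (by positivity)] at this
      linarith
    have e3 : 2 * C₀ * (1 - t₀ / T) ≤ 1 := by
      have h4 := mul_le_mul_of_nonneg_left e2 (show 0 ≤ 2 * C₀ by positivity)
      refine h4.trans ?_
      rw [mul_one_div, div_le_one (by positivity)]
      linarith
    have e4 : T / 2 ≤ t₀ := by
      have h5 : δ ≤ T / 2 := by
        rw [hδ]
        exact div_le_div_of_nonneg_left hT.le (by norm_num) (by linarith)
      linarith
    set q : ℝ := 2 * C₀ * (1 - t₀ / T) with hq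
    have hq0 : 0 ≤ q := by
      rw [hq, e1]
      positivity
    have hqs : q ≤ 2 * C₀ / √T * √(T - t₀) := by
      have h6 : (1 - t₀ / T) ≤ √(T - t₀) / √T := by
        rw [e1, div_le_div_iff₀ hT hsT]
        have h7 : √(T - t₀) * √(T - t₀) = T - t₀ := Real.mul_self_sqrt hTt.le
        have h8 : √T * √T = T := Real.mul_self_sqrt hT.le
        have h9 : √(T - t₀) ≤ √T := Real.sqrt_le_sqrt (by linarith [ht₀.1])
        calc (T - t₀) * √T = √(T - t₀) * (√(T - t₀) * √T) := by rw [← mul_assoc, h7]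
          _ ≤ √(T - t₀) * (√T * √T) :=
            mul_le_mul_of_nonneg_left (mul_le_mul_of_nonneg_right h9 hsT.le) hs0
          _ = √(T - t₀) * T := by rw [h8]
      calc q ≤ 2 * C₀ * (√(T - t₀) / √T) :=
            mul_le_mul_of_nonneg_left h6 (by positivity)
        _ = _ := by ring
    have h10 := F.drop_step (A := -(C₃ * √(T - t₀)) - q * C₂) h1 hsect ht₀ e4 e3 ht (by
      intro x x' hxx
      have h11 := h3 t₀ ht₀ x x' hxx
      have h12 := (abs_le.1 (h2 t₀ ht₀ x')).1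
      have h13 := mul_le_mul_of_nonneg_left h12 hq0
      rw [← hq]
      linarith) p
    rw [← hq] at h10
    have h14 := barr_le (k + m) (t₀ := t₀) (t := t) hT hC₁ ht₀.1 ht.1 ht.2
    have h15 : q * F.Phi t₀ p ≤ q * C₂ := mul_le_mul_of_nonneg_left hb1.2 hq0
    have h16 : q * C₂ ≤ 2 * C₀ / √T * √(T - t₀) * C₂ := mul_le_mul_of_nonneg_right hqs hC₂
    have h17 : 0 ≤ 2 * C₂ / √δ * √(T - t₀) := by positivity
    rw [add_mul, hK₁]
    linarith
  · -- the trivial case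
    have h4 : √δ ≤ √(T - t₀) := Real.sqrt_le_sqrt hc.le
    have h5 : 2 * C₂ ≤ 2 * C₂ / √δ * √(T - t₀) := by
      rw [div_mul_eq_mul_div, le_div_iff₀ hsδ]
      exact mul_le_mul_of_nonneg_left h4 (by positivity)
    have h6 : 0 ≤ K₁ * √(T - t₀) := by positivity
    rw [add_mul]
    linarith

end Fib

end Pool.Agent.KRFF
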