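import Pool.Agent.Work.MP_a2bf38_gt.I.FibBasic
import Pool.Agent.Work.MP_a2bf38_gt.I.FBound

/-!
# The main step of the estimate `φ(t₀) - φ(t) ≤ C (T - t₀)^(1/2)` for fibrations
-/

open scoped ContDiff ENNReal ComplexOrder Topology
open Set MeasureTheory Filter Pool.Agent.ToricKRF Pool.Agent.ToricKRF.G Pool.Agent.KRFS

namespace Pool.Agent.KRFF

section barrier

/-- the barrier -/
noncomputable def barr (n : ℕ) (T C t₀ s : ℝ) : ℝ :=
  (C + 1) * (s - t₀) + n * T * (((1 - s / T) * Real.log (1 - s / T) - (1 - s / T)) -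
    ((1 - t₀ / T) * Real.log (1 - t₀ / T) - (1 - t₀ / T)))

theorem barr_self (n : ℕ) (T C t₀ : ℝ) : barr n T C t₀ t₀ = 0 := by
  simp [barr]

theorem hasDerivAt_barr (n : ℕ) {T C t₀ s : ℝ} (hT : 0 < T) (hs : s < T) :
    HasDerivAt (barr n T C t₀) (C + 1 - n * Real.log (1 - s / T)) s := by
  have hd : 0 < 1 - s / T := by
    rw [sub_pos, div_lt_one hT]
    exact hs
  have h1 : HasDerivAt (fun s : ℝ => 1 - s / T) (-(1 / T)) s := by
    simpa using ((hasDerivAt_id s).div_const T).const_sub 1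
  have h2 := ((h1.mul (h1.log hd.ne')).sub h1).sub_const
    ((1 - t₀ / T) * Real.log (1 - t₀ / T) - (1 - t₀ / T))
  have h3 := (((hasDerivAt_id s).sub_const t₀).const_mul (C + 1)).add (h2.const_mul (n * T))
  refine h3.congr_deriv ?_
  rw [mul_div_cancel₀ _ hd.ne']
  field_simp
  ring

theorem barr_le (n : ℕ) {T C t₀ t : ℝ} (hT : 0 < T) (hC : 0 ≤ C) (h0 : 0 ≤ t₀) (h : t₀ ≤ t)
    (ht : t < T) : barr n T C t₀ t ≤ ((C + 1 + n) * √T + 2 * n * √T) * √(T - t₀) := by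
  have hd : 0 < 1 - t / T := by
    rw [sub_pos, div_lt_one hT]
    exact ht
  have hd0 : 0 < 1 - t₀ / T := by
    rw [sub_pos, div_lt_one hT]
    linarith
  have hd1 : 1 - t / T ≤ 1 := by
    have : 0 ≤ t / T := div_nonneg (h0.trans h) hT.le
    linarith
  set d := 1 - t / T with hdd
  set d₀ := 1 - t₀ / T with hdd0
  have e0 : T - t₀ = T * d₀ := by
    rw [hdd0]
    field_simp
  have h1 : d * Real.log d ≤ 0 := mul_nonpos_of_nonneg_of_nonpos hd.le (Real.log_nonpos hd.le hd1)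
  have h2 : t - t₀ ≤ T * d₀ := by linarith
  have hs : √(T - t₀) = √T * √d₀ := by
    rw [e0, Real.sqrt_mul hT.le]
  have hsT : √T * √T = T := Real.mul_self_sqrt hT.le
  have hsd : √d₀ * √d₀ = d₀ := Real.mul_self_sqrt hd0.le
  have hpd : 0 < √d₀ := Real.sqrt_pos.2 hd0
  have hd01 : d₀ ≤ 1 := by
    have : 0 ≤ t₀ / T := div_nonneg h0 hT.le
    linarith
  have hsd1 : √d₀ ≤ 1 := Real.sqrt_le_one.2 hd01
  -- `- d₀ log d₀ ≤ 2 √d₀`
  have h3 : -(d₀ * Real.log d₀) ≤ 2 * √d₀ := by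
    have h4 : Real.log d₀ = 2 * Real.log √d₀ := by
      rw [Real.log_sqrt hd0.le]
      ring
    have h5 : -Real.log √d₀ ≤ (√d₀)⁻¹ := by
      rw [← Real.log_inv]
      have := Real.log_le_sub_one_of_pos (inv_pos.2 hpd)
      linarith
    have h6 : d₀ * (√d₀)⁻¹ = √d₀ := by
      nth_rw 1 [← hsd]
      field_simp
    rw [h4]
    have h7 := mul_le_mul_of_nonneg_left h5 hd0.le
    rw [h6] at h7
    linarith
  have h8 : d₀ ≤ √d₀ := by nlinarith
  have h9 : (0 : ℝ) ≤ n := n.cast_nonneg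
  rw [hs]
  unfold barr
  rw [← hdd, ← hdd0]
  have e1 : (C + 1) * (t - t₀) ≤ (C + 1) * (T * √d₀) :=
    mul_le_mul_of_nonneg_left (h2.trans (mul_le_mul_of_nonneg_left h8 hT.le)) (by linarith)
  have e2 : (d * Real.log d - d) - (d₀ * Real.log d₀ - d₀) ≤ √d₀ + 2 * √d₀ := by linarith
  have e3 := mul_le_mul_of_nonneg_left e2 (show 0 ≤ n * T by positivity)
  have e4 : ((C + 1 + n) * √T + 2 * n * √T) * (√T * √d₀) =
      (C + 1) * (T * √d₀) + n * T * (√d₀ + 2 * √d₀) := by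
    linear_combination ((C + 1 + n) * √d₀ + 2 * n * √d₀) * hsT
  rw [e4]
  exact add_le_add e1 e3

end barrier

theorem nonpos_of_left_min {g : ℝ → ℝ} {g' s t₀ : ℝ} (hg : HasDerivAt g g' s) (h0 : t₀ < s)
    (hmin : ∀ r ∈ Icc t₀ s, g s ≤ g r) : g' ≤ 0 := by
  have h1 := deriv_nonneg_of_left_max (g := fun r : ℝ => -g (s + r)) (a := 0) (c := t₀ - s)
    (by linarith) (by
      have : HasDerivAt (fun r : ℝ => s + r) 1 0 := by simpa using (hasDerivAt_id (0 : ℝ)).const_add s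
      have hg' : HasDerivAt g g' (s + 0) := by simpa using hg
      exact (hg'.comp 0 this).neg.differentiableAt) (by
      intro r hr
      have := hmin (s + r) ⟨by linarith [hr.1], by linarith [hr.2]⟩
      simpa using this)
  have h2 : HasDerivAt (fun r : ℝ => -g (s + r)) (-(g' * 1)) 0 := by
    have : HasDerivAt (fun r : ℝ => s + r) 1 0 := by simpa using (hasDerivAt_id (0 : ℝ)).const_add s
    have hg' : HasDerivAt g g' (s + 0) := by simpa using hg
    exact (hg'.comp 0 this).neg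
  rw [h2.deriv] at h1
  linarith

section Fib

variable {k m : ℕ} {M Y : Type} [TopologicalSpace M] [CompactSpace M]
  [TopologicalSpace Y] [T2Space Y] {κ P : Type} {T : ℝ} (F : Fib k m M Y κ P T)

/-- The main step: `φ(t) - (1 - 2 C₀ (1 - t₀/T)) φ(t₀)` is bounded from below by its minimum over
pairs of points of the same fibre at the time `t₀`. -/
theorem Fib.drop_step {C₀ C₁ : ℝ}
    (h1 : ∀ c, ∀ t ∈ Ico 0 T, ∀ z ∈ (F.e c).target,
      (∀ u, (1 - t / T) * lev (F.ψ c) u (0, z) ≤ lev (F.ψ c) u (t, z)) →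
      (k + m : ℕ) * Real.log (1 - t / T) - C₁ ≤ F.dphi c (t, z))
    (hsect : ∀ c c', F.pc c = F.pc c' → ∀ u₀ ∈ cpd (k := k) 2,
      ∀ t₀ ∈ Ico 0 T, T / 2 ≤ t₀ → 2 * C₀ * (1 - t₀ / T) ≤ 1 → ∀ s ∈ Ico t₀ T, ∀ z,
      fstC z ∈ cpd 2 → sndC z ∈ cpd 2 → ∀ u,
      levz (fun z => F.phi c (s, z) -
        (1 - 2 * C₀ * (1 - t₀ / T)) * F.phi c' (t₀, joinC u₀ (sndC z))) u z ≤
        lev (F.ψ c) u (s, z) - (1 - s / T) * lev (F.ψ c) u (0, z))
    {t₀ t A : ℝ} (ht₀ : t₀ ∈ Ico 0 T) (h2 : T / 2 ≤ t₀) (h3 : 2 * C₀ * (1 - t₀ / T) ≤ 1)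
    (ht : t ∈ Ico t₀ T)
    (hA : ∀ x x', F.f x = F.f x' →
      A ≤ F.Phi t₀ x - (1 - 2 * C₀ * (1 - t₀ / T)) * F.Phi t₀ x') (p : M) :
    A ≤ F.Phi t p - (1 - 2 * C₀ * (1 - t₀ / T)) * F.Phi t₀ p + barr (k + m) T C₁ t₀ t := by
  have hT : 0 < T := ht₀.1.trans_lt ht₀.2
  set κ' : ℝ := 1 - 2 * C₀ * (1 - t₀ / T) with hκ'
  have hsub : ∀ s ∈ Icc t₀ t, s ∈ Ico 0 T := fun s hs => ⟨ht₀.1.trans hs.1, hs.2.trans_lt ht.2⟩
  -- the compact set
  set Q : Set (ℝ × M × M) := Icc t₀ t ×ˢ {q | F.f q.1 = F.f q.2} with hQ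
  have hQc : IsCompact Q := by
    refine isCompact_Icc.prod (IsClosed.isCompact ?_)
    exact isClosed_eq (F.continuous_f.comp continuous_fst) (F.continuous_f.comp continuous_snd)
  set W : ℝ × M × M → ℝ := fun q =>
    F.Phi q.1 q.2.1 - κ' * F.Phi t₀ q.2.2 + barr (k + m) T C₁ t₀ q.1 with hW
  have hWc : ContinuousOn W Q := by
    have hΦ := F.toFlow.Phi_continuousOn
    have e1 : ContinuousOn (fun q : ℝ × M × M => F.Phi q.1 q.2.1) Q :=
      hΦ.comp (f := fun q : ℝ × M × M => (q.1, q.2.1)) (by fun_prop)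
        fun q hq => ⟨hsub _ hq.1, mem_univ _⟩
    have e2 : ContinuousOn (fun q : ℝ × M × M => F.Phi t₀ q.2.2) Q :=
      hΦ.comp (f := fun q : ℝ × M × M => (t₀, q.2.2)) (by fun_prop)
        fun q hq => ⟨ht₀, mem_univ _⟩
    have e3 : ContinuousOn (fun q : ℝ × M × M => barr (k + m) T C₁ t₀ q.1) Q := by
      have e4 : ContinuousOn (barr (k + m) T C₁ t₀) (Icc t₀ t) := fun s hs =>
        (hasDerivAt_barr (k + m) hT (hsub s hs).2).continuousAt.continuousWithinAt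
      exact e4.comp continuousOn_fst fun q hq => hq.1
    exact (e1.sub (continuousOn_const.mul e2)).add e3
  obtain ⟨⟨s, x, x'⟩, ⟨hs, hxx⟩, hmin⟩ := hQc.exists_isMinOn
    ⟨(t, p, p), ⟨⟨ht.1, le_rfl⟩, rfl⟩⟩ hWc
  have hxx' : F.f x = F.f x' := hxx
  have hsI : s ∈ Icc t₀ t := hs
  have hmin' : ∀ r ∈ Icc t₀ t, ∀ y y', F.f y = F.f y' → W (s, x, x') ≤ W (r, y, y') :=
    fun r hr y y' h => hmin (show (r, y, y') ∈ Q from ⟨hr, h⟩)
  suffices hst : s = t₀ by
    have h4 := hmin' t ⟨ht.1, le_rfl⟩ p p rfl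
    have h5 := hA x x' hxx'
    simp only [hW, hst, barr_self] at h4
    linarith
  by_contra hne
  have hlt : t₀ < s := lt_of_le_of_ne hsI.1 (Ne.symm hne)
  obtain ⟨c, c', hcc, hx, hx', hx1, hx1', hy, hyy⟩ := F.exists_chart hxx'
  set z₀ := F.e c x with hz₀
  set u₀ := fstC (F.e c' x') with hu₀
  have hz₀t : z₀ ∈ (F.e c).target := (F.e c).map_source hx
  have hjoin : joinC u₀ (sndC z₀) = F.e c' x' := by
    rw [← hyy, hu₀, joinC_fst_snd]
  have hsT := hsub s hsI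
  have hspos : s ∈ Ioo 0 T := ⟨ht₀.1.trans_lt hlt, hsT.2⟩
  have hu10 : u₀ ∈ opd (k := k) 10 := cpd_subset_opd (by norm_num) (by norm_num) hx1'
  -- the Levi form
  have hlev : ∀ u, (1 - s / T) * lev (F.ψ c) u (0, z₀) ≤ lev (F.ψ c) u (s, z₀) := by
    intro u
    have h6 := hsect c c' hcc u₀ (cpd_mono (by norm_num) (by norm_num) hx1') t₀ ht₀ h2 h3 s
      ⟨hlt.le, hsT.2⟩ z₀ (cpd_mono (by norm_num) (by norm_num) hx1)
      (cpd_mono (by norm_num) (by norm_num) hy) u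
    have h7 : 0 ≤ levz (fun z => F.phi c (s, z) - κ' * F.phi c' (t₀, joinC u₀ (sndC z))) u z₀ := by
      obtain ⟨U, hU, hUs, hφ⟩ := F.toFlow.phi_isFun.smooth c
      obtain ⟨U', hU', hUs', hφ'⟩ := F.toFlow.phi_isFun.smooth c'
      have hd1 : ContDiffOn ℝ ∞ (fun z => F.phi c (s, z)) (F.e c).target :=
        hφ.comp (contDiff_const.prodMk contDiff_id).contDiffOn fun z hz => hUs ⟨hsT, hz⟩
      have hd2 : ContDiffOn ℝ ∞ (fun z => F.phi c' (t₀, joinC u₀ (sndC z))) (F.e c).target :=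
        hφ'.comp (contDiff_const.prodMk (contDiff_sect u₀)).contDiffOn fun z hz =>
          hUs' ⟨ht₀, (F.move hcc hz hu10).1⟩
      refine levz_nonneg_of_min (F.e c).open_target (hd1.sub (contDiffOn_const.mul hd2)) hz₀t ?_ u
      filter_upwards [(F.e c).open_target.mem_nhds hz₀t] with z hz
      obtain ⟨h8, h9⟩ := F.move hcc hz hu10
      have h10 := hmin' s hsI _ _ h9
      simp only [hW] at h10
      rw [F.toFlow.Phi_eq hsT hx, F.toFlow.Phi_eq ht₀ hx', F.toFlow.Phi_eq hsT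
        ((F.e c).map_target hz), F.toFlow.Phi_eq ht₀ ((F.e c').map_target h8),
        (F.e c).right_inv hz, (F.e c').right_inv h8, ← hjoin, ← hz₀] at h10
      linarith
    linarith
  have h11 := h1 c s hsT z₀ hz₀t hlev
  -- the time derivative
  have h12 : HasDerivAt (fun r => F.phi c (r, z₀)) (F.dphi c (s, z₀)) s := by
    rw [← F.toFlow.dt_phi hspos hz₀t]
    exact Bd.hasDerivAt_time
      ((F.toFlow.phi_isFun.contDiffAt hsT hz₀t).differentiableAt (by simp))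
  have h13 := nonpos_of_left_min (h12.add (hasDerivAt_barr (k + m) (C := C₁) (t₀ := t₀) hT hsT.2))
    hlt (by
      intro r hr
      have hrI : r ∈ Icc t₀ t := ⟨hr.1, hr.2.trans hsI.2⟩
      have h14 := hmin' r hrI x x' hxx'
      simp only [hW] at h14
      rw [F.toFlow.Phi_eq hsT hx, F.toFlow.Phi_eq (hsub r hrI) hx, ← hz₀] at h14
      simp only [Pi.add_apply]
      linarith)
  linarith

end Fib

end Pool.Agent.KRFF
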