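import Pool.Agent.Work.MP_a2bf38_gt.G.EvolField

/-!
# KRF III, module B1: holomorphic fields that are parallel at a point

For `ξ` holomorphic with `∇ξ = 0` at `p`, `(∂_t - Δ) log |ξ|^2 = 0` at `p`.
-/

open scoped ContDiff ENNReal ComplexOrder
open Set Finset

namespace Pool.Agent.ToricKRF.G

section main

variable {n : ℕ} {φ : ℝ × Cn n → ℝ} {U : Set (ℝ × Cn n)} {p : ℝ × Cn n} {W : Fin n → Cn n}

/-- The evolution equality in a unitary frame, for a field given by holomorphic coefficient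
functions `x` in the frame, parallel at `p`. -/
theorem evol_coeff_eq (hU : IsOpen U) (hφ : ContDiffOn ℝ ∞ φ U) (hpos : ∀ p ∈ U, (cHess φ p).PosDef)
    (flow_re : ∀ p ∈ U, ∀ k l, dt (fun q => (cHess φ q k l).re) p =
      (cHess (fun q => Real.log (cHess φ q).det.re) p k l).re)
    (flow_im : ∀ p ∈ U, ∀ k l, dt (fun q => (cHess φ q k l).im) p =
      (cHess (fun q => Real.log (cHess φ q).det.re) p k l).im) (hp : p ∈ U)
    (hW : IsUFrame φ p W) {x : Fin n → ℝ × Cn n → ℂ} {U' : Set (ℝ × Cn n)} (hU' : IsOpen U')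
    (hU'U : U' ⊆ U) (hp' : p ∈ U') (hx : ∀ d, ContDiffOn ℝ ∞ (x d) U') (hol : ∀ d, Hol U' (x d))
    (hxt : ∀ d, Dc (1, 0) (x d) p = 0) {ξ : Cn n → Cn n}
    (hξ : ∀ q ∈ U', ∀ k, cc (ξ q.2) k = ∑ d, x d q * cc (W d) k) (hne : ξ p.2 ≠ 0)
    (hpar : ∀ c d, dP (W c) (x d) p = -dP (ξ p.2) (hf φ (W c) (W d)) p) :
    dt (fun q => Real.log (lev φ (ξ q.2) q)) p =
        ∑ c, lev (fun q => Real.log (lev φ (ξ q.2) q)) (W c) p := by
  have hφ' : ContDiffOn ℝ ∞ φ U' := hφ.mono hU'U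
  set v := ξ p.2 with hv
  set M : Fin n → Fin n → ℝ × Cn n → ℂ := fun e d => hf φ (W e) (W d) with hM
  have hMs : ∀ e d, ContDiffOn ℝ ∞ (M e d) U' := fun e d => contDiffOn_hf hU' hφ' _ _
  have hMd : ∀ e d, DifferentiableAt ℝ (M e d) p := fun e d =>
    diffAt_of_contDiffOn' hU' (hMs e d) hp'
  have hMp : ∀ e d, M e d p = if e = d then 1 else 0 := hW
  have hxd : ∀ d, DifferentiableAt ℝ (x d) p := fun d => diffAt_of_contDiffOn' hU' (hx d) hp'
  set Y : Fin n → Fin n → ℝ × Cn n → ℂ := fun e d q => x e q * (starRingEnd ℂ) (x d q) with hY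
  have hYs : ∀ e d, ContDiffOn ℝ ∞ (Y e d) U' := fun e d =>
    (hx e).mul (contDiffOn_conj (hx d))
  have hYd : ∀ e d, DifferentiableAt ℝ (Y e d) p := fun e d =>
    diffAt_of_contDiffOn' hU' (hYs e d) hp'
  set Fc : ℝ × Cn n → ℂ := fun q => ∑ e, ∑ d, Y e d q * M e d q with hFc
  have hYMs : ∀ e d, ContDiffOn ℝ ∞ (fun q => Y e d q * M e d q) U' := fun e d =>
    (hYs e d).mul (hMs e d)
  have hYMd : ∀ e d, DifferentiableAt ℝ (fun q => Y e d q * M e d q) p := fun e d =>
    diffAt_of_contDiffOn' hU' (hYMs e d) hp'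
  have hFcs : ContDiffOn ℝ ∞ Fc U' :=
    ContDiffOn.sum fun e _ => ContDiffOn.sum fun d _ => hYMs e d
  have hFc_eq : ∀ q ∈ U', Fc q = hf φ (ξ q.2) (ξ q.2) q := by
    intro q hq
    rw [hf_expand (W := W) hU hφ (hU'U hq) (hξ q hq)]
  have hF_eq : EqOn (fun q => lev φ (ξ q.2) q) (fun q => (Fc q).re) U' := by
    intro q hq
    beta_reduce
    rw [hFc_eq q hq]
    rfl
  have hFim : EqOn (fun q => (Fc q).im) (fun _ => 0) U' := by
    intro q hq
    beta_reduce
    rw [hFc_eq q hq]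
    exact Complex.conj_eq_iff_im.1 (hf_conj hU hφ (hU'U hq) _ _)
  -- values at `p`
  set a : Fin n → ℂ := fun d => x d p with ha
  set A : Fin n → Fin n → ℂ := fun c d => dP (W c) (x d) p with hA
  set T : Fin n → Fin n → ℂ := fun c d => dP v (hf φ (W c) (W d)) p with hT
  have hva : ∀ k, cc v k = ∑ d, a d * cc (W d) k := hξ p hp'
  have hYp : ∀ e d, Y e d p = a e * (starRingEnd ℂ) (a d) := fun e d => rfl
  -- derivatives of `Y`
  have hxc : ∀ d, DifferentiableAt ℝ (fun q => (starRingEnd ℂ) (x d q)) p := fun d =>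
    diffAt_of_contDiffOn' hU' (contDiffOn_conj (hx d)) hp'
  have hdPY : ∀ c e d, dP (W c) (Y e d) p = (starRingEnd ℂ) (a d) * A c e := by
    intro c e d
    rw [hY]
    rw [dP_mul (hxd e) (hxc d), dP_conj (hxd d), (hol d).dPb hp']
    simp [ha, hA]
  have hdPbY : ∀ c e d, dPb (W c) (Y e d) p = a e * (starRingEnd ℂ) (A c d) := by
    intro c e d
    rw [hY]
    rw [dPb_mul (hxd e) (hxc d), dPb_conj (hxd d), (hol e).dPb hp']
    simp [ha, hA]
  have hLY : ∀ c e d, Lc (W c) (Y e d) p = A c e * (starRingEnd ℂ) (A c d) := by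
    intro c e d
    rw [hY]
    rw [Lc_mul hU' (hx e) (contDiffOn_conj (hx d)) hp', Lc_conj hU' (hx d) hp',
      (hol d).Lc hU' (hx d) hp', (hol e).Lc hU' (hx e) hp', (hol e).dPb hp', dPb_conj (hxd d)]
    simp [hA]
  -- third derivatives
  have hMconj : ∀ e d c, dPb (W c) (M e d) p = (starRingEnd ℂ) (dP (W c) (M d e) p) := by
    intro e d c
    rw [dPb, dP, hM]
    rw [Dc_hf_conj hU hφ hp (W d) (W e), Dc_hf_conj hU hφ hp (W d) (W e), map_div₀, map_sub,
      map_mul, Complex.conj_I, map_ofNat]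
    ring
  have hTsum : ∀ c d, ∑ e, a e * dP (W c) (M e d) p = T c d := by
    intro c d
    have h1 : dP (W c) (hf φ v (W d)) p = T c d := dP_hf_symm hU hφ hp _ _ _
    rw [← h1]
    have h2 : EqOn (hf φ v (W d)) (fun q => ∑ e, a e * M e d q) U := fun q hq =>
      hf_left hU hφ hq hva (W d)
    have h3 : ∀ b : ℝ × Cn n, Dc b (hf φ v (W d)) p = ∑ e, a e * Dc b (M e d) p := by
      intro b
      rw [Dc_congr hU h2 b hp, Dc_sum _ fun e _ => (hMd e d).const_mul _]
      exact Finset.sum_congr rfl fun e _ => Dc_const_mul _ (hMd e d) _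
    rw [dP, h3, h3, Finset.mul_sum, ← Finset.sum_sub_distrib, Finset.sum_div]
    refine Finset.sum_congr rfl fun e _ => ?_
    rw [dP]
    ring
  have hite : ∀ (g : Fin n → Fin n → ℂ), ∑ e, ∑ d, g e d * M e d p = ∑ d, g d d := by
    intro g
    refine Finset.sum_congr rfl fun e _ => ?_
    simp [hMp]
  -- the gradient
  have hgrad : ∀ c, dP (W c) Fc p = ∑ d, (starRingEnd ℂ) (a d) * (T c d + A c d) := by
    intro c
    rw [hFc, dP_sum _ fun e _ => DifferentiableAt.fun_sum fun d _ => hYMd e d]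
    have h1 : ∀ e, dP (W c) (fun q => ∑ d, Y e d q * M e d q) p =
        ∑ d, (Y e d p * dP (W c) (M e d) p + (starRingEnd ℂ) (a d) * A c e * M e d p) := by
      intro e
      rw [dP_sum _ fun d _ => hYMd e d]
      refine Finset.sum_congr rfl fun d _ => ?_
      rw [dP_mul (hYd e d) (hMd e d), hdPY]
      ring
    simp_rw [h1, Finset.sum_add_distrib]
    rw [hite fun e d => (starRingEnd ℂ) (a d) * A c e, Finset.sum_comm]
    rw [← Finset.sum_add_distrib]
    refine Finset.sum_congr rfl fun d _ => ?_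
    rw [mul_add, ← hTsum c d, Finset.mul_sum]
    congr 1
    refine Finset.sum_congr rfl fun e _ => ?_
    rw [hYp]
    ring
  -- the constant vector `v`
  have hvv : EqOn (hf φ v v) (fun q => ∑ e, ∑ d, Y e d p * M e d q) U := fun q hq =>
    hf_expand hU hφ hq hva
  have hcMs : ∀ e d, ContDiffOn ℝ ∞ (fun q => Y e d p * M e d q) U' := fun e d =>
    contDiffOn_const.mul (hMs e d)
  have hcMd : ∀ e d, DifferentiableAt ℝ (fun q => Y e d p * M e d q) p := fun e d =>
    diffAt_of_contDiffOn' hU' (hcMs e d) hp'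
  have hLvv : ∀ c, Lc (W c) (hf φ v v) p = ∑ e, ∑ d, Y e d p * Lc (W c) (M e d) p := by
    intro c
    have h1 : ∀ b : ℝ × Cn n, Dc b (Dc b (hf φ v v)) p = ∑ e, ∑ d, Y e d p *
        Dc b (Dc b (M e d)) p := by
      intro b
      have h2 : EqOn (Dc b (hf φ v v)) (Dc b (fun q => ∑ e, ∑ d, Y e d p * M e d q)) U' :=
        fun q hq => Dc_congr hU hvv b (hU'U hq)
      rw [Dc_congr hU' h2 b hp', Dc_Dc_sum _ hU' (fun e _ => ContDiffOn.sum fun d _ => hcMs e d) hp']
      refine Finset.sum_congr rfl fun e _ => ?_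
      rw [Dc_Dc_sum _ hU' (fun d _ => hcMs e d) hp']
      refine Finset.sum_congr rfl fun d _ => ?_
      have h3 : EqOn (Dc b (fun q => Y e d p * M e d q)) (fun q => Y e d p * Dc b (M e d) q) U' :=
        fun q hq => Dc_const_mul _ (diffAt_of_contDiffOn' hU' (hMs e d) hq) _
      rw [Dc_congr hU' h3 b hp', Dc_const_mul _ (diffAt_of_contDiffOn' hU'
        (contDiffOn_Dc hU' (hMs e d) b) hp')]
    rw [Lc, h1, h1, ← Finset.sum_add_distrib, Finset.sum_div]
    refine Finset.sum_congr rfl fun e _ => ?_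
    rw [← Finset.sum_add_distrib, Finset.sum_div]
    refine Finset.sum_congr rfl fun d _ => ?_
    rw [Lc]
    ring
  have hLvv' : ∀ c, (Lc (W c) (hf φ v v) p).re = lev (lev φ v) (W c) p := fun c =>
    (lev_re hU (contDiffOn_hf hU hφ v v) hp (W c)).symm
  -- the Laplacian
  have hLap : ∀ c, (Lc (W c) Fc p).re = lev (lev φ v) (W c) p +
      ∑ d, (Complex.normSq (A c d) + 2 * ((starRingEnd ℂ) (A c d) * T c d).re) := by
    intro c
    have h1 : Lc (W c) Fc p = Lc (W c) (hf φ v v) p + (∑ d, A c d * (starRingEnd ℂ) (A c d)) +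
        ((∑ e, A c e * (starRingEnd ℂ) (T c e)) + ∑ d, (starRingEnd ℂ) (A c d) * T c d) := by
      rw [hFc, Lc_sum _ hU' (fun e _ => ContDiffOn.sum fun d _ => hYMs e d) hp', hLvv,
        ← hite fun e d => A c e * (starRingEnd ℂ) (A c d)]
      have h2 : ∑ e, A c e * (starRingEnd ℂ) (T c e) =
          ∑ e, ∑ d, dP (W c) (Y e d) p * dPb (W c) (M e d) p := by
        refine Finset.sum_congr rfl fun e _ => ?_
        rw [← hTsum c e, map_sum, Finset.mul_sum]
        refine Finset.sum_congr rfl fun d _ => ?_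
        rw [hdPY, hMconj, map_mul]
        ring
      have h3 : ∑ d, (starRingEnd ℂ) (A c d) * T c d =
          ∑ e, ∑ d, dPb (W c) (Y e d) p * dP (W c) (M e d) p := by
        rw [Finset.sum_comm]
        refine Finset.sum_congr rfl fun d _ => ?_
        rw [← hTsum c d, Finset.mul_sum]
        refine Finset.sum_congr rfl fun e _ => ?_
        rw [hdPbY]
        ring
      rw [h2, h3, ← Finset.sum_add_distrib, ← Finset.sum_add_distrib, ← Finset.sum_add_distrib]
      refine Finset.sum_congr rfl fun e _ => ?_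
      rw [Lc_sum _ hU' (fun d _ => hYMs e d) hp', ← Finset.sum_add_distrib,
        ← Finset.sum_add_distrib, ← Finset.sum_add_distrib]
      refine Finset.sum_congr rfl fun d _ => ?_
      rw [Lc_mul hU' (hYs e d) (hMs e d) hp', hLY]
      ring
    have h4 : (∑ e, A c e * (starRingEnd ℂ) (T c e)) =
        (starRingEnd ℂ) (∑ d, (starRingEnd ℂ) (A c d) * T c d) := by
      rw [map_sum]
      refine Finset.sum_congr rfl fun e _ => ?_
      rw [map_mul, Complex.conj_conj]
    rw [h1, h4, Complex.add_re, Complex.add_re, Complex.add_re, Complex.conj_re, hLvv', Complex.re_sum,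
      Complex.re_sum, Finset.sum_add_distrib, ← Finset.mul_sum]
    have h5 : ∀ d, (A c d * (starRingEnd ℂ) (A c d)).re = Complex.normSq (A c d) := by
      intro d
      rw [Complex.mul_conj, Complex.ofReal_re]
    simp_rw [h5]
    ring
  -- the time derivative
  have hdtF : dt (fun q => lev φ (ξ q.2) q) p = dt (lev φ v) p := by
    have h1 : Dc (1, 0) Fc p = Dc (1, 0) (hf φ v v) p := by
      rw [Dc_congr hU hvv _ hp, hFc, Dc_sum _ fun e _ => DifferentiableAt.fun_sum fun d _ => hYMd e d,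
        Dc_sum _ fun e _ => DifferentiableAt.fun_sum fun d _ => hcMd e d]
      refine Finset.sum_congr rfl fun e _ => ?_
      rw [Dc_sum _ fun d _ => hYMd e d, Dc_sum _ fun d _ => hcMd e d]
      refine Finset.sum_congr rfl fun d _ => ?_
      rw [Dc_mul (hYd e d) (hMd e d), Dc_const_mul _ (hMd e d)]
      have h2 : Dc (1, 0) (Y e d) p = 0 := by
        rw [hY]
        rw [Dc_mul (hxd e) (hxc d), Dc_conj (hxd d), hxt, hxt]
        simp
      rw [h2]
      ring
    rw [dt, D_congr hU' hF_eq _ hp', Dc_re (diffAt_of_contDiffOn' hU' hFcs hp'), h1,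
      ← Dc_re (diffAt_of_contDiffOn' hU (contDiffOn_hf hU hφ v v) hp)]
    rfl
  rw [dt_lev hU hφ hpos flow_re flow_im hp v, lev_logdet hU hφ hpos hp hW (uframe_det hU hφ hp hW),
    ← sum_normSq_T hU hφ hp] at hdtF
  -- assembly
  have hF0 : 0 < lev φ v p := lev_pos hU hφ hp (hpos p hp) hne
  have hsF : ContDiffOn ℝ ∞ (fun q => lev φ (ξ q.2) q) U' := by
    have : ContDiffOn ℝ ∞ (fun q => (Fc q).re) U' := Complex.reCLM.contDiff.comp_contDiffOn hFcs
    exact this.congr hF_eq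
  have hF2 : ContDiffAt ℝ 2 (fun q => lev φ (ξ q.2) q) p :=
    (hsF.contDiffAt (hU'.mem_nhds hp')).of_le (WithTop.coe_le_coe.2 le_top)
  have h1 : dt (fun q => Real.log (lev φ (ξ q.2) q)) p =
      dt (fun q => lev φ (ξ q.2) q) p / lev φ v p :=
    LC.D_log _ (hF2.differentiableAt (by norm_num)) hF0.ne'
  have hlevF : ∀ c, lev (fun q => lev φ (ξ q.2) q) (W c) p = (Lc (W c) Fc p).re := by
    intro c
    rw [← lev_re hU' hFcs hp']
    have e : ∀ b : ℝ × Cn n, D b (D b (fun q => lev φ (ξ q.2) q)) p =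
        D b (D b (fun q => (Fc q).re)) p := fun b =>
      D_congr hU' (D_congr hU' hF_eq b) b hp'
    rw [lev, lev, e, e]
  have hgr : ∀ c, ((D (0, W c) (fun q => lev φ (ξ q.2) q) p) ^ 2 +
      (D (0, J (W c)) (fun q => lev φ (ξ q.2) q) p) ^ 2) / 4 = Complex.normSq (dP (W c) Fc p) := by
    intro c
    have h2 : ∀ b : ℝ × Cn n, Dc b Fc p = ⟨D b (fun q => lev φ (ξ q.2) q) p, 0⟩ := by
      intro b
      apply Complex.ext
      · rw [D_congr hU' hF_eq b hp', Dc_re (diffAt_of_contDiffOn' hU' hFcs hp')]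
      · rw [← Dc_im (diffAt_of_contDiffOn' hU' hFcs hp'), D_congr hU' hFim b hp', D_const]
    rw [dP, h2, h2, Complex.normSq_div]
    simp [Complex.normSq_apply]
    ring
  have h2 : ∀ c, lev (fun q => Real.log (lev φ (ξ q.2) q)) (W c) p =
      lev (fun q => lev φ (ξ q.2) q) (W c) p / lev φ v p -
        Complex.normSq (dP (W c) Fc p) / (lev φ v p) ^ 2 := by
    intro c
    have e : ∀ (f : ℝ × Cn n → ℝ), lev f (W c) p =
        (D (0, W c) (D (0, W c) f) p + D (0, J (W c)) (D (0, J (W c)) f) p) / 4 := fun f => rfl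
    rw [← hgr, e, e, LC.D_D_log _ _ hF2 hF0.ne', LC.D_D_log _ _ hF2 hF0.ne']
    change _ = _ - _
    rw [← hv]
    field_simp
    ring
  have hAT : ∀ c d, A c d = -T c d := fun c d => hpar c d
  have hX0 : ∀ c, Complex.normSq (dP (W c) Fc p) = 0 := by
    intro c
    rw [hgrad]
    have : ∑ d, (starRingEnd ℂ) (a d) * (T c d + A c d) = 0 := by
      refine Finset.sum_eq_zero fun d _ => ?_
      rw [hAT, add_neg_cancel, mul_zero]
    rw [this, map_zero]
  have hR : ∀ c d, Complex.normSq (A c d) + 2 * ((starRingEnd ℂ) (A c d) * T c d).re =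
      -Complex.normSq (T c d) := by
    intro c d
    rw [hAT, Complex.normSq_neg, map_neg, neg_mul, Complex.neg_re, mul_comm ((starRingEnd ℂ) (T c d)),
      Complex.mul_conj, Complex.ofReal_re]
    ring
  rw [h1, hdtF]
  simp_rw [h2, hlevF, hLap, hX0, hR]
  rw [Finset.sum_sub_distrib, ← Finset.sum_div, Finset.sum_add_distrib]
  simp only [zero_div, Finset.sum_const_zero, sub_zero, Finset.sum_neg_distrib]
  ring

/-- The point of `Cn n` with the complex coordinates `x`. -/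
def ofcc {n : ℕ} (x : Fin n → ℂ) : Cn n := (fun k => (x k).re, fun k => (x k).im)

theorem cc_ofcc (x : Fin n → ℂ) (k : Fin n) : cc (ofcc x) k = x k := by
  apply Complex.ext <;> rfl

theorem cc_inj {u w : Cn n} (h : ∀ k, cc u k = cc w k) : u = w := by
  refine Prod.ext (funext fun k => ?_) (funext fun k => ?_)
  · exact congrArg Complex.re (h k)
  · exact congrArg Complex.im (h k)

/-- The complex linear map with the matrix `B`. -/
noncomputable def cLin (B : Matrix (Fin n) (Fin n) ℂ) : Cn n →L[ℝ] Cn n :=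
  (ContinuousLinearMap.pi fun k => Complex.reCLM.comp (∑ j, B j k • ccL n j)).prod
    (ContinuousLinearMap.pi fun k => Complex.imCLM.comp (∑ j, B j k • ccL n j))

theorem cc_cLin (B : Matrix (Fin n) (Fin n) ℂ) (u : Cn n) (k : Fin n) :
    cc (cLin B u) k = ∑ j, cc u j * B j k := by
  have h : ∑ j, cc u j * B j k = (∑ j, B j k • ccL n j) u := by
    rw [ContinuousLinearMap.sum_apply]
    refine Finset.sum_congr rfl fun j _ => ?_
    rw [ContinuousLinearMap.smul_apply, ccL_apply, smul_eq_mul, mul_comm]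
  rw [h]
  apply Complex.ext <;> rfl

theorem cLin_J (B : Matrix (Fin n) (Fin n) ℂ) (u : Cn n) : cLin B (J u) = J (cLin B u) := by
  apply cc_inj
  intro k
  rw [cc_J, cc_cLin, cc_cLin, Finset.mul_sum]
  refine Finset.sum_congr rfl fun j _ => ?_
  rw [cc_J]
  ring

/-- a holomorphic field with given value and parallel at `p` -/
theorem evol_holo_eq (hU : IsOpen U) (hφ : ContDiffOn ℝ ∞ φ U)
    (hpos : ∀ p ∈ U, (cHess φ p).PosDef)
    (flow_re : ∀ p ∈ U, ∀ k l, dt (fun q => (cHess φ q k l).re) p =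
      (cHess (fun q => Real.log (cHess φ q).det.re) p k l).re)
    (flow_im : ∀ p ∈ U, ∀ k l, dt (fun q => (cHess φ q k l).im) p =
      (cHess (fun q => Real.log (cHess φ q).det.re) p k l).im) (hp : p ∈ U)
    (hW : IsUFrame φ p W) {v : Cn n} (hv : v ≠ 0) :
    ∃ ξ : Cn n → Cn n, Pool.Agent.KRFS.HolOn ξ univ ∧ ξ p.2 = v ∧
      dt (fun q => Real.log (lev φ (ξ q.2) q)) p =
        ∑ c, lev (fun q => Real.log (lev φ (ξ q.2) q)) (W c) p := by
  set N : Matrix (Fin n) (Fin n) ℂ := Matrix.of fun c k => cc (W c) k with hN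
  have hdet : IsUnit N.det := isUnit_iff_ne_zero.2 (uframe_det hU hφ hp hW)
  set T : Matrix (Fin n) (Fin n) ℂ := Matrix.of fun c d => dP v (hf φ (W c) (W d)) p with hT
  set B : Matrix (Fin n) (Fin n) ℂ := -(N⁻¹ * T * N) with hB
  set L : Cn n →L[ℝ] Cn n := cLin B with hL
  set ξ : Cn n → Cn n := fun z => v + L (z - p.2) with hξ
  have hξd : ∀ z, HasFDerivAt ξ L z := by
    intro z
    have h1 : HasFDerivAt (fun z : Cn n => L (z - p.2)) L z := by
      have h2 := L.hasFDerivAt.comp z ((hasFDerivAt_id z).sub_const p.2)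
      exact h2
    exact h1.const_add v
  have hξs : ContDiff ℝ ∞ ξ := contDiff_const.add (L.contDiff.comp (contDiff_id.sub contDiff_const))
  have hξf : ∀ z, fderiv ℝ ξ z = L := fun z => (hξd z).fderiv
  have hξp : ξ p.2 = v := by simp [hξ]
  have hhol : Pool.Agent.KRFS.HolOn ξ univ := by
    refine ⟨hξs.contDiffOn, fun z _ u => ?_⟩
    rw [hξf, hL, cLin_J]
  refine ⟨ξ, hhol, hξp, ?_⟩
  have hccs : ∀ k, ContDiffOn ℝ ∞ (fun q : ℝ × Cn n => cc (ξ q.2) k) U := by
    intro k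
    have e : (fun q : ℝ × Cn n => cc (ξ q.2) k) = fun q => ccL n k ((ξ ∘ Prod.snd) q) := by
      funext q
      rw [ccL_apply]
      rfl
    rw [e]
    exact ((ccL n k).contDiff.comp (hξs.comp contDiff_snd)).contDiffOn
  have hDcc : ∀ k, ∀ q, ∀ b : ℝ × Cn n, Dc b (fun q : ℝ × Cn n => cc (ξ q.2) k) q =
      cc (L b.2) k := by
    intro k q b
    have e : (fun q : ℝ × Cn n => cc (ξ q.2) k) = (ccL n k) ∘ (ξ ∘ Prod.snd) := by
      funext q
      simp [ccL_apply]
    have h1 : HasFDerivAt (fun q : ℝ × Cn n => cc (ξ q.2) k)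
        ((ccL n k).comp (L.comp (ContinuousLinearMap.snd ℝ ℝ (Cn n)))) q := by
      rw [e]
      exact (ccL n k).hasFDerivAt.comp q ((hξd q.2).comp q hasFDerivAt_snd)
    rw [Dc, h1.fderiv]
    simp [ccL_apply]
  have hccd : ∀ k, ∀ q ∈ U, DifferentiableAt ℝ (fun q : ℝ × Cn n => cc (ξ q.2) k) q :=
    fun k q hq => diffAt_of_contDiffOn' hU (hccs k) hq
  have hxs : ∀ d, ContDiffOn ℝ ∞ (coeff W ξ d) U := fun d =>
    ContDiffOn.sum fun k _ => (hccs k).mul contDiffOn_const
  have hDx : ∀ d, ∀ q ∈ U, ∀ b : ℝ × Cn n, Dc b (coeff W ξ d) q =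
      ∑ k, cc (L b.2) k * N⁻¹ k d := by
    intro d q hq b
    have e : coeff W ξ d = fun q => ∑ k, N⁻¹ k d * cc (ξ q.2) k := by
      funext q
      exact Finset.sum_congr rfl fun k _ => mul_comm _ _
    rw [e, Dc_sum _ fun k _ => (hccd k q hq).const_mul _]
    refine Finset.sum_congr rfl fun k _ => ?_
    rw [Dc_const_mul _ (hccd k q hq), hDcc k q, mul_comm]
  refine evol_coeff_eq hU hφ hpos flow_re flow_im hp hW (x := coeff W ξ) hU subset_rfl
    hp hxs ?_ ?_ ?_ (by rwa [hξp]) ?_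
  · intro d q hq u
    rw [hDx d q hq, hDx d q hq, Finset.mul_sum]
    refine Finset.sum_congr rfl fun k _ => ?_
    change cc (L (J u)) k * _ = _
    rw [hL, cLin_J, cc_J]
    ring
  · intro d
    rw [hDx d p hp]
    refine Finset.sum_eq_zero fun k _ => ?_
    have : cc (L ((1, 0) : ℝ × Cn n).2) k = 0 := by
      change cc (L 0) k = 0
      rw [map_zero]
      rfl
    rw [this, zero_mul]
  · intro q _ k
    have h1 : (Matrix.vecMul (Matrix.vecMul (cc (ξ q.2)) N⁻¹) N) k = cc (ξ q.2) k := by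
      rw [Matrix.vecMul_vecMul, Matrix.nonsing_inv_mul _ hdet, Matrix.vecMul_one]
    rw [← h1]
    rfl
  · intro c d
    rw [hξp]
    have h1 : ∀ u : Cn n, ∑ k, cc (L u) k * N⁻¹ k d =
        (Matrix.vecMul (cc u) (B * N⁻¹)) d := by
      intro u
      rw [← Matrix.vecMul_vecMul]
      change _ = ∑ k, (Matrix.vecMul (cc u) B) k * N⁻¹ k d
      refine Finset.sum_congr rfl fun k _ => ?_
      rw [hL, cc_cLin]
      rfl
    have h2 : B * N⁻¹ = -(N⁻¹ * T) := by
      rw [hB, Matrix.neg_mul, Matrix.mul_assoc, Matrix.mul_nonsing_inv _ hdet, Matrix.mul_one]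
    have h3 : (Matrix.vecMul (cc (W c)) (B * N⁻¹)) d = -T c d := by
      rw [h2, Matrix.vecMul_neg, Pi.neg_apply]
      congr 1
      have h4 : (N * (N⁻¹ * T)) c d = T c d := by
        rw [← Matrix.mul_assoc, Matrix.mul_nonsing_inv _ hdet, Matrix.one_mul]
      rw [← h4]
      rfl
    rw [dP, hDx d p hp, hDx d p hp]
    change (∑ k, cc (L (W c)) k * N⁻¹ k d - Complex.I * ∑ k, cc (L (J (W c))) k * N⁻¹ k d) / 2 = _
    have h5 : ∑ k, cc (L (J (W c))) k * N⁻¹ k d = Complex.I * ∑ k, cc (L (W c)) k * N⁻¹ k d := by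
      rw [Finset.mul_sum]
      refine Finset.sum_congr rfl fun k _ => ?_
      rw [hL, cLin_J, cc_J]
      ring
    rw [h5, ← mul_assoc, Complex.I_mul_I, h1, h3]
    rw [hT]
    simp only [Matrix.of_apply]
    ring

end main

section blueprint

variable {n : ℕ} {ψ : ℝ × Cn n → ℝ} {U : Set (ℝ × Cn n)}

/-- For every vector `v` there is a holomorphic field `ξ` with the value `v` for which
`(∂_t - Δ) log |ξ|^2 = 0` at the point. -/
theorem evol_field_eq_frame (hU : IsOpen U) (hψ : ContDiffOn ℝ ∞ ψ U)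
    (hpos : ∀ p ∈ U, (cHess ψ p).PosDef)
    (flow : ∀ p ∈ U, dt ψ p = Real.log (cHess ψ p).det.re) {p : ℝ × Cn n} (hp : p ∈ U)
    {W : Fin n → Cn n} (hW : IsUFrame ψ p W) {v : Cn n} (hv : v ≠ 0) :
    ∃ ξ : Cn n → Cn n, Pool.Agent.KRFS.HolOn ξ univ ∧ ξ p.2 = v ∧
      dt (fun q => Real.log (lev ψ (ξ q.2) q)) p =
        ∑ c, lev (fun q => Real.log (lev ψ (ξ q.2) q)) (W c) p := by
  obtain ⟨h1, h2⟩ := flow_of_potential_on hU hψ flow
  exact evol_holo_eq hU hψ hpos h1 h2 hp hW hv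

theorem evol_field_eq (hU : IsOpen U) (hψ : ContDiffOn ℝ ∞ ψ U)
    (hpos : ∀ p ∈ U, (cHess ψ p).PosDef)
    (flow : ∀ p ∈ U, dt ψ p = Real.log (cHess ψ p).det.re) {p : ℝ × Cn n} (hp : p ∈ U) :
    ∃ W : Fin n → Cn n, IsUFrame ψ p W ∧ ∀ v : Cn n, v ≠ 0 →
      ∃ ξ : Cn n → Cn n, Pool.Agent.KRFS.HolOn ξ univ ∧ ξ p.2 = v ∧
        ∑ c, lev (fun q => Real.log (lev ψ (ξ q.2) q)) (W c) p ≤
          dt (fun q => Real.log (lev ψ (ξ q.2) q)) p := by
  obtain ⟨W, hW, -⟩ := exists_uframe hU hψ hp (hpos p hp)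
  refine ⟨W, hW, fun v hv => ?_⟩
  obtain ⟨ξ, h1, h2, h3⟩ := evol_field_eq_frame hU hψ hpos flow hp hW hv
  exact ⟨ξ, h1, h2, h3.ge⟩

end blueprint

end Pool.Agent.ToricKRF.G
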