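import Pool.Agent.Work.MP_a2bf38_gt.I.FBound
import Pool.Agent.Work.MP_a2bf38_gt.H.Cut

/-!
# The exponential bound for a Kähler-Ricci flow with semi-positive limit class (helper33)
-/

open scoped ContDiff ENNReal ComplexOrder
open Set Filter Topology Pool.Agent.ToricKRF Pool.Agent.ToricKRF.G Pool.Agent.KRFS

namespace Pool.Agent.KRFF

namespace Ex

/-- the constant field `∂/∂z_k` -/
def Ek {n : ℕ} (k : Fin n) : Cn n := (Pi.single k 1, 0)

theorem Ek_ne {n : ℕ} (k : Fin n) : Ek k ≠ 0 := by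
  intro h
  have h1 := congrFun (congrArg Prod.fst h) k
  simp [Ek] at h1

theorem holOn_const {n m : ℕ} (v : Cn m) (S : Set (Cn n)) : HolOn (fun _ : Cn n => v) S := by
  refine ⟨contDiffOn_const, fun z _ u => ?_⟩
  have h : J (0 : Cn m) = 0 := by simp [J, Prod.ext_iff]
  simp [h]

theorem gen_Ek {n : ℕ} (u : Cn n) : ∃ a b : Fin n → ℝ, u = ∑ k, (a k • Ek k + b k • J (Ek k)) := by
  refine ⟨u.1, u.2, ?_⟩
  refine Prod.ext ?_ ?_
  · rw [Prod.fst_sum]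
    funext i
    rw [Finset.sum_apply]
    simp [Ek, J, Pi.single_apply]
  · rw [Prod.snd_sum]
    funext i
    rw [Finset.sum_apply]
    simp [Ek, J, Pi.single_apply]

theorem exists_gen (n : ℕ) : ∃ C > 0, ∀ Q : Cn n → ℝ, IsQ Q → ∀ u,
    Q u ≤ C * ‖u‖ ^ 2 * ∑ k, Q (Ek k) := by
  obtain ⟨C, hC, h⟩ := gen_local (v := fun (k : Fin n) (_ : Cn n) => Ek k) (z₀ := 0)
    (fun k => continuousAt_const) (fun u => gen_Ek u)
  exact ⟨C, hC, h.self_of_nhds⟩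

theorem norm_sq_le (n : ℕ) (u : Cn n) : ‖u‖ ^ 2 ≤ nsq u := by
  have h0 : ∀ i, u.1 i ^ 2 ≤ nsq u := by
    intro i
    unfold nsq dotProduct
    have h1 : u.1 i * u.1 i ≤ ∑ i, u.1 i * u.1 i :=
      Finset.single_le_sum (f := fun i => u.1 i * u.1 i) (fun i _ => mul_self_nonneg _)
        (Finset.mem_univ i)
    have h2 : 0 ≤ ∑ i, u.2 i * u.2 i := Finset.sum_nonneg fun i _ => mul_self_nonneg _
    nlinarith
  have h0' : ∀ i, u.2 i ^ 2 ≤ nsq u := by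
    intro i
    unfold nsq dotProduct
    have h1 : u.2 i * u.2 i ≤ ∑ i, u.2 i * u.2 i :=
      Finset.single_le_sum (f := fun i => u.2 i * u.2 i) (fun i _ => mul_self_nonneg _)
        (Finset.mem_univ i)
    have h2 : 0 ≤ ∑ i, u.1 i * u.1 i := Finset.sum_nonneg fun i _ => mul_self_nonneg _
    nlinarith
  have hn : 0 ≤ nsq u := by
    unfold nsq dotProduct
    exact add_nonneg (Finset.sum_nonneg fun i _ => mul_self_nonneg _)
      (Finset.sum_nonneg fun i _ => mul_self_nonneg _)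
  have h1 : ‖u‖ ≤ √(nsq u) := by
    rw [norm_prod_le_iff, pi_norm_le_iff_of_nonneg (Real.sqrt_nonneg _),
      pi_norm_le_iff_of_nonneg (Real.sqrt_nonneg _)]
    exact ⟨fun i => Real.abs_le_sqrt (h0 i), fun i => Real.abs_le_sqrt (h0' i)⟩
  calc ‖u‖ ^ 2 ≤ √(nsq u) ^ 2 := pow_le_pow_left₀ (norm_nonneg _) h1 2
    _ = nsq u := Real.sq_sqrt hn

end Ex

open Ex

variable {n : ℕ} {M : Type} [TopologicalSpace M] {κ : Type} {T : ℝ} (F : Flow n M κ T)

/-- Coordinate balls whose halves cover `M`. -/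
structure Flow.Cov (ι : Type) where
  ch : ι → κ
  z0 : ι → Cn n
  r : ι → ℝ
  r_pos : ∀ i, 0 < r i
  sub : ∀ i, {z | nsq ((r i)⁻¹ • (z - z0 i)) ≤ 1} ⊆ (F.e (ch i)).target
  core : ∀ p, ∃ i, p ∈ (F.e (ch i)).source ∧ nsq ((r i)⁻¹ • (F.e (ch i) p - z0 i)) < 1 / 2

theorem Flow.exists_cov [CompactSpace M] : ∃ (s : Set M) (_ : Finite s), Nonempty (F.Cov s) := by
  have key : ∀ p : M, ∃ (c : κ) (r : ℝ), 0 < r ∧ p ∈ (F.e c).source ∧
      {z | nsq (r⁻¹ • (z - F.e c p)) ≤ 1} ⊆ (F.e c).target := by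
    intro p
    obtain ⟨c, hc⟩ := F.atlas.cover p
    obtain ⟨r, hr, hsub⟩ := Metric.nhds_basis_closedBall.mem_iff.1
      ((F.e c).open_target.mem_nhds ((F.e c).map_source hc))
    refine ⟨c, r, hr, hc, fun z hz => hsub ?_⟩
    have h1 := norm_le_of_nsq (show nsq (r⁻¹ • (z - F.e c p)) ≤ 1 from hz)
    rw [norm_smul, norm_inv, Real.norm_eq_abs, abs_of_pos hr] at h1
    rw [mem_closedBall_iff_norm]
    have h2 : r * (r⁻¹ * ‖z - F.e c p‖) = ‖z - F.e c p‖ := by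
      field_simp
    rw [← h2]
    calc r * (r⁻¹ * ‖z - F.e c p‖) ≤ r * 1 := mul_le_mul_of_nonneg_left h1 hr.le
      _ = r := mul_one r
  choose c r hr hs hsub using key
  set U : M → Set M := fun p => {q | q ∈ (F.e (c p)).source ∧
    nsq ((r p)⁻¹ • (F.e (c p) q - F.e (c p) p)) < 1 / 2} with hU
  have hUn : ∀ p, U p ∈ 𝓝 p := by
    intro p
    have h1 : ContinuousAt (fun q => nsq ((r p)⁻¹ • (F.e (c p) q - F.e (c p) p))) p := by
      refine ContinuousAt.comp (g := nsq) contDiff_nsq.continuous.continuousAt ?_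
      exact ContinuousAt.const_smul (((F.e (c p)).continuousAt (hs p)).sub continuousAt_const)
        ((r p)⁻¹)
    have h2 : nsq ((r p)⁻¹ • (F.e (c p) p - F.e (c p) p)) < 1 / 2 := by
      rw [sub_self, smul_zero]
      simp [nsq]
    filter_upwards [(F.e (c p)).open_source.mem_nhds (hs p), h1.eventually_lt continuousAt_const h2]
      with q h3 h4
    exact ⟨h3, h4⟩
  obtain ⟨t, -, ht⟩ := isCompact_univ.elim_nhds_subcover U (fun p _ => hUn p)
  have hcore : ∀ p : M, ∃ i : (t : Set M), p ∈ (F.e (c i)).source ∧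
      nsq ((r i)⁻¹ • (F.e (c i) p - F.e (c i) i)) < 1 / 2 := by
    intro p
    obtain ⟨q, hq, hp⟩ := mem_iUnion₂.1 (ht (mem_univ p))
    exact ⟨⟨q, hq⟩, hp.1, hp.2⟩
  exact ⟨(t : Set M), t.finite_toSet,
    ⟨⟨fun p => c p, fun p => F.e (c p) p, fun p => r p, fun p => hr p, fun p => hsub p, hcore⟩⟩⟩

variable {F} {ι : Type} (b : F.Cov ι)

/-- the scaled coordinate -/
noncomputable def Flow.Cov.h (i : ι) (z : Cn n) : Cn n := (b.r i)⁻¹ • (z - b.z0 i)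

theorem Flow.Cov.h_contDiff (i : ι) : ContDiff ℝ ∞ (b.h i) := by
  unfold Flow.Cov.h
  fun_prop

theorem Flow.Cov.isCompact_h (i : ι) {ρ : ℝ} (hρ : ρ ≤ 1) : IsCompact {z | nsq (b.h i z) ≤ ρ} := by
  refine Metric.isCompact_of_isClosed_isBounded ?_ ?_
  · exact isClosed_le (contDiff_nsq.continuous.comp (b.h_contDiff i).continuous) continuous_const
  · refine (Metric.isBounded_closedBall (x := b.z0 i) (r := b.r i)).subset fun z hz => ?_
    have h1 := norm_le_of_nsq ((show nsq (b.h i z) ≤ ρ from hz).trans hρ)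
    have hr := b.r_pos i
    unfold Flow.Cov.h at h1
    rw [norm_smul, norm_inv, Real.norm_eq_abs, abs_of_pos hr] at h1
    rw [mem_closedBall_iff_norm]
    have h2 : b.r i * ((b.r i)⁻¹ * ‖z - b.z0 i‖) = ‖z - b.z0 i‖ := by
      field_simp
    rw [← h2]
    calc b.r i * ((b.r i)⁻¹ * ‖z - b.z0 i‖) ≤ b.r i * 1 := mul_le_mul_of_nonneg_left h1 hr.le
      _ = b.r i := mul_one _

theorem Flow.Cov.isCompact_ball (i : ι) {ρ : ℝ} (hρ : ρ ≤ 1) :
    IsCompact {p | p ∈ (F.e (b.ch i)).source ∧ nsq (b.h i (F.e (b.ch i) p)) ≤ ρ} := by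
  have h1 : {p | p ∈ (F.e (b.ch i)).source ∧ nsq (b.h i (F.e (b.ch i) p)) ≤ ρ} =
      (F.e (b.ch i)).symm '' {z | nsq (b.h i z) ≤ ρ} := by
    ext p
    constructor
    · rintro ⟨hp, hp'⟩
      exact ⟨F.e (b.ch i) p, hp', (F.e (b.ch i)).left_inv hp⟩
    · rintro ⟨z, hz, rfl⟩
      have hzt : z ∈ (F.e (b.ch i)).target := b.sub i ((show nsq (b.h i z) ≤ ρ from hz).trans hρ)
      refine ⟨(F.e (b.ch i)).map_target hzt, ?_⟩
      rw [(F.e (b.ch i)).right_inv hzt]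
      exact hz
  rw [h1]
  refine (b.isCompact_h i hρ).image_of_continuousOn ?_
  exact (F.e (b.ch i)).symm.continuousOn.mono fun z hz =>
    b.sub i ((show nsq (b.h i z) ≤ ρ from hz).trans hρ)

theorem Flow.isQ (F : Flow n M κ T) {c : κ} {t : ℝ} (ht : t ∈ Ico 0 T) {z : Cn n}
    (hz : z ∈ (F.e c).target) : IsQ fun u => lev (F.ψ c) u (t, z) := by
  obtain ⟨U, hU, hsub, hs⟩ := F.krf.smooth c
  refine isQ_lev ((hs.contDiffAt (hU.mem_nhds (hsub ⟨ht, hz⟩))).of_le two_le_infty) fun u => ?_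
  rcases eq_or_ne u 0 with hu | hu
  · rw [hu, lev_zero]
  · exact (Bd.lev_psi_pos F ht hz hu).le

/-- the square of the length of the `k`-th field of the ball `i` -/
noncomputable def Flow.Cov.Fn (i : ι) (k : Fin n) (q : ℝ × M) : ℝ :=
  lev (F.ψ (b.ch i)) (Ek k) (q.1, F.e (b.ch i) q.2)

theorem Flow.Cov.Fn_nonneg {i : ι} (k : Fin n) {t : ℝ} (ht : t ∈ Ico 0 T) {p : M}
    (hp : p ∈ (F.e (b.ch i)).source) : 0 ≤ b.Fn i k (t, p) :=
  (F.isQ ht ((F.e (b.ch i)).map_source hp)).nonneg _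

theorem Flow.Cov.Fn_continuousOn (i : ι) (k : Fin n) :
    ContinuousOn (b.Fn i k) (Ico 0 T ×ˢ (F.e (b.ch i)).source) := by
  rintro ⟨t, p⟩ ⟨ht, hc⟩
  obtain ⟨U, hU, hsub, hψ⟩ := F.krf.smooth (b.ch i)
  have hz := (F.e (b.ch i)).map_source hc
  have h0 : ContinuousAt (fun q => lev (F.ψ (b.ch i)) (Ek k) q) (t, F.e (b.ch i) p) :=
    ((contDiffOn_lev_field (ξ := fun _ => Ek k) (S := (F.e (b.ch i)).target) hU hψ
      contDiffOn_const).continuousOn).continuousAt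
      ((hU.inter (isOpen_univ.prod (F.e (b.ch i)).open_target)).mem_nhds
        ⟨hsub ⟨ht, hz⟩, mem_univ _, hz⟩)
  have h2 : ContinuousAt (fun q : ℝ × M => (q.1, F.e (b.ch i) q.2)) (t, p) :=
    continuousAt_fst.prodMk (((F.e (b.ch i)).continuousAt hc).comp continuousAt_snd)
  have h1 : ContinuousAt (fun q : ℝ × M => lev (F.ψ (b.ch i)) (Ek k) (q.1, F.e (b.ch i) q.2))
      (t, p) :=
    ContinuousAt.comp (f := fun q : ℝ × M => (q.1, F.e (b.ch i) q.2))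
      (g := fun q => lev (F.ψ (b.ch i)) (Ek k) q) h0 h2
  exact h1.continuousWithinAt

/-- local domination, for all vectors -/
theorem Flow.Cov.dom_vec (c : κ) {i : ι} {p₀ : M} (hc : p₀ ∈ (F.e c).source)
    (hi : p₀ ∈ (F.e (b.ch i)).source) :
    ∃ C : ℝ, 0 ≤ C ∧ ∀ᶠ p in 𝓝 p₀, ∀ t ∈ Ico 0 T, ∀ u : Cn n,
      lev (F.ψ c) u (t, F.e c p) ≤ C * nsq u * ∑ k', b.Fn i k' (t, p) := by
  obtain ⟨C₁, hC₁, hgen⟩ := exists_gen n
  set L : M → Cn n →L[ℝ] Cn n := fun p => fderiv ℝ (tr F.e c (b.ch i)) (F.e c p) with hL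
  have hd := mem_dom hc hi
  have hLcont : ContinuousAt L p₀ := by
    have h1 : ContDiffOn ℝ ∞ (fderiv ℝ (tr F.e c (b.ch i))) (dom F.e c (b.ch i)) :=
      ((contDiffOn_infty_iff_fderiv_of_isOpen (isOpen_dom c (b.ch i))).1
        (F.atlas.holo c (b.ch i)).1).2
    have h2 : ContinuousAt (fderiv ℝ (tr F.e c (b.ch i))) (F.e c p₀) :=
      h1.continuousOn.continuousAt ((isOpen_dom c (b.ch i)).mem_nhds hd)
    exact ContinuousAt.comp (g := fderiv ℝ (tr F.e c (b.ch i))) h2 ((F.e c).continuousAt hc)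
  set C₂ : ℝ := ‖L p₀‖ + 1 with hC₂
  have hub : ∀ᶠ p in 𝓝 p₀, ‖L p‖ ≤ C₂ := by
    have h1 := hLcont.norm.eventually_lt (continuousAt_const (y := ‖L p₀‖ + 1)) (by linarith)
    filter_upwards [h1] with p hp
    exact hp.le
  have hC₂0 : 0 ≤ C₂ := by positivity
  refine ⟨C₁ * C₂ ^ 2, by positivity, ?_⟩
  filter_upwards [hub, (F.e c).open_source.mem_nhds hc,
    (F.e (b.ch i)).open_source.mem_nhds hi] with p h1 h3 h4 t ht u
  have hzp' := (F.e (b.ch i)).map_source h4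
  have h5 := hgen _ (F.isQ ht hzp') (L p u)
  have h7 : lev (F.ψ c) u (t, F.e c p) =
      lev (F.ψ (b.ch i)) (L p u) (t, F.e (b.ch i) p) := by
    rw [F.krf.compat c (b.ch i) t ht _ (mem_dom h3 h4), tr_apply h3]
  rw [h7]
  refine h5.trans ?_
  have h8 : 0 ≤ ∑ k', b.Fn i k' (t, p) := Finset.sum_nonneg fun k' _ => b.Fn_nonneg k' ht h4
  refine mul_le_mul_of_nonneg_right ?_ h8
  have h9 : ‖L p u‖ ≤ C₂ * ‖u‖ := ((L p).le_opNorm u).trans
    (mul_le_mul_of_nonneg_right h1 (norm_nonneg _))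
  have h10 : ‖L p u‖ ^ 2 ≤ C₂ ^ 2 * nsq u := by
    calc ‖L p u‖ ^ 2 ≤ (C₂ * ‖u‖) ^ 2 := pow_le_pow_left₀ (norm_nonneg _) h9 2
      _ = C₂ ^ 2 * ‖u‖ ^ 2 := by ring
      _ ≤ C₂ ^ 2 * nsq u := mul_le_mul_of_nonneg_left (norm_sq_le n u) (sq_nonneg _)
  calc C₁ * ‖L p u‖ ^ 2 ≤ C₁ * (C₂ ^ 2 * nsq u) := mul_le_mul_of_nonneg_left h10 hC₁.le
    _ = C₁ * C₂ ^ 2 * nsq u := by ring

theorem nsq_Ek (k : Fin n) : nsq (Ek k) = 1 := by
  simp [nsq, Ek]

theorem Flow.Cov.domination [T2Space M] [Finite ι] : ∃ C : ℝ, 1 ≤ C ∧ ∀ j i : ι, ∀ p,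
    p ∈ (F.e (b.ch j)).source → nsq (b.h j (F.e (b.ch j) p)) ≤ 3 / 4 →
    p ∈ (F.e (b.ch i)).source → nsq (b.h i (F.e (b.ch i) p)) ≤ 1 / 2 →
    ∀ t ∈ Ico 0 T, ∀ k, b.Fn j k (t, p) ≤ C * ∑ k', b.Fn i k' (t, p) := by
  have key : ∀ x : ι × ι, ∃ C : ℝ, 0 ≤ C ∧ ∀ p,
      p ∈ (F.e (b.ch x.1)).source → nsq (b.h x.1 (F.e (b.ch x.1) p)) ≤ 3 / 4 →
      p ∈ (F.e (b.ch x.2)).source → nsq (b.h x.2 (F.e (b.ch x.2) p)) ≤ 1 / 2 →
      ∀ t ∈ Ico 0 T, ∀ k, b.Fn x.1 k (t, p) ≤ C * ∑ k', b.Fn x.2 k' (t, p) := by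
    rintro ⟨j, i⟩
    have hK : IsCompact
        ({p | p ∈ (F.e (b.ch j)).source ∧ nsq (b.h j (F.e (b.ch j) p)) ≤ 3 / 4} ∩
        {p | p ∈ (F.e (b.ch i)).source ∧ nsq (b.h i (F.e (b.ch i) p)) ≤ 1 / 2}) :=
      (b.isCompact_ball j (by norm_num)).inter (b.isCompact_ball i (by norm_num))
    obtain ⟨C, hC, h⟩ := hK.induction_on
      (p := fun S => ∃ C : ℝ, 0 ≤ C ∧ ∀ p ∈ S, p ∈ (F.e (b.ch i)).source → ∀ t ∈ Ico 0 T, ∀ k,
        b.Fn j k (t, p) ≤ C * ∑ k', b.Fn i k' (t, p))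
      ⟨0, le_rfl, fun p hp => absurd hp (notMem_empty p)⟩
      (fun S S' hSS ⟨C, hC, h⟩ => ⟨C, hC, fun p hp => h p (hSS hp)⟩)
      (fun S S' ⟨C, hC, h⟩ ⟨C', hC', h'⟩ => ⟨max C C', le_max_of_le_left hC,
        fun p hp hpi t ht k => by
        have h0 : 0 ≤ ∑ k', b.Fn i k' (t, p) :=
          Finset.sum_nonneg fun k' _ => b.Fn_nonneg k' ht hpi
        rcases hp with hp | hp
        · exact (h p hp hpi t ht k).trans (mul_le_mul_of_nonneg_right (le_max_left _ _) h0)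
        · exact (h' p hp hpi t ht k).trans (mul_le_mul_of_nonneg_right (le_max_right _ _) h0)⟩)
      (fun p₀ hp₀ => by
        obtain ⟨C, hC, h⟩ := b.dom_vec (b.ch j) hp₀.1.1 hp₀.2.1
        refine ⟨_, mem_nhdsWithin_of_mem_nhds h, C, hC, fun p hp _ t ht k => ?_⟩
        have h1 := hp t ht (Ek k)
        rw [nsq_Ek, mul_one] at h1
        exact h1)
    exact ⟨C, hC, fun p h1 h2 h3 h4 => h p ⟨⟨h1, h2⟩, ⟨h3, h4⟩⟩ h3⟩
  choose C hC h using key
  obtain ⟨B, hB⟩ := (Set.finite_range C).bddAbove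
  refine ⟨max B 1, le_max_right _ _, fun j i p h1 h2 h3 h4 t ht k => ?_⟩
  refine (h (j, i) p h1 h2 h3 h4 t ht k).trans ?_
  refine mul_le_mul_of_nonneg_right ?_ (Finset.sum_nonneg fun k' _ => b.Fn_nonneg k' ht h3)
  exact (hB (mem_range_self (j, i))).trans (le_max_left _ _)

theorem Flow.Cov.Lcut_smooth (i : ι) :
    ContDiffOn ℝ ∞ (fun z => Lcut (b.h i z)) {z | nsq (b.h i z) < 3 / 4} :=
  KRFS.Lcut_smooth.comp (b.h_contDiff i).contDiffOn fun _ hz => hz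

theorem Flow.Cov.isOpen_h (i : ι) (ρ : ℝ) : IsOpen {z | nsq (b.h i z) < ρ} :=
  (isOpen_lt ρ).preimage (b.h_contDiff i).continuous

theorem Flow.Cov.sub' (i : ι) {ρ : ℝ} (hρ : ρ ≤ 1) :
    {z | nsq (b.h i z) < ρ} ⊆ (F.e (b.ch i)).target := fun _ hz =>
  b.sub i ((le_of_lt hz).trans hρ)

theorem Flow.Cov.exists_A [Finite ι] (hT : 0 < T) {c₁ : ℝ} (hc : 0 < c₁) :
    ∃ A : ℝ, 0 ≤ A ∧ ∀ i : ι, ∀ z : Cn n,
    nsq (b.h i z) < 3 / 4 → c₁ ≤ cut (nsq (b.h i z)) →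
      ∀ v, -2 * levz (fun x => Lcut (b.h i x)) v z ≤ A * lev (F.ψ (b.ch i)) v (0, z) := by
  have h0T : (0 : ℝ) ∈ Ico 0 T := ⟨le_rfl, hT⟩
  have hpos : ∀ i, ∀ z : Cn n, nsq (b.h i z) < 3 / 4 → ∀ v, 0 ≤ lev (F.ψ (b.ch i)) v (0, z) :=
    fun i z hz v => (F.isQ h0T (b.sub' i (by norm_num) hz)).nonneg v
  have key : ∀ i : ι, ∃ A : ℝ, 0 ≤ A ∧ ∀ z : Cn n,
      nsq (b.h i z) < 3 / 4 → c₁ ≤ cut (nsq (b.h i z)) →
      ∀ v, -2 * levz (fun x => Lcut (b.h i x)) v z ≤ A * lev (F.ψ (b.ch i)) v (0, z) := by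
    intro i
    have hopen := b.isOpen_h i (3 / 4)
    have hcomp : IsCompact ({z | nsq (b.h i z) ≤ 3 / 4} ∩ {z | c₁ ≤ cut (nsq (b.h i z))}) :=
      (b.isCompact_h i (by norm_num)).inter_right (isClosed_le continuous_const
        (cut_contDiff.continuous.comp (contDiff_nsq.continuous.comp (b.h_contDiff i).continuous)))
    obtain ⟨A, hA, h⟩ := hcomp.induction_on
      (p := fun S => ∃ A : ℝ, 0 ≤ A ∧ ∀ z ∈ S, nsq (b.h i z) < 3 / 4 → ∀ v,
        -2 * levz (fun x => Lcut (b.h i x)) v z ≤ A * lev (F.ψ (b.ch i)) v (0, z))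
      ⟨0, le_rfl, fun p hp => absurd hp (notMem_empty p)⟩
      (fun S S' hSS ⟨C, hC, h⟩ => ⟨C, hC, fun p hp => h p (hSS hp)⟩)
      (fun S S' ⟨C, hC, h⟩ ⟨C', hC', h'⟩ => ⟨max C C', le_max_of_le_left hC, fun p hp hp' v => by
        rcases hp with hp | hp
        · exact (h p hp hp' v).trans (mul_le_mul_of_nonneg_right (le_max_left _ _) (hpos i p hp' v))
        · exact (h' p hp hp' v).trans
            (mul_le_mul_of_nonneg_right (le_max_right _ _) (hpos i p hp' v))⟩)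
      (fun y hy => by
        have hy' : nsq (b.h i y) < 3 / 4 := by
          by_contra hcon
          have h1 := cut_zero (not_lt.1 hcon)
          have h2 : c₁ ≤ cut (nsq (b.h i y)) := hy.2
          linarith
        obtain ⟨C, hC, h⟩ := KRFS.Bd.levz_le_local (f := fun z => (-2) * Lcut (b.h i z))
          (g := fun z => F.ψ (b.ch i) (0, z)) hopen
          (contDiffOn_const.mul (b.Lcut_smooth i))
          ((Bd.smooth_psi0 F hT (b.ch i)).mono (b.sub' i (by norm_num))) hy'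
          (fun x hx u hu => by
            rw [Bd.levz_psi0 F hT (b.sub' i (by norm_num) hx)]
            exact Bd.lev_psi_pos F h0T (b.sub' i (by norm_num) hx) hu)
        refine ⟨_, mem_nhdsWithin_of_mem_nhds h, C, hC, fun x hx hx' v => ?_⟩
        have h2 := hx v
        rwa [KRFS.Bd.levz_const_mul (-2) (((b.Lcut_smooth i).contDiffAt (hopen.mem_nhds hx')).of_le
          two_le_infty), Bd.levz_psi0 F hT (b.sub' i (by norm_num) hx')] at h2)
    exact ⟨A, hA, fun z h1 h2 v => h z ⟨h1.le, h2⟩ h1 v⟩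
  choose A hA h using key
  obtain ⟨B, hB⟩ := (Set.finite_range A).bddAbove
  refine ⟨max B 0, le_max_right _ _, fun i z h1 h2 v => ?_⟩
  refine (h i z h1 h2 v).trans (mul_le_mul_of_nonneg_right ?_ (hpos i z h1 v))
  exact (hB (mem_range_self i)).trans (le_max_left _ _)

/-- `- (t φ' - φ - n t)` -/
noncomputable def Flow.UU (F : Flow n M κ T) (c : κ) : ℝ × Cn n → ℝ := F.Gc 0 (-1) 1 n c

theorem Flow.UU_isFun (F : Flow n M κ T) : IsFun F.e T F.UU := Bd.Gc_isFun F 0 (-1) 1 n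

theorem Flow.UU_evol (F : Flow n M κ T) {c : κ} {t : ℝ} (ht : t ∈ Ioo 0 T) {z : Cn n}
    (hz : z ∈ (F.e c).target) {W : Fin n → Cn n} (hW : IsUFrame (F.ψ c) (t, z) W) :
    G.dt (F.UU c) (t, z) = ∑ k, lev (F.UU c) (W k) (t, z) + ∑ k, lev (F.ψ c) (W k) (0, z) := by
  have h := Bd.Gc_evol F 0 (-1) 1 n ht hz hW
  unfold Flow.UU
  rw [h]
  ring

/-- the function of the maximum principle, in the chart of the ball `i` -/
noncomputable def Flow.Cov.ff (A ε : ℝ) (i : ι) (k : Fin n) : ℝ × Cn n → ℝ := fun q =>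
  2 * Lcut (b.h i q.2) + Real.log (lev (F.ψ (b.ch i)) (Ek k) q) -
    A * F.UU (b.ch i) q - ε * q.1

theorem Flow.Cov.crit {i : ι} {t : ℝ} (ht : t ∈ Ioo 0 T) {z : Cn n}
    (hy : nsq (b.h i z) < 3 / 4) {k : Fin n} {A ε : ℝ} (hε : 0 < ε)
    (hA : ∀ v, -2 * levz (fun x => Lcut (b.h i x)) v z ≤ A * lev (F.ψ (b.ch i)) v (0, z))
    (hx : ∀ᶠ x in 𝓝 z, b.ff A ε i k (t, x) ≤ b.ff A ε i k (t, z))
    (hr : ∀ᶠ r in 𝓝[<] t, b.ff A ε i k (r, z) ≤ b.ff A ε i k (t, z)) : False := by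
  have ht' : t ∈ Ico 0 T := ⟨ht.1.le, ht.2⟩
  have hz : z ∈ (F.e (b.ch i)).target := b.sub' i (by norm_num) hy
  have hξ : Ek k ≠ 0 := Ek_ne k
  obtain ⟨U, hU, hsub, hψ⟩ := F.krf.smooth (b.ch i)
  set U₁ : Set (ℝ × Cn n) := U ∩ (Ioo 0 T ×ˢ (F.e (b.ch i)).target) with hU₁
  have hU₁o : IsOpen U₁ := hU.inter (isOpen_Ioo.prod (F.e (b.ch i)).open_target)
  have hψ₁ : ContDiffOn ℝ ∞ (F.ψ (b.ch i)) U₁ := hψ.mono inter_subset_left
  have hpU : (t, z) ∈ U₁ := ⟨hsub ⟨ht', hz⟩, ht, hz⟩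
  have hpos₁ : ∀ p ∈ U₁, (cHess (F.ψ (b.ch i)) p).PosDef := fun p hp =>
    F.krf.pos (b.ch i) p.1 ⟨hp.2.1.1.le, hp.2.1.2⟩ p.2 hp.2.2
  have hflow₁ : ∀ p ∈ U₁, G.dt (F.ψ (b.ch i)) p = Real.log (cHess (F.ψ (b.ch i)) p).det.re :=
    fun p hp => F.krf.flow (b.ch i) p.1 hp.2.1 p.2 hp.2.2
  obtain ⟨W, hW, hev⟩ := evol_field hU₁o hψ₁ hpos₁ hflow₁ hpU
  have h1 := hev (fun _ => Ek k) (F.e (b.ch i)).target (F.e (b.ch i)).open_target hz
    (holOn_const _ _) hξ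
  have h2 := F.UU_evol ht hz hW
  -- smoothness of the parts
  have hSo := b.isOpen_h i (3 / 4)
  have hzS : z ∈ {x | nsq (b.h i x) < 3 / 4} := hy
  have hLs := b.Lcut_smooth i
  have ha : ContDiffAt ℝ ∞ (fun q : ℝ × Cn n => Lcut (b.h i q.2)) (t, z) :=
    ContDiffAt.comp (t, z) (g := fun x => Lcut (b.h i x)) (hLs.contDiffAt (hSo.mem_nhds hzS))
      contDiffAt_snd
  have hF0 : 0 < lev (F.ψ (b.ch i)) (Ek k) (t, z) := Bd.lev_psi_pos F ht' hz hξ
  have hb : ContDiffAt ℝ ∞ (fun q : ℝ × Cn n => Real.log (lev (F.ψ (b.ch i)) (Ek k) q))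
      (t, z) := by
    refine ContDiffAt.log ?_ hF0.ne'
    exact (contDiffOn_lev_field (ξ := fun _ => Ek k) (S := (F.e (b.ch i)).target) hU hψ
      contDiffOn_const).contDiffAt
      ((hU.inter (isOpen_univ.prod (F.e (b.ch i)).open_target)).mem_nhds
        ⟨hsub ⟨ht', hz⟩, mem_univ _, hz⟩)
  have hu : ContDiffAt ℝ ∞ (F.UU (b.ch i)) (t, z) := F.UU_isFun.contDiffAt ht' hz
  have hτ : ContDiffAt ℝ ∞ (fun q : ℝ × Cn n => q.1) (t, z) := contDiffAt_fst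
  have hff : ContDiffAt ℝ ∞ (b.ff A ε i k) (t, z) :=
    (((contDiffAt_const.mul ha).add hb).sub (contDiffAt_const.mul hu)).sub
      (contDiffAt_const.mul hτ)
  have hdt := dt_nonneg_of_max hff hr
  have hlev : ∀ v, lev (b.ff A ε i k) v (t, z) ≤ 0 := lev_nonpos_of_max hff hx
  have two := two_le_infty
  -- the time derivative
  have d1 : G.dt (b.ff A ε i k) (t, z) =
      G.dt (fun q : ℝ × Cn n => Real.log (lev (F.ψ (b.ch i)) (Ek k) q)) (t, z) -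
        A * G.dt (F.UU (b.ch i)) (t, z) - ε := by
    have e1 : DifferentiableAt ℝ (fun q : ℝ × Cn n => Lcut (b.h i q.2)) (t, z) :=
      (ha.of_le two).differentiableAt (by norm_num)
    have e2 := (hb.of_le two).differentiableAt (by norm_num)
    have e3 := (hu.of_le two).differentiableAt (by norm_num)
    have e4 := dt_snd (t := t) (g := fun x => Lcut (b.h i x))
      (((hLs.contDiffAt (hSo.mem_nhds hzS)).of_le two).differentiableAt (by norm_num))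
    unfold G.dt at e4 ⊢
    have f1 : DifferentiableAt ℝ (fun q : ℝ × Cn n => 2 * Lcut (b.h i q.2)) (t, z) :=
      e1.const_mul 2
    have f2 : DifferentiableAt ℝ (fun q : ℝ × Cn n => 2 * Lcut (b.h i q.2) +
      Real.log (lev (F.ψ (b.ch i)) (Ek k) q)) (t, z) := f1.add e2
    have f3 : DifferentiableAt ℝ (fun q : ℝ × Cn n => A * F.UU (b.ch i) q) (t, z) :=
      e3.const_mul A
    have f4 : DifferentiableAt ℝ (fun q : ℝ × Cn n => 2 * Lcut (b.h i q.2) +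
      Real.log (lev (F.ψ (b.ch i)) (Ek k) q) - A * F.UU (b.ch i) q) (t, z) := f2.sub f3
    have e5 := dt_sub_time f4 ε
    unfold G.dt at e5
    change D (1, 0) (fun q => (2 * Lcut (b.h i q.2) + Real.log (lev (F.ψ (b.ch i)) (Ek k) q) -
      A * F.UU (b.ch i) q) - ε * q.1) (t, z) = _
    rw [e5, D_sub f2 f3, D_add f1 e2, D_const_mul _ e1, D_const_mul _ e3, e4]
    ring
  -- the Levi form
  have d2 : ∀ v, lev (b.ff A ε i k) v (t, z) = 2 * levz (fun x => Lcut (b.h i x)) v z +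
      lev (fun q : ℝ × Cn n => Real.log (lev (F.ψ (b.ch i)) (Ek k) q)) v (t, z) -
        A * lev (F.UU (b.ch i)) v (t, z) := by
    intro v
    have e1 : ContDiffAt ℝ 2 (fun q : ℝ × Cn n => Lcut (b.h i q.2)) (t, z) := ha.of_le two
    have e2 := hb.of_le two
    have e3 := hu.of_le two
    have e4 : ContDiffAt ℝ 2 (fun q : ℝ × Cn n => q.1) (t, z) := contDiffAt_fst
    change lev (fun q => ((2 * Lcut (b.h i q.2) + Real.log (lev (F.ψ (b.ch i)) (Ek k) q)) -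
      A * F.UU (b.ch i) q) - ε * q.1) v (t, z) = _
    rw [lev_sub' (((contDiffAt_const.mul e1).add e2).sub (contDiffAt_const.mul e3))
      (contDiffAt_const.mul e4), lev_const_mul' _ e4, lev_time, lev_sub'
      ((contDiffAt_const.mul e1).add e2) (contDiffAt_const.mul e3), lev_const_mul' _ e3,
      lev_add' (contDiffAt_const.mul e1) e2, lev_const_mul' _ e1, lev_snd hSo hLs hzS]
    ring
  have h3 : ∑ c', lev (fun q : ℝ × Cn n => Real.log (lev (F.ψ (b.ch i)) (Ek k) q)) (W c')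
      (t, z) ≤ ∑ c', (A * lev (F.ψ (b.ch i)) (W c') (0, z) +
        A * lev (F.UU (b.ch i)) (W c') (t, z)) := by
    refine Finset.sum_le_sum fun c' _ => ?_
    have g1 := hlev (W c')
    rw [d2] at g1
    have g2 := hA (W c')
    linarith
  rw [Finset.sum_add_distrib, ← Finset.mul_sum, ← Finset.mul_sum] at h3
  rw [d1, h2] at hdt
  nlinarith

/-- the function of the maximum principle -/
noncomputable def Flow.Cov.Sf (A : ℝ) (i : ι) (k : Fin n) (q : ℝ × M) : ℝ :=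
  cut (nsq (b.h i (F.e (b.ch i) q.2))) ^ 2 * b.Fn i k q *
    Real.exp (-A * glob F.atlas F.UU q - q.1)

theorem Flow.Cov.Sf_continuousOn (A : ℝ) (i : ι) (k : Fin n) :
    ContinuousOn (b.Sf A i k) (Ico 0 T ×ˢ (F.e (b.ch i)).source) := by
  have h1 : ContinuousOn (fun q : ℝ × M => cut (nsq (b.h i (F.e (b.ch i) q.2))))
      (Ico 0 T ×ˢ (F.e (b.ch i)).source) := by
    rintro ⟨t, p⟩ ⟨-, hp⟩
    have h2 : ContinuousAt (fun q : ℝ × M => F.e (b.ch i) q.2) (t, p) :=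
      ((F.e (b.ch i)).continuousAt hp).comp continuousAt_snd
    exact (ContinuousAt.comp (g := fun y => cut (nsq (b.h i y)))
      (cut_contDiff.continuous.comp (contDiff_nsq.continuous.comp
        (b.h_contDiff i).continuous)).continuousAt h2).continuousWithinAt
  have h3 : ContinuousOn (glob F.atlas F.UU) (Ico 0 T ×ˢ (F.e (b.ch i)).source) :=
    (glob_continuousOn F.atlas F.UU_isFun).mono (prod_mono Subset.rfl (subset_univ _))
  refine ((h1.pow 2).mul (b.Fn_continuousOn i k)).mul ?_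
  exact Real.continuous_exp.comp_continuousOn ((continuousOn_const.mul h3).sub continuousOn_fst)

theorem Flow.Cov.log_Sf (A : ℝ) {i : ι} {k : Fin n} {t : ℝ} (ht : t ∈ Ico 0 T) {x : Cn n}
    (hy : nsq (b.h i x) < 3 / 4) : 0 < b.Sf A i k (t, (F.e (b.ch i)).symm x) ∧
      Real.log (b.Sf A i k (t, (F.e (b.ch i)).symm x)) = b.ff A 1 i k (t, x) := by
  have hx : x ∈ (F.e (b.ch i)).target := b.sub' i (by norm_num) hy
  have h1 := cut_pos hy
  have h2 := Bd.lev_psi_pos F ht hx (Ek_ne k)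
  have hsrc := (F.e (b.ch i)).map_target hx
  have h3 : b.Sf A i k (t, (F.e (b.ch i)).symm x) =
      cut (nsq (b.h i x)) ^ 2 * lev (F.ψ (b.ch i)) (Ek k) (t, x) *
        Real.exp (-A * F.UU (b.ch i) (t, x) - t) := by
    unfold Flow.Cov.Sf Flow.Cov.Fn
    rw [glob_eq F.atlas F.UU_isFun ht hsrc, (F.e (b.ch i)).right_inv hx]
  rw [h3]
  refine ⟨by positivity, ?_⟩
  rw [Real.log_mul (by positivity) (Real.exp_pos _).ne', Real.log_mul (by positivity) h2.ne',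
    Real.log_exp, Real.log_pow]
  unfold Flow.Cov.ff Lcut
  push_cast
  ring

theorem Flow.Cov.Sf_le [CompactSpace M] [T2Space M] [Finite ι] (hT : 0 < T) {A C : ℝ}
    (hC : 1 ≤ C) (hdom : ∀ j i : ι, ∀ p,
      p ∈ (F.e (b.ch j)).source → nsq (b.h j (F.e (b.ch j) p)) ≤ 3 / 4 →
      p ∈ (F.e (b.ch i)).source → nsq (b.h i (F.e (b.ch i) p)) ≤ 1 / 2 →
      ∀ t ∈ Ico 0 T, ∀ k, b.Fn j k (t, p) ≤ C * ∑ k', b.Fn i k' (t, p))
    (hA : ∀ i : ι, ∀ z : Cn n, nsq (b.h i z) < 3 / 4 → 1 / (C * (n + 1)) ≤ cut (nsq (b.h i z)) →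
      ∀ v, -2 * levz (fun x => Lcut (b.h i x)) v z ≤ A * lev (F.ψ (b.ch i)) v (0, z)) :
    ∃ K : ℝ, 0 ≤ K ∧ ∀ j k, ∀ t ∈ Ico 0 T, ∀ p ∈ (F.e (b.ch j)).source,
      nsq (b.h j (F.e (b.ch j) p)) ≤ 3 / 4 → b.Sf A j k (t, p) ≤ K := by
  have hKc : ∀ j : ι, IsCompact {p | p ∈ (F.e (b.ch j)).source ∧
      nsq (b.h j (F.e (b.ch j) p)) ≤ 3 / 4} := fun j => b.isCompact_ball j (by norm_num)
  -- the bound at the initial time
  obtain ⟨K, hK0, hK⟩ : ∃ K : ℝ, 0 ≤ K ∧ ∀ j k, ∀ p ∈ (F.e (b.ch j)).source,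
      nsq (b.h j (F.e (b.ch j) p)) ≤ 3 / 4 → b.Sf A j k (0, p) ≤ K := by
    have h1 : ∀ x : ι × Fin n, ∃ K : ℝ, ∀ p ∈ (F.e (b.ch x.1)).source,
        nsq (b.h x.1 (F.e (b.ch x.1) p)) ≤ 3 / 4 → b.Sf A x.1 x.2 (0, p) ≤ K := by
      rintro ⟨j, k⟩
      have h2 : ContinuousOn (fun p => b.Sf A j k (0, p)) {p | p ∈ (F.e (b.ch j)).source ∧
          nsq (b.h j (F.e (b.ch j) p)) ≤ 3 / 4} :=
        (b.Sf_continuousOn A j k).comp (by fun_prop) fun p hp => ⟨⟨le_rfl, hT⟩, hp.1⟩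
      obtain ⟨K, hK⟩ := ((hKc j).image_of_continuousOn h2).bddAbove
      exact ⟨K, fun p hp hp' => hK (mem_image_of_mem _ ⟨hp, hp'⟩)⟩
    choose K hK using h1
    obtain ⟨B, hB⟩ := (Set.finite_range K).bddAbove
    exact ⟨max B 0, le_max_right _ _, fun j k p hp hp' =>
      (hK (j, k) p hp hp').trans ((hB (mem_range_self (j, k))).trans (le_max_left _ _))⟩
  refine ⟨K, hK0, fun j₁ k₁ t₁ ht₁ p₁ hp₁ hp₁' => ?_⟩
  by_contra hcon
  push Not at hcon
  -- the maximum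
  set S : Set ℝ := ⋃ x : ι × Fin n, (b.Sf A x.1 x.2) ''
    (Icc 0 t₁ ×ˢ {p | p ∈ (F.e (b.ch x.1)).source ∧
      nsq (b.h x.1 (F.e (b.ch x.1) p)) ≤ 3 / 4}) with hS
  have hIco : ∀ t ∈ Icc 0 t₁, t ∈ Ico 0 T := fun t ht => ⟨ht.1, lt_of_le_of_lt ht.2 ht₁.2⟩
  have hScomp : IsCompact S := by
    refine isCompact_iUnion fun x => ?_
    refine (isCompact_Icc.prod (hKc x.1)).image_of_continuousOn ?_
    exact (b.Sf_continuousOn A x.1 x.2).mono (prod_mono (fun t ht => hIco t ht) fun p hp => hp.1)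
  have hmem : ∀ j k, ∀ t ∈ Icc 0 t₁, ∀ p ∈ (F.e (b.ch j)).source,
      nsq (b.h j (F.e (b.ch j) p)) ≤ 3 / 4 →
      b.Sf A j k (t, p) ∈ S := fun j k t ht p hp hp' =>
    mem_iUnion.2 ⟨(j, k), mem_image_of_mem _ ⟨ht, hp, hp'⟩⟩
  have h1mem := hmem j₁ k₁ t₁ ⟨ht₁.1, le_rfl⟩ p₁ hp₁ hp₁'
  obtain ⟨y, hyS, hymax⟩ := hScomp.exists_isGreatest ⟨_, h1mem⟩
  obtain ⟨⟨j, k⟩, ⟨t, p⟩, ⟨htI, hpV, hp34⟩, hyeq⟩ := mem_iUnion.1 hyS
  simp only at hpV hp34 hyeq htI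
  have hmax : ∀ j' k', ∀ t' ∈ Icc 0 t₁, ∀ p' ∈ (F.e (b.ch j')).source,
      nsq (b.h j' (F.e (b.ch j') p')) ≤ 3 / 4 →
      b.Sf A j' k' (t', p') ≤ b.Sf A j k (t, p) := by
    intro j' k' t' ht' p' hp' hp''
    rw [hyeq]
    exact hymax (hmem j' k' t' ht' p' hp' hp'')
  have hbig : K < b.Sf A j k (t, p) := hcon.trans_le (hmax j₁ k₁ t₁ ⟨ht₁.1, le_rfl⟩ p₁ hp₁ hp₁')
  have htT := hIco t htI
  have htpos : 0 < t := by
    rcases htI.1.eq_or_lt with h | h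
    · exfalso
      rw [← h] at hbig
      exact absurd (hK j k p hpV hp34) (not_le.2 hbig)
    · exact h
  have hSpos : 0 < b.Sf A j k (t, p) := lt_of_le_of_lt hK0 hbig
  have hEpos : 0 < Real.exp (-A * glob F.atlas F.UU (t, p) - t) := Real.exp_pos _
  have hXF : 0 < cut (nsq (b.h j (F.e (b.ch j) p))) ^ 2 * b.Fn j k (t, p) := by
    have : 0 < cut (nsq (b.h j (F.e (b.ch j) p))) ^ 2 * b.Fn j k (t, p) *
      Real.exp (-A * glob F.atlas F.UU (t, p) - t) := hSpos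
    exact (pos_iff_pos_of_mul_pos this).2 hEpos
  have hFpos : 0 < b.Fn j k (t, p) := by
    rcases (b.Fn_nonneg k htT hpV).eq_or_lt with h | h
    · rw [← h, mul_zero] at hXF
      exact absurd hXF (lt_irrefl 0)
    · exact h
  have hp34' : nsq (b.h j (F.e (b.ch j) p)) < 3 / 4 := by
    by_contra h
    rw [cut_zero (not_lt.1 h)] at hXF
    simp at hXF
  -- the cut-off is not small
  have hX : 1 / (C * (n + 1)) ≤ cut (nsq (b.h j (F.e (b.ch j) p))) := by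
    have hn0 : (0 : ℝ) ≤ n := Nat.cast_nonneg n
    have hCF : (1 : ℝ) ≤ C * (n + 1) := by nlinarith
    obtain ⟨i, hi, hlt⟩ := b.core p
    have hlt' : nsq (b.h i (F.e (b.ch i) p)) ≤ 1 / 2 := hlt.le
    have g1 := hdom j i p hpV hp34 hi hlt' t htT k
    have g2 : ∀ k', b.Fn i k' (t, p) ≤
        cut (nsq (b.h j (F.e (b.ch j) p))) ^ 2 * b.Fn j k (t, p) := by
      intro k'
      have g3 := hmax i k' t htI p hi (hlt'.trans (by norm_num))
      unfold Flow.Cov.Sf at g3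
      rw [cut_one (show nsq (b.h i (F.e (b.ch i) (t, p).2)) ≤ 1 / 2 from hlt')] at g3
      have g4 := le_of_mul_le_mul_right g3 hEpos
      simpa using g4
    have g5 : ∑ k', b.Fn i k' (t, p) ≤
        n * (cut (nsq (b.h j (F.e (b.ch j) p))) ^ 2 * b.Fn j k (t, p)) := by
      refine (Finset.sum_le_sum fun k' _ => g2 k').trans ?_
      rw [Finset.sum_const, Finset.card_univ, nsmul_eq_mul, Fintype.card_fin]
    have hX0 := cut_nonneg (nsq (b.h j (F.e (b.ch j) p)))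
    have hX1 := cut_le_one (nsq (b.h j (F.e (b.ch j) p)))
    set X := cut (nsq (b.h j (F.e (b.ch j) p))) with hXdef
    set Φ := b.Fn j k (t, p) with hΦ
    have g6 : Φ ≤ (C * n * X ^ 2) * Φ := by
      calc Φ ≤ C * ∑ k', b.Fn i k' (t, p) := g1
        _ ≤ C * (n * (X ^ 2 * Φ)) := mul_le_mul_of_nonneg_left g5 (by linarith)
        _ = _ := by ring
    have g7 : 1 ≤ C * n * X ^ 2 := by
      by_contra hlt'
      push Not at hlt'
      nlinarith
    rw [div_le_iff₀ (by linarith)]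
    have g8 : X ^ 2 ≤ X := by nlinarith
    nlinarith [mul_le_mul_of_nonneg_left g8 (mul_nonneg (by linarith : (0:ℝ) ≤ C) hn0)]
  -- the contradiction in the chart
  set z : Cn n := F.e (b.ch j) p with hz
  have hzp : (F.e (b.ch j)).symm z = p := (F.e (b.ch j)).left_inv hpV
  have hS0 := b.log_Sf A (k := k) htT (x := z) hp34'
  rw [hzp] at hS0
  refine b.crit (A := A) (ε := 1) (k := k) ⟨htpos, htT.2⟩ (z := z) hp34' one_pos
    (hA _ _ hp34' hX) ?_ ?_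
  · filter_upwards [(b.isOpen_h j (3 / 4)).mem_nhds (show z ∈ {x | nsq (b.h j x) < 3 / 4} from
      hp34')] with x h1
    obtain ⟨g1, g2⟩ := b.log_Sf A (k := k) htT (x := x) h1
    rw [← g2, ← hS0.2]
    have hx : x ∈ (F.e (b.ch j)).target := b.sub' j (by norm_num) h1
    refine Real.log_le_log g1 (hmax j k t htI _ ((F.e (b.ch j)).map_target hx) ?_)
    rw [(F.e (b.ch j)).right_inv hx]
    exact le_of_lt h1
  · filter_upwards [Ioo_mem_nhdsLT htpos] with r hr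
    have hrT : r ∈ Ico 0 T := ⟨hr.1.le, hr.2.trans htT.2⟩
    obtain ⟨g1, g2⟩ := b.log_Sf A (k := k) hrT (x := z) hp34'
    rw [hzp] at g1 g2
    rw [← g2, ← hS0.2]
    exact Real.log_le_log g1 (hmax j k r ⟨hr.1.le, hr.2.le.trans htI.2⟩ _ hpV hp34)

theorem Flow.UU_le [CompactSpace M] (F : Flow n M κ T) : ∃ C : ℝ, 0 ≤ C ∧
    ∀ c, ∀ t ∈ Ico 0 T, ∀ z ∈ (F.e c).target, F.UU c (t, z) ≤ C / (T - t) := by
  by_cases hT : 0 < T
  swap
  · exact ⟨0, le_rfl, fun c t ht => absurd (lt_of_le_of_lt ht.1 ht.2) hT⟩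
  obtain ⟨C₁, hC₁, h₁⟩ := F.dphi_ge
  obtain ⟨C₂, hC₂, h₂⟩ := Bd.upper F
  have hn : (0 : ℝ) ≤ n := Nat.cast_nonneg n
  refine ⟨T * C₁ + (C₂ + n) * T ^ 2, by positivity, fun c t ht z hz => ?_⟩
  have hTt : 0 < T - t := by linarith [ht.2]
  have e1 : F.UU c (t, z) = -t * F.dphi c (t, z) + F.phi c (t, z) + n * t := by
    simp only [Flow.UU, Flow.Gc, Flow.dphi, Flow.phi]
    ring
  have g1 := h₁ c t ht z hz
  have g2 := (h₂ c t ht z hz).1
  rw [e1, le_div_iff₀ hTt]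
  have g3 : -C₁ ≤ F.dphi c (t, z) * (T - t) := by
    have h3 := mul_le_mul_of_nonneg_right g1 hTt.le
    rwa [neg_mul, div_mul_cancel₀ _ hTt.ne'] at h3
  have g4 : -t * F.dphi c (t, z) * (T - t) ≤ T * C₁ := by
    have h4 := mul_le_mul_of_nonneg_left g3 ht.1
    nlinarith [mul_le_mul_of_nonneg_right ht.2.le hC₁]
  have g5 : (F.phi c (t, z) + n * t) * (T - t) ≤ (C₂ + n) * T ^ 2 := by
    have h5 : F.phi c (t, z) + n * t ≤ (C₂ + n) * T := by
      have h6 := mul_le_mul_of_nonneg_left ht.2.le hC₂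
      have h7 := mul_le_mul_of_nonneg_left ht.2.le hn
      nlinarith
    have h8 : T - t ≤ T := by linarith [ht.1]
    calc (F.phi c (t, z) + n * t) * (T - t) ≤ ((C₂ + n) * T) * (T - t) :=
          mul_le_mul_of_nonneg_right h5 hTt.le
      _ ≤ ((C₂ + n) * T) * T := mul_le_mul_of_nonneg_left h8 (by positivity)
      _ = (C₂ + n) * T ^ 2 := by ring
  nlinarith

theorem Flow.Cov.fields_bounded [CompactSpace M] [T2Space M] [Finite ι] (hT : 0 < T) :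
    ∃ K C : ℝ, 0 ≤ K ∧ 0 ≤ C ∧ ∀ i k, ∀ t ∈ Ico 0 T, ∀ p ∈ (F.e (b.ch i)).source,
      nsq (b.h i (F.e (b.ch i) p)) ≤ 1 / 2 → b.Fn i k (t, p) ≤ K * Real.exp (C / (T - t)) := by
  obtain ⟨C, hC1, hdom⟩ := b.domination
  have hn : (0 : ℝ) ≤ n := Nat.cast_nonneg n
  obtain ⟨A, hA0, hA⟩ := b.exists_A hT (c₁ := 1 / (C * (n + 1))) (by positivity)
  obtain ⟨K, hK0, hK⟩ := b.Sf_le hT hC1 hdom hA
  obtain ⟨B, hB0, hB⟩ := F.UU_le
  refine ⟨K, A * B + T ^ 2, hK0, by positivity, fun i k t ht p hsrc hy => ?_⟩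
  have hTt : 0 < T - t := by linarith [ht.2]
  have h1 := hK i k t ht _ hsrc (hy.trans (by norm_num))
  unfold Flow.Cov.Sf at h1
  rw [glob_eq F.atlas F.UU_isFun ht hsrc, cut_one hy] at h1
  set z := F.e (b.ch i) p with hzdef
  have hz : z ∈ (F.e (b.ch i)).target := (F.e (b.ch i)).map_source hsrc
  have h2 : Real.exp (-A * F.UU (b.ch i) (t, z) - t) * Real.exp (A * F.UU (b.ch i) (t, z) + t) =
      1 := by
    rw [← Real.exp_add]
    simp
  have h3 : b.Fn i k (t, p) ≤ K * Real.exp (A * F.UU (b.ch i) (t, z) + t) := by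
    have h4 := mul_le_mul_of_nonneg_right h1 (Real.exp_pos (A * F.UU (b.ch i) (t, z) + t)).le
    have h5 : 1 ^ 2 * b.Fn i k (t, p) * Real.exp (-A * F.UU (b.ch i) (t, z) - t) *
        Real.exp (A * F.UU (b.ch i) (t, z) + t) = b.Fn i k (t, p) := by
      rw [mul_assoc, h2]
      ring
    linarith
  refine h3.trans (mul_le_mul_of_nonneg_left (Real.exp_le_exp.2 ?_) hK0)
  have h6 := mul_le_mul_of_nonneg_left (hB (b.ch i) t ht z hz) hA0
  have h7 : t ≤ T ^ 2 / (T - t) := by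
    rw [le_div_iff₀ hTt]
    nlinarith [ht.1, ht.2]
  have h8 : (A * B + T ^ 2) / (T - t) = A * (B / (T - t)) + T ^ 2 / (T - t) := by ring
  rw [h8]
  linarith

theorem Flow.lev_le_exp {n : ℕ} {M : Type} [TopologicalSpace M] [CompactSpace M] [T2Space M]
    {κ : Type} {T : ℝ} (F : Flow n M κ T) (c : κ) {A : Set (Cn n)} (hA : IsCompact A)
    (hAt : A ⊆ (F.e c).target) :
    ∃ C : ℝ, 0 ≤ C ∧ ∀ t ∈ Ico 0 T, ∀ z ∈ A, ∀ u,
      lev (F.ψ c) u (t, z) ≤ Real.exp (C / (T - t)) * nsq u := by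
  by_cases hT : 0 < T
  swap
  · exact ⟨0, le_rfl, fun t ht => absurd (lt_of_le_of_lt ht.1 ht.2) hT⟩
  obtain ⟨s, hs, ⟨b⟩⟩ := F.exists_cov
  obtain ⟨K, C₁, hK, hC₁, hF⟩ := b.fields_bounded hT
  have hn0 : (0 : ℝ) ≤ n := Nat.cast_nonneg n
  have hnsq : ∀ u : Cn n, 0 ≤ nsq u := fun u => (sq_nonneg _).trans (norm_sq_le n u)
  obtain ⟨C, hC, h⟩ := hA.induction_on
    (p := fun S => ∃ C : ℝ, 0 ≤ C ∧ ∀ z ∈ S, z ∈ (F.e c).target → ∀ t ∈ Ico 0 T, ∀ u,
      lev (F.ψ c) u (t, z) ≤ C * Real.exp (C₁ / (T - t)) * nsq u)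
    ⟨0, le_rfl, fun p hp => absurd hp (notMem_empty p)⟩
    (fun S S' hSS ⟨C, hC, h⟩ => ⟨C, hC, fun p hp => h p (hSS hp)⟩)
    (fun S S' ⟨C, hC, h⟩ ⟨C', hC', h'⟩ => ⟨max C C', le_max_of_le_left hC,
      fun z hz hzt t ht u => by
      have h0 : 0 ≤ Real.exp (C₁ / (T - t)) := (Real.exp_pos _).le
      rcases hz with hz | hz
      · exact (h z hz hzt t ht u).trans (mul_le_mul_of_nonneg_right
          (mul_le_mul_of_nonneg_right (le_max_left _ _) h0) (hnsq u))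
      · exact (h' z hz hzt t ht u).trans (mul_le_mul_of_nonneg_right
          (mul_le_mul_of_nonneg_right (le_max_right _ _) h0) (hnsq u))⟩)
    (fun z₀ hz₀ => by
      have hzt := hAt hz₀
      have hsrc := (F.e c).map_target hzt
      obtain ⟨i, hi, hlt⟩ := b.core ((F.e c).symm z₀)
      obtain ⟨C, hC, h⟩ := b.dom_vec c hsrc hi
      have hcont : ContinuousAt (F.e c).symm z₀ := (F.e c).symm.continuousAt hzt
      have h1 : ∀ᶠ p in 𝓝 ((F.e c).symm z₀), nsq (b.h i (F.e (b.ch i) p)) < 1 / 2 := by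
        have h2 : ContinuousAt (fun p => nsq (b.h i (F.e (b.ch i) p))) ((F.e c).symm z₀) :=
          ContinuousAt.comp (g := fun y => nsq (b.h i y))
            (contDiff_nsq.continuous.comp (b.h_contDiff i).continuous).continuousAt
            ((F.e (b.ch i)).continuousAt hi)
        exact h2.eventually_lt continuousAt_const hlt
      have h3 := hcont.eventually (h.and (h1.and ((F.e (b.ch i)).open_source.mem_nhds hi)))
      refine ⟨_, mem_nhdsWithin_of_mem_nhds h3, C * (n * K), by positivity,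
        fun z hz hzt t ht u => ?_⟩
      obtain ⟨g1, g2, g3⟩ := hz
      have g4 := g1 t ht u
      rw [(F.e c).right_inv hzt] at g4
      refine g4.trans ?_
      have g5 : ∑ k', b.Fn i k' (t, (F.e c).symm z) ≤ n * (K * Real.exp (C₁ / (T - t))) := by
        refine (Finset.sum_le_sum fun k' _ => hF i k' t ht _ g3 (le_of_lt g2)).trans ?_
        rw [Finset.sum_const, Finset.card_univ, nsmul_eq_mul, Fintype.card_fin]
      calc C * nsq u * ∑ k', b.Fn i k' (t, (F.e c).symm z) ≤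
          C * nsq u * (n * (K * Real.exp (C₁ / (T - t)))) :=
            mul_le_mul_of_nonneg_left g5 (mul_nonneg hC (hnsq u))
        _ = C * (n * K) * Real.exp (C₁ / (T - t)) * nsq u := by ring)
  have hlog : 0 ≤ Real.log (C + 1) := Real.log_nonneg (by linarith)
  refine ⟨C₁ + T * Real.log (C + 1), by positivity, fun t ht z hz u => ?_⟩
  have hTt : 0 < T - t := by linarith [ht.2]
  refine (h z hz (hAt hz) t ht u).trans (mul_le_mul_of_nonneg_right ?_ (hnsq u))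
  have h1 : C ≤ Real.exp (Real.log (C + 1)) := by
    rw [Real.exp_log (by linarith)]
    linarith
  have h2 : Real.log (C + 1) ≤ T * Real.log (C + 1) / (T - t) := by
    rw [le_div_iff₀ hTt]
    nlinarith [ht.1, mul_nonneg ht.1 hlog]
  calc C * Real.exp (C₁ / (T - t)) ≤ Real.exp (Real.log (C + 1)) * Real.exp (C₁ / (T - t)) :=
        mul_le_mul_of_nonneg_right h1 (Real.exp_pos _).le
    _ = Real.exp (Real.log (C + 1) + C₁ / (T - t)) := (Real.exp_add _ _).symm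
    _ ≤ Real.exp ((C₁ + T * Real.log (C + 1)) / (T - t)) := by
        refine Real.exp_le_exp.2 ?_
        have h3 : (C₁ + T * Real.log (C + 1)) / (T - t) =
            C₁ / (T - t) + T * Real.log (C + 1) / (T - t) := by ring
        rw [h3]
        linarith

end Pool.Agent.KRFF
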