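import Pool.Agent.Work.MP_a2bf38_gt.I.Split

/-!
# Uniform size of the overlaps of the charts
-/

open scoped ContDiff ENNReal ComplexOrder Topology
open Set Filter Pool.Agent.ToricKRF Pool.Agent.ToricKRF.G Pool.Agent.KRFS

namespace Pool.Agent.KRFF

namespace Ov

theorem cpd_mono {k : ℕ} {r R : ℝ} (hr : 0 ≤ r) (h : r ≤ R) :
    (cpd r : Set (Cn k)) ⊆ cpd R := fun _ hu i =>
  (hu i).trans (by nlinarith)

theorem cpd_subset_opd {k : ℕ} {r R : ℝ} (hr : 0 ≤ r) (h : r < R) :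
    (cpd r : Set (Cn k)) ⊆ opd R := fun _ hu i =>
  (hu i).trans_lt (by nlinarith)

theorem isOpen_opd {k : ℕ} (R : ℝ) : IsOpen (opd R : Set (Cn k)) := by
  have h : (opd R : Set (Cn k)) = ⋂ i : Fin k, {u | u.1 i ^ 2 + u.2 i ^ 2 < R ^ 2} := by
    ext u
    simp [opd]
  rw [h]
  exact isOpen_iInter_of_finite fun i => isOpen_lt (by fun_prop) continuous_const

theorem sq_le₁ {k : ℕ} (z : Cn k) (i : Fin k) : z.1 i ^ 2 ≤ nsq z := by
  have h1 : z.1 i ^ 2 ≤ ∑ j, z.1 j * z.1 j := by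
    have := Finset.single_le_sum (f := fun j => z.1 j * z.1 j) (fun j _ => mul_self_nonneg _)
      (Finset.mem_univ i)
    calc z.1 i ^ 2 = z.1 i * z.1 i := by ring
      _ ≤ _ := this
  have h2 : 0 ≤ ∑ j, z.2 j * z.2 j := Finset.sum_nonneg fun j _ => mul_self_nonneg _
  calc z.1 i ^ 2 ≤ ∑ j, z.1 j * z.1 j := h1
    _ ≤ _ := by
      unfold nsq dotProduct
      linarith

theorem sq_le₂ {k : ℕ} (z : Cn k) (i : Fin k) : z.2 i ^ 2 ≤ nsq z := by
  have h1 : z.2 i ^ 2 ≤ ∑ j, z.2 j * z.2 j := by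
    have := Finset.single_le_sum (f := fun j => z.2 j * z.2 j) (fun j _ => mul_self_nonneg _)
      (Finset.mem_univ i)
    calc z.2 i ^ 2 = z.2 i * z.2 i := by ring
      _ ≤ _ := this
  have h2 : 0 ≤ ∑ j, z.1 j * z.1 j := Finset.sum_nonneg fun j _ => mul_self_nonneg _
  calc z.2 i ^ 2 ≤ ∑ j, z.2 j * z.2 j := h1
    _ ≤ _ := by
      unfold nsq dotProduct
      linarith

theorem dist_joinC_le {k m : ℕ} {z z' : Cn k} (y : Cn m) {r : ℝ} (hr : 0 ≤ r)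
    (h : nsq (z' - z) ≤ r ^ 2) : dist (joinC z' y) (joinC z y) ≤ r := by
  have h1 : ∀ i, |z'.1 i - z.1 i| ≤ r := fun i =>
    abs_le_of_sq_le_sq ((sq_le₁ (z' - z) i).trans h) hr
  have h2 : ∀ i, |z'.2 i - z.2 i| ≤ r := fun i =>
    abs_le_of_sq_le_sq ((sq_le₂ (z' - z) i).trans h) hr
  rw [Prod.dist_eq, max_le_iff, dist_pi_le_iff hr, dist_pi_le_iff hr]
  constructor
  · refine Fin.addCases (fun i => ?_) (fun i => ?_)
    · simp only [joinC, Fin.append_left]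
      exact h1 i
    · simp only [joinC, Fin.append_right, dist_self]
      exact hr
  · refine Fin.addCases (fun i => ?_) (fun i => ?_)
    · simp only [joinC, Fin.append_left]
      exact h2 i
    · simp only [joinC, Fin.append_right, dist_self]
      exact hr

end Ov

open Ov

section Fib

variable {k m : ℕ} {M Y : Type} [TopologicalSpace M] [CompactSpace M] [T2Space M]
  [TopologicalSpace Y] [T2Space Y] {κ P : Type} [Finite κ] {T : ℝ} (F : Fib k m M Y κ P T)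

omit [CompactSpace M] [T2Space Y] [Finite κ] in
theorem Fib.overlap_one (c c' : κ) (hcc : F.pc c = F.pc c') : ∃ δ > 0, ∀ q,
    q ∈ (F.e c).source → q ∈ (F.e c').source → fstC (F.e c q) ∈ cpd 1 →
    fstC (F.e c' q) ∈ cpd 1 → sndC (F.e c q) ∈ cpd 2 → ∀ z', ∀ r, 0 ≤ r → r < δ →
    nsq (z' - fstC (F.e c q)) ≤ r ^ 2 →
    (F.e c).symm (joinC z' (sndC (F.e c q))) ∈ (F.e c').source ∧
      fstC (F.e c' ((F.e c).symm (joinC z' (sndC (F.e c q))))) ∈ cpd 2 := by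
  have hcomp : ∀ c : κ, IsCompact ((F.e c).symm '' {z | fstC z ∈ cpd 1 ∧ sndC z ∈ cpd 2}) := by
    intro c
    have h1 : IsCompact {z : Cn (k + m) | fstC z ∈ cpd 1 ∧ sndC z ∈ cpd 2} := by
      have h2 : {z : Cn (k + m) | fstC z ∈ cpd 1 ∧ sndC z ∈ cpd 2} =
          (fun q : Cn k × Cn m => joinC q.1 q.2) '' (cpd 1 ×ˢ cpd 2) := by
        ext z
        constructor
        · rintro ⟨h, h'⟩
          exact ⟨(fstC z, sndC z), ⟨h, h'⟩, joinC_fst_snd z⟩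
        · rintro ⟨⟨u, y⟩, ⟨hu, hy⟩, rfl⟩
          exact ⟨by rwa [fstC_joinC], by rwa [sndC_joinC]⟩
      rw [h2]
      exact ((isCompact_cpd 1).prod (isCompact_cpd 2)).image continuous_joinC
    refine h1.image_of_continuousOn ((F.e c).continuousOn_symm.mono ?_)
    rintro z ⟨h2, h3⟩
    rw [F.fib.target c]
    exact ⟨cpd_subset_opd zero_le_one (by norm_num) h2,
      cpd_subset_opd zero_le_two (by norm_num) h3⟩
  have hsrc : ∀ c : κ, (F.e c).symm '' {z | fstC z ∈ cpd 1 ∧ sndC z ∈ cpd 2} ⊆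
      (F.e c).source := by
    rintro c _ ⟨z, ⟨h2, h3⟩, rfl⟩
    refine (F.e c).map_target ?_
    rw [F.fib.target c]
    exact ⟨cpd_subset_opd zero_le_one (by norm_num) h2,
      cpd_subset_opd zero_le_two (by norm_num) h3⟩
  have hmem : ∀ c : κ, ∀ q, q ∈ (F.e c).source → fstC (F.e c q) ∈ cpd 1 →
      sndC (F.e c q) ∈ cpd 2 →
      q ∈ (F.e c).symm '' {z | fstC z ∈ cpd 1 ∧ sndC z ∈ cpd 2} := fun c q h1 h2 h3 =>
    ⟨F.e c q, ⟨h2, h3⟩, (F.e c).left_inv h1⟩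
  have hK := (hcomp c).inter (hcomp c')
  set Kc := (F.e c).symm '' {z | fstC z ∈ cpd 1 ∧ sndC z ∈ cpd 2} with hKc
  set Kc' := (F.e c').symm '' {z | fstC z ∈ cpd 1 ∧ sndC z ∈ cpd 2} with hKc'
  have hZ : IsCompact (F.e c '' (Kc ∩ Kc')) :=
    hK.image_of_continuousOn ((F.e c).continuousOn.mono (inter_subset_left.trans (hsrc c)))
  set O : Set (Cn (k + m)) := (F.e c).target ∩ (F.e c).symm ⁻¹'
    ((F.e c').source ∩ F.e c' ⁻¹' (fstC ⁻¹' opd 2)) with hO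
  have hOo : IsOpen O := (F.e c).isOpen_inter_preimage_symm
    ((F.e c').isOpen_inter_preimage ((isOpen_opd 2).preimage continuous_fstC))
  have hsub : F.e c '' (Kc ∩ Kc') ⊆ O := by
    rintro _ ⟨q, ⟨hq, hq'⟩, rfl⟩
    have h1 := hsrc c hq
    have h2 := hsrc c' hq'
    refine ⟨(F.e c).map_source h1, ?_⟩
    rw [mem_preimage, (F.e c).left_inv h1]
    refine ⟨h2, ?_⟩
    obtain ⟨z, ⟨hz1, hz2⟩, rfl⟩ := hq'
    have hz : z ∈ (F.e c').target := by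
      rw [F.fib.target c']
      exact ⟨cpd_subset_opd zero_le_one (by norm_num) hz1,
        cpd_subset_opd zero_le_two (by norm_num) hz2⟩
    rw [mem_preimage, mem_preimage, (F.e c').right_inv hz]
    exact cpd_subset_opd zero_le_one (by norm_num) hz1
  obtain ⟨δ, hδ, hδs⟩ := hZ.exists_thickening_subset_open hOo hsub
  refine ⟨δ, hδ, fun q hq hq' h1 h1' h2 z' r hr0 hr hz' => ?_⟩
  have h2' : sndC (F.e c' q) ∈ cpd 2 := by
    have h3 := (F.fib.proj c q hq).2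
    have h4 := (F.fib.proj c' q hq').2
    rw [← hcc] at h4
    rw [← h4, h3]
    exact h2
  have h3 : F.e c q ∈ F.e c '' (Kc ∩ Kc') := ⟨q, ⟨hmem c q hq h1 h2, hmem c' q hq' h1' h2'⟩, rfl⟩
  have h4 : joinC z' (sndC (F.e c q)) ∈ Metric.thickening δ (F.e c '' (Kc ∩ Kc')) := by
    refine Metric.mem_thickening_iff.2 ⟨F.e c q, h3, ?_⟩
    have h5 := dist_joinC_le (sndC (F.e c q)) hr0 hz'
    rw [joinC_fst_snd] at h5
    exact h5.trans_lt hr
  obtain ⟨-, h6, h7⟩ := hδs h4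
  refine ⟨h6, fun i => (h7 i).le⟩

omit [CompactSpace M] [T2Space Y] in
theorem Fib.overlap : ∃ r₀ ∈ Ioc (0 : ℝ) 1, ∀ c c', F.pc c = F.pc c' → ∀ q,
    q ∈ (F.e c).source → q ∈ (F.e c').source → fstC (F.e c q) ∈ cpd 1 →
    fstC (F.e c' q) ∈ cpd 1 → sndC (F.e c q) ∈ cpd 2 → ∀ z',
    nsq (z' - fstC (F.e c q)) ≤ r₀ ^ 2 →
    (F.e c).symm (joinC z' (sndC (F.e c q))) ∈ (F.e c').source ∧
      fstC (F.e c' ((F.e c).symm (joinC z' (sndC (F.e c q))))) ∈ cpd 2 := by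
  classical
  have h : ∀ q : κ × κ, ∃ δ > 0, F.pc q.1 = F.pc q.2 → ∀ p,
      p ∈ (F.e q.1).source → p ∈ (F.e q.2).source → fstC (F.e q.1 p) ∈ cpd 1 →
      fstC (F.e q.2 p) ∈ cpd 1 → sndC (F.e q.1 p) ∈ cpd 2 → ∀ z', ∀ r, 0 ≤ r → r < δ →
      nsq (z' - fstC (F.e q.1 p)) ≤ r ^ 2 →
      (F.e q.1).symm (joinC z' (sndC (F.e q.1 p))) ∈ (F.e q.2).source ∧
        fstC (F.e q.2 ((F.e q.1).symm (joinC z' (sndC (F.e q.1 p))))) ∈ cpd 2 := by
    intro q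
    by_cases hq : F.pc q.1 = F.pc q.2
    · obtain ⟨δ, hδ, h⟩ := F.overlap_one q.1 q.2 hq
      exact ⟨δ, hδ, fun _ => h⟩
    · exact ⟨1, one_pos, fun h => absurd h hq⟩
  choose δ hδ h using h
  have hev : ∀ᶠ r in 𝓝[>] (0 : ℝ), (∀ q, r < δ q) ∧ r < 1 ∧ 0 < r := by
    refine Filter.Eventually.and ?_ (Filter.Eventually.and ?_ self_mem_nhdsWithin)
    · rw [eventually_all]
      intro q
      exact (eventually_lt_nhds (hδ q)).filter_mono nhdsWithin_le_nhds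
    · exact (eventually_lt_nhds one_pos).filter_mono nhdsWithin_le_nhds
  obtain ⟨r, hr, hr1, hr0⟩ := hev.exists
  exact ⟨r, ⟨hr0, hr1.le⟩, fun c c' hcc q h1 h2 h3 h4 h5 z' hz' =>
    h (c, c') hcc q h1 h2 h3 h4 h5 z' r hr0.le (hr (c, c')) hz'⟩

end Fib

end Pool.Agent.KRFF
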