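import Pool.Agent.Work.MP_a2bf38_gt.I.GapB
import Pool.Agent.Work.MP_a2bf38_gt.I.FBound
import Pool.Agent.Work.MP_a2bf38_gt.I.Overlap

/-!
# Section 5: the potential on a fibre, one step from a chart to a neighbouring chart
-/

open scoped ContDiff ENNReal ComplexOrder Topology
open Set Filter Pool.Agent.ToricKRF Pool.Agent.ToricKRF.G Pool.Agent.KRFS

namespace Pool.Agent.KRFF

/-- The statement of `psh_good`. -/
def PshGood (k : ℕ) : Prop := ∃ C : ℝ, 0 < C ∧ ∀ (g : Cn k → ℝ) (L : ℝ) (z₁ : Cn k),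
    ContDiffOn ℝ ∞ g (opd 9) → (∀ z ∈ opd (k := k) 9, g z ≤ 0) →
    (∀ z ∈ opd (k := k) 9, ∀ u, 0 ≤ levz g u z) → z₁ ∈ cpd 2 → -L ≤ g z₁ →
    ∀ z ∈ cpd (k := k) 2, ∀ r ∈ Ioc (0 : ℝ) 1,
      ∃ z', nsq (z' - z) ≤ r ^ 2 ∧ -(C * L * (1 / r) ^ (2 * k)) ≤ g z'

namespace FS

theorem nsq_joinC {k m : ℕ} (u : Cn k) (y : Cn m) : nsq (joinC u y) = nsq u + nsq y := by
  rw [Gap.nsq_eq, Gap.nsq_eq, Gap.nsq_eq, Fin.sum_univ_add]
  simp [joinC]

theorem opd_mono {k : ℕ} {a b : ℝ} (ha : 0 ≤ a) (h : a ≤ b) : opd (k := k) a ⊆ opd b := by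
  intro u hu i
  have h1 := hu i
  have h2 : a ^ 2 ≤ b ^ 2 := pow_le_pow_left₀ ha h 2
  linarith

section Fib

variable {k m : ℕ} {M Y : Type} [TopologicalSpace M] [TopologicalSpace Y] {κ P : Type} {T : ℝ}
  (F : Fib k m M Y κ P T)

theorem join_mem {c : κ} {u : Cn k} {y : Cn m} (hu : u ∈ opd 10) (hy : y ∈ opd 10) :
    joinC u y ∈ (F.e c).target := by
  rw [Gap.mem_target, Gap.fstC_joinC, Gap.sndC_joinC]
  exact ⟨hu, hy⟩

/-- the potential on a fibre is smooth -/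
theorem slice_smooth {c : κ} {t : ℝ} (ht : t ∈ Ico 0 T) {y : Cn m} (hy : y ∈ opd 10) :
    ContDiffOn ℝ ∞ (fun u : Cn k => F.phi c (t, joinC u y)) (opd 10) := by
  obtain ⟨U, -, hsub, hs⟩ := F.phi_isFun.smooth c
  have h1 : ContDiff ℝ ∞ (fun u : Cn k => ((t, joinC u y) : ℝ × Cn (k + m))) :=
    contDiff_const.prodMk (Gap.contDiff_joinC.comp (contDiff_id.prodMk contDiff_const))
  exact hs.comp h1.contDiffOn fun u hu => hsub ⟨ht, join_mem F hu hy⟩

/-- the Levi form of the potential on a fibre -/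
theorem slice_levz {c : κ} {t : ℝ} (ht : t ∈ Ico 0 T) {y : Cn m} (hy : y ∈ opd 10) {u : Cn k}
    (hu : u ∈ opd 10) (w : Cn k) :
    levz (fun u : Cn k => F.phi c (t, joinC u y)) w u =
      lev (F.ψ c) (joinC w 0) (t, joinC u y) -
        (1 - t / T) * lev (F.ψ c) (joinC w 0) (0, joinC u y) := by
  obtain ⟨U, hU, hsub, hs⟩ := F.phi_isFun.smooth c
  have hz : joinC u y ∈ (F.e c).target := join_mem F hu hy
  have hsl : ContDiffOn ℝ ∞ (fun z => F.phi c (t, z)) (F.e c).target :=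
    hs.comp (contDiff_const.prodMk contDiff_id).contDiffOn fun z hz => hsub ⟨ht, hz⟩
  have h := levz_comp (H := fun u : Cn k => joinC u y) (F.e c).open_target hsl isOpen_univ
    (Gap.holOn_joinC y) (mem_univ u) hz w
  have hU' : (t, joinC u y) ∈ U := hsub ⟨ht, hz⟩
  have h2 : levz (fun z => F.phi c (t, z)) (joinC w 0) (joinC u y) =
      lev (F.phi c) (joinC w 0) (t, joinC u y) := levz_slice hU hs hU' _
  rw [h, Gap.fderiv_joinC, h2, F.lev_phi ht hz, Gap.levz_theta F hz]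
  ring

end Fib

end FS

open FS

section Fib

variable {k m : ℕ} {M Y : Type} [TopologicalSpace M] [CompactSpace M] [T2Space M]
  [TopologicalSpace Y] [T2Space Y] {κ P : Type} [Finite κ] {T : ℝ} (F : Fib k m M Y κ P T)

omit [CompactSpace M] [T2Space Y] in
theorem Fib.step_of (hpsh : PshGood k) : ∃ B : ℝ, 1 ≤ B ∧ ∀ t ∈ Ico 0 T, ∀ c c',
    F.pc c = F.pc c' → ∀ y ∈ cpd (k := m) 2, ∀ Mx L : ℝ, 0 ≤ L →
    (∀ u ∈ opd (k := k) 10, F.phi c (t, joinC u y) ≤ Mx) →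
    (∃ u ∈ cpd (k := k) 2, Mx - L ≤ F.phi c (t, joinC u y)) →
    (∃ q, q ∈ (F.e c).source ∧ q ∈ (F.e c').source ∧ sndC (F.e c q) = y ∧
      fstC (F.e c q) ∈ cpd 1 ∧ fstC (F.e c' q) ∈ cpd 1) →
    ∃ u ∈ cpd (k := k) 2, Mx - B * (L + (T - t)) ≤ F.phi c' (t, joinC u y) := by
  by_cases hT : 0 < T
  swap
  · refine ⟨1, le_rfl, fun t ht => ?_⟩
    exact absurd (lt_of_le_of_lt ht.1 ht.2) hT
  obtain ⟨C, hC, hpsh⟩ := hpsh
  obtain ⟨r₀, hr₀, hov⟩ := F.overlap
  obtain ⟨C₁, hC₁, hslab⟩ := Gap.exists_const_slab F hT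
  set R : ℝ := C * (1 / r₀) ^ (2 * k) with hR
  have hr₀0 : 0 < r₀ := hr₀.1
  have hR0 : 0 < R := by positivity
  have hk : (0 : ℝ) ≤ k := Nat.cast_nonneg k
  refine ⟨1 + R * (1 + 81 * k * (C₁ / T)), ?_, ?_⟩
  · have : 0 ≤ R * (1 + 81 * k * (C₁ / T)) := by positivity
    linarith
  rintro t ht c c' hcc y hy Mx L hL hmax ⟨u₁, hu₁, hgood⟩ ⟨q, hq, hq', hqy, hq1, hq1'⟩
  have hTt : 0 ≤ T - t := by linarith [ht.2]
  set A : ℝ := C₁ * (T - t) / T with hA
  have hA0 : 0 ≤ A := by positivity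
  have hy10 : y ∈ opd (k := m) 10 := Gap.cpd_subset_opd (by norm_num) (by norm_num) hy
  set g : Cn k → ℝ := fun u => F.phi c (t, joinC u y) + (A * nsq u - (Mx + A * (81 * k)))
    with hg
  have hsub : opd (k := k) 9 ⊆ opd 10 := opd_mono (by norm_num) (by norm_num)
  have hs1 := slice_smooth F (c := c) ht hy10
  have hs2 : ContDiff ℝ ∞ (fun u : Cn k => A * nsq u) := contDiff_const.mul Gap.contDiff_nsq'
  have hs3 : ContDiff ℝ ∞ (fun u : Cn k => A * nsq u - (Mx + A * (81 * k))) :=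
    hs2.sub contDiff_const
  have hgs : ContDiffOn ℝ ∞ g (opd 9) := (hs1.mono hsub).add hs3.contDiffOn
  have hnsq : ∀ u ∈ cpd (k := k) 9, nsq u ≤ 81 * k := by
    intro u hu
    have := Gap.nsq_le_of_opd hu
    linarith
  have hg0 : ∀ z ∈ opd (k := k) 9, g z ≤ 0 := by
    intro z hz
    have h1 := hmax z (hsub hz)
    have h2 := mul_le_mul_of_nonneg_left (hnsq z (Gap.opd_subset_cpd hz)) hA0
    simp only [hg]
    linarith
  have hglev : ∀ z ∈ opd (k := k) 9, ∀ u, 0 ≤ levz g u z := by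
    intro z hz w
    have hz10 := hsub hz
    have hc1 : ContDiffAt ℝ 2 (fun u : Cn k => F.phi c (t, joinC u y)) z :=
      ((hs1.contDiffAt ((Gap.isOpen_opd 10).mem_nhds hz10))).of_le two_le_infty
    have hc2 : ContDiffAt ℝ 2 (nsq (n := k)) z := Gap.contDiff_nsq'.contDiffAt.of_le two_le_infty
    have hc3 : ContDiffAt ℝ 2 (fun u : Cn k => A * nsq u) z :=
      hs2.contDiffAt.of_le two_le_infty
    have e1 : levz g w z = levz (fun u : Cn k => F.phi c (t, joinC u y)) w z + A * nsq w := by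
      rw [hg]
      rw [Bd.levz_add hc1 (hs3.contDiffAt.of_le two_le_infty), Bd.levz_sub hc3 contDiffAt_const,
        Bd.levz_const, Bd.levz_const_mul A hc2, Gap.levz_nsq', sub_zero]
    rw [e1, slice_levz F ht hy10 hz10]
    have hzt : joinC z y ∈ (F.e c).target := join_mem F hz10 hy10
    have h1 := Gap.lev_psi_nonneg F.toFlow ht hzt (joinC w 0)
    have hsl : joinC z y ∈ Gap.slab k m 9 9 := by
      refine ⟨?_, ?_⟩
      · rw [Gap.fstC_joinC]
        exact Gap.opd_subset_cpd hz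
      · rw [Gap.sndC_joinC]
        exact Gap.cpd_mono (by norm_num) (by norm_num) hy
    have h2 := (hslab c _ hsl).2.1 (joinC w 0)
    rw [nsq_joinC, Gap.nsq_zero, add_zero] at h2
    have h3 : 1 - t / T = (T - t) / T := by field_simp
    have h4 : 0 ≤ (T - t) / T := by positivity
    have h5 := mul_le_mul_of_nonneg_left h2 h4
    have h6 : (T - t) / T * (C₁ * nsq w) = A * nsq w := by rw [hA]; ring
    rw [h3]
    linarith
  set L' : ℝ := L + A * (81 * k) with hL'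
  have hgz : -L' ≤ g u₁ := by
    have h1 : 0 ≤ A * nsq u₁ := mul_nonneg hA0 (Gap.nsq_nonneg _)
    simp only [hg]
    linarith
  have hq2 : fstC (F.e c q) ∈ cpd (k := k) 2 := Gap.cpd_mono (by norm_num) (by norm_num) hq1
  obtain ⟨z', hz', hgz'⟩ := hpsh g L' u₁ hgs hg0 hglev hu₁ hgz _ hq2 r₀ hr₀
  obtain ⟨ho1, ho2⟩ := hov c c' hcc q hq hq' hq1 hq1' (by rw [hqy]; exact hy) z' hz'
  rw [hqy] at ho1 ho2
  have hz'2 : z' ∈ cpd (k := k) 2 := by
    have h1 := Gap.cpd_of_nsq hq1 zero_le_one hr₀0.le hz'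
    exact Gap.cpd_mono (by linarith) (by linarith [hr₀.2]) h1
  have hz'10 : z' ∈ opd (k := k) 10 := Gap.cpd_subset_opd (by norm_num) (by norm_num) hz'2
  have hzt : joinC z' y ∈ (F.e c).target := join_mem F hz'10 hy10
  set p' : M := (F.e c).symm (joinC z' y) with hp'
  have hp's : p' ∈ (F.e c).source := (F.e c).map_target hzt
  have hep' : F.e c p' = joinC z' y := (F.e c).right_inv hzt
  refine ⟨fstC (F.e c' p'), ho2, ?_⟩
  have hsnd : sndC (F.e c' p') = y := by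
    have h1 := (F.fib.proj c p' hp's).2
    have h2 := (F.fib.proj c' p' ho1).2
    rw [hep', Gap.sndC_joinC] at h1
    rw [← h2, ← hcc, h1]
  have hjoin : joinC (fstC (F.e c' p')) y = F.e c' p' := by
    conv_lhs => rw [← hsnd]
    exact Gap.joinC_fst_snd _
  rw [hjoin, ← F.phi_isFun.eq_of_mem ht hp's ho1, hep']
  have h1 : F.phi c (t, joinC z' y) = g z' - (A * nsq z' - (Mx + A * (81 * k))) := by
    simp only [hg]
    ring
  have h2 := mul_le_mul_of_nonneg_left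
    (hnsq z' (Gap.cpd_mono (by norm_num) (by norm_num) hz'2)) hA0
  have h3 : C * L' * (1 / r₀) ^ (2 * k) = R * L' := by rw [hR]; ring
  rw [h3] at hgz'
  have h4 : R * L' ≤ (1 + R * (1 + 81 * k * (C₁ / T))) * (L + (T - t)) := by
    have e1 : L' = L + 81 * k * (C₁ / T) * (T - t) := by
      rw [hL', hA]
      ring
    rw [e1]
    have e2 : (1 + R * (1 + 81 * k * (C₁ / T))) * (L + (T - t)) -
        R * (L + 81 * k * (C₁ / T) * (T - t)) =
        (L + (T - t)) + R * (81 * k * (C₁ / T)) * L + R * (T - t) := by ring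
    have e3 : 0 ≤ R * (81 * k * (C₁ / T)) * L := by positivity
    have e4 : 0 ≤ R * (T - t) := by positivity
    linarith
  rw [h1]
  linarith

end Fib

end Pool.Agent.KRFF
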