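import Mathlib

/-!
# The numerical part of the gap estimate
-/

open scoped Topology
open Set Filter

namespace Pool.Agent.KRFF

section Numeric

/-- the numerical part of the gap estimate -/
theorem gap_numeric (n k : ℕ) {c C : ℝ} (hc : 0 < c) (hC : 0 ≤ C) :
    ∃ δ₀ : ℝ, 0 < δ₀ ∧ δ₀ ≤ 1 ∧ ∀ δ ∈ Ioo 0 δ₀,
      C * δ * (1 + Real.log (1 / δ ^ (2 * n + 1))) ^ k ≤ √δ ∧
      C * δ * δ ^ (2 * n + 1) / √δ < c * δ ^ (2 * n) := by
  set r : ℝ := 1 / (2 * ((k : ℝ) + 1)) with hr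
  have hk : (0 : ℝ) < (k : ℝ) + 1 := by positivity
  have hr0 : 0 < r := by positivity
  have t1 : Tendsto (fun δ : ℝ => (1 + (2 * n + 1) * -Real.log δ) * δ ^ r) (𝓝[>] 0) (𝓝 0) := by
    have a1 : Tendsto (fun δ : ℝ => Real.log δ * δ ^ r) (𝓝[>] 0) (𝓝 0) :=
      tendsto_log_mul_rpow_nhdsGT_zero hr0
    have a2 : Tendsto (fun δ : ℝ => δ ^ r) (𝓝[>] 0) (𝓝 0) := by
      have : ContinuousAt (fun δ : ℝ => δ ^ r) 0 := Real.continuousAt_rpow_const 0 r (Or.inr hr0.le)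
      have h0 : (0 : ℝ) ^ r = 0 := Real.zero_rpow hr0.ne'
      have := this.tendsto
      rw [h0] at this
      exact this.mono_left nhdsWithin_le_nhds
    have a3 := a2.add (a1.const_mul (-(2 * (n : ℝ) + 1)))
    rw [mul_zero, add_zero] at a3
    refine a3.congr fun δ => ?_
    ring
  have t2 : Tendsto (fun δ : ℝ => C * ((1 + (2 * n + 1) * -Real.log δ) * δ ^ r) ^ (k + 1))
      (𝓝[>] 0) (𝓝 0) := by
    have := (t1.pow (k + 1)).const_mul C
    simpa using this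
  have t3 : Tendsto (fun δ : ℝ => C * √δ * δ) (𝓝[>] 0) (𝓝 0) := by
    have : ContinuousAt (fun δ : ℝ => C * √δ * δ) 0 := by fun_prop
    have h := this.tendsto
    simp only [mul_zero] at h
    exact h.mono_left nhdsWithin_le_nhds
  have e1 : ∀ᶠ δ : ℝ in 𝓝[>] 0, C * ((1 + (2 * n + 1) * -Real.log δ) * δ ^ r) ^ (k + 1) < 1 :=
    t2.eventually (gt_mem_nhds one_pos)
  have e2 : ∀ᶠ δ : ℝ in 𝓝[>] 0, C * √δ * δ < c := t3.eventually (gt_mem_nhds hc)
  obtain ⟨δ₁, hδ₁, hsub⟩ := mem_nhdsGT_iff_exists_Ioo_subset.1 (e1.and e2)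
  refine ⟨min δ₁ 1, lt_min hδ₁ one_pos, min_le_right _ _, fun δ hδ => ?_⟩
  have hδ0 : 0 < δ := hδ.1
  have hδ1 : δ < 1 := hδ.2.trans_le (min_le_right _ _)
  obtain ⟨g1, g2⟩ := hsub ⟨hδ.1, hδ.2.trans_le (min_le_left _ _)⟩
  have hs0 : 0 < √δ := Real.sqrt_pos.2 hδ0
  have hss : √δ * √δ = δ := Real.mul_self_sqrt hδ0.le
  have hlog : 0 ≤ -Real.log δ := by
    have := Real.log_nonpos hδ0.le hδ1.le
    linarith
  have hA : Real.log (1 / δ ^ (2 * n + 1)) = (2 * n + 1) * -Real.log δ := by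
    rw [one_div, Real.log_inv, Real.log_pow]
    push_cast
    ring
  constructor
  · rw [hA]
    set A : ℝ := 1 + (2 * n + 1) * -Real.log δ with hAdef
    have hA1 : 1 ≤ A := by
      have : 0 ≤ (2 * (n : ℝ) + 1) * -Real.log δ := by positivity
      linarith
    have h1 : (δ ^ r) ^ (k + 1) = √δ := by
      rw [← Real.rpow_natCast (δ ^ r), ← Real.rpow_mul hδ0.le, Real.sqrt_eq_rpow]
      congr 1
      rw [hr]
      push_cast
      field_simp
    have h2 : C * (√δ * A ^ (k + 1)) ≤ 1 := by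
      have := g1.le
      rw [mul_pow, h1] at this
      linarith [this, mul_comm (A ^ (k + 1)) (√δ)]
    have h3 : A ^ k ≤ A ^ (k + 1) := pow_le_pow_right₀ hA1 (by omega)
    calc C * δ * A ^ k ≤ C * δ * A ^ (k + 1) := mul_le_mul_of_nonneg_left h3 (by positivity)
      _ = C * (√δ * √δ) * A ^ (k + 1) := by rw [hss]
      _ = √δ * (C * (√δ * A ^ (k + 1))) := by ring
      _ ≤ √δ * 1 := mul_le_mul_of_nonneg_left h2 hs0.le
      _ = √δ := mul_one _
  · rw [div_lt_iff₀ hs0]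
    have h4 : C * δ * δ ^ (2 * n + 1) = (C * √δ * δ) * (√δ * δ ^ (2 * n)) := by
      calc C * δ * δ ^ (2 * n + 1) = C * (√δ * √δ) * δ ^ (2 * n + 1) := by rw [hss]
        _ = _ := by ring
    rw [h4]
    have h5 : 0 < √δ * δ ^ (2 * n) := by positivity
    calc (C * √δ * δ) * (√δ * δ ^ (2 * n)) < c * (√δ * δ ^ (2 * n)) :=
          mul_lt_mul_of_pos_right g2 h5
      _ = c * δ ^ (2 * n) * √δ := by ring

end Numeric

end Pool.Agent.KRFF
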