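import Pool.Agent.Work.MP_a2bf38_gt.I.Setup

/-!
# `ℂ^(k+m)` as a product, for the Lebesgue measure
-/

open scoped ContDiff ENNReal ComplexOrder
open Set MeasureTheory Pool.Agent.ToricKRF Pool.Agent.ToricKRF.G Pool.Agent.KRFS

namespace Pool.Agent.KRFF

variable {k m : ℕ}

@[simp] theorem joinC_fst_snd (z : Cn (k + m)) : joinC (fstC z) (sndC z) = z := by
  refine Prod.ext ?_ ?_ <;> funext i <;> refine Fin.addCases (fun i => ?_) (fun i => ?_) i <;>
    simp [joinC, fstC, sndC]

@[simp] theorem fstC_joinC (u : Cn k) (y : Cn m) : fstC (joinC u y) = u := by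
  refine Prod.ext ?_ ?_ <;> funext i <;> simp [joinC, fstC]

@[simp] theorem sndC_joinC (u : Cn k) (y : Cn m) : sndC (joinC u y) = y := by
  refine Prod.ext ?_ ?_ <;> funext i <;> simp [joinC, sndC]

theorem continuous_fstC : Continuous (fstC : Cn (k + m) → Cn k) := by
  unfold fstC
  fun_prop

theorem continuous_sndC : Continuous (sndC : Cn (k + m) → Cn m) := by
  unfold sndC
  fun_prop

theorem continuous_joinC : Continuous fun q : Cn k × Cn m => joinC q.1 q.2 := by
  refine Continuous.prodMk ?_ ?_ <;>
  · refine continuous_pi fun i => ?_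
    refine Fin.addCases (fun i => ?_) (fun i => ?_) i
    · simp only [Fin.append_left]
      fun_prop
    · simp only [Fin.append_right]
      fun_prop

/-- splitting of `ℝ^(k+m)` -/
theorem measurePreserving_append :
    MeasurePreserving (fun x : Fin (k + m) → ℝ =>
      ((fun i => x (Fin.castAdd m i), fun i => x (Fin.natAdd k i)) :
        (Fin k → ℝ) × (Fin m → ℝ))) volume volume := by
  have h1 := volume_measurePreserving_piCongrLeft (fun _ : Fin (k + m) => ℝ)
    (finSumFinEquiv (m := k) (n := m))
  have h2 := volume_measurePreserving_sumPiEquivProdPi (fun _ : Fin k ⊕ Fin m => ℝ)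
  have h3 := h2.comp h1.symm
  convert h3 using 1
  funext x
  refine Prod.ext ?_ ?_ <;> funext i <;>
    simp [MeasurableEquiv.piCongrLeft, MeasurableEquiv.sumPiEquivProdPi, Equiv.piCongrLeft,
      Equiv.piCongrLeft']

theorem measurePreserving_middle {α β γ δ : Type*} [MeasureSpace α] [MeasureSpace β]
    [MeasureSpace γ] [MeasureSpace δ] [SigmaFinite (volume : Measure α)]
    [SigmaFinite (volume : Measure β)] [SigmaFinite (volume : Measure γ)]
    [SigmaFinite (volume : Measure δ)] :
    MeasurePreserving (fun q : (α × β) × (γ × δ) => ((q.1.1, q.2.1), (q.1.2, q.2.2)))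
      volume volume := by
  have h1 : MeasurePreserving (fun q : (α × β) × (γ × δ) => (q.1.1, (q.1.2, q.2)))
      volume volume := volume_preserving_prodAssoc
  have h2 : MeasurePreserving (fun q : β × (γ × δ) => ((q.1, q.2.1), q.2.2)) volume volume :=
    (volume_preserving_prodAssoc (α₁ := β) (β₁ := γ) (γ₁ := δ)).symm
  have h3 : MeasurePreserving (fun q : (β × γ) × δ => ((q.1.2, q.1.1), q.2)) volume volume :=
    (Measure.measurePreserving_swap (μ := (volume : Measure β)) (ν := (volume : Measure γ))).prod
      (MeasurePreserving.id (volume : Measure δ))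
  have h4 : MeasurePreserving (fun q : (γ × β) × δ => (q.1.1, (q.1.2, q.2))) volume volume :=
    volume_preserving_prodAssoc
  have h5 : MeasurePreserving (fun q : α × (γ × (β × δ)) => ((q.1, q.2.1), q.2.2))
      volume volume :=
    (volume_preserving_prodAssoc (α₁ := α) (β₁ := γ) (γ₁ := β × δ)).symm
  have h6 := (MeasurePreserving.id (volume : Measure α)).prod (h4.comp (h3.comp h2))
  exact h5.comp (h6.comp h1)

/-- splitting of `ℂ^(k+m)` -/
theorem measurePreserving_split :
    MeasurePreserving (fun z : Cn (k + m) => ((fstC z, sndC z) : Cn k × Cn m)) volume volume :=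
  measurePreserving_middle.comp ((measurePreserving_append (k := k) (m := m)).prod
    (measurePreserving_append (k := k) (m := m)))

theorem isCompact_cpd (r : ℝ) : IsCompact (cpd r : Set (Cn k)) := by
  refine Metric.isCompact_of_isClosed_isBounded ?_ ?_
  · have : (cpd r : Set (Cn k)) = ⋂ i, {u | u.1 i ^ 2 + u.2 i ^ 2 ≤ r ^ 2} := by
      ext u
      simp [cpd]
    rw [this]
    refine isClosed_iInter fun i => isClosed_le ?_ continuous_const
    fun_prop
  · refine (Metric.isBounded_closedBall (x := (0 : Cn k)) (r := |r|)).subset fun u hu => ?_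
    rw [mem_closedBall_zero_iff, Prod.norm_def]
    refine max_le ((pi_norm_le_iff_of_nonneg (abs_nonneg r)).2 fun i => ?_)
      ((pi_norm_le_iff_of_nonneg (abs_nonneg r)).2 fun i => ?_)
    · exact sq_le_sq.1 (by nlinarith [hu i, sq_nonneg (u.2 i)])
    · exact sq_le_sq.1 (by nlinarith [hu i, sq_nonneg (u.1 i)])

theorem volume_cpd_ne_top (r : ℝ) : volume (cpd r : Set (Cn k)) ≠ ⊤ :=
  (isCompact_cpd r).measure_lt_top.ne

/-- small slices give a small set -/
theorem volume_le_of_slices {S : Set (Cn (k + m))} (hS : MeasurableSet S) {r : ℝ}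
    (hsub : ∀ z ∈ S, sndC z ∈ cpd r) {a : ℝ≥0∞}
    (h : ∀ y ∈ cpd (k := m) r, volume {u : Cn k | joinC u y ∈ S} ≤ a) :
    volume S ≤ a * volume (cpd r : Set (Cn m)) := by
  have hj : Continuous fun q : Cn k × Cn m => joinC q.1 q.2 := continuous_joinC
  have hS' : MeasurableSet {q : Cn k × Cn m | joinC q.1 q.2 ∈ S} := hj.measurable hS
  have h1 := measurePreserving_split.measure_preimage hS'.nullMeasurableSet
  have h2 : (fun z : Cn (k + m) => ((fstC z, sndC z) : Cn k × Cn m)) ⁻¹'
      {q : Cn k × Cn m | joinC q.1 q.2 ∈ S} = S := by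
    ext z
    simp
  rw [h2] at h1
  rw [h1, Measure.volume_eq_prod, Measure.prod_apply_symm hS',
    ← setLIntegral_const, ← lintegral_indicator (isCompact_cpd r).measurableSet]
  refine lintegral_mono fun y => ?_
  by_cases hy : y ∈ cpd (k := m) r
  · rw [indicator_of_mem hy]
    exact h y hy
  · rw [indicator_of_notMem hy]
    refine le_of_eq (measure_mono_null (t := ∅) (fun u hu => hy ?_) measure_empty)
    simpa using hsub _ hu

end Pool.Agent.KRFF
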