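import Pool.Agent.Work.MP_a2bf38_gt.I.GapA
import Pool.Agent.Work.MP_a2bf38_gt.I.GapNum
import Pool.Agent.Work.MP_a2bf38_gt.I.Split

/-!
# Section 6: the measure of the set where the potential is far below its maximum on the fibre
-/

open scoped ContDiff ENNReal ComplexOrder Topology
open Set MeasureTheory Filter Pool.Agent.ToricKRF Pool.Agent.ToricKRF.G Pool.Agent.KRFS

namespace Pool.Agent.KRFF

namespace Gap

/-- the statement of `psh_decay` with a given constant -/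
def Decay (k : ℕ) (C : ℝ) : Prop := ∀ (g : Cn k → ℝ) (L : ℝ) (z₁ : Cn k),
    ContDiffOn ℝ ∞ g (opd 9) → (∀ z ∈ opd (k := k) 9, g z ≤ 0) →
    (∀ z ∈ opd (k := k) 9, ∀ u, 0 ≤ levz g u z) → z₁ ∈ cpd 2 → -L ≤ g z₁ →
    ∀ ρ ∈ Ioc (0 : ℝ) 1, ∀ N > 0, C * L * (1 + Real.log (1 / ρ)) ^ k ≤ N →
      volume {z | z ∈ cpd (k := k) 2 ∧ g z < -N} ≤ ENNReal.ofReal (C * L * ρ / N)

theorem levz_add {n : ℕ} {f g : Cn n → ℝ} {z : Cn n} (hf : ContDiffAt ℝ 2 f z)
    (hg : ContDiffAt ℝ 2 g z) (u : Cn n) :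
    levz (fun z => f z + g z) u z = levz f u z + levz g u z := by
  have key : ∀ w : Cn n, D w (D w fun z => f z + g z) z = D w (D w f) z + D w (D w g) z := by
    intro w
    have h1 : D w (fun z => f z + g z) =ᶠ[𝓝 z] fun x => D w f x + D w g x := by
      filter_upwards [(hf.eventually (by simp)), (hg.eventually (by simp))] with x hx hx'
      have a1 : DifferentiableAt ℝ f x := hx.differentiableAt (by norm_num)
      have a2 : DifferentiableAt ℝ g x := hx'.differentiableAt (by norm_num)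
      change fderiv ℝ (f + g) x w = _
      rw [fderiv_add a1 a2]
      rfl
    have d1 : DifferentiableAt ℝ (D w f) z :=
      ((hf.fderiv_right (m := 1) (by norm_num)).differentiableAt (by norm_num)).clm_apply
        (differentiableAt_const w)
    have d2 : DifferentiableAt ℝ (D w g) z :=
      ((hg.fderiv_right (m := 1) (by norm_num)).differentiableAt (by norm_num)).clm_apply
        (differentiableAt_const w)
    rw [LC.D_congr w h1]
    change fderiv ℝ (D w f + D w g) z w = _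
    rw [fderiv_add d1 d2]
    rfl
  unfold levz
  rw [key, key]
  ring

/-- decay on one fibre -/
theorem slice_decay {k : ℕ} {Cp : ℝ} (hCp : 0 < Cp) (hdec : Decay k Cp) (n : ℕ) {C₁ A : ℝ}
    (hC₁ : 0 ≤ C₁) (hA : 0 ≤ A) : ∃ δ₀ : ℝ, 0 < δ₀ ∧ δ₀ ≤ 1 ∧ ∀ δ ∈ Ioo 0 δ₀,
      ∀ (g : Cn k → ℝ) (M₀ : ℝ), ContDiffOn ℝ ∞ g (opd 9) → (∀ u ∈ opd (k := k) 9, g u ≤ M₀) →
      (∀ u ∈ opd (k := k) 9, ∀ w, -(A * δ * nsq w) ≤ levz g w u) →
      (∃ u ∈ cpd (k := k) 2, M₀ - C₁ * δ ≤ g u) →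
      volume {u | u ∈ cpd (k := k) 2 ∧ g u < M₀ - √δ / 2} ≤
        ENNReal.ofReal (2 * Cp * (C₁ + 81 * k * A) * δ * δ ^ (2 * n + 1) / √δ) := by
  have hB : 0 ≤ C₁ + 81 * k * A := by positivity
  obtain ⟨δ₀, h0, h1, hδ₀⟩ := gap_numeric n k (c := 1) (C := 2 * Cp * (C₁ + 81 * k * A))
    one_pos (by positivity)
  refine ⟨δ₀, h0, h1, fun δ hδ g M₀ hg hle hlev hex => ?_⟩
  obtain ⟨g1, -⟩ := hδ₀ δ hδ
  have hδ0 : 0 < δ := hδ.1
  have hδ1 : δ ≤ 1 := hδ.2.le.trans h1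
  have hs0 : 0 < √δ := Real.sqrt_pos.2 hδ0
  obtain ⟨u₁, hu₁, hu₁'⟩ := hex
  have hsub : cpd (k := k) 2 ⊆ opd 9 := cpd_subset_opd (by norm_num) (by norm_num)
  set q : Cn k → ℝ := fun u => A * δ * (nsq u - 81 * k) + -M₀ with hq
  set G : Cn k → ℝ := fun u => g u + q u with hG
  have hqc : ContDiff ℝ ∞ q := by
    have := contDiff_nsq' (n := k)
    rw [hq]
    fun_prop
  have hqle : ∀ u ∈ opd (k := k) 9, A * δ * (nsq u - 81 * k) ≤ 0 := by
    intro u hu
    have h2 := nsq_le_of_opd (opd_subset_cpd hu)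
    have h3 : nsq u - 81 * k ≤ 0 := by linarith
    exact mul_nonpos_of_nonneg_of_nonpos (by positivity) h3
  have hGc : ContDiffOn ℝ ∞ G (opd 9) := hg.add hqc.contDiffOn
  have hlevq : ∀ u w : Cn k, levz q w u = A * δ * nsq w := by
    intro u w
    have key : ∀ w : Cn k, D w (D w q) u = A * δ * D w (D w nsq) u := by
      intro w
      have e1 : ∀ x, D w q x = A * δ * D w nsq x := by
        intro x
        have a1 : DifferentiableAt ℝ (nsq (n := k)) x :=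
          contDiff_nsq'.contDiffAt.differentiableAt (by simp)
        have a2 : HasFDerivAt q ((A * δ) • fderiv ℝ nsq x) x :=
          ((a1.hasFDerivAt.sub_const _).const_mul (A * δ)).add_const _
        change fderiv ℝ q x w = _
        rw [a2.fderiv]
        rfl
      have e2 : D w q = fun x => A * δ * D w nsq x := funext e1
      rw [e2]
      have a3 : DifferentiableAt ℝ (D w (nsq (n := k))) u :=
        ((((contDiff_nsq' (n := k)).contDiffAt.of_le two_le_infty).fderiv_right (m := 1)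
          (by norm_num)).differentiableAt (by norm_num)).clm_apply (differentiableAt_const w)
      have a4 := a3.hasFDerivAt.const_mul (A * δ)
      change fderiv ℝ (fun x => A * δ * D w nsq x) u w = _
      rw [a4.fderiv]
      rfl
    have e3 := levz_nsq' w u
    unfold levz at e3 ⊢
    rw [key, key]
    linear_combination A * δ * e3
  have key := hdec G ((C₁ + 81 * k * A) * δ) u₁ hGc
    (fun u hu => by
      have h2 := hle u hu
      have h3 := hqle u hu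
      simp only [hG, hq]
      linarith)
    (fun u hu w => by
      have hgu : ContDiffAt ℝ 2 g u :=
        (hg.contDiffAt ((isOpen_opd 9).mem_nhds hu)).of_le two_le_infty
      rw [hG, levz_add hgu (hqc.contDiffAt.of_le two_le_infty), hlevq]
      have := hlev u hu w
      linarith)
    hu₁
    (by
      have h2 : -(81 * k) ≤ nsq u₁ - 81 * k := by linarith [nsq_nonneg u₁]
      have h3 : A * δ * -(81 * k) ≤ A * δ * (nsq u₁ - 81 * k) :=
        mul_le_mul_of_nonneg_left h2 (by positivity)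
      simp only [hG, hq]
      nlinarith)
    (δ ^ (2 * n + 1)) ⟨by positivity, pow_le_one₀ hδ0.le hδ1⟩ (√δ / 2) (by positivity)
    (by nlinarith)
  have hset : {u | u ∈ cpd (k := k) 2 ∧ g u < M₀ - √δ / 2} ⊆
      {z | z ∈ cpd (k := k) 2 ∧ G z < -(√δ / 2)} := by
    rintro u ⟨hu, hu'⟩
    refine ⟨hu, ?_⟩
    have h3 := hqle u (hsub hu)
    simp only [hG, hq]
    linarith
  refine (measure_mono hset).trans (key.trans (ENNReal.ofReal_le_ofReal (le_of_eq ?_)))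
  field_simp

/-- the volume of a set on which the potential is far below the fibrewise maximum -/
theorem small_volume {k m : ℕ} {Cp : ℝ} (hCp : 0 < Cp) (hdec : Decay k Cp) (n : ℕ) {C₁ A c : ℝ}
    (hC₁ : 0 ≤ C₁) (hA : 0 ≤ A) (hc : 0 < c) : ∃ δ₀ : ℝ, 0 < δ₀ ∧ δ₀ ≤ 1 ∧ ∀ δ ∈ Ioo 0 δ₀,
      ∀ (φ : Cn (k + m) → ℝ) (M₀ : Cn m → ℝ) (P : Set (Cn (k + m))), MeasurableSet P →
      (∀ z ∈ P, fstC z ∈ cpd 2 ∧ sndC z ∈ cpd 2) →
      (∀ y ∈ cpd (k := m) 2, ContDiffOn ℝ ∞ (fun u => φ (joinC u y)) (opd 9)) →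
      (∀ y ∈ cpd (k := m) 2, ∀ u ∈ opd (k := k) 9, φ (joinC u y) ≤ M₀ y) →
      (∀ y ∈ cpd (k := m) 2, ∀ u ∈ opd (k := k) 9, ∀ w,
        -(A * δ * nsq w) ≤ levz (fun u => φ (joinC u y)) w u) →
      (∀ y ∈ cpd (k := m) 2, ∃ u ∈ cpd (k := k) 2, M₀ y - C₁ * δ ≤ φ (joinC u y)) →
      (∀ z ∈ P, φ z < M₀ (sndC z) - √δ / 2) →
      volume P < ENNReal.ofReal (c * δ ^ (2 * n)) := by
  obtain ⟨δ₁, h0, h1, hδ₁⟩ := slice_decay hCp hdec n hC₁ hA
  set V : ℝ := (volume (cpd (k := m) 2)).toReal with hV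
  have hV0 : 0 ≤ V := ENNReal.toReal_nonneg
  obtain ⟨δ₂, h0', h1', hδ₂⟩ := gap_numeric n 0 (c := c)
    (C := 2 * Cp * (C₁ + 81 * k * A) * V) hc (by positivity)
  refine ⟨min δ₁ δ₂, lt_min h0 h0', (min_le_left _ _).trans h1, ?_⟩
  intro δ hδ φ M₀ P hP hPs hsm hle hlev hex hlt
  have hδ1 : δ ∈ Ioo 0 δ₁ := ⟨hδ.1, hδ.2.trans_le (min_le_left _ _)⟩
  have hδ2 : δ ∈ Ioo 0 δ₂ := ⟨hδ.1, hδ.2.trans_le (min_le_right _ _)⟩
  have hδ0 : 0 < δ := hδ.1
  have hs0 : 0 < √δ := Real.sqrt_pos.2 hδ0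
  have key := volume_le_of_slices hP (r := 2) (fun z hz => (hPs z hz).2)
    (a := ENNReal.ofReal (2 * Cp * (C₁ + 81 * k * A) * δ * δ ^ (2 * n + 1) / √δ))
    (fun y hy => by
      refine (measure_mono ?_).trans (hδ₁ δ hδ1 (fun u => φ (joinC u y)) (M₀ y) (hsm y hy)
        (hle y hy) (hlev y hy) (hex y hy))
      intro u hu
      have h2 := hPs _ hu
      have h3 := hlt _ hu
      rw [KRFF.fstC_joinC, KRFF.sndC_joinC] at h2
      rw [KRFF.sndC_joinC] at h3
      exact ⟨h2.1, h3⟩)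
  refine key.trans_lt ?_
  have hVe : volume (cpd (k := m) 2) = ENNReal.ofReal V := by
    rw [hV, ENNReal.ofReal_toReal (volume_cpd_ne_top 2)]
  rw [hVe, ← ENNReal.ofReal_mul (by positivity)]
  refine (ENNReal.ofReal_lt_ofReal_iff (by positivity)).2 ?_
  obtain ⟨-, h4⟩ := hδ₂ δ hδ2
  refine lt_of_le_of_lt (le_of_eq ?_) h4
  ring

end Gap

end Pool.Agent.KRFF
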