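import Pool.Agent.Work.MP_a2bf38_gt.I.GapB
import Pool.Agent.Work.MP_a2bf38_gt.I.Sect

/-!
# Section 6: the gap estimate, from its ingredients
-/

open scoped ContDiff ENNReal ComplexOrder Topology
open Set MeasureTheory Filter Pool.Agent.ToricKRF Pool.Agent.ToricKRF.G Pool.Agent.KRFS

namespace Pool.Agent.KRFF

namespace Gap

/-- the statement `abp` -/
def AbpProp (n : ℕ) : Prop := ∃ C : ℝ, 0 < C ∧ ∀ (v : Cn n → ℝ) (f : ℝ × Cn n → ℝ) (t : ℝ)
    (V : Set (Cn n)) (U : Set (ℝ × Cn n)) (z₀ : Cn n) (r ε D₁ : ℝ),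
    IsOpen V → ContDiffOn ℝ ∞ v V → IsOpen U → ContDiffOn ℝ ∞ f U → 0 < r → 0 < ε →
    {z | nsq (z - z₀) ≤ r ^ 2} ⊆ V →
    (∀ z, nsq (z - z₀) ≤ r ^ 2 → (t, z) ∈ U ∧ (cHess f (t, z)).PosDef ∧
      (cHess f (t, z)).det.re ≤ D₁ ∧ ∀ u, levz v u z ≤ lev f u (t, z)) →
    (∀ z, nsq (z - z₀) = r ^ 2 → v z₀ + ε ≤ v z) →
    ENNReal.ofReal ((ε / r) ^ (2 * n)) ≤ ENNReal.ofReal (C * D₁ ^ 2) *
      volume {z | nsq (z - z₀) ≤ r ^ 2 ∧ v z ≤ v z₀ + ε}

section

variable {k m : ℕ} {M Y : Type} [TopologicalSpace M] [TopologicalSpace Y] {κ P : Type} {T : ℝ}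
  (F : Fib k m M Y κ P T)

/-- the statement `Fib.fibre` -/
def FibreProp : Prop := ∃ C : ℝ, 0 ≤ C ∧ ∀ t ∈ Ico 0 T, ∀ c, ∀ p,
    F.f p ∈ (F.b (F.pc c)).source → F.b (F.pc c) (F.f p) ∈ cpd 2 →
    ∃ u ∈ cpd 2, F.Phi t p - C * (T - t) ≤
      F.phi c (t, joinC u (F.b (F.pc c) (F.f p)))

/-- the fibrewise decay -/
def SliceProp : Prop := ∀ C₁ : ℝ, 0 ≤ C₁ → ∃ C : ℝ, 0 < C ∧ ∃ d₀ : ℝ, 0 < d₀ ∧ ∀ t ∈ Ico 0 T,
    T - t < d₀ → ∀ c, ∀ y ∈ cpd (k := m) 2, ∀ M₀ : ℝ,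
    (∀ u ∈ opd (k := k) 9, F.phi c (t, joinC u y) ≤ M₀) →
    (∃ u ∈ cpd (k := k) 2, M₀ - C₁ * (T - t) ≤ F.phi c (t, joinC u y)) →
    volume {u : Cn k | u ∈ cpd 2 ∧ F.phi c (t, joinC u y) < M₀ - √(T - t) / 2} ≤
      ENNReal.ofReal (C * (T - t) ^ (2 * (k + m) + 1) * √(T - t))

theorem Phi_continuous {t : ℝ} (ht : t ∈ Ico 0 T) : Continuous (F.Phi t) := by
  rw [← continuousOn_univ]
  exact ContinuousOn.comp (f := fun p : M => (t, p)) (F.Phi_continuousOn)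
    (Continuous.prodMk_right t).continuousOn fun p _ => ⟨ht, mem_univ _⟩

theorem Phi_symm {c : κ} {t : ℝ} (ht : t ∈ Ico 0 T) {z : Cn (k + m)} (hz : z ∈ (F.e c).target) :
    F.Phi t ((F.e c).symm z) = F.phi c (t, z) := by
  rw [F.Phi_eq ht ((F.e c).map_target hz), (F.e c).right_inv hz]

theorem det_le {c : κ} {t : ℝ} (ht : t ∈ Ico 0 T) {z : Cn (k + m)} (hz : z ∈ (F.e c).target)
    {Cd C : ℝ} (hd : F.dphi c (t, z) ≤ Cd) (hΩ : F.Ω c z ≤ C) :
    (cHess (F.ψ c) (t, z)).det.re ≤ C * Real.exp Cd := by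
  have h1 := det_pos' F.toFlow ht hz
  have h2 := F.vol.pos c z hz
  have h3 : Real.log (cHess (F.ψ c) (t, z)).det.re ≤ Real.log (F.Ω c z) + Cd := by
    have : F.dphi c (t, z) = Real.log (cHess (F.ψ c) (t, z)).det.re - Real.log (F.Ω c z) := rfl
    linarith
  have h4 := Real.exp_le_exp.2 h3
  rw [Real.exp_log h1, Real.exp_add, Real.exp_log h2] at h4
  exact h4.trans (mul_le_mul_of_nonneg_right hΩ (Real.exp_pos _).le)

theorem ball_subset {z₀ z : Cn (k + m)} (h1 : fstC z₀ ∈ cpd 1) (h2 : sndC z₀ ∈ cpd 1)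
    (hz : nsq (z - z₀) ≤ (1 / 2) ^ 2) : z ∈ slab k m 2 2 := by
  have e1 : fstC z - fstC z₀ = fstC (z - z₀) := rfl
  have e2 : sndC z - sndC z₀ = sndC (z - z₀) := rfl
  constructor
  · refine cpd_mono (by norm_num) (by norm_num) (cpd_of_nsq h1 (by norm_num) (b := 1 / 2)
      (by norm_num) ?_)
    rw [e1]
    exact (nsq_fst_le _).trans hz
  · refine cpd_mono (by norm_num) (by norm_num) (cpd_of_nsq h2 (by norm_num) (b := 1 / 2)
      (by norm_num) ?_)
    rw [e2]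
    exact (nsq_snd_le _).trans hz

theorem gap_small [CompactSpace M] [T2Space Y] [Finite κ] (hT : 0 < T)
    (habp : AbpProp (k + m)) (hfib : FibreProp F) (hdec : SliceProp F) :
    ∃ C : ℝ, 0 ≤ C ∧ ∃ δ : ℝ, 0 < δ ∧ ∀ t ∈ Ico 0 T, T - t < δ → ∀ p p', F.f p = F.f p' →
      F.Phi t p' - F.Phi t p ≤ C * √(T - t) := by
  obtain ⟨Cφ, hCφ, hφ⟩ := F.Phi_bound
  obtain ⟨Cd, hCd, hd⟩ := F.dphi_le
  obtain ⟨C₀, hC₀, hsect⟩ := F.sect
  obtain ⟨C₁, hC₁, hslab⟩ := exists_const_slab F hT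
  obtain ⟨Ca, hCa, habp⟩ := habp
  obtain ⟨Cf, hCf, hfib⟩ := hfib
  obtain ⟨C₆, hC₆, d₆, hd₆, hdec⟩ := hdec Cf hCf
  set D₁ : ℝ := C₁ * Real.exp Cd with hD₁
  have hD₁0 : 0 < D₁ := by positivity
  set V : ℝ := (volume (cpd 2 : Set (Cn m))).toReal with hV
  have hV0 : 0 ≤ V := ENNReal.toReal_nonneg
  set C₇ : ℝ := Ca * D₁ ^ 2 * C₆ * V with hC₇
  have hC₇0 : 0 ≤ C₇ := by positivity
  set C₈ : ℝ := (1 / (2 * T * C₁)) ^ (2 * (k + m)) with hC₈
  have hC₈0 : 0 < C₈ := by positivity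
  set C₉ : ℝ := 2 * C₀ * Cφ / T + 1 / (4 * T * C₁) with hC₉
  have hC₉0 : 0 ≤ C₉ := by positivity
  set δ : ℝ := min (min 1 (T / 2)) (min d₆ (min (C₈ / (C₇ + 1)) (T / (2 * C₀ + 1)))) with hδ
  have hδ0 : 0 < δ := by
    refine lt_min (lt_min one_pos (by linarith)) (lt_min hd₆ (lt_min ?_ ?_)) <;> positivity
  refine ⟨1 + C₉ + C₉, by positivity, δ, hδ0, fun t ht htδ => ?_⟩
  have hx0 : 0 < T - t := by linarith [ht.2]
  have hx1 : T - t ≤ 1 := (htδ.le.trans (min_le_left _ _)).trans (min_le_left _ _)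
  have hx2 : T - t ≤ T / 2 := (htδ.le.trans (min_le_left _ _)).trans (min_le_right _ _)
  have hx3 : T - t < d₆ := htδ.trans_le ((min_le_right _ _).trans (min_le_left _ _))
  have hx4 : T - t ≤ C₈ / (C₇ + 1) := htδ.le.trans ((min_le_right _ _).trans
    ((min_le_right _ _).trans (min_le_left _ _)))
  have hx5 : T - t ≤ T / (2 * C₀ + 1) := htδ.le.trans ((min_le_right _ _).trans
    ((min_le_right _ _).trans (min_le_right _ _)))
  set x : ℝ := T - t with hx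
  have hs0 : 0 < √x := Real.sqrt_pos.2 hx0
  have hss : √x * √x = x := Real.mul_self_sqrt hx0.le
  have hs1 : √x ≤ 1 := by
    rw [Real.sqrt_le_one]
    exact hx1
  have hxs : x ≤ √x := by nlinarith
  have hd1 : 1 - t / T = x / T := by
    rw [hx, sub_div, div_self hT.ne']
  have hκ1 : 2 * C₀ * (1 - t / T) ≤ 1 := by
    rw [hd1]
    rw [le_div_iff₀ (by positivity)] at hx5
    rw [← mul_div_assoc, div_le_one hT]
    nlinarith
  have hT2 : T / 2 ≤ t := by linarith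
  set κ' : ℝ := 2 * C₀ * (1 - t / T) with hκ'
  have hκ0 : 0 ≤ κ' := by
    rw [hκ', hd1]
    positivity
  have hκφ : κ' * Cφ ≤ C₉ * x := by
    have h1 : κ' * Cφ = 2 * C₀ * Cφ / T * x := by
      rw [hκ', hd1]
      ring
    have h2 : 0 ≤ 1 / (4 * T * C₁) * x := by positivity
    rw [h1, hC₉, add_mul]
    linarith
  have hκφ' : κ' * Cφ + x / (T * C₁) / 4 ≤ C₉ * √x := by
    have h1 : κ' * Cφ + x / (T * C₁) / 4 = C₉ * x := by
      rw [hκ', hd1, hC₉]
      field_simp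
    rw [h1]
    exact mul_le_mul_of_nonneg_left hxs hC₉0
  -- the minimal pair
  intro p p' hpp'
  have hcont := Phi_continuous F ht
  have hfc := f_continuous F
  set W : M × M → ℝ := fun q => F.Phi t q.1 - (1 - κ') * F.Phi t q.2 with hW
  have hWc : Continuous W := (hcont.comp continuous_fst).sub
    (continuous_const.mul (hcont.comp continuous_snd))
  have hScl : IsClosed {q : M × M | F.f q.1 = F.f q.2} :=
    isClosed_eq (hfc.comp continuous_fst) (hfc.comp continuous_snd)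
  obtain ⟨⟨x₀, x₁⟩, hx₀₁, hmin⟩ := hScl.isCompact.exists_isMinOn ⟨(p, p'), hpp'⟩ hWc.continuousOn
  have hx₀₁' : F.f x₀ = F.f x₁ := hx₀₁
  have hmin' : ∀ q q', F.f q = F.f q' → W (x₀, x₁) ≤ W (q, q') := fun q q' h => hmin h
  suffices hmain : -((1 + C₉) * √x) ≤ W (x₀, x₁) by
    have h1 := hmin' p p' hpp'
    have h2 : W (p, p') = F.Phi t p - (1 - κ') * F.Phi t p' := rfl
    have h3 := abs_le.1 (hφ t ht p')
    have h4 : κ' * F.Phi t p' ≤ κ' * Cφ := mul_le_mul_of_nonneg_left h3.2 hκ0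
    have h5 : κ' * Cφ ≤ C₉ * √x := hκφ.trans (mul_le_mul_of_nonneg_left hxs hC₉0)
    rw [h2] at h1
    have h6 : (1 + C₉ + C₉) * √x = (1 + C₉) * √x + C₉ * √x := by ring
    rw [h6]
    linarith
  by_contra hcon
  push Not at hcon
  -- the charts
  obtain ⟨j, hj, hj1⟩ := F.fib.cover_base (F.f x₀)
  obtain ⟨c, hcj, hx₀c, hu₀⟩ := F.fib.cover j x₀ hj
  obtain ⟨c', hcj', hx₁c, hu₁⟩ := F.fib.cover j x₁ (by rw [← hx₀₁']; exact hj)
  have hpc : F.pc c = F.pc c' := by rw [hcj, hcj']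
  set z₀ : Cn (k + m) := F.e c x₀ with hz₀
  set u₁ : Cn k := fstC (F.e c' x₁) with hu₁d
  have hz₀t : z₀ ∈ (F.e c).target := (F.e c).map_source hx₀c
  have hy₀ : sndC z₀ ∈ cpd 1 := by
    have h1 := (F.fib.proj c x₀ hx₀c).2
    rw [hcj] at h1
    rw [← h1]
    exact hj1
  have hy₁ : sndC (F.e c' x₁) = sndC z₀ := by
    have h1 := (F.fib.proj c x₀ hx₀c).2
    have h2 := (F.fib.proj c' x₁ hx₁c).2
    rw [← h1, ← h2, hcj, hcj', hx₀₁']
  have hu₁10 : u₁ ∈ opd (k := k) 10 := cpd_subset_opd (by norm_num) (by norm_num) hu₁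
  have hu₁2 : u₁ ∈ cpd (k := k) 2 := cpd_mono (by norm_num) (by norm_num) hu₁
  set h : Cn (k + m) → ℝ := fun z => F.phi c (t, z) -
    (1 - κ') * F.phi c' (t, joinC u₁ (sndC z)) with hh
  have hhs : ContDiffOn ℝ ∞ h {z | fstC z ∈ opd 10 ∧ sndC z ∈ opd 10} :=
    F.sect_smooth c c' ht ht hu₁10 (1 - κ')
  have hVo : IsOpen {z : Cn (k + m) | fstC z ∈ opd 10 ∧ sndC z ∈ opd 10} := by
    have := (F.e c).open_target
    rwa [F.fib.target c] at this
  have htgt : ∀ {z : Cn (k + m)}, fstC z ∈ opd (k := k) 10 → sndC z ∈ opd (k := m) 10 →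
      z ∈ (F.e c).target := fun h1 h2 => F.mem_target h1 h2
  -- `h` is `W`
  have hhW : ∀ z : Cn (k + m), fstC z ∈ opd (k := k) 10 → sndC z ∈ opd (k := m) 10 →
      F.f ((F.e c).symm z) = F.f ((F.e c').symm (joinC u₁ (sndC z))) ∧
      h z = W ((F.e c).symm z, (F.e c').symm (joinC u₁ (sndC z))) := by
    intro z h1 h2
    have h3 := htgt h1 h2
    have h4 := F.join_mem_target (c := c') hu₁10 h2
    refine ⟨?_, ?_⟩
    · rw [f_symm F h3, f_symm F h4, sndC_joinC, hpc]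
    · simp only [hh, hW]
      rw [Phi_symm F ht h3, Phi_symm F ht h4]
  have hmem2 : ∀ {z : Cn (k + m)}, z ∈ slab k m 2 2 →
      fstC z ∈ opd (k := k) 10 ∧ sndC z ∈ opd (k := m) 10 := fun hz =>
    ⟨cpd_subset_opd (by norm_num) (by norm_num) hz.1,
      cpd_subset_opd (by norm_num) (by norm_num) hz.2⟩
  have hz₀10 := (mem_target F).1 hz₀t
  have hh0 : h z₀ = W (x₀, x₁) := by
    rw [(hhW z₀ hz₀10.1 hz₀10.2).2]
    congr 1
    rw [hz₀, (F.e c).left_inv hx₀c]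
    congr 1
    rw [← hz₀, ← hy₁, hu₁d, joinC_fst_snd, (F.e c').left_inv hx₁c]
  have hhmin : ∀ z : Cn (k + m), fstC z ∈ opd (k := k) 10 → sndC z ∈ opd (k := m) 10 →
      h z₀ ≤ h z := by
    intro z h1 h2
    obtain ⟨h3, h4⟩ := hhW z h1 h2
    rw [h4, hh0]
    exact hmin' _ _ h3
  -- the function of the ABP estimate
  set Λ : ℝ := x / (T * C₁) with hΛ
  have hΛ0 : 0 < Λ := by positivity
  have hΛd : Λ = (1 - t / T) / C₁ := by
    rw [hd1, hΛ]
    field_simp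
  set v : Cn (k + m) → ℝ := fun z => h z + Λ * nsq (z - z₀) with hv
  have hns : ContDiff ℝ ∞ (fun z : Cn (k + m) => nsq (z - z₀)) :=
    contDiff_nsq'.comp (contDiff_id.sub contDiff_const)
  have hvs : ContDiffOn ℝ ∞ v {z | fstC z ∈ opd 10 ∧ sndC z ∈ opd 10} :=
    hhs.add (contDiff_const.mul hns).contDiffOn
  have hv0 : v z₀ = h z₀ := by
    simp [hv, nsq_zero]
  obtain ⟨U, hU, hUsub, hψU⟩ := F.krf.smooth c
  have hABP := habp v (F.ψ c) t {z | fstC z ∈ opd 10 ∧ sndC z ∈ opd 10} U z₀ (1 / 2) (Λ / 4) D₁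
    hVo hvs hU hψU (by norm_num) (by positivity)
    (fun z hz => hmem2 (ball_subset hu₀ hy₀ hz))
    (by
      intro z hz
      have hz2 := ball_subset hu₀ hy₀ hz
      obtain ⟨h1, h2⟩ := hmem2 hz2
      have hzt := htgt h1 h2
      have hz9 : z ∈ slab k m 9 9 := ⟨cpd_mono (by norm_num) (by norm_num) hz2.1,
        cpd_mono (by norm_num) (by norm_num) hz2.2⟩
      obtain ⟨g1, g2, g3⟩ := hslab c z hz9
      refine ⟨hUsub ⟨ht, hzt⟩, F.krf.pos c t ht z hzt, det_le F ht hzt (hd c t ht z hzt) g3,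
        fun u => ?_⟩
      have hs := hsect c c' hpc u₁ hu₁2 t ht hT2 hκ1 t ⟨le_rfl, ht.2⟩ z hz2.1 hz2.2 u
      have hhat : ContDiffAt ℝ 2 h z := (hhs.contDiffAt (hVo.mem_nhds ⟨h1, h2⟩)).of_le two_le_infty
      have hnat : ContDiffAt ℝ 2 (fun z : Cn (k + m) => nsq (z - z₀)) z :=
        hns.contDiffAt.of_le two_le_infty
      have hadd : levz v u z = levz h u z + Λ * nsq u := by
        have e1 := Bd.levz_add hhat (contDiffAt_const.mul hnat : ContDiffAt ℝ 2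
          (fun z : Cn (k + m) => Λ * nsq (z - z₀)) z) u
        rw [Bd.levz_const_mul Λ hnat u, levz_nsq] at e1
        exact e1
      rw [hadd]
      have hs' : levz h u z ≤ lev (F.ψ c) u (t, z) - (1 - t / T) * lev (F.ψ c) u (0, z) := hs
      have g4 : Λ * nsq u ≤ (1 - t / T) * lev (F.ψ c) u (0, z) := by
        have g5 := g1 u
        rw [hΛd, div_mul_eq_mul_div, div_le_iff₀ hC₁]
        have g6 : 0 ≤ 1 - t / T := by
          rw [hd1]
          positivity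
        calc (1 - t / T) * nsq u ≤ (1 - t / T) * (C₁ * lev (F.ψ c) u (0, z)) :=
              mul_le_mul_of_nonneg_left g5 g6
          _ = (1 - t / T) * lev (F.ψ c) u (0, z) * C₁ := by ring
      linarith)
    (by
      intro z hz
      have hz2 := ball_subset hu₀ hy₀ hz.le
      obtain ⟨h1, h2⟩ := hmem2 hz2
      have h3 := hhmin z h1 h2
      rw [hv0]
      simp only [hv]
      rw [hz]
      linarith)
  set Pset : Set (Cn (k + m)) := {z | nsq (z - z₀) ≤ (1 / 2) ^ 2 ∧ v z ≤ v z₀ + Λ / 4} with hPset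
  -- the slices
  have hPm : MeasurableSet Pset := by
    have hBcl : IsClosed {z : Cn (k + m) | nsq (z - z₀) ≤ (1 / 2) ^ 2} :=
      isClosed_le hns.continuous continuous_const
    have hvc : ContinuousOn v {z : Cn (k + m) | nsq (z - z₀) ≤ (1 / 2) ^ 2} :=
      hvs.continuousOn.mono fun z hz => hmem2 (ball_subset hu₀ hy₀ hz)
    have h1 : IsClosed ({z : Cn (k + m) | nsq (z - z₀) ≤ (1 / 2) ^ 2} ∩
        v ⁻¹' Iic (v z₀ + Λ / 4)) := hvc.preimage_isClosed_of_isClosed hBcl isClosed_Iic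
    exact h1.measurableSet
  have hslice : ∀ y ∈ cpd (k := m) 2, volume {u : Cn k | joinC u y ∈ Pset} ≤
      ENNReal.ofReal (C₆ * x ^ (2 * (k + m) + 1) * √x) := by
    intro y hy
    have hy10 : y ∈ opd (k := m) 10 := cpd_subset_opd (by norm_num) (by norm_num) hy
    have h0 : (0 : Cn k) ∈ opd (k := k) 10 := by
      intro i
      norm_num
    have hbt : y ∈ (F.b (F.pc c)).target := by
      rw [F.fib.target_base]
      exact hy10
    obtain ⟨q, hq, hqmax⟩ := exists_max_fibre F hcont ((F.e c).symm (joinC 0 y))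
    rw [f_symm F (F.join_mem_target h0 hy10), sndC_joinC] at hq
    have hfq1 : F.f q ∈ (F.b (F.pc c)).source := by
      rw [hq]
      exact (F.b (F.pc c)).map_target hbt
    have hfq2 : F.b (F.pc c) (F.f q) = y := by
      rw [hq, (F.b (F.pc c)).right_inv hbt]
    have hle : ∀ u ∈ opd (k := k) 10, F.phi c (t, joinC u y) ≤ F.Phi t q := by
      intro u hu
      have h1 := F.join_mem_target (c := c) hu hy10
      rw [← Phi_symm F ht h1]
      apply hqmax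
      rw [f_symm F h1, sndC_joinC, hq]
    obtain ⟨w, hw, hwle⟩ := hfib t ht c q hfq1 (by rw [hfq2]; exact hy)
    rw [hfq2] at hwle
    refine le_trans (measure_mono ?_) (hdec t ht hx3 c y hy (F.Phi t q)
      (fun u hu => hle u (fun i => (hu i).trans (by norm_num))) ⟨w, hw, hwle⟩)
    intro u hu
    have hz2 := ball_subset hu₀ hy₀ hu.1
    have hu2 : u ∈ cpd (k := k) 2 := by
      have := hz2.1
      rwa [fstC_joinC] at this
    refine ⟨hu2, ?_⟩
    have h1 : v (joinC u y) ≤ v z₀ + Λ / 4 := hu.2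
    rw [hv0, hh0] at h1
    have h2 : h (joinC u y) ≤ v (joinC u y) := by
      simp only [hv]
      have := mul_nonneg hΛ0.le (nsq_nonneg (joinC u y - z₀))
      linarith
    have h3 : h (joinC u y) = F.phi c (t, joinC u y) - (1 - κ') * F.phi c' (t, joinC u₁ y) := by
      simp only [hh]
      rw [sndC_joinC]
    have h4 : F.phi c' (t, joinC u₁ y) ≤ F.Phi t q := by
      have h5 := F.join_mem_target (c := c') hu₁10 hy10
      rw [← Phi_symm F ht h5]
      apply hqmax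
      rw [f_symm F h5, sndC_joinC, hq, hpc]
    have h5 : -Cφ ≤ F.phi c' (t, joinC u₁ y) := by
      have h5 := F.join_mem_target (c := c') hu₁10 hy10
      rw [← Phi_symm F ht h5]
      exact (abs_le.1 (hφ t ht _)).1
    have h6 : (1 - κ') * F.phi c' (t, joinC u₁ y) ≤ F.Phi t q + κ' * Cφ := by
      have h7 : κ' * -Cφ ≤ κ' * F.phi c' (t, joinC u₁ y) := mul_le_mul_of_nonneg_left h5 hκ0
      linarith
    have h8 : κ' * Cφ + Λ / 4 ≤ C₉ * √x := hκφ'
    have h9 : -((1 + C₉) * √x) = -√x - C₉ * √x := by ring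
    rw [h9] at hcon
    linarith
  have hvol := volume_le_of_slices hPm (r := 2)
    (fun z hz => (ball_subset hu₀ hy₀ hz.1).2) hslice
  -- the contradiction
  have hVe : volume (cpd 2 : Set (Cn m)) = ENNReal.ofReal V := by
    rw [hV, ENNReal.ofReal_toReal (volume_cpd_ne_top 2)]
  have hfin : ENNReal.ofReal ((Λ / 4 / (1 / 2)) ^ (2 * (k + m))) ≤
      ENNReal.ofReal (C₇ * (x ^ (2 * (k + m) + 1) * √x)) := by
    refine hABP.trans ((mul_le_mul_of_nonneg_left hvol zero_le).trans ?_)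
    rw [hVe, ← ENNReal.ofReal_mul (by positivity), ← ENNReal.ofReal_mul (by positivity)]
    apply ENNReal.ofReal_le_ofReal
    rw [hC₇]
    apply le_of_eq
    ring
  rw [ENNReal.ofReal_le_ofReal_iff (by positivity)] at hfin
  have hl : (Λ / 4 / (1 / 2)) ^ (2 * (k + m)) = C₈ * x ^ (2 * (k + m)) := by
    rw [hC₈, ← mul_pow]
    congr 1
    rw [hΛ]
    field_simp
    ring
  rw [hl] at hfin
  have h1 : C₇ * (x ^ (2 * (k + m) + 1) * √x) = (C₇ * x * √x) * x ^ (2 * (k + m)) := by ring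
  rw [h1] at hfin
  have h2 : 0 < x ^ (2 * (k + m)) := by positivity
  have h3 := le_of_mul_le_mul_right hfin h2
  have h4 : C₇ * x * √x ≤ C₇ * x := by
    have : 0 ≤ C₇ * x := by positivity
    nlinarith
  have h5 : (C₇ + 1) * x ≤ C₈ := by
    rw [le_div_iff₀ (by positivity)] at hx4
    linarith
  nlinarith

/-- the gap estimate from its ingredients -/
theorem gap_of [CompactSpace M] [T2Space Y] [Finite κ]
    (habp : AbpProp (k + m)) (hfib : FibreProp F) (hdec : SliceProp F) :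
    ∃ C : ℝ, 0 ≤ C ∧ ∀ t ∈ Ico 0 T, ∀ p p', F.f p = F.f p' →
      F.Phi t p' - F.Phi t p ≤ C * √(T - t) := by
  by_cases hT : 0 < T
  swap
  · exact ⟨0, le_rfl, fun t ht => absurd (lt_of_le_of_lt ht.1 ht.2) hT⟩
  obtain ⟨C, hC, δ, hδ, h⟩ := gap_small F hT habp hfib hdec
  obtain ⟨Cφ, hCφ, hφ⟩ := F.Phi_bound
  refine ⟨C + 2 * Cφ / √δ, by positivity, fun t ht p p' hpp' => ?_⟩
  have hx0 : 0 < T - t := by linarith [ht.2]
  rcases lt_or_ge (T - t) δ with h1 | h1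
  · refine (h t ht h1 p p' hpp').trans ?_
    apply mul_le_mul_of_nonneg_right _ (Real.sqrt_nonneg _)
    have : 0 ≤ 2 * Cφ / √δ := by positivity
    linarith
  · have h2 := abs_le.1 (hφ t ht p)
    have h3 := abs_le.1 (hφ t ht p')
    have h4 : √δ ≤ √(T - t) := Real.sqrt_le_sqrt h1
    have hsδ : 0 < √δ := Real.sqrt_pos.2 hδ
    have h5 : 2 * Cφ ≤ 2 * Cφ / √δ * √(T - t) := by
      rw [div_mul_eq_mul_div, le_div_iff₀ hsδ]
      exact mul_le_mul_of_nonneg_left h4 (by positivity)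
    have h6 : 0 ≤ C * √(T - t) := by positivity
    rw [add_mul]
    linarith

end

end Gap

end Pool.Agent.KRFF
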