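import Pool.Agent.Work.MP_a2bf38_gt.I.ABP2
import Pool.Agent.Work.MP_a2bf38_gt.I.GapC
import Pool.Agent.Work.MP_a2bf38_gt.I.GapD

/-!
# Section 6: the gap estimate, from the decay of plurisubharmonic functions and section 5
-/

open scoped ContDiff ENNReal ComplexOrder Topology
open Set MeasureTheory Filter Pool.Agent.ToricKRF Pool.Agent.ToricKRF.G Pool.Agent.KRFS

namespace Pool.Agent.KRFF

namespace Gap

variable {k m : ℕ} {M Y : Type} [TopologicalSpace M] [TopologicalSpace Y] {κ P : Type} {T : ℝ}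
  (F : Fib k m M Y κ P T)

/-- the Levi form of the potential on a fibre -/
theorem levz_fibre {c : κ} {t : ℝ} (ht : t ∈ Ico 0 T) {u : Cn k} {y : Cn m}
    (hz : joinC u y ∈ (F.e c).target) (w : Cn k) :
    levz (fun u => F.phi c (t, joinC u y)) w u =
      lev (F.ψ c) (joinC w 0) (t, joinC u y) -
        (1 - t / T) * lev (F.ψ c) (joinC w 0) (0, joinC u y) := by
  obtain ⟨U, hU, hsub, hs⟩ := F.phi_isFun.smooth c
  have h1 := levz_comp (F.e c).open_target (F.phi_smooth_slice c ht) isOpen_univ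
    (holOn_joinC y) (mem_univ u) hz w
  have h2 : levz (fun z => F.phi c (t, z)) (joinC w 0) (joinC u y) =
      lev (F.phi c) (joinC w 0) (t, joinC u y) := levz_slice hU hs (hsub (Set.mk_mem_prod ht hz)) _
  rw [fderiv_joinC, h2, F.lev_phi ht hz, levz_theta F hz] at h1
  rw [h1]
  ring

theorem sliceProp_of [Finite κ] {Cp : ℝ} (hCp : 0 < Cp) (hdec : Decay k Cp) : SliceProp F := by
  intro C₁ hC₁
  by_cases hT : 0 < T
  swap
  · exact ⟨1, one_pos, 1, one_pos, fun t ht => absurd (lt_of_le_of_lt ht.1 ht.2) hT⟩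
  obtain ⟨C, hC, hslab⟩ := exists_const_slab F hT
  have hA : 0 ≤ C / T := by positivity
  obtain ⟨δ₀, hδ₀, -, h⟩ := slice_decay hCp hdec (k + m) hC₁ hA
  refine ⟨2 * Cp * (C₁ + 81 * k * (C / T)) + 1, by positivity, δ₀, hδ₀,
    fun t ht htδ c y hy M₀ hle hex => ?_⟩
  have hx0 : 0 < T - t := by linarith [ht.2]
  have hs0 : 0 < √(T - t) := Real.sqrt_pos.2 hx0
  have hss : √(T - t) * √(T - t) = T - t := Real.mul_self_sqrt hx0.le
  have hy10 : y ∈ opd (k := m) 10 := cpd_subset_opd (by norm_num) (by norm_num) hy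
  have h9 : ∀ u ∈ opd (k := k) 9, u ∈ opd (k := k) 10 := fun u hu i =>
    (hu i).trans (by norm_num)
  have key := h (T - t) ⟨hx0, htδ⟩ (fun u => F.phi c (t, joinC u y)) M₀
    (by
      refine (F.phi_smooth_slice c ht).comp ?_ fun u hu => F.join_mem_target (h9 u hu) hy10
      exact (contDiff_joinC.comp (contDiff_id.prodMk contDiff_const)).contDiffOn)
    hle
    (by
      intro u hu w
      have hz := F.join_mem_target (c := c) (h9 u hu) hy10
      have hz9 : joinC u y ∈ slab k m 9 9 := by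
        refine ⟨?_, ?_⟩
        · rw [Gap.fstC_joinC]; exact opd_subset_cpd hu
        · rw [Gap.sndC_joinC]; exact cpd_mono (by norm_num) (by norm_num) hy
      rw [levz_fibre F ht hz]
      have h1 := lev_psi_nonneg F.toFlow ht hz (joinC w 0)
      have h2 := (hslab c _ hz9).2.1 (joinC w 0)
      rw [nsq_joinC_zero] at h2
      have hd1 : 1 - t / T = (T - t) / T := by
        rw [sub_div, div_self hT.ne']
      have h3 : 0 ≤ (T - t) / T := by positivity
      have h4 := mul_le_mul_of_nonneg_left h2 h3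
      have h5 : C / T * (T - t) * nsq w = (T - t) / T * (C * nsq w) := by ring
      rw [hd1, h5]
      linarith)
    hex
  refine key.trans (ENNReal.ofReal_le_ofReal ?_)
  have e1 : 2 * Cp * (C₁ + 81 * k * (C / T)) * (T - t) * (T - t) ^ (2 * (k + m) + 1) / √(T - t) =
      2 * Cp * (C₁ + 81 * k * (C / T)) * (T - t) ^ (2 * (k + m) + 1) * √(T - t) := by
    rw [div_eq_iff hs0.ne', mul_assoc (2 * Cp * (C₁ + 81 * k * (C / T)) *
      (T - t) ^ (2 * (k + m) + 1)), hss]
    ring
  rw [e1]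
  have : 0 ≤ (T - t) ^ (2 * (k + m) + 1) * √(T - t) := by positivity
  nlinarith

/-- the gap estimate from the decay of plurisubharmonic functions and section 5 -/
theorem gap_of_decay [CompactSpace M] [T2Space Y] [Finite κ]
    (hdec : ∃ Cp : ℝ, 0 < Cp ∧ Decay k Cp) (hfib : FibreProp F) :
    ∃ C : ℝ, 0 ≤ C ∧ ∀ t ∈ Ico 0 T, ∀ p p', F.f p = F.f p' →
      F.Phi t p' - F.Phi t p ≤ C * √(T - t) := by
  obtain ⟨Cp, hCp, hd⟩ := hdec
  exact gap_of F (abp (k + m)) hfib (sliceProp_of F hCp hd)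

end Gap

end Pool.Agent.KRFF
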