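import Pool.Agent.Work.MP_a2bf38_gt.I.Path
import Pool.Agent.Work.MP_a2bf38_gt.I.Drop

/-!
# The diameter is bounded along the Kähler-Ricci flow of a smooth Fano fibration
-/

open scoped ContDiff ENNReal ComplexOrder Topology
open Set MeasureTheory Filter Pool.Agent.ToricKRF Pool.Agent.ToricKRF.G Pool.Agent.KRFS

namespace Pool.Agent.KRFF

theorem Fib.diam_bounded {k m : ℕ} {M Y : Type} [TopologicalSpace M] [CompactSpace M] [T2Space M]
    [ConnectedSpace M] [TopologicalSpace Y] [T2Space Y] {κ P : Type} [Finite κ] {T : ℝ}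
    (F : Fib k m M Y κ P T) : ⨆ t ∈ Ico 0 T, rdiam F.e F.ψ t < ⊤ :=
  F.toFlow.diam_of_local fun p => F.toFlow.two_points (by norm_num) (by norm_num) F.drop p

end Pool.Agent.KRFF
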