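import Pool.Agent.Work.MP_a2bf38_gt.I.ModulusCore
import Pool.Agent.Work.MP_a2bf38_gt.I.FBound
import Pool.Agent.Work.MP_a2bf38_gt.I.Exp
import Pool.Agent.Work.MP_a2bf38_gt.I.CircleAvg

/-!
# The modulus of continuity of the potentials, up to the time `T`
-/

open scoped ContDiff ENNReal ComplexOrder Topology
open Set MeasureTheory Filter Pool.Agent.ToricKRF Pool.Agent.ToricKRF.G Pool.Agent.KRFS

namespace Pool.Agent.KRFF

variable {n : ℕ} {M : Type} [TopologicalSpace M] {κ : Type} {T : ℝ} (F : Flow n M κ T)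

theorem Flow.modulus [CompactSpace M] [T2Space M] {a : ℝ} (ha : 0 < a) (ha1 : a ≤ 1)
    (hd : F.Drop a) (c : κ) {A : Set (Cn n)}
    (hA : IsCompact A) (hAt : A ⊆ (F.e c).target) :
    ∃ C : ℝ, 0 ≤ C ∧ ∀ t ∈ Ico 0 T, ∀ z v : Cn n, nsq v ≤ 1 →
      (∀ ζ : ℂ, ‖ζ‖ ≤ 1 / 2 → line z v ζ ∈ A) → ∀ r ∈ Ioc (0 : ℝ) (1 / 4),
      cavg (fun ζ => F.ψ c (t, line z v ζ)) r - F.ψ c (t, z) ≤
        C * Real.log (1 / r) ^ (-a) :=
  F.modulus_aux ha ha1 hd c hA hAt (F.lev_le_exp c hA hAt) (fun _ ht _ hp => F.Phi_eq ht hp)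
    F.Phi_mono fun hG h _ hr => cavg_sub_le hG h hr

end Pool.Agent.KRFF
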