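import Pool.Agent.Work.MP_a2bf38_gt.H.Defs

/-!
# Holomorphic submersions of complex manifolds, in arbitrary charts

`M` and `Y` are complex manifolds with the charts `e c` and `b j`, and `f : M → Y` is a map.
-/

open scoped ContDiff ENNReal ComplexOrder
open Set Pool.Agent.ToricKRF Pool.Agent.ToricKRF.G Pool.Agent.KRFS

namespace Pool.Agent.KRFF

section

variable {M Y : Type} [TopologicalSpace M] [TopologicalSpace Y] {n m : ℕ} {κ P : Type}
  (e : κ → OpenPartialHomeomorph M (Cn n)) (b : P → OpenPartialHomeomorph Y (Cn m)) (f : M → Y)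

/-- the domain of `f` in the charts `e c` and `b j` -/
def cdom (c : κ) (j : P) : Set (Cn n) := {z | z ∈ (e c).target ∧ f ((e c).symm z) ∈ (b j).source}

/-- `f` in the charts `e c` and `b j` -/
def cmap (c : κ) (j : P) (z : Cn n) : Cn m := b j (f ((e c).symm z))

/-- `f : M → Y` is a holomorphic submersion. -/
structure IsSubmersion : Prop where
  continuous : Continuous f
  holo : ∀ c j, HolOn (cmap e b f c j) (cdom e b f c j)
  surj : ∀ c j, ∀ z ∈ cdom e b f c j, Function.Surjective (fderiv ℝ (cmap e b f c j) z)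

/-- `i ∂ ∂bar (K j)` is a Kähler form on `Y`. -/
structure IsKahlerPot (K : P → Cn m → ℝ) : Prop where
  smooth : ∀ j, ContDiffOn ℝ ∞ (K j) (b j).target
  pos : ∀ j, ∀ y ∈ (b j).target, ∀ u, u ≠ 0 → 0 < levz (K j) u y
  compat : ∀ j j', ∀ y ∈ dom b j j', ∀ u,
    levz (K j) u y = levz (K j') (fderiv ℝ (tr b j j') y u) (tr b j j' y)

/-- The limit class `[ω(0)] - 2πT c_1(M)` is the pull-back under `f` of the class of the Kähler form
`i ∂ ∂bar (K j)` of `Y`: there is a volume form `Ω` on `M` with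
`ω(0) + T i ∂ ∂bar log Ω = f^* i ∂ ∂bar (K j)`. -/
structure IsPullbackLimit (T : ℝ) (ψ : κ → ℝ × Cn n → ℝ) (Ω : κ → Cn n → ℝ) (K : P → Cn m → ℝ) :
    Prop where
  volume : IsVolume e ψ Ω
  kahler : IsKahlerPot b K
  eq : ∀ c j, ∀ z ∈ cdom e b f c j, ∀ u,
    lev (ψ c) u (0, z) + T * levz (fun z => Real.log (Ω c z)) u z =
      levz (fun z => K j (cmap e b f c j z)) u z

end

end Pool.Agent.KRFF
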