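import Pool.Agent.Work.MP_a2bf38_gt.I.NatFlow
import Pool.Agent.Work.MP_a2bf38_gt.H.BoundLin
import Pool.Agent.Work.MP_a2bf38_gt.H.Dist

/-!
# The volume form, its curvature form and the distance in the new charts
-/

open scoped ContDiff ENNReal ComplexOrder Topology
open Set Filter MeasureTheory Pool.Agent.ToricKRF Pool.Agent.ToricKRF.G Pool.Agent.KRFS

namespace Pool.Agent.KRFF

section Flow2

variable {n : ℕ} {M : Type} [TopologicalSpace M] {κ κ' : Type}
  {e : κ → OpenPartialHomeomorph M (Cn n)} {e' : κ' → OpenPartialHomeomorph M (Cn n)}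
  {σ : κ' → κ} {T : ℝ} {ψ : κ → ℝ × Cn n → ℝ} {Ω : κ → Cn n → ℝ}

theorem gmap_dom (h : IsRefinement e e' σ) {c c' : κ'} {z : Cn n} (hz : z ∈ dom e' c c') :
    gmap e e' σ c z ∈ dom e (σ c) (σ c') ∧
      tr e (σ c) (σ c') (gmap e e' σ c z) = gmap e e' σ c' (tr e' c c' z) := by
  have h1 : (e' c).symm z ∈ (e' c).source := (e' c).map_target hz.1
  have h2 : (e' c).symm z ∈ (e (σ c)).source := h.sub c h1
  have h3 : (e (σ c)).symm (gmap e e' σ c z) = (e' c).symm z := (e (σ c)).left_inv h2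
  refine ⟨⟨(e (σ c)).map_source h2, ?_⟩, ?_⟩
  · rw [h3]
    exact h.sub c' hz.2
  · unfold tr
    rw [h3]
    unfold gmap
    rw [(e' c').left_inv hz.2]

theorem refine_vol (he : IsAtlas e) (hT : 0 < T) (hψ : IsKRF e T ψ) (hΩ : IsVolume e ψ Ω)
    (h : IsRefinement e e' σ) : IsVolume e' (newψ e e' σ ψ) (newΩ e e' σ Ω) := by
  refine ⟨fun c => ?_, fun c z hz => ?_, fun c c' z hz => ?_⟩
  · exact ((hΩ.smooth (σ c)).comp (gmap_holo h c).1 fun w hw => gmap_mem h hw).mul
      (jac_smooth h c)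
  · exact mul_pos (hΩ.pos _ _ (gmap_mem h hz)) (jac_pos h hz)
  · have h0 : (0 : ℝ) ∈ Ico 0 T := ⟨le_rfl, hT⟩
    have hz' : tr e' c c' z ∈ (e' c').target := (e' c').map_source hz.2
    obtain ⟨h1, h2⟩ := gmap_dom h hz
    have h3 := hΩ.compat (σ c) (σ c') _ h1
    rw [h2] at h3
    rw [refine_det hψ h h0 hz', refine_det hψ h h0 hz.1]
    unfold newΩ
    linear_combination (jac e e' σ c z * jac e e' σ c' (tr e' c c' z)) * h3

theorem levz_add_of {f g : Cn n → ℝ} {S : Set (Cn n)} (hS : IsOpen S)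
    (hf : ContDiffOn ℝ ∞ f S) (hg : ContDiffOn ℝ ∞ g S) {z : Cn n} (hz : z ∈ S) (u : Cn n) :
    levz (fun x => f x + g x) u z = levz f u z + levz g u z := by
  have h2 : ∀ w, D w (D w fun x => f x + g x) z = D w (D w f) z + D w (D w g) z := by
    intro w
    have h1 : D w (fun x => f x + g x) =ᶠ[𝓝 z] fun x => D w f x + D w g x := by
      filter_upwards [hS.mem_nhds hz] with x hx
      change fderiv ℝ (fun x => f x + g x) x w = _
      rw [fderiv_fun_add (diffAt_of_contDiffOn hS hf hx) (diffAt_of_contDiffOn hS hg hx)]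
      rfl
    change fderiv ℝ (D w fun x => f x + g x) z w = _
    rw [h1.fderiv_eq, fderiv_fun_add (diffAt_of_contDiffOn hS (contDiffOn_D hS hf _) hz)
      (diffAt_of_contDiffOn hS (contDiffOn_D hS hg _) hz)]
    rfl
  unfold levz
  rw [h2, h2]
  ring

theorem levz_congr_ev {f g : Cn n → ℝ} {z : Cn n} (h : f =ᶠ[𝓝 z] g) (u : Cn n) :
    levz f u z = levz g u z := by
  have h2 : ∀ w, D w (D w f) z = D w (D w g) z := by
    intro w
    have h1 : D w f =ᶠ[𝓝 z] D w g := by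
      filter_upwards [h.eventuallyEq_nhds] with x hx
      change fderiv ℝ f x w = fderiv ℝ g x w
      rw [hx.fderiv_eq]
    change fderiv ℝ (D w f) z w = fderiv ℝ (D w g) z w
    rw [h1.fderiv_eq]
  unfold levz
  rw [h2, h2]

theorem refine_log (hΩ : IsVolume e ψ Ω) (h : IsRefinement e e' σ) {c : κ'}
    {w : Cn n} (hw : w ∈ (e' c).target) (u : Cn n) :
    levz (fun w => Real.log (newΩ e e' σ Ω c w)) u w =
      levz (fun z => Real.log (Ω (σ c) z)) (fderiv ℝ (gmap e e' σ c) w u)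
        (gmap e e' σ c w) := by
  have hS := (e' c).open_target
  have hΩs : ContDiffOn ℝ ∞ (fun z => Real.log (Ω (σ c) z)) (e (σ c)).target :=
    (hΩ.smooth (σ c)).log fun z hz => (hΩ.pos _ z hz).ne'
  have h1 : (fun w => Real.log (newΩ e e' σ Ω c w)) =ᶠ[𝓝 w] fun w =>
      Real.log (Ω (σ c) (gmap e e' σ c w)) + Real.log (jac e e' σ c w) := by
    filter_upwards [hS.mem_nhds hw] with x hx
    exact Real.log_mul (hΩ.pos _ _ (gmap_mem h hx)).ne' (jac_pos h hx).ne'
  have h2 : ContDiffOn ℝ ∞ (fun w => Real.log (Ω (σ c) (gmap e e' σ c w))) (e' c).target :=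
    hΩs.comp (gmap_holo h c).1 fun w hw => gmap_mem h hw
  rw [levz_congr_ev h1, levz_add_of hS h2
    ((jac_smooth h c).log fun z hz => (jac_pos h hz).ne') hw, levz_log_jac h hw, add_zero]
  exact levz_comp (e (σ c)).open_target hΩs hS (gmap_holo h c) hw (gmap_mem h hw) u

theorem refine_curve (h : IsRefinement e e' σ) {c : κ'} {γ : ℝ → Cn n} {p q : M}
    (hγ : ChartCurve e' c γ p q) :
    ChartCurve e (σ c) (fun s => gmap e e' σ c (γ s)) p q := by
  refine ⟨?_, fun s hs => gmap_mem h (hγ.mem s hs), ?_, ?_⟩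
  · exact ((gmap_holo h c).1.of_le (by exact_mod_cast le_top)).comp hγ.smooth hγ.mem
  · refine ⟨h.sub c hγ.left.1, ?_⟩
    rw [hγ.left.2]
    unfold gmap
    rw [(e' c).left_inv hγ.left.1]
  · refine ⟨h.sub c hγ.right.1, ?_⟩
    rw [hγ.right.2]
    unfold gmap
    rw [(e' c).left_inv hγ.right.1]

theorem refine_clen (hψ : IsKRF e T ψ) (h : IsRefinement e e' σ) {t : ℝ} (ht : t ∈ Ico 0 T)
    {c : κ'} {γ : ℝ → Cn n} {p q : M} (hγ : ChartCurve e' c γ p q) :
    clen ψ t (σ c) (fun s => gmap e e' σ c (γ s)) = clen (newψ e e' σ ψ) t c γ := by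
  unfold clen
  rw [intervalIntegral.integral_of_le zero_le_one, intervalIntegral.integral_of_le zero_le_one,
    integral_Ioc_eq_integral_Ioo, integral_Ioc_eq_integral_Ioo]
  refine setIntegral_congr_fun measurableSet_Ioo fun s hs => ?_
  have hs' : s ∈ Icc (0 : ℝ) 1 := ⟨hs.1.le, hs.2.le⟩
  have hd : DifferentiableAt ℝ γ s :=
    (hγ.smooth.contDiffAt (Icc_mem_nhds hs.1 hs.2)).differentiableAt (by norm_num)
  have hw := hγ.mem s hs'
  have hG : DifferentiableAt ℝ (gmap e e' σ c) (γ s) :=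
    ((gmap_holo h c).1.contDiffAt ((e' c).open_target.mem_nhds hw)).differentiableAt (by simp)
  have h1 : deriv (fun s => gmap e e' σ c (γ s)) s =
      fderiv ℝ (gmap e e' σ c) (γ s) (deriv γ s) :=
    (hG.hasFDerivAt.comp_hasDerivAt s hd.hasDerivAt).deriv
  change √(2 * lev (ψ (σ c)) (deriv (fun s => gmap e e' σ c (γ s)) s)
    (t, gmap e e' σ c (γ s))) = √(2 * lev (newψ e e' σ ψ c) (deriv γ s) (t, γ s))
  rw [h1, refine_lev hψ h ht hw]

theorem refine_rdist (hψ : IsKRF e T ψ) (h : IsRefinement e e' σ) {t : ℝ} (ht : t ∈ Ico 0 T)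
    (p q : M) : rdist e ψ t p q ≤ rdist e' (newψ e e' σ ψ) t p q := by
  refine le_iInf fun m => le_iInf fun x => le_iInf fun c => le_iInf fun γ => le_iInf fun hx => ?_
  refine (rdist_le_chain m x (fun i => σ (c i)) (fun i s => gmap e e' σ (c i) (γ i s))
    ⟨hx.1, hx.2.1, fun i hi => refine_curve h (hx.2.2 i hi)⟩).trans (le_of_eq ?_)
  refine Finset.sum_congr rfl fun i hi => ?_
  rw [refine_clen hψ h ht (hx.2.2 i (Finset.mem_range.1 hi))]

end Flow2

end Pool.Agent.KRFF
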