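import Pool.Agent.Work.MP_a2bf38_gt.I.NatTop
import Pool.Agent.Work.MP_a2bf38_gt.I.NatFlow2
import Pool.Agent.Work.MP_a2bf38_gt.H.BoundCalc

/-!
# The flow in the product charts
-/

open scoped ContDiff ENNReal ComplexOrder Topology
open Set Filter Pool.Agent.ToricKRF Pool.Agent.ToricKRF.G Pool.Agent.KRFS

namespace Pool.Agent.KRFF

section Main

variable {k m : ℕ} {M Y : Type} [TopologicalSpace M] [TopologicalSpace Y] {κ P : Type} {T : ℝ}
  {e : κ → OpenPartialHomeomorph M (Cn (k + m))} {b : P → OpenPartialHomeomorph Y (Cn m)}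
  {f : M → Y} {ψ : κ → ℝ × Cn (k + m) → ℝ} {Ω : κ → Cn (k + m) → ℝ} {K : P → Cn m → ℝ}

theorem refine_limit (hT : 0 < T) (he : IsAtlas e) (hf : IsSubmersion e b f) (hψ : IsKRF e T ψ)
    (hl : IsPullbackLimit e b f T ψ Ω K) {κ' P' : Type}
    {e' : κ' → OpenPartialHomeomorph M (Cn (k + m))}
    {b' : P' → OpenPartialHomeomorph Y (Cn m)} {pc : κ' → P'} {σ : κ' → κ} {ρ : P' → P}
    (hfib : IsFibration e' b' pc f) (href : IsRefinement e e' σ)
    (hsub : ∀ j, (b' j).source ⊆ (b (ρ j)).source) (y₀ : P' → Cn m) (r : P' → ℝ)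
    (hr : ∀ j, 0 < r j)
    (haff : ∀ j, ∀ w ∈ (b' j).target, b (ρ j) ((b' j).symm w) = y₀ j + r j • w) :
    IsFibreLimit e' pc T (newψ e e' σ ψ) (newΩ e e' σ Ω) fun j y => K (ρ j) (y₀ j + r j • y) := by
  have hmem : ∀ j, ∀ y ∈ (opd 10 : Set (Cn m)), y₀ j + r j • y ∈ (b (ρ j)).target := by
    intro j y hy
    rw [← hfib.target_base j] at hy
    rw [← haff j y hy]
    exact (b (ρ j)).map_source (hsub j ((b' j).map_target hy))
  have hlev : ∀ j, ∀ y ∈ (opd 10 : Set (Cn m)), ∀ u,
      levz (fun y => K (ρ j) (y₀ j + r j • y)) u y = levz (K (ρ j)) (r j • u) (y₀ j + r j • y) := by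
    intro j y hy u
    have h := levz_comp (b (ρ j)).open_target (hl.kahler.smooth (ρ j)) isOpen_univ
      (NT.hol_scale (r j) (y₀ j) univ) (mem_univ y) (hmem j y hy) u
    rw [h]
    congr 1
    rw [fderiv_const_add]
    have h2 : fderiv ℝ (fun z : Cn m => r j • z) y = r j • ContinuousLinearMap.id ℝ (Cn m) :=
      (r j • ContinuousLinearMap.id ℝ (Cn m)).fderiv
    rw [h2]
    simp
  refine ⟨refine_vol he hT hψ hl.volume href, ?_, ?_, ?_⟩
  · intro j
    exact (hl.kahler.smooth (ρ j)).comp (by fun_prop) (hmem j)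
  · intro j y hy u hu
    rw [hlev j y hy]
    exact hl.kahler.pos _ _ (hmem j y hy) _ (smul_ne_zero (hr j).ne' hu)
  · intro c z hz u
    have h0 : (0 : ℝ) ∈ Ico 0 T := ⟨le_rfl, hT⟩
    set p := (e' c).symm z with hp
    have hps : p ∈ (e' c).source := (e' c).map_target hz
    have hpσ : p ∈ (e (σ c)).source := href.sub c hps
    obtain ⟨hfp, hbf⟩ := hfib.proj c p hps
    set j := ρ (pc c) with hj
    have hgt : gmap e e' σ c z ∈ (e (σ c)).target := (e (σ c)).map_source hpσ
    have hgs : (e (σ c)).symm (gmap e e' σ c z) = p := (e (σ c)).left_inv hpσ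
    have hgc : gmap e e' σ c z ∈ cdom e b f (σ c) j := ⟨hgt, by
      rw [hgs]
      exact hsub _ hfp⟩
    rw [refine_lev hψ href h0 hz, refine_log hl.volume href hz, hl.eq (σ c) j _ hgc]
    -- the composite
    have hop : IsOpen (cdom e b f (σ c) j) := NT.isOpen_cdom hf.continuous _ _
    have hbt : ∀ x ∈ cdom e b f (σ c) j, cmap e b f (σ c) j x ∈ (b j).target := fun x hx =>
      (b j).map_source hx.2
    have hKs : ContDiffOn ℝ ∞ (fun z => K j (cmap e b f (σ c) j z)) (cdom e b f (σ c) j) :=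
      (hl.kahler.smooth j).comp (hf.holo (σ c) j).1 hbt
    have h1 : levz (fun x => K j (cmap e b f (σ c) j (gmap e e' σ c x))) u z =
        levz (fun z => K j (cmap e b f (σ c) j z)) (fderiv ℝ (gmap e e' σ c) z u)
          (gmap e e' σ c z) :=
      levz_comp hop hKs (e' c).open_target (H := gmap e e' σ c) (href.holo c) hz hgc u
    rw [← h1]
    apply Bd.levz_congr
    filter_upwards [(e' c).open_target.mem_nhds hz] with w hw
    have hws : (e' c).symm w ∈ (e' c).source := (e' c).map_target hw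
    obtain ⟨hfw, hbw⟩ := hfib.proj c _ hws
    have e1 : (e (σ c)).symm (gmap e e' σ c w) = (e' c).symm w :=
      (e (σ c)).left_inv (href.sub c hws)
    have e2 : sndC w = (b' (pc c) (f ((e' c).symm w)) : Cn m) := by
      rw [hbw, (e' c).right_inv hw]
    show K j (b j (f ((e (σ c)).symm (gmap e e' σ c w)))) = K j (y₀ (pc c) + r (pc c) • sndC w)
    rw [e1, e2, ← haff (pc c) _ ((b' (pc c)).map_source hfw), (b' (pc c)).left_inv hfw]

end Main

theorem exists_fib {k m : ℕ} {M Y : Type} [TopologicalSpace M] [CompactSpace M]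
    [TopologicalSpace Y] [T2Space Y] {κ P : Type} {T : ℝ}
    {e : κ → OpenPartialHomeomorph M (Cn (k + m))} {b : P → OpenPartialHomeomorph Y (Cn m)}
    {f : M → Y} {ψ : κ → ℝ × Cn (k + m) → ℝ} {Ω : κ → Cn (k + m) → ℝ} {K : P → Cn m → ℝ}
    (hT : 0 < T) (he : IsAtlas e) (hb : IsAtlas b) (hf : IsSubmersion e b f)
    (hconn : ∀ y, IsPreconnected (f ⁻¹' {y})) (hψ : IsKRF e T ψ)
    (hl : IsPullbackLimit e b f T ψ Ω K) :
    ∃ (κ' P' : Type) (_ : Finite κ') (F : Fib k m M Y κ' P' T),
      ∀ t ∈ Ico 0 T, ∀ p q, rdist e ψ t p q ≤ rdist F.e F.ψ t p q := by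
  obtain ⟨κ', P', hfin, e', b', pc, σ, ρ, hfib, href, hsub, haff⟩ :=
    exists_product_charts he hb hf hconn
  choose y₀ r hr haff using haff
  have hlim := refine_limit hT he hf hψ hl hfib href hsub y₀ r hr haff
  have hKs : ∀ c, ∀ z ∈ (e' c).target, sndC z ∈ (opd 10 : Set (Cn m)) := fun c z hz => by
    rw [hfib.target] at hz
    exact hz.2
  let F : Fib k m M Y κ' P' T :=
    { e := e'
      ψ := newψ e e' σ ψ
      Ω := newΩ e e' σ Ω
      Θ := fun c z => K (ρ (pc c)) (y₀ (pc c) + r (pc c) • sndC z)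
      atlas := refine_atlas he href
      krf := refine_krf he hψ href
      vol := refine_vol he hT hψ hl.volume href
      smooth := fun c => (hlim.smooth (pc c)).comp (NT.hol_sndC _).1 (hKs c)
      psh := fun c z hz u => by
        have h := levz_comp (NT.isOpen_opd 10) (hlim.smooth (pc c)) isOpen_univ
          (NT.hol_sndC (k := k) (m := m) univ) (mem_univ z) (hKs c z hz) u
        rw [NT.fderiv_sndC] at h
        rw [h]
        by_cases hu : sndC u = (0 : Cn m)
        · rw [hu]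
          simp [levz, D, J, Prod.mk_zero_zero]
        · exact (hlim.psh (pc c) _ (hKs c z hz) _ hu).le
      theta := fun c z hz u => hlim.eq c z hz u
      b := b'
      pc := pc
      f := f
      K := fun j y => K (ρ j) (y₀ j + r j • y)
      fib := hfib
      lim := hlim
      Θ_eq := fun c => rfl }
  exact ⟨κ', P', hfin, F, fun t ht p q => refine_rdist hψ href ht p q⟩

end Pool.Agent.KRFF
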