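import Pool.Agent.Work.MP_a2bf38_gt.I.Master
import Pool.Agent.Work.MP_a2bf38_gt.I.NatLim
import Pool.Agent.Work.MP_a2bf38_gt.I.NatLin

/-!
# The theorem for a holomorphic submersion
-/

open scoped ContDiff ENNReal ComplexOrder Topology
open Set Filter Pool.Agent.ToricKRF Pool.Agent.ToricKRF.G Pool.Agent.KRFS

namespace Pool.Agent.KRFF

theorem diam_bounded_of_submersion {n m : ℕ} {M Y : Type} [TopologicalSpace M] [CompactSpace M]
    [T2Space M] [ConnectedSpace M] [TopologicalSpace Y] [T2Space Y] {κ P : Type} {T : ℝ}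
    {e : κ → OpenPartialHomeomorph M (Cn n)} {b : P → OpenPartialHomeomorph Y (Cn m)} {f : M → Y}
    {ψ : κ → ℝ × Cn n → ℝ} {Ω : κ → Cn n → ℝ} {K : P → Cn m → ℝ}
    (he : IsAtlas e) (hb : IsAtlas b) (hf : IsSubmersion e b f)
    (hconn : ∀ y, IsPreconnected (f ⁻¹' {y})) (hψ : IsKRF e T ψ)
    (hl : IsPullbackLimit e b f T ψ Ω K) : ⨆ t ∈ Ico 0 T, rdiam e ψ t < ⊤ := by
  by_cases hT : 0 < T
  swap
  · have : Ico (0 : ℝ) T = ∅ := Ico_eq_empty hT
    simp [this]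
  obtain ⟨k, rfl⟩ : ∃ k, n = k + m := by
    obtain ⟨p⟩ : Nonempty M := inferInstance
    obtain ⟨c, hc⟩ := he.cover p
    obtain ⟨j, hj⟩ := hb.cover (f p)
    exact exists_dim _ (hf.surj c j (e c p) ⟨(e c).map_source hc, by
      rwa [(e c).left_inv hc]⟩)
  obtain ⟨κ', P', _, F, hF⟩ := exists_fib hT he hb hf hconn hψ hl
  refine lt_of_le_of_lt (iSup₂_mono fun t ht => ?_) F.diam_bounded
  exact iSup₂_mono fun p q => hF t ht p q

end Pool.Agent.KRFF
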