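import Pool.Agent.Work.MP_a2bf38_gt.I.NatDefs
import Pool.Agent.Work.MP_a2bf38_gt.I.Setup

/-!
# From a holomorphic submersion to product charts (statements only; nothing may import this file)
-/

open scoped ContDiff ENNReal ComplexOrder Topology
open Set Filter Pool.Agent.ToricKRF Pool.Agent.ToricKRF.G Pool.Agent.KRFS

namespace Pool.Agent.KRFF

/-! ## `I/NatLin.lean` -/

theorem exists_compl {k m : ℕ} (A : Cn (k + m) →L[ℝ] Cn m) (hA : Function.Surjective A)
    (hJ : ∀ u, A (J u) = J (A u)) : ∃ B : Cn (k + m) →L[ℝ] Cn k, (∀ u, B (J u) = J (B u)) ∧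
      Function.Bijective fun u => joinC (B u) (A u) := sorry

theorem exists_dim {n m : ℕ} (A : Cn n →L[ℝ] Cn m) (hA : Function.Surjective A) :
    ∃ k, n = k + m := sorry

/-! ## `I/NatLoc.lean` -/

/-- a biholomorphic map -/
structure IsBihol {n m : ℕ} (φ : OpenPartialHomeomorph (Cn n) (Cn m)) : Prop where
  holo : HolOn φ φ.source
  symm : HolOn φ.symm φ.target

theorem exists_bihol {n : ℕ} {G : Cn n → Cn n} {S : Set (Cn n)} (hS : IsOpen S) (hG : HolOn G S)
    {z₀ : Cn n} (hz : z₀ ∈ S) (hb : Function.Bijective (fderiv ℝ G z₀)) :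
    ∃ φ : OpenPartialHomeomorph (Cn n) (Cn n), IsBihol φ ∧ z₀ ∈ φ.source ∧ φ.source ⊆ S ∧
      ∀ z, φ z = G z := sorry

/-! ## `I/NatFlow.lean` -/

section Flow

variable {n : ℕ} {M : Type} [TopologicalSpace M] {κ κ' : Type}
  (e : κ → OpenPartialHomeomorph M (Cn n)) (e' : κ' → OpenPartialHomeomorph M (Cn n))
  (σ : κ' → κ)

/-- the atlas `e'` is a refinement of `e` -/
structure IsRefinement : Prop where
  cover : ∀ p, ∃ c, p ∈ (e' c).source
  sub : ∀ c, (e' c).source ⊆ (e (σ c)).source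
  holo : ∀ c, HolOn (fun w => e (σ c) ((e' c).symm w)) (e' c).target
  holo' : ∀ c, HolOn (fun z => e' c ((e (σ c)).symm z))
    {z | z ∈ (e (σ c)).target ∧ (e (σ c)).symm z ∈ (e' c).source}

/-- the change of coordinates -/
def gmap (c : κ') (w : Cn n) : Cn n := e (σ c) ((e' c).symm w)

/-- `|det G'|^2` for the change of coordinates `G` -/
noncomputable def jac (c : κ') (w : Cn n) : ℝ := Complex.normSq (Matrix.of fun k a =>
  cc (fderiv ℝ (gmap e e' σ c) w ((Pi.single k 1, 0) : Cn n)) a).det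

/-- the potentials in the new charts -/
noncomputable def newψ (ψ : κ → ℝ × Cn n → ℝ) (c : κ') : ℝ × Cn n → ℝ := fun q =>
  ψ (σ c) (q.1, gmap e e' σ c q.2) + q.1 * Real.log (jac e e' σ c q.2)

/-- the volume form in the new charts -/
noncomputable def newΩ (Ω : κ → Cn n → ℝ) (c : κ') : Cn n → ℝ := fun w =>
  Ω (σ c) (gmap e e' σ c w) * jac e e' σ c w

variable {e e' σ} {T : ℝ} {ψ : κ → ℝ × Cn n → ℝ} {Ω : κ → Cn n → ℝ}

theorem refine_atlas (he : IsAtlas e) (h : IsRefinement e e' σ) : IsAtlas e' := sorry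

theorem refine_krf (he : IsAtlas e) (hψ : IsKRF e T ψ) (h : IsRefinement e e' σ) :
    IsKRF e' T (newψ e e' σ ψ) := sorry

theorem refine_lev (hψ : IsKRF e T ψ) (h : IsRefinement e e' σ) {c : κ'}
    {t : ℝ} (ht : t ∈ Ico 0 T) {w : Cn n} (hw : w ∈ (e' c).target) (u : Cn n) :
    lev (newψ e e' σ ψ c) u (t, w) =
      lev (ψ (σ c)) (fderiv ℝ (gmap e e' σ c) w u) (t, gmap e e' σ c w) := sorry

theorem refine_vol (he : IsAtlas e) (hT : 0 < T) (hψ : IsKRF e T ψ) (hΩ : IsVolume e ψ Ω)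
    (h : IsRefinement e e' σ) : IsVolume e' (newψ e e' σ ψ) (newΩ e e' σ Ω) := sorry

theorem refine_log (hΩ : IsVolume e ψ Ω) (h : IsRefinement e e' σ) {c : κ'}
    {w : Cn n} (hw : w ∈ (e' c).target) (u : Cn n) :
    levz (fun w => Real.log (newΩ e e' σ Ω c w)) u w =
      levz (fun z => Real.log (Ω (σ c) z)) (fderiv ℝ (gmap e e' σ c) w u) (gmap e e' σ c w) := sorry

theorem refine_rdist (hψ : IsKRF e T ψ) (h : IsRefinement e e' σ) {t : ℝ} (ht : t ∈ Ico 0 T)
    (p q : M) : rdist e ψ t p q ≤ rdist e' (newψ e e' σ ψ) t p q := sorry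

end Flow

/-! ## `I/NatTop.lean` -/

section Top

variable {M Y : Type} [TopologicalSpace M] [CompactSpace M] [T2Space M] [TopologicalSpace Y]
  [T2Space Y] {k m : ℕ} {κ P : Type} {e : κ → OpenPartialHomeomorph M (Cn (k + m))}
  {b : P → OpenPartialHomeomorph Y (Cn m)} {f : M → Y}

theorem exists_product_charts (he : IsAtlas e) (hb : IsAtlas b) (hf : IsSubmersion e b f)
    (hconn : ∀ y, IsPreconnected (f ⁻¹' {y})) :
    ∃ (κ' P' : Type) (_ : Finite κ') (e' : κ' → OpenPartialHomeomorph M (Cn (k + m)))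
      (b' : P' → OpenPartialHomeomorph Y (Cn m)) (pc : κ' → P') (σ : κ' → κ) (ρ : P' → P),
      IsFibration e' b' pc f ∧ IsRefinement e e' σ ∧ (∀ j, (b' j).source ⊆ (b (ρ j)).source) ∧
      (∀ j, ∃ (y₀ : Cn m) (r : ℝ), 0 < r ∧ ∀ w ∈ (b' j).target,
        b (ρ j) ((b' j).symm w) = y₀ + r • w) := sorry

end Top

/-! ## `I/NatMain.lean` -/

theorem diam_bounded_of_submersion {n m : ℕ} {M Y : Type} [TopologicalSpace M] [CompactSpace M]
    [T2Space M] [ConnectedSpace M] [TopologicalSpace Y] [T2Space Y] {κ P : Type} {T : ℝ}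
    {e : κ → OpenPartialHomeomorph M (Cn n)} {b : P → OpenPartialHomeomorph Y (Cn m)} {f : M → Y}
    {ψ : κ → ℝ × Cn n → ℝ} {Ω : κ → Cn n → ℝ} {K : P → Cn m → ℝ}
    (he : IsAtlas e) (hb : IsAtlas b) (hf : IsSubmersion e b f)
    (hconn : ∀ y, IsPreconnected (f ⁻¹' {y})) (hψ : IsKRF e T ψ)
    (hl : IsPullbackLimit e b f T ψ Ω K) : ⨆ t ∈ Ico 0 T, rdiam e ψ t < ⊤ := sorry

end Pool.Agent.KRFF
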