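import Pool.Agent.Work.MP_a2bf38_gt.I.CircleAvg

/-!
# The average length of the rays
-/

open scoped ContDiff ENNReal ComplexOrder Topology
open Set MeasureTheory Filter Pool.Agent.ToricKRF Pool.Agent.ToricKRF.G Pool.Agent.KRFS

namespace Pool.Agent.KRFF

namespace Rad

open Circ

variable {G : ℂ → ℝ}

theorem m_bound {a C : ℝ} (hG : ContDiffOn ℝ ∞ G (Metric.ball 0 (1 / 2)))
    (h : ∀ z ∈ Metric.ball (0 : ℂ) (1 / 2), 0 ≤ lapC G z)
    (hc : ∀ r ∈ Ioc (0 : ℝ) (1 / 4), cavg G r - G 0 ≤ C * Real.log (1 / r) ^ (-a)) {s : ℝ}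
    (hs : s ∈ Ioc (0 : ℝ) (1 / 16)) :
    s * cavgD G s ≤ C * (-Real.log s / 2) ^ (-a - 1) := by
  set q : ℝ := s * cavgD G s with hq
  have hsq : √s ∈ Ioc (0 : ℝ) (1 / 4) := by
    refine ⟨Real.sqrt_pos.2 hs.1, ?_⟩
    rw [Real.sqrt_le_left (by norm_num)]
    have := hs.2
    norm_num at this ⊢
    exact this
  have hss : s ≤ √s := by
    have h1 : √s * √s = s := Real.mul_self_sqrt hs.1.le
    nlinarith [hsq.1, hsq.2]
  have hlog : 0 < -Real.log s / 2 := by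
    have h1 : Real.log s < 0 := Real.log_neg hs.1 (by linarith [hs.2])
    linarith
  have hd : ∀ r ∈ Ioo (0 : ℝ) (1 / 2), HasDerivAt (fun r => cavg G r - q * Real.log r)
      (cavgD G r - q * r⁻¹) r := by
    intro r hr
    exact (hasDerivAt_cavg hG (Ico_sub ⟨hr.1.le, hr.2⟩)).sub
      ((Real.hasDerivAt_log hr.1.ne').const_mul q)
  have hsub : Icc s (√s) ⊆ Ioo (0 : ℝ) (1 / 2) := fun r hr =>
    ⟨hs.1.trans_le hr.1, by linarith [hr.2, hsq.2]⟩
  have h2 : cavg G s - q * Real.log s ≤ cavg G (√s) - q * Real.log (√s) := by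
    have hmon : MonotoneOn (fun r => cavg G r - q * Real.log r) (Icc s (√s)) := by
      refine monotoneOn_of_deriv_nonneg (convex_Icc s (√s))
        (fun r hr => (hd r (hsub hr)).continuousAt.continuousWithinAt) ?_ ?_
      · intro r hr
        rw [interior_Icc] at hr
        exact (hd r (hsub ⟨hr.1.le, hr.2.le⟩)).differentiableAt.differentiableWithinAt
      · intro r hr
        rw [interior_Icc] at hr
        have hr' := hsub ⟨hr.1.le, hr.2.le⟩
        rw [(hd r hr').deriv]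
        have h3 := cavgD_monotone hG h (a := s) (b := r) ⟨hs.1.le, by linarith [hs.2]⟩
          ⟨hr'.1.le, hr'.2⟩ hr.1.le
        have h4 : q ≤ r * cavgD G r := h3
        have h5 : q * r⁻¹ ≤ cavgD G r := by
          rw [← div_eq_mul_inv, div_le_iff₀ hr'.1, mul_comm]
          exact h4
        linarith
    exact hmon ⟨le_rfl, hss⟩ ⟨hss, le_rfl⟩ hss
  have h3 : G 0 ≤ cavg G s := le_cavg hG h ⟨hs.1.le, by linarith [hs.2]⟩
  have h4 := hc (√s) hsq
  rw [one_div, Real.log_inv, Real.log_sqrt hs.1.le, ← neg_div] at h4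
  rw [Real.log_sqrt hs.1.le] at h2
  have h5 : q * (-Real.log s / 2) ≤ C * (-Real.log s / 2) ^ (-a) := by linarith
  rw [Real.rpow_sub_one hlog.ne', ← mul_div_assoc, le_div_iff₀ hlog]
  exact h5

theorem sqrt_le {L t : ℝ} (hL : 0 ≤ L) (ht : 0 < t) : √L ≤ (t * L + 1 / t) / 2 := by
  obtain ⟨y, hy, rfl⟩ : ∃ y : ℝ, 0 ≤ y ∧ y ^ 2 = L := ⟨√L, Real.sqrt_nonneg L, Real.sq_sqrt hL⟩
  rw [Real.sqrt_sq hy]
  have h2 : (t * y - 1) ^ 2 / t ≥ 0 := by positivity
  have h3 : (t * y - 1) ^ 2 / t = t * y ^ 2 - 2 * y + 1 / t := by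
    field_simp
    ring
  linarith

theorem P_le (hG : ContDiffOn ℝ ∞ G (Metric.ball 0 (1 / 2)))
    (h : ∀ z ∈ Metric.ball (0 : ℂ) (1 / 2), 0 ≤ lapC G z) {r t : ℝ}
    (hr : r ∈ Ioo (-(1 / 2) : ℝ) (1 / 2)) (ht : 0 < t) :
    ∫ θ in (0 : ℝ)..2 * Real.pi, √(lapC G (r * ee θ)) ≤
      Real.pi * (t * cavg (lapC G) r + 1 / t) := by
  have hc : Continuous fun θ : ℝ => lapC G (r * ee θ) :=
    (contP (lapC G) (continuousOn_lapC hG)).comp_continuous (Continuous.prodMk_right r)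
      fun θ => ⟨hr, mem_univ _⟩
  have h1 : ∫ θ in (0 : ℝ)..2 * Real.pi, √(lapC G (r * ee θ)) ≤
      ∫ θ in (0 : ℝ)..2 * Real.pi, (t * lapC G (r * ee θ) + 1 / t) / 2 := by
    refine intervalIntegral.integral_mono_on (by positivity) (hc.sqrt.intervalIntegrable _ _)
      ((((continuous_const.mul hc).add continuous_const).div_const 2).intervalIntegrable _ _)
      fun θ _ => sqrt_le (h _ (mem_ball hr θ)) ht
  refine h1.trans_eq ?_
  have hi : IntervalIntegrable (fun θ : ℝ => t * lapC G (r * ee θ)) volume 0 (2 * Real.pi) :=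
    (continuous_const.mul hc).intervalIntegrable _ _
  rw [intervalIntegral.integral_div, intervalIntegral.integral_add hi intervalIntegrable_const,
    intervalIntegral.integral_const_mul, intervalIntegral.integral_const, sub_zero, smul_eq_mul]
  have h2 : cavg (lapC G) r = (2 * Real.pi)⁻¹ * ∫ θ in (0 : ℝ)..2 * Real.pi,
      lapC G (r * ee θ) := rfl
  rw [h2]
  have hpi : Real.pi ≠ 0 := Real.pi_ne_zero
  field_simp

theorem hasDerivAt_neglog_rpow {r : ℝ} (hr : r ∈ Ioo (0 : ℝ) 1) (p : ℝ) :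
    HasDerivAt (fun r => (-Real.log r) ^ p) (-r⁻¹ * p * (-Real.log r) ^ (p - 1)) r := by
  have h1 : HasDerivAt (fun r => -Real.log r) (-r⁻¹) r := (Real.hasDerivAt_log hr.1.ne').neg
  have h2 : -Real.log r ≠ 0 := by
    have := Real.log_neg hr.1 hr.2
    linarith
  exact h1.rpow_const (Or.inl h2)

end Rad

open Circ Rad

theorem radial_bound {a : ℝ} (ha : 0 < a) (C : ℝ) : ∃ C' : ℝ, 0 ≤ C' ∧ ∀ G : ℂ → ℝ,
    ContDiffOn ℝ ∞ G (Metric.ball 0 (1 / 2)) → (∀ z ∈ Metric.ball (0 : ℂ) (1 / 2), 0 ≤ lapC G z) →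
    (∀ r ∈ Ioc (0 : ℝ) (1 / 4), cavg G r - G 0 ≤ C * Real.log (1 / r) ^ (-a)) →
    ∫ θ in (0 : ℝ)..2 * Real.pi, ∫ r in (0 : ℝ)..1 / 16,
      √(lapC G (r * Complex.exp (θ * Complex.I))) ≤ C' := by
  set B : ℝ := |C| * (1 / 2 : ℝ) ^ (-a - 1) with hB
  have hB0 : 0 ≤ B := by positivity
  set K : ℝ := ((1 + a / 2) * B + 1) * (2 / a) with hK
  have hK0 : 0 ≤ K := by positivity
  set ℓ₀ : ℝ := -Real.log (1 / 16) with hℓ₀
  have hℓ₀0 : 0 < ℓ₀ := by
    have := Real.log_neg (show (0 : ℝ) < 1 / 16 by norm_num) (by norm_num)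
    linarith
  refine ⟨Real.pi * (ℓ₀ ^ (1 + a / 2) * (B * ℓ₀ ^ (-a - 1)) + K * ℓ₀ ^ (-(a / 2))), by positivity,
    fun G hG h hc0 => ?_⟩
  have hc : ∀ r ∈ Ioc (0 : ℝ) (1 / 4), cavg G r - G 0 ≤ |C| * Real.log (1 / r) ^ (-a) := by
    intro r hr
    refine (hc0 r hr).trans (mul_le_mul_of_nonneg_right (le_abs_self C) ?_)
    refine Real.rpow_nonneg (Real.log_nonneg ?_) _
    rw [le_div_iff₀ hr.1]
    linarith [hr.2]
  have hm : ∀ s ∈ Ioc (0 : ℝ) (1 / 16), s * cavgD G s ≤ B * (-Real.log s) ^ (-a - 1) := by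
    intro s hs
    have h1 := m_bound hG h hc hs
    have h2 : 0 ≤ -Real.log s := by
      have := Real.log_nonpos hs.1.le (by linarith [hs.2])
      linarith
    rw [div_eq_mul_one_div, Real.mul_rpow h2 (by norm_num)] at h1
    rw [hB]
    linarith
  set F : ℝ → ℝ → ℝ := fun θ r => √(lapC G (r * ee θ)) with hF
  -- integrability
  have hFi : IntegrableOn (Function.uncurry F) (uIoc 0 (2 * Real.pi) ×ˢ uIoc 0 (1 / 16)) := by
    have hFc : ContinuousOn (Function.uncurry F) (uIcc 0 (2 * Real.pi) ×ˢ uIcc 0 (1 / 16)) := by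
      have h1 := (contP (lapC G) (continuousOn_lapC hG))
      have h2 : ContinuousOn (fun q : ℝ × ℝ => lapC G (q.2 * ee q.1))
          (uIcc 0 (2 * Real.pi) ×ˢ uIcc 0 (1 / 16)) := by
        refine h1.comp (f := fun q : ℝ × ℝ => (q.2, q.1)) (by fun_prop) fun q hq => ?_
        have h3 : q.2 ∈ uIcc (0 : ℝ) (1 / 16) := hq.2
        rw [uIcc_of_le (by norm_num)] at h3
        exact ⟨⟨by linarith [h3.1], by linarith [h3.2]⟩, mem_univ _⟩
      exact h2.sqrt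
    exact (hFc.integrableOn_compact (isCompact_uIcc.prod isCompact_uIcc)).mono_set
      (prod_mono uIoc_subset_uIcc uIoc_subset_uIcc)
  have hswap := intervalIntegral_intervalIntegral_swap hFi
  set P : ℝ → ℝ := fun r => ∫ θ in (0 : ℝ)..2 * Real.pi, F θ r with hP
  have hPi : IntegrableOn P (Icc 0 (1 / 16)) := by
    rw [integrableOn_Icc_iff_integrableOn_Ioc]
    have h1 : Integrable (Function.uncurry F) ((volume.restrict (uIoc 0 (2 * Real.pi))).prod
        (volume.restrict (uIoc (0 : ℝ) (1 / 16)))) := by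
      rw [Measure.prod_restrict, ← Measure.volume_eq_prod]
      exact hFi
    have h2 := h1.integral_prod_right
    rw [uIoc_of_le (by positivity), uIoc_of_le (by norm_num)] at h2
    refine h2.congr (Eventually.of_forall fun r => ?_)
    simp only [hP]
    rw [intervalIntegral.integral_of_le (by positivity)]
    rfl
  have hgoal : ∫ θ in (0 : ℝ)..2 * Real.pi, ∫ r in (0 : ℝ)..1 / 16,
      √(lapC G (r * Complex.exp (θ * Complex.I))) = ∫ r in (0 : ℝ)..1 / 16, P r := hswap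
  rw [hgoal]
  -- the primitive
  set Ψ : ℝ → ℝ := fun r => Real.pi * ((-Real.log r) ^ (1 + a / 2) * (r * cavgD G r) +
    K * (-Real.log r) ^ (-(a / 2))) with hΨ
  set Ψ' : ℝ → ℝ := fun r => Real.pi * ((-r⁻¹ * (1 + a / 2) * (-Real.log r) ^ (1 + a / 2 - 1) *
    (r * cavgD G r) + (-Real.log r) ^ (1 + a / 2) * (r * cavg (lapC G) r)) +
    K * (-r⁻¹ * (-(a / 2)) * (-Real.log r) ^ (-(a / 2) - 1))) with hΨ'
  have hderiv : ∀ r ∈ Ioo (0 : ℝ) (1 / 2), HasDerivAt Ψ (Ψ' r) r := by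
    intro r hr
    have h1 := hasDerivAt_neglog_rpow (r := r) ⟨hr.1, by linarith [hr.2]⟩ (1 + a / 2)
    have h2 := hasDerivAt_neglog_rpow (r := r) ⟨hr.1, by linarith [hr.2]⟩ (-(a / 2))
    have h3 := hasDerivAt_mul hG (r := r) (Ico_sub ⟨hr.1.le, hr.2⟩) hr.1.ne'
    exact ((h1.mul h3).add (h2.const_mul K)).const_mul Real.pi
  have hle : ∀ r ∈ Ioc (0 : ℝ) (1 / 16), P r ≤ Ψ' r := by
    intro r hr
    have hr0 := hr.1
    set ℓ : ℝ := -Real.log r with hℓ
    have hℓ0 : 0 < ℓ := by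
      have := Real.log_neg hr.1 (by linarith [hr.2])
      linarith
    have h1 := P_le hG h (r := r) (t := r * ℓ ^ (1 + a / 2)) ⟨by linarith, by linarith [hr.2]⟩
      (by positivity)
    refine h1.trans ?_
    rw [hΨ']
    refine mul_le_mul_of_nonneg_left ?_ Real.pi_pos.le
    have e1 : 1 / (r * ℓ ^ (1 + a / 2)) = r⁻¹ * ℓ ^ (-(a / 2) - 1) := by
      rw [one_div, mul_inv, ← Real.rpow_neg hℓ0.le]
      congr 2
      ring
    have e2 := hm r hr
    rw [← hℓ] at e2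
    have e3 : ℓ ^ (1 + a / 2 - 1) * ℓ ^ (-a - 1) = ℓ ^ (-(a / 2) - 1) := by
      rw [← Real.rpow_add hℓ0]
      congr 1
      ring
    have e4 : r⁻¹ * (1 + a / 2) * ℓ ^ (1 + a / 2 - 1) * (r * cavgD G r) ≤
        r⁻¹ * (1 + a / 2) * B * ℓ ^ (-(a / 2) - 1) := by
      calc r⁻¹ * (1 + a / 2) * ℓ ^ (1 + a / 2 - 1) * (r * cavgD G r) ≤
          r⁻¹ * (1 + a / 2) * ℓ ^ (1 + a / 2 - 1) * (B * ℓ ^ (-a - 1)) :=
            mul_le_mul_of_nonneg_left e2 (by positivity)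
        _ = r⁻¹ * (1 + a / 2) * B * (ℓ ^ (1 + a / 2 - 1) * ℓ ^ (-a - 1)) := by ring
        _ = _ := by rw [e3]
    have e5 : K * (a / 2) = (1 + a / 2) * B + 1 := by
      rw [hK]
      field_simp
    rw [e1]
    have e6 : K * (-r⁻¹ * (-(a / 2)) * ℓ ^ (-(a / 2) - 1)) =
        ((1 + a / 2) * B + 1) * (r⁻¹ * ℓ ^ (-(a / 2) - 1)) := by
      rw [← e5]
      ring
    rw [e6]
    nlinarith
  have hΨ0 : ∀ r ∈ Ioc (0 : ℝ) (1 / 16), 0 ≤ Ψ r := by
    intro r hr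
    have h1 : 0 ≤ r * cavgD G r := mul_cavgD_nonneg hG h ⟨hr.1.le, by linarith [hr.2]⟩
    have h2 : 0 ≤ -Real.log r := by
      have := Real.log_nonpos hr.1.le (by linarith [hr.2])
      linarith
    rw [hΨ]
    positivity
  have hδ : ∀ δ ∈ Ioc (0 : ℝ) (1 / 16), ∫ r in δ..1 / 16, P r ≤ Ψ (1 / 16) := by
    intro δ hδ
    have h1 := intervalIntegral.integral_le_sub_of_hasDeriv_right_of_le (g := Ψ) (g' := Ψ')
      (φ := P) hδ.2 (fun r hr => (hderiv r ⟨hδ.1.trans_le hr.1, by linarith [hr.2]⟩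
        ).continuousAt.continuousWithinAt)
      (fun r hr => (hderiv r ⟨hδ.1.trans hr.1, by linarith [hr.2]⟩).hasDerivWithinAt)
      (hPi.mono_set (Icc_subset_Icc_left hδ.1.le))
      (fun r hr => hle r ⟨hδ.1.trans hr.1, hr.2.le⟩)
    have h2 := hΨ0 δ hδ
    linarith
  have hlast : Ψ (1 / 16) ≤
      Real.pi * (ℓ₀ ^ (1 + a / 2) * (B * ℓ₀ ^ (-a - 1)) + K * ℓ₀ ^ (-(a / 2))) := by
    rw [hΨ]
    refine mul_le_mul_of_nonneg_left ?_ Real.pi_pos.le
    have h1 := hm (1 / 16) ⟨by norm_num, le_rfl⟩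
    rw [← hℓ₀] at h1 ⊢
    have h2 := mul_le_mul_of_nonneg_left h1 (show 0 ≤ ℓ₀ ^ (1 + a / 2) by positivity)
    linarith
  have hcont : ContinuousOn (fun x => ∫ t in x..1 / 16, P t) (uIcc 0 (1 / 16)) :=
    intervalIntegral.continuousOn_primitive_interval_left (by
      rwa [uIcc_of_le (by norm_num)])
  refine le_trans ?_ hlast
  have h0 : ContinuousWithinAt (fun x => ∫ t in x..1 / 16, P t) (Ioc 0 (1 / 16)) 0 :=
    (hcont 0 left_mem_uIcc).mono (by
      rw [uIcc_of_le (by norm_num)]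
      exact Ioc_subset_Icc_self)
  have hne : (𝓝[Ioc (0 : ℝ) (1 / 16)] 0).NeBot := by
    rw [← mem_closure_iff_nhdsWithin_neBot, closure_Ioc (by norm_num)]
    exact ⟨le_rfl, by norm_num⟩
  exact le_of_tendsto h0 (by
    filter_upwards [self_mem_nhdsWithin] with δ hδ'
    exact hδ δ hδ')

end Pool.Agent.KRFF
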