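import Pool.Agent.Work.MP_a2bf38_gt.I.PathOf
import Pool.Agent.Work.MP_a2bf38_gt.I.Modulus
import Pool.Agent.Work.MP_a2bf38_gt.I.Radial

/-!
# The distance of nearby points is bounded
-/

open scoped ContDiff ENNReal ComplexOrder Topology
open Set MeasureTheory Filter Pool.Agent.ToricKRF Pool.Agent.ToricKRF.G Pool.Agent.KRFS

namespace Pool.Agent.KRFF

theorem Flow.two_points {n : ℕ} {M : Type} [TopologicalSpace M] {κ : Type} {T : ℝ}
    (F : Flow n M κ T) [CompactSpace M] [T2Space M] {a : ℝ} (ha : 0 < a) (ha1 : a ≤ 1)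
    (hd : F.Drop a) (p : M) :
    ∃ C : ℝ, ∀ᶠ q in 𝓝 p, ∀ t ∈ Ico 0 T, rdist F.e F.ψ t p q ≤ ENNReal.ofReal C :=
  F.two_points_of (a := a) (fun c _ hA hAt => F.modulus ha ha1 hd c hA hAt)
    (fun C => radial_bound ha C) p

end Pool.Agent.KRFF
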