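import Pool.Agent.Work.MP_a2bf38_gt.I.Line
import Pool.Agent.Work.MP_a2bf38_gt.H.Dist
import Pool.Agent.Work.MP_a2bf38_gt.G.Estim

/-!
# Segments in complex lines
-/

open scoped ContDiff ENNReal ComplexOrder
open Set Filter Topology MeasureTheory Pool.Agent.ToricKRF Pool.Agent.ToricKRF.G Pool.Agent.KRFS

namespace Pool.Agent.KRFF

section geom

/-- the rays of angles `θ` from `0` and `π - θ'` from `δ` meet -/
theorem rays_meet {δ θ θ' : ℝ} (hδ : 0 ≤ δ) (hθ : θ ∈ Icc (Real.pi / 6) (Real.pi / 3))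
    (hθ' : θ' ∈ Icc (Real.pi / 6) (Real.pi / 3)) :
    ∃ r ∈ Icc 0 δ, ∃ r' ∈ Icc 0 δ, (r : ℂ) * Complex.exp (θ * Complex.I) =
      δ + r' * Complex.exp (((Real.pi - θ' : ℝ) : ℂ) * Complex.I) := by
  have hpi := Real.pi_pos
  have h1 : ∀ x ∈ Icc (Real.pi / 6) (Real.pi / 3), 0 ≤ Real.sin x ∧
      Real.sin x ≤ √3 / 2 := by
    intro x hx
    refine ⟨Real.sin_nonneg_of_nonneg_of_le_pi (by linarith [hx.1]) (by linarith [hx.2]), ?_⟩
    rw [← Real.sin_pi_div_three]
    exact Real.sin_le_sin_of_le_of_le_pi_div_two (by linarith [hx.1]) (by linarith) hx.2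
  have h2 : √3 / 2 ≤ Real.sin (θ + θ') := by
    rcases le_total (θ + θ') (Real.pi / 2) with h | h
    · rw [← Real.sin_pi_div_three]
      exact Real.sin_le_sin_of_le_of_le_pi_div_two (by linarith) h (by linarith [hθ.1, hθ'.1])
    · rw [← Real.sin_pi_sub (θ + θ'), ← Real.sin_pi_div_three]
      exact Real.sin_le_sin_of_le_of_le_pi_div_two (by linarith)
        (by linarith) (by linarith [hθ.2, hθ'.2])
  have h3 : (0 : ℝ) < √3 / 2 := by positivity
  have hs : 0 < Real.sin (θ + θ') := h3.trans_le h2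
  obtain ⟨a1, a2⟩ := h1 θ hθ
  obtain ⟨b1, b2⟩ := h1 θ' hθ'
  refine ⟨δ * Real.sin θ' / Real.sin (θ + θ'), ⟨by positivity, ?_⟩,
    δ * Real.sin θ / Real.sin (θ + θ'), ⟨by positivity, ?_⟩, ?_⟩
  · rw [div_le_iff₀ hs]
    exact mul_le_mul_of_nonneg_left (b2.trans h2) hδ
  · rw [div_le_iff₀ hs]
    exact mul_le_mul_of_nonneg_left (a2.trans h2) hδ
  · rw [Complex.exp_mul_I, Complex.exp_mul_I, ← Complex.ofReal_cos, ← Complex.ofReal_sin,
      ← Complex.ofReal_cos, ← Complex.ofReal_sin, Real.cos_pi_sub, Real.sin_pi_sub]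
    have hs' := hs.ne'
    rw [Real.sin_add] at hs' ⊢
    have hkey : δ * Real.sin θ' / (Real.sin θ * Real.cos θ' + Real.cos θ * Real.sin θ') *
        Real.cos θ + δ * Real.sin θ / (Real.sin θ * Real.cos θ' + Real.cos θ * Real.sin θ') *
        Real.cos θ' = δ := by
      rw [div_mul_eq_mul_div, div_mul_eq_mul_div, ← add_div, div_eq_iff hs']
      ring
    apply Complex.ext
    · simp only [Complex.mul_re, Complex.ofReal_re, Complex.ofReal_im, Complex.add_re,
        Complex.I_re, Complex.I_im, Complex.mul_im, Complex.add_im]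
      linarith
    · simp only [Complex.mul_re, Complex.ofReal_re, Complex.ofReal_im, Complex.add_re,
        Complex.I_re, Complex.I_im, Complex.mul_im, Complex.add_im]
      ring

end geom

variable {n : ℕ} {M : Type} [TopologicalSpace M] {κ : Type} {T : ℝ} (F : Flow n M κ T)

theorem norm_circle (r θ : ℝ) : ‖(r : ℂ) * Complex.exp (θ * Complex.I)‖ = |r| := by
  rw [norm_mul, Complex.norm_exp_ofReal_mul_I, mul_one, Complex.norm_real, Real.norm_eq_abs]

theorem Flow.segment_le {t : ℝ} (ht : t ∈ Ico 0 T) {c : κ} {z v : Cn n}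
    (hl : ∀ ζ : ℂ, ‖ζ‖ ≤ 1 / 2 → line z v ζ ∈ (F.e c).target) (θ : ℝ) {r : ℝ}
    (hr : r ∈ Icc (0 : ℝ) (1 / 16)) :
    rdist F.e F.ψ t ((F.e c).symm z)
      ((F.e c).symm (line z v (r * Complex.exp (θ * Complex.I)))) ≤
      ENNReal.ofReal (∫ ρ in (0 : ℝ)..1 / 16,
        √(lapC (fun ζ => F.ψ c (t, line z v ζ)) (ρ * Complex.exp (θ * Complex.I)))) := by
  obtain ⟨U, hU, hsub, hψ⟩ := F.krf.smooth c
  set w : ℂ := r * Complex.exp (θ * Complex.I) with hw
  have hmemU : ∀ ζ : ℂ, ‖ζ‖ ≤ 1 / 2 → (t, line z v ζ) ∈ U := fun ζ hζ => hsub ⟨ht, hl ζ hζ⟩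
  have hnw : ∀ ρ ∈ Icc (0 : ℝ) (1 / 16), ‖(ρ : ℂ) * Complex.exp (θ * Complex.I)‖ ≤ 1 / 2 := by
    intro ρ hρ
    rw [norm_circle, abs_of_nonneg hρ.1]
    linarith [hρ.2]
  have hpos : ∀ ζ : ℂ, ‖ζ‖ ≤ 1 / 2 → 0 ≤ lev (F.ψ c) v (t, line z v ζ) := by
    intro ζ hζ
    by_cases hv : v = 0
    · rw [hv]
      have h := lev_smul ((hψ.contDiffAt (hU.mem_nhds (hmemU ζ hζ))).of_le two_le_infty) 0
        (0 : Cn n)
      simp only [smul_zero] at h
      rw [hv] at h
      rw [h]
      norm_num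
    · exact (lev_pos hU hψ (hmemU ζ hζ) (F.krf.pos c t ht _ (hl ζ hζ)) hv).le
  -- the integrand
  set g : ℝ → ℝ := fun ρ => √(lapC (fun ζ => F.ψ c (t, line z v ζ))
    (ρ * Complex.exp (θ * Complex.I))) with hg
  have hg2 : ∀ ρ ∈ Icc (0 : ℝ) (1 / 16), g ρ =
      √(4 * lev (F.ψ c) v (t, line z v (ρ * Complex.exp (θ * Complex.I)))) := by
    intro ρ hρ
    simp only [hg]
    rw [lapC_line hU hψ (hmemU _ (hnw ρ hρ))]
  have hgc : ContinuousOn g (Icc 0 (1 / 16)) := by
    have h1 : ContinuousOn (fun ρ : ℝ => √(4 * lev (F.ψ c) v (t, line z v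
        (ρ * Complex.exp (θ * Complex.I))))) (Icc 0 (1 / 16)) := by
      apply ContinuousOn.sqrt
      apply ContinuousOn.mul continuousOn_const
      have h2 : ContinuousOn (lev (F.ψ c) v) U := (contDiffOn_lev hU hψ v).continuousOn
      refine h2.comp (Continuous.continuousOn ?_) fun ρ hρ => hmemU _ (hnw ρ hρ)
      have := (contDiff_line z v).continuous
      fun_prop
    exact h1.congr fun ρ hρ => hg2 ρ hρ
  -- the curve
  set γ : ℝ → Cn n := fun s => line z v (((s * r : ℝ) : ℂ) * Complex.exp (θ * Complex.I)) with hγ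
  have hγe : ∀ s, γ s = z + s • lineL v w := by
    intro s
    simp only [hγ]
    rw [line_eq]
    congr 1
    rw [← map_smul]
    congr 1
    rw [hw, Complex.real_smul]
    push_cast
    ring
  have hder : ∀ s, deriv γ s = lineL v w := by
    intro s
    have : HasDerivAt γ (lineL v w) s := by
      have h1 := ((hasDerivAt_id s).smul_const (lineL v w)).const_add z
      rw [one_smul] at h1
      exact h1.congr_of_eventuallyEq (Eventually.of_forall hγe)
    exact this.deriv
  have hsr : ∀ s ∈ Icc (0 : ℝ) 1, s * r ∈ Icc (0 : ℝ) (1 / 16) := by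
    intro s hs
    exact ⟨mul_nonneg hs.1 hr.1, (mul_le_of_le_one_left hr.1 hs.2).trans hr.2⟩
  have hcc : ChartCurve F.e c γ ((F.e c).symm z) ((F.e c).symm (line z v w)) := by
    have h0 : z ∈ (F.e c).target := by
      have := hl 0 (by norm_num)
      rwa [line_zero] at this
    have h1 : line z v w ∈ (F.e c).target := hl w (hnw r hr)
    refine ⟨?_, fun s hs => hl _ (hnw _ (hsr s hs)), ⟨(F.e c).map_target h0, ?_⟩,
      ⟨(F.e c).map_target h1, ?_⟩⟩
    · apply ContDiff.contDiffOn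
      have : γ = fun s => z + s • lineL v w := funext hγe
      rw [this]
      fun_prop
    · rw [(F.e c).right_inv h0, hγe]
      simp
    · rw [(F.e c).right_inv h1, hγe, one_smul, line_eq]
  refine (rdist_le' hcc).trans (ENNReal.ofReal_le_ofReal ?_)
  have hint : ∀ s ∈ Icc (0 : ℝ) 1, √(2 * lev (F.ψ c) (deriv γ s) (t, γ s)) ≤ r * g (r * s) := by
    intro s hs
    have hm := hsr s hs
    have hcm : r * s = s * r := mul_comm _ _
    rw [hcm, hg2 _ hm, hder, lev_lineL ((hψ.contDiffAt (hU.mem_nhds (hmemU _ (hnw _ hm)))).of_le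
      two_le_infty)]
    have e1 : Complex.normSq w = r ^ 2 := by
      rw [Complex.normSq_eq_norm_sq, hw, norm_circle, sq_abs]
    rw [e1]
    have hp := hpos _ (hnw _ hm)
    calc √(2 * (r ^ 2 * lev (F.ψ c) v (t, γ s)))
        ≤ √(r ^ 2 * (4 * lev (F.ψ c) v (t, γ s))) := by
          apply Real.sqrt_le_sqrt
          have : 0 ≤ r ^ 2 * lev (F.ψ c) v (t, γ s) := mul_nonneg (sq_nonneg _) hp
          linarith
      _ = r * √(4 * lev (F.ψ c) v (t, γ s)) := by
          rw [Real.sqrt_mul (sq_nonneg _), Real.sqrt_sq hr.1]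
  have hgc2 : ContinuousOn (fun s => r * g (r * s)) (Icc 0 1) := by
    apply ContinuousOn.mul continuousOn_const
    refine hgc.comp (by fun_prop) fun s hs => ?_
    have := hsr s hs
    rwa [mul_comm] at this
  have hle : clen F.ψ t c γ ≤ ∫ s in (0 : ℝ)..1, r * g (r * s) := by
    unfold clen
    apply intervalIntegral.integral_mono_on zero_le_one ?_ ?_ hint
    · apply ContinuousOn.intervalIntegrable
      rw [uIcc_of_le zero_le_one]
      apply ContinuousOn.sqrt
      apply ContinuousOn.mul continuousOn_const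
      have h2 : ContinuousOn (lev (F.ψ c) (lineL v w)) U :=
        (contDiffOn_lev hU hψ _).continuousOn
      have h3 : ContinuousOn (fun s => lev (F.ψ c) (lineL v w) (t, γ s)) (Icc 0 1) := by
        refine h2.comp (Continuous.continuousOn ?_) fun s hs => hmemU _ (hnw _ (hsr s hs))
        have := (contDiff_line z v).continuous
        fun_prop
      exact h3.congr fun s hs => by rw [hder]
    · apply ContinuousOn.intervalIntegrable
      rwa [uIcc_of_le zero_le_one]
  refine hle.trans ?_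
  rw [intervalIntegral.integral_const_mul, intervalIntegral.mul_integral_comp_mul_left, mul_zero,
    mul_one]
  apply intervalIntegral.integral_mono_interval le_rfl hr.1 hr.2
  · exact Eventually.of_forall fun x => Real.sqrt_nonneg _
  · apply ContinuousOn.intervalIntegrable
    rwa [uIcc_of_le (by norm_num)]

end Pool.Agent.KRFF
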