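import Pool.Agent.Work.MP_a2bf38_gt.I.Coord
import Pool.Agent.Work.MP_a2bf38_gt.I.Line

/-!
# Averages over polydiscs and rotations of the coordinates
-/

open scoped ContDiff ENNReal ComplexOrder Topology
open Set MeasureTheory Filter Pool.Agent.ToricKRF Pool.Agent.ToricKRF.G Pool.Agent.KRFS

namespace Pool.Agent.KRFF

variable {k : ℕ}

instance instHaarCn (k : ℕ) : (volume : Measure (Cn k)).IsAddHaarMeasure :=
  Measure.prod.instIsAddHaarMeasure (G := Fin k → ℝ) (H := Fin k → ℝ) volume volume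

/-- multiplication of the coordinates by complex numbers -/
def mulC (a : Fin k → ℂ) (w : Cn k) : Cn k :=
  (fun j => (a j).re * w.1 j - (a j).im * w.2 j, fun j => (a j).re * w.2 j + (a j).im * w.1 j)

theorem mulC_mulC (a b : Fin k → ℂ) (w : Cn k) : mulC a (mulC b w) = mulC (a * b) w := by
  refine Prod.ext ?_ ?_ <;> funext j <;> simp [mulC] <;> ring

theorem mulC_one (w : Cn k) : mulC 1 w = w := by
  refine Prod.ext ?_ ?_ <;> funext j <;> simp [mulC]

theorem normSq_mulC (a : Fin k → ℂ) (w : Cn k) (j : Fin k) :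
    (mulC a w).1 j ^ 2 + (mulC a w).2 j ^ 2 =
      Complex.normSq (a j) * (w.1 j ^ 2 + w.2 j ^ 2) := by
  simp only [mulC, Complex.normSq_apply]
  ring

theorem mulC_mem_cpd {a : Fin k → ℂ} (ha : ∀ j, ‖a j‖ = 1) {r : ℝ} {w : Cn k} :
    mulC a w ∈ cpd (k := k) r ↔ w ∈ cpd (k := k) r := by
  refine forall_congr' fun j => ?_
  rw [normSq_mulC, Complex.normSq_eq_norm_sq, ha j]
  simp

/-- `mulC` as a linear map -/
def mulL (a : Fin k → ℂ) : Cn k →ₗ[ℝ] Cn k where
  toFun := mulC a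
  map_add' u v := by
    refine Prod.ext ?_ ?_ <;> funext j <;> simp [mulC] <;> ring
  map_smul' c v := by
    refine Prod.ext ?_ ?_ <;> funext j <;> simp [mulC] <;> ring

theorem mulL_apply (a : Fin k → ℂ) (w : Cn k) : mulL a w = mulC a w := rfl

theorem continuous_mulC : Continuous fun q : (Fin k → ℂ) × Cn k => mulC q.1 q.2 := by
  unfold mulC
  fun_prop

theorem inv_phase {a : Fin k → ℂ} (ha : ∀ j, ‖a j‖ = 1) : a * a⁻¹ = 1 ∧ a⁻¹ * a = 1 ∧
    ∀ j, ‖a⁻¹ j‖ = 1 := by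
  have h : ∀ j, a j ≠ 0 := fun j h0 => by
    have := ha j
    rw [h0, norm_zero] at this
    exact zero_ne_one this
  refine ⟨funext fun j => mul_inv_cancel₀ (h j), funext fun j => inv_mul_cancel₀ (h j),
    fun j => ?_⟩
  rw [Pi.inv_apply, norm_inv, ha j, inv_one]

theorem volume_cpd_pos {r : ℝ} (hr : 0 < r) : 0 < volume (cpd (k := k) r) := by
  refine lt_of_lt_of_le ((isOpen_opd (k := k) r).measure_pos volume ⟨0, fun i => ?_⟩)
    (measure_mono fun u hu i => (hu i).le)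
  have := pow_pos hr 2
  simpa using this

theorem abs_det_mulL {a : Fin k → ℂ} (ha : ∀ j, ‖a j‖ = 1) : |LinearMap.det (mulL a)| = 1 := by
  have h1 : mulL a '' cpd 1 = cpd 1 := by
    ext w
    constructor
    · rintro ⟨v, hv, rfl⟩
      exact (mulC_mem_cpd ha).2 hv
    · intro hw
      obtain ⟨h2, -, h4⟩ := inv_phase ha
      exact ⟨mulC a⁻¹ w, (mulC_mem_cpd h4).2 hw, by
        rw [mulL_apply, mulC_mulC, h2, mulC_one]⟩
  have h2 := Measure.addHaar_image_linearMap volume (mulL a) (cpd (k := k) 1)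
  rw [h1] at h2
  have h3 : volume (cpd (k := k) 1) ≠ 0 := (volume_cpd_pos zero_lt_one).ne'
  have h4 : volume (cpd (k := k) 1) ≠ ⊤ := volume_cpd_ne_top 1
  have h5 : ENNReal.ofReal |LinearMap.det (mulL a)| = 1 := by
    have h6 : (1 : ℝ≥0∞) * volume (cpd (k := k) 1) =
        ENNReal.ofReal |LinearMap.det (mulL a)| * volume (cpd (k := k) 1) := by rw [one_mul]; exact h2
    exact ((ENNReal.mul_left_inj h3 h4).1 h6).symm
  rwa [ENNReal.ofReal_eq_one] at h5

theorem measurePreserving_mulC {a : Fin k → ℂ} (ha : ∀ j, ‖a j‖ = 1) :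
    MeasurePreserving (mulC a : Cn k → Cn k) volume volume := by
  have h1 := abs_det_mulL ha
  have h2 : LinearMap.det (mulL a) ≠ 0 := fun h => by
    rw [h, abs_zero] at h1
    exact zero_ne_one h1
  refine ⟨((continuous_mulC.comp (Continuous.prodMk_right a)).measurable), ?_⟩
  have h3 := Measure.map_linearMap_addHaar_eq_smul_addHaar volume h2
  rw [abs_inv, h1, inv_one, ENNReal.ofReal_one, one_smul] at h3
  exact h3

theorem measurableEmbedding_mulC {a : Fin k → ℂ} (ha : ∀ j, ‖a j‖ = 1) :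
    MeasurableEmbedding (mulC a : Cn k → Cn k) := by
  obtain ⟨h2, h3, -⟩ := inv_phase ha
  have h4 : ∀ b : Fin k → ℂ, Continuous (mulC b : Cn k → Cn k) := fun b =>
    continuous_mulC.comp (Continuous.prodMk_right b)
  let f : Cn k ≃ₜ Cn k :=
    { toFun := mulC a
      invFun := mulC a⁻¹
      left_inv := fun w => by rw [mulC_mulC, h3, mulC_one]
      right_inv := fun w => by rw [mulC_mulC, h2, mulC_one]
      continuous_toFun := h4 a
      continuous_invFun := h4 _ }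
  exact f.measurableEmbedding

theorem setIntegral_mulC {a : Fin k → ℂ} (ha : ∀ j, ‖a j‖ = 1) (F : Cn k → ℝ) (r : ℝ) :
    ∫ w in cpd (k := k) r, F (mulC a w) = ∫ w in cpd (k := k) r, F w := by
  have h1 := (measurePreserving_mulC ha).setIntegral_preimage_emb (measurableEmbedding_mulC ha) F
    (cpd r)
  have h2 : (mulC a : Cn k → Cn k) ⁻¹' cpd r = cpd r := by
    ext w
    exact mulC_mem_cpd ha
  rwa [h2] at h1

/-- **Comparison by rotations.** -/
theorem setIntegral_nonneg_of_rot {a : ℝ → Fin k → ℂ} (hac : Continuous a)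
    (ha : ∀ θ j, ‖a θ j‖ = 1) {F : Cn k → ℝ} (hF : ContinuousOn F (cpd 1))
    (h : ∀ w ∈ cpd (k := k) 1, 0 ≤ ∫ θ in (0 : ℝ)..2 * Real.pi, F (mulC (a θ) w)) :
    0 ≤ ∫ w in cpd (k := k) 1, F w := by
  have hpi : (0 : ℝ) < 2 * Real.pi := by positivity
  have hK : IsCompact (Icc (0 : ℝ) (2 * Real.pi) ×ˢ cpd (k := k) 1) :=
    isCompact_Icc.prod (isCompact_cpd 1)
  have hcont : ContinuousOn (fun q : ℝ × Cn k => F (mulC (a q.1) q.2))
      (Icc (0 : ℝ) (2 * Real.pi) ×ˢ cpd (k := k) 1) := by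
    refine hF.comp (f := fun q : ℝ × Cn k => mulC (a q.1) q.2) ?_ fun q hq => ?_
    · exact (continuous_mulC.comp ((hac.comp continuous_fst).prodMk continuous_snd)).continuousOn
    · exact (mulC_mem_cpd (ha _)).2 hq.2
  have hint : Integrable (fun q : ℝ × Cn k => F (mulC (a q.1) q.2))
      ((volume.restrict (Icc (0 : ℝ) (2 * Real.pi))).prod (volume.restrict (cpd (k := k) 1))) := by
    rw [Measure.prod_restrict]
    exact hcont.integrableOn_compact hK
  have h1 := integral_integral_swap (f := fun θ w => F (mulC (a θ) w)) hint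
  have h2 : ∫ θ in Icc (0 : ℝ) (2 * Real.pi), ∫ w in cpd (k := k) 1, F (mulC (a θ) w) =
      2 * Real.pi * ∫ w in cpd (k := k) 1, F w := by
    simp only [setIntegral_mulC (ha _)]
    rw [setIntegral_const]
    simp [hpi.le]
  rw [h2] at h1
  have h3 : 0 ≤ ∫ w in cpd (k := k) 1, ∫ θ in Icc (0 : ℝ) (2 * Real.pi), F (mulC (a θ) w) := by
    refine setIntegral_nonneg (isCompact_cpd 1).measurableSet fun w hw => ?_
    have := h w hw
    rwa [intervalIntegral.integral_of_le hpi.le, ← integral_Icc_eq_integral_Ioc] at this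
  rw [← h1] at h3
  exact nonneg_of_mul_nonneg_right h3 hpi

theorem setIntegral_le_of_rot {a : ℝ → Fin k → ℂ} (hac : Continuous a)
    (ha : ∀ θ j, ‖a θ j‖ = 1) {F G : Cn k → ℝ} (hF : ContinuousOn F (cpd 1))
    (hG : ContinuousOn G (cpd 1))
    (h : ∀ w ∈ cpd (k := k) 1, ∫ θ in (0 : ℝ)..2 * Real.pi, F (mulC (a θ) w) ≤
      ∫ θ in (0 : ℝ)..2 * Real.pi, G (mulC (a θ) w)) :
    ∫ w in cpd (k := k) 1, F w ≤ ∫ w in cpd (k := k) 1, G w := by
  have hc : ∀ {H : Cn k → ℝ}, ContinuousOn H (cpd 1) → ∀ w ∈ cpd (k := k) 1,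
      Continuous fun θ => H (mulC (a θ) w) := by
    intro H hH w hw
    refine hH.comp_continuous (continuous_mulC.comp (hac.prodMk continuous_const)) fun θ => ?_
    exact (mulC_mem_cpd (ha θ)).2 hw
  have h1 := setIntegral_nonneg_of_rot hac ha (hG.sub hF) fun w hw => by
    have h2 := intervalIntegral.integral_sub ((hc hG w hw).intervalIntegrable (μ := volume) 0
      (2 * Real.pi)) ((hc hF w hw).intervalIntegrable (μ := volume) 0 (2 * Real.pi))
    simp only [Pi.sub_apply]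
    rw [h2]
    linarith [h w hw]
  have h3 := integral_sub (μ := volume.restrict (cpd (k := k) 1))
    (hG.integrableOn_compact (isCompact_cpd 1)) (hF.integrableOn_compact (isCompact_cpd 1))
  simp only [Pi.sub_apply] at h1
  rw [h3] at h1
  linarith

/-! ### The restriction of a psh function to a line -/

theorem line_eq_mulC (z v : Cn k) (ζ : ℂ) : line z v ζ = z + mulC (fun _ => ζ) v := by
  refine Prod.ext ?_ ?_ <;> funext j <;> simp [line, mulC, J] <;> ring

theorem mem_opd_line {z v : Cn k} {ζ : ℂ} {a b R : ℝ} (ha : 0 ≤ a) (hb : 0 ≤ b)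
    (hz : z ∈ cpd (k := k) a) (hv : v ∈ cpd (k := k) b) (hζ : a + b * ‖ζ‖ < R) :
    line z v ζ ∈ opd (k := k) R := by
  intro j
  rw [line_eq_mulC]
  have e : ∀ x y : ℝ, ‖(⟨x, y⟩ : ℂ)‖ ^ 2 = x ^ 2 + y ^ 2 := fun x y => by
    rw [← Complex.normSq_eq_norm_sq, Complex.normSq_mk]
    ring
  have h2 : ‖(⟨z.1 j, z.2 j⟩ : ℂ)‖ ≤ a := abs_le_of_sq_le_sq' (by rw [e]; exact hz j) ha |>.2
  have h3 : ‖(⟨v.1 j, v.2 j⟩ : ℂ)‖ ≤ b := abs_le_of_sq_le_sq' (by rw [e]; exact hv j) hb |>.2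
  have h4 : (⟨(z + mulC (fun _ => ζ) v).1 j, (z + mulC (fun _ => ζ) v).2 j⟩ : ℂ) =
      ⟨z.1 j, z.2 j⟩ + ζ * ⟨v.1 j, v.2 j⟩ := by
    apply Complex.ext <;> simp [mulC]
  rw [← e, h4]
  have h5 : ‖(⟨z.1 j, z.2 j⟩ + ζ * ⟨v.1 j, v.2 j⟩ : ℂ)‖ ≤ a + b * ‖ζ‖ := by
    refine (norm_add_le _ _).trans (add_le_add h2 ?_)
    rw [norm_mul, mul_comm]
    exact mul_le_mul_of_nonneg_right h3 (norm_nonneg _)
  have h6 := h5.trans_lt hζ
  exact pow_lt_pow_left₀ h6 (norm_nonneg _) (by norm_num)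

section line

variable {G : Cn k → ℝ} {R : ℝ} (hG : ContDiffOn ℝ ∞ G (opd R))
  (hpsh : ∀ z ∈ opd (k := k) R, ∀ u, 0 ≤ levz G u z)

include hG in
theorem contDiffOn_line' {z v : Cn k} {S : Set ℂ} (hS : ∀ ζ ∈ S, line z v ζ ∈ opd (k := k) R) :
    ContDiffOn ℝ ∞ (fun ζ => G (line z v ζ)) S :=
  hG.comp (contDiff_line z v).contDiffOn hS

include hG hpsh in
theorem lapC_line_nonneg {z v : Cn k} {ζ : ℂ} (hζ : line z v ζ ∈ opd (k := k) R) :
    0 ≤ lapC (fun ζ => G (line z v ζ)) ζ := by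
  have hU : IsOpen ((univ : Set ℝ) ×ˢ opd (k := k) R) := isOpen_univ.prod (isOpen_opd R)
  have hf : ContDiffOn ℝ ∞ (fun q : ℝ × Cn k => G q.2) (univ ×ˢ opd (k := k) R) :=
    hG.comp contDiffOn_snd fun q hq => hq.2
  have h1 := lapC_line hU hf (t := 0) (z := z) (v := v) (ζ := ζ) ⟨mem_univ _, hζ⟩
  rw [lev_snd (isOpen_opd R) hG hζ] at h1
  have h2 : lapC (fun ζ => G (line z v ζ)) ζ = 4 * levz G v (line z v ζ) := h1
  rw [h2]
  have := hpsh _ hζ v
  linarith

end line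

theorem mulC_smul (a : Fin k → ℂ) (c : ℝ) (w : Cn k) : mulC a (c • w) = c • mulC a w :=
  (mulL a).map_smul c w

end Pool.Agent.KRFF
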