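import Pool.Agent.Work.MP_a2bf38_gt.I.PshBase
import Pool.Agent.Work.MP_a2bf38_gt.I.CircleAvg

/-!
# Plurisubharmonic functions and averages over polydiscs
-/

open scoped ContDiff ENNReal ComplexOrder Topology
open Set MeasureTheory Filter Pool.Agent.ToricKRF Pool.Agent.ToricKRF.G Pool.Agent.KRFS

namespace Pool.Agent.KRFF

variable {k : ℕ} {G : Cn k → ℝ} {R : ℝ}

theorem cavg_mul (G : ℂ → ℝ) (r : ℝ) : 2 * Real.pi * cavg G r =
    ∫ θ in (0 : ℝ)..2 * Real.pi, G (r * Complex.exp (θ * Complex.I)) := by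
  rw [cavg, mul_inv_cancel_left₀ (by positivity)]

theorem add_smul_mem {z w : Cn k} {a ρ : ℝ} (ha : 0 ≤ a) (hρ : 0 ≤ ρ) (haR : a + ρ < R)
    (hz : z ∈ cpd (k := k) a) (hw : w ∈ cpd (k := k) 1) : z + ρ • w ∈ opd (k := k) R := by
  have h1 : z + ρ • w = line z w ρ := by
    simp [line]
  rw [h1]
  refine mem_opd_line ha zero_le_one hz hw ?_
  rw [Complex.norm_real, Real.norm_of_nonneg hρ, one_mul]
  exact haR

/-- The sub-mean value inequality on polydiscs. -/
theorem psh_submean (hG : ContDiffOn ℝ ∞ G (opd R))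
    (hpsh : ∀ z ∈ opd (k := k) R, ∀ u, 0 ≤ levz G u z) {a ρ : ℝ} (ha : 0 ≤ a) (hρ : 0 < ρ)
    (haR : a + ρ < R) {z : Cn k} (hz : z ∈ cpd (k := k) a) :
    (volume (cpd (k := k) 1)).toReal * G z ≤ ∫ w in cpd (k := k) 1, G (z + ρ • w) := by
  have hcont : ContinuousOn (fun w => G (z + ρ • w)) (cpd (k := k) 1) := by
    refine hG.continuousOn.comp (by fun_prop) fun w hw => add_smul_mem ha hρ.le haR hz hw
  have h1 : ∫ w in cpd (k := k) 1, G z = (volume (cpd (k := k) 1)).toReal * G z := by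
    rw [setIntegral_const, smul_eq_mul]
    rfl
  rw [← h1]
  refine setIntegral_le_of_rot (a := fun θ _ => Complex.exp (θ * Complex.I)) (by fun_prop)
    (fun θ j => Complex.norm_exp_ofReal_mul_I θ) continuousOn_const hcont fun w hw => ?_
  have hρw : ρ • w ∈ cpd (k := k) ρ := by
    intro j
    have := hw j
    simp only [Prod.smul_fst, Prod.smul_snd, Pi.smul_apply, smul_eq_mul]
    nlinarith [sq_nonneg ρ]
  have hR' : 1 < (R - a) / ρ := by
    rw [lt_div_iff₀ hρ]
    linarith
  have hmem : ∀ ζ ∈ Metric.ball (0 : ℂ) ((R - a) / ρ), line z (ρ • w) ζ ∈ opd (k := k) R := by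
    intro ζ hζ
    refine mem_opd_line ha hρ.le hz hρw ?_
    rw [mem_ball_zero_iff, lt_div_iff₀ hρ] at hζ
    linarith
  have h2 := le_cavg (contDiffOn_line' hG hmem)
    (fun ζ hζ => lapC_line_nonneg hG hpsh (hmem ζ hζ)) (r := 1) ⟨zero_le_one, hR'⟩
  rw [line_zero] at h2
  have h3 := cavg_mul (fun ζ => G (line z (ρ • w) ζ)) 1
  have h4 : ∀ θ : ℝ, line z (ρ • w) (((1 : ℝ) : ℂ) * Complex.exp (θ * Complex.I)) =
      z + ρ • mulC (fun _ => Complex.exp (θ * Complex.I)) w := by
    intro θ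
    rw [line_eq_mulC, mulC_smul, Complex.ofReal_one, one_mul]
  simp only [h4] at h3
  rw [← h3, intervalIntegral.integral_const, smul_eq_mul, sub_zero]
  exact mul_le_mul_of_nonneg_left h2 (by positivity)

/-- the dilation of the coordinates -/
def dil (r : Fin k → ℝ) (w : Cn k) : Cn k := (fun j => r j * w.1 j, fun j => r j * w.2 j)

theorem dil_mem {r : Fin k → ℝ} (h0 : ∀ j, 0 ≤ r j) (h1 : ∀ j, r j ≤ 1) {w : Cn k} {b : ℝ}
    (hw : w ∈ cpd (k := k) b) : dil r w ∈ cpd (k := k) b := by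
  intro j
  have h2 := hw j
  have h3 : (r j) ^ 2 ≤ 1 := pow_le_one₀ (h0 j) (h1 j)
  simp only [dil]
  nlinarith [sq_nonneg (w.1 j), sq_nonneg (w.2 j)]

theorem continuous_dil (r : Fin k → ℝ) : Continuous (dil r : Cn k → Cn k) := by
  unfold dil
  fun_prop

theorem continuousOn_dil (hG : ContDiffOn ℝ ∞ G (opd 5)) {z : Cn k} (hz : z ∈ cpd (k := k) 2)
    {r : Fin k → ℝ} (h0 : ∀ j, 0 ≤ r j) (h1 : ∀ j, r j ≤ 1) :
    ContinuousOn (fun w => G (z + dil r w)) (cpd 1) := by
  refine hG.continuousOn.comp (continuous_const.add (continuous_dil r)).continuousOn fun w hw => ?_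
  have := add_smul_mem (R := 5) (by norm_num) zero_le_one (by norm_num) hz (dil_mem h0 h1 hw)
  rwa [one_smul] at this

theorem mem_opd_mulC {z w : Cn k} {a R : ℝ} (ha : 0 ≤ a) (hz : z ∈ cpd (k := k) a)
    (hw : w ∈ cpd (k := k) 1) {c : Fin k → ℂ} (hc : ∀ j, a + ‖c j‖ < R) :
    z + mulC c w ∈ opd (k := k) R := by
  intro j
  have e : ∀ x y : ℝ, ‖(⟨x, y⟩ : ℂ)‖ ^ 2 = x ^ 2 + y ^ 2 := fun x y => by
    rw [← Complex.normSq_eq_norm_sq, Complex.normSq_mk]
    ring
  have h2 : ‖(⟨z.1 j, z.2 j⟩ : ℂ)‖ ≤ a := abs_le_of_sq_le_sq' (by rw [e]; exact hz j) ha |>.2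
  have h3 : ‖(⟨w.1 j, w.2 j⟩ : ℂ)‖ ≤ 1 :=
    abs_le_of_sq_le_sq' (by rw [e]; exact hw j) zero_le_one |>.2
  have h4 : (⟨(z + mulC c w).1 j, (z + mulC c w).2 j⟩ : ℂ) =
      ⟨z.1 j, z.2 j⟩ + c j * ⟨w.1 j, w.2 j⟩ := by
    apply Complex.ext <;> simp [mulC]
  rw [← e, h4]
  have h5 : ‖(⟨z.1 j, z.2 j⟩ + c j * ⟨w.1 j, w.2 j⟩ : ℂ)‖ ≤ a + ‖c j‖ := by
    refine (norm_add_le _ _).trans (add_le_add h2 ?_)
    rw [norm_mul]
    exact mul_le_of_le_one_right (norm_nonneg _) h3
  exact pow_lt_pow_left₀ (h5.trans_lt (hc j)) (norm_nonneg _) (by norm_num)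

/-- one coordinate -/
theorem psh_dil_step (hG : ContDiffOn ℝ ∞ G (opd 5)) (hneg : ∀ z ∈ opd (k := k) 5, G z ≤ 0)
    (hpsh : ∀ z ∈ opd (k := k) 5, ∀ u, 0 ≤ levz G u z) {z : Cn k} (hz : z ∈ cpd (k := k) 2)
    {r : Fin k → ℝ} (h0 : ∀ j, 0 ≤ r j) (h1 : ∀ j, r j ≤ 1) {i : Fin k} (hi : r i = 1) {ρ : ℝ}
    (hρ : ρ ∈ Ioc 0 1) :
    (1 + Real.log (1 / ρ)) * ∫ w in cpd (k := k) 1, G (z + dil r w) ≤
      ∫ w in cpd (k := k) 1, G (z + dil (Function.update r i ρ) w) := by
  rw [← integral_const_mul]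
  have h0' : ∀ j, 0 ≤ Function.update r i ρ j := by
    intro j
    by_cases hj : j = i
    · rw [hj, Function.update_self]
      exact hρ.1.le
    · rw [Function.update_of_ne hj]
      exact h0 j
  have h1' : ∀ j, Function.update r i ρ j ≤ 1 := by
    intro j
    by_cases hj : j = i
    · rw [hj, Function.update_self]
      exact hρ.2
    · rw [Function.update_of_ne hj]
      exact h1 j
  refine setIntegral_le_of_rot
    (a := fun θ => Function.update (fun _ => (1 : ℂ)) i (Complex.exp (θ * Complex.I)))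
    (continuous_const.update i (by fun_prop)) (fun θ j => ?_)
    (continuousOn_const.mul (continuousOn_dil hG hz h0 h1)) (continuousOn_dil hG hz h0' h1')
    fun w hw => ?_
  · by_cases hj : j = i
    · rw [hj, Function.update_self]
      exact Complex.norm_exp_ofReal_mul_I θ
    · rw [Function.update_of_ne hj, norm_one]
  -- the line through the point in the direction of the coordinate `i`
  set z' : Cn k := z + dil (Function.update r i 0) w with hz'
  set v : Cn k := dil (Pi.single i 1) w with hv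
  have key : ∀ (s θ : ℝ), z + dil (Function.update r i s)
      (mulC (Function.update (fun _ => (1 : ℂ)) i (Complex.exp (θ * Complex.I))) w) =
      line z' v (s * Complex.exp (θ * Complex.I)) := by
    intro s θ
    rw [line_eq_mulC]
    refine Prod.ext ?_ ?_ <;> funext j <;> by_cases hj : j = i
    · subst hj
      simp [hz', hv, dil, mulC]
      ring
    · simp [hz', hv, dil, mulC, hj]
    · subst hj
      simp [hz', hv, dil, mulC]
      ring
    · simp [hz', hv, dil, mulC, hj]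
  have hmem : ∀ ζ ∈ Metric.ball (0 : ℂ) 3, line z' v ζ ∈ opd (k := k) 5 := by
    intro ζ hζ
    rw [mem_ball_zero_iff] at hζ
    have e1 : line z' v ζ = z + mulC (Function.update (fun j => ((r j : ℝ) : ℂ)) i ζ) w := by
      rw [line_eq_mulC]
      refine Prod.ext ?_ ?_ <;> funext j <;> by_cases hj : j = i
      · subst hj
        simp [hz', hv, dil, mulC]
      · simp [hz', hv, dil, mulC, hj]
      · subst hj
        simp [hz', hv, dil, mulC]
      · simp [hz', hv, dil, mulC, hj]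
    rw [e1]
    refine mem_opd_mulC (a := 2) (by norm_num) hz hw fun j => ?_
    by_cases hj : j = i
    · rw [hj, Function.update_self]
      linarith
    · rw [Function.update_of_ne hj, Complex.norm_real, Real.norm_of_nonneg (h0 j)]
      linarith [h1 j]
  have h2 := cavg_log (contDiffOn_line' hG hmem)
    (fun ζ hζ => lapC_line_nonneg hG hpsh (hmem ζ hζ)) (fun ζ hζ => hneg _ (hmem ζ hζ)) hρ
  have h3 := cavg_mul (fun ζ => G (line z' v ζ)) 1
  have h4 := cavg_mul (fun ζ => G (line z' v ζ)) ρ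
  simp only [← key] at h3 h4
  have h5 : Function.update r i (1 : ℝ) = r := by
    rw [← hi, Function.update_eq_self]
  rw [h5] at h3
  rw [← h4, intervalIntegral.integral_const_mul, ← h3]
  have h6 := mul_le_mul_of_nonneg_left h2 (show (0 : ℝ) ≤ 2 * Real.pi by positivity)
  linarith

/-- all coordinates -/
theorem psh_dil (hG : ContDiffOn ℝ ∞ G (opd 5)) (hneg : ∀ z ∈ opd (k := k) 5, G z ≤ 0)
    (hpsh : ∀ z ∈ opd (k := k) 5, ∀ u, 0 ≤ levz G u z) {z : Cn k} (hz : z ∈ cpd (k := k) 2)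
    {ρ : ℝ} (hρ : ρ ∈ Ioc 0 1) :
    (1 + Real.log (1 / ρ)) ^ k * ∫ w in cpd (k := k) 1, G (z + w) ≤
      ∫ w in cpd (k := k) 1, G (z + ρ • w) := by
  have hL : 0 ≤ 1 + Real.log (1 / ρ) := by
    have : 0 ≤ Real.log (1 / ρ) := Real.log_nonneg (by
      rw [le_div_iff₀ hρ.1]
      linarith [hρ.2])
    linarith
  have key : ∀ s : Finset (Fin k), (1 + Real.log (1 / ρ)) ^ s.card *
      ∫ w in cpd (k := k) 1, G (z + dil (fun _ => 1) w) ≤
      ∫ w in cpd (k := k) 1, G (z + dil (fun j => if j ∈ s then ρ else 1) w) := by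
    intro s
    induction s using Finset.induction_on with
    | empty => simp
    | insert i s his ih =>
      have h1 := psh_dil_step hG hneg hpsh hz (r := fun j => if j ∈ s then ρ else 1)
        (fun j => by
          split_ifs
          · exact hρ.1.le
          · exact zero_le_one)
        (fun j => by
          split_ifs
          · exact hρ.2
          · exact le_rfl) (i := i) (by simp [his]) hρ
      have h2 : Function.update (fun j => if j ∈ s then ρ else 1) i ρ =
          fun j => if j ∈ insert i s then ρ else 1 := by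
        funext j
        by_cases hj : j = i
        · subst hj
          simp
        · simp [hj]
      rw [h2] at h1
      rw [Finset.card_insert_of_notMem his, pow_succ]
      have h3 := mul_le_mul_of_nonneg_left ih hL
      calc _ = (1 + Real.log (1 / ρ)) * ((1 + Real.log (1 / ρ)) ^ s.card *
            ∫ w in cpd (k := k) 1, G (z + dil (fun _ => 1) w)) := by ring
        _ ≤ _ := h3.trans h1
  have h := key Finset.univ
  simp only [Finset.mem_univ, if_true, Finset.card_univ, Fintype.card_fin] at h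
  have e1 : ∀ w : Cn k, dil (fun _ => 1) w = w := fun w => by
    refine Prod.ext ?_ ?_ <;> funext j <;> simp [dil]
  have e2 : ∀ w : Cn k, dil (fun _ => ρ) w = ρ • w := fun w => by
    refine Prod.ext ?_ ?_ <;> funext j <;> simp [dil]
  simpa only [e1, e2] using h

end Pool.Agent.KRFF
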