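import Pool.Agent.Work.MP_a2bf38_gt.I.Line
import Pool.Agent.Work.MP_a2bf38_gt.I.Disc

/-!
# The distance of two points of a complex line, by the lengths of rays
-/

open scoped ContDiff ENNReal
open Set Filter Topology MeasureTheory Pool.Agent.ToricKRF Pool.Agent.ToricKRF.G Pool.Agent.KRFS

namespace Pool.Agent.KRFF

variable {M : Type} [TopologicalSpace M] {κ : Type} {n : ℕ}
  {e : κ → OpenPartialHomeomorph M (Cn n)} {ψ : κ → ℝ × Cn n → ℝ} {t : ℝ} {c : κ}
  {U : Set (ℝ × Cn n)}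

theorem line_eq_cln (z v : Cn n) : line z v = cln z v := rfl

theorem line_contDiff (z v : Cn n) : ContDiff ℝ ∞ (line z v) := by
  have : line z v = fun ζ => z + lineL v ζ := funext (line_eq z v)
  rw [this]
  exact contDiff_const.add (lineL v).contDiff

/-- the Laplacian on a complex line -/
theorem lapC_line' {f : ℝ × Cn n → ℝ} (hU : IsOpen U) (hf : ContDiffOn ℝ ∞ f U) (z v : Cn n)
    {ζ : ℂ} (hp : (t, line z v ζ) ∈ U) :
    lapC (fun ζ => f (t, line z v ζ)) ζ = 4 * lev f v (t, line z v ζ) :=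
  lapC_line hU hf hp

/-- a segment of a complex line starting at the origin -/
theorem rdist_ray (hU : IsOpen U) (hψ : ContDiffOn ℝ ∞ (ψ c) U)
    (hsub : ∀ z ∈ (e c).target, (t, z) ∈ U)
    (hnn : ∀ z ∈ (e c).target, ∀ u, 0 ≤ lev (ψ c) u (t, z)) {z v : Cn n} {R : ℝ}
    (hdisc : ∀ ζ : ℂ, ‖ζ‖ ≤ R → line z v ζ ∈ (e c).target) (θ : ℝ) {ρ : ℝ} (hρ0 : 0 ≤ ρ)
    (hρ : ρ ≤ R) :
    rdist e ψ t ((e c).symm z) ((e c).symm (line z v (ρ * Complex.exp (θ * Complex.I)))) ≤
      ENNReal.ofReal (∫ r in (0 : ℝ)..R,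
        √(lapC (fun ζ => ψ c (t, line z v ζ)) (r * Complex.exp (θ * Complex.I)))) := by
  set E := Complex.exp (θ * Complex.I) with hE
  have hEn : ‖E‖ = 1 := Complex.norm_exp_ofReal_mul_I θ
  have hnE : ∀ r ∈ Icc (0 : ℝ) R, ‖(r : ℂ) * E‖ ≤ R := by
    intro r hr
    rw [norm_mul, hEn, mul_one, Complex.norm_real, Real.norm_of_nonneg hr.1]
    exact hr.2
  set γ : ℝ → Cn n := fun s => line z v (((s * ρ : ℝ) : ℂ) * E) with hγ
  have hγd : ∀ s, HasDerivAt γ (lineL v (ρ * E)) s := by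
    intro s
    have k1 : HasDerivAt (fun s : ℝ => (((s * ρ : ℝ) : ℂ) * E)) (ρ * E) s := by
      have := ((hasDerivAt_id s).mul_const ρ).ofReal_comp.mul_const E
      simpa using this
    exact (hasFDerivAt_line z v _).comp_hasDerivAt s k1
  have hmem : ∀ s ∈ Icc (0 : ℝ) 1, s * ρ ∈ Icc (0 : ℝ) R := fun s hs =>
    ⟨mul_nonneg hs.1 hρ0, (mul_le_of_le_one_left hρ0 hs.2).trans hρ⟩
  have hcc : ChartCurve e c γ ((e c).symm z) ((e c).symm (line z v (ρ * E))) := by
    have m0 : z ∈ (e c).target := by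
      have := hdisc 0 (by rw [norm_zero]; exact hρ0.trans hρ)
      rwa [line_zero] at this
    have m1 : line z v (ρ * E) ∈ (e c).target := hdisc _ (hnE ρ ⟨hρ0, hρ⟩)
    refine ⟨?_, fun s hs => hdisc _ (hnE _ (hmem s hs)), ⟨(e c).map_target m0, ?_⟩,
      ⟨(e c).map_target m1, ?_⟩⟩
    · apply ContDiff.contDiffOn
      have k3 : ContDiff ℝ 1 fun s : ℝ => s * ρ := by fun_prop
      have k2 : ContDiff ℝ 1 fun s : ℝ => (((s * ρ : ℝ) : ℂ) * E) :=
        (Complex.ofRealCLM.contDiff.comp k3).mul contDiff_const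
      exact ((line_contDiff z v).of_le (by simp)).comp k2
    · rw [(e c).right_inv m0, hγ]
      simp [line_zero]
    · rw [(e c).right_inv m1, hγ]
      simp
  refine (rdist_le' hcc).trans (ENNReal.ofReal_le_ofReal ?_)
  set g : ℝ → ℝ := fun r => √(lapC (fun ζ => ψ c (t, line z v ζ)) (r * E)) with hg
  have hgl : ∀ r ∈ Icc (0 : ℝ) R, g r = √(4 * lev (ψ c) v (t, line z v (r * E))) := fun r hr => by
    simp only [hg]
    rw [lapC_line' hU hψ z v (hsub _ (hdisc _ (hnE r hr)))]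
  have hgc : ContinuousOn g (Icc 0 R) := by
    refine ContinuousOn.congr ?_ hgl
    refine Real.continuous_sqrt.comp_continuousOn (continuousOn_const.mul ?_)
    have h2 : ContinuousOn (lev (ψ c) v) U := by
      unfold lev
      exact (((contDiffOn_D hU (contDiffOn_D hU hψ _) _).continuousOn).add
        ((contDiffOn_D hU (contDiffOn_D hU hψ _) _).continuousOn)).div_const 4
    refine h2.comp ?_ fun r hr => hsub _ (hdisc _ (hnE r hr))
    exact (continuous_const.prodMk ((line_contDiff z v).continuous.comp (by fun_prop))).continuousOn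
  have hgi : ∀ a b : ℝ, a ∈ Icc (0 : ℝ) R → b ∈ Icc (0 : ℝ) R →
      IntervalIntegrable g volume a b := fun a b ha hb =>
    (hgc.mono (uIcc_subset_Icc ha hb)).intervalIntegrable
  have e1 : clen ψ t c γ ≤ ∫ s in (0 : ℝ)..1, ρ * g (s * ρ) := by
    unfold clen
    have e0 : ∫ s in (0 : ℝ)..1, √(2 * lev (ψ c) (deriv γ s) (t, γ s)) =
        ∫ s in (0 : ℝ)..1, (√2)⁻¹ * (ρ * g (s * ρ)) := by
      refine intervalIntegral.integral_congr fun s hs => ?_
      rw [uIcc_of_le zero_le_one] at hs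
      rw [(hγd s).deriv, lineL_apply, lev_line hU hψ (hsub _ (hdisc _ (hnE _ (hmem s hs)))),
        hgl _ (hmem s hs)]
      have e2 : (ρ * E : ℂ).re ^ 2 + (ρ * E : ℂ).im ^ 2 = ρ ^ 2 := by
        have : ‖(ρ : ℂ) * E‖ = ρ := by
          rw [norm_mul, hEn, mul_one, Complex.norm_real, Real.norm_of_nonneg hρ0]
        nth_rewrite 3 [← this]
        rw [Complex.sq_norm, Complex.normSq_apply]
        ring
      rw [e2]
      set y := lev (ψ c) v (t, line z v (((s * ρ : ℝ) : ℂ) * E))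
      rw [show 2 * (ρ ^ 2 * y) = ρ ^ 2 * (2 * y) by ring, Real.sqrt_mul (by positivity),
        Real.sqrt_sq hρ0, Real.sqrt_mul (by norm_num : (0 : ℝ) ≤ 2) y,
        show (4 : ℝ) * y = 2 ^ 2 * y by ring, Real.sqrt_mul (by positivity),
        Real.sqrt_sq (by norm_num)]
      have h2 : √2 ≠ 0 := by positivity
      have h5 : √2 * √2 = 2 := Real.mul_self_sqrt (by norm_num)
      calc ρ * (√2 * √y) = (√2)⁻¹ * (ρ * ((√2 * √2) * √y)) := by field_simp
        _ = _ := by rw [h5]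
    rw [e0, intervalIntegral.integral_const_mul]
    have h3 : 0 ≤ ∫ s in (0 : ℝ)..1, ρ * g (s * ρ) := by
      apply intervalIntegral.integral_nonneg zero_le_one
      intro s _
      exact mul_nonneg hρ0 (Real.sqrt_nonneg _)
    have h4 : (√2)⁻¹ ≤ 1 := by
      apply inv_le_one_of_one_le₀
      rw [Real.one_le_sqrt]
      norm_num
    nlinarith
  refine e1.trans ?_
  rw [intervalIntegral.integral_const_mul, intervalIntegral.mul_integral_comp_mul_right, zero_mul,
    one_mul]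
  refine intervalIntegral.integral_mono_interval le_rfl hρ0 hρ ?_
    (hgi 0 R ⟨le_rfl, hρ0.trans hρ⟩ ⟨hρ0.trans hρ, le_rfl⟩)
  exact Eventually.of_forall fun θ => Real.sqrt_nonneg _

/-- a good angle -/
theorem exists_good_angle {F : ℝ → ℝ} (hF : Continuous F) (h0 : ∀ θ, 0 ≤ F θ) {C : ℝ} (hC : 0 < C)
    (hi : ∫ θ in (0 : ℝ)..2 * Real.pi, F θ ≤ C) {α : ℝ} (hα : 0 ≤ α)
    (hα' : α + Real.pi / 6 ≤ 2 * Real.pi) :
    ∃ θ ∈ Icc α (α + Real.pi / 6), F θ ≤ 2 * C := by
  by_contra hcon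
  push Not at hcon
  have hpi := Real.pi_gt_three
  have h1 : ∫ θ in α..α + Real.pi / 6, 2 * C ≤ ∫ θ in α..α + Real.pi / 6, F θ :=
    intervalIntegral.integral_mono_on (by linarith) (continuous_const.intervalIntegrable _ _)
      (hF.intervalIntegrable _ _) fun θ hθ => (hcon θ hθ).le
  have h2 : ∫ θ in α..α + Real.pi / 6, F θ ≤ ∫ θ in (0 : ℝ)..2 * Real.pi, F θ :=
    intervalIntegral.integral_mono_interval hα (by linarith) hα'
      (Eventually.of_forall fun θ => h0 θ) (hF.intervalIntegrable _ _)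
  rw [intervalIntegral.integral_const, smul_eq_mul] at h1
  nlinarith

/-- the meeting point of two rays -/
theorem rays_meet {δ θ θ' : ℝ} (hδ : 0 ≤ δ) (hθ : θ ∈ Icc (Real.pi / 6) (Real.pi / 3))
    (hθ' : θ' ∈ Icc (2 * Real.pi / 3) (5 * Real.pi / 6)) :
    ∃ ρ ∈ Icc 0 δ, ∃ ρ' ∈ Icc 0 δ,
      (ρ : ℂ) * Complex.exp (θ * Complex.I) = δ + ρ' * Complex.exp (θ' * Complex.I) := by
  have hpi := Real.pi_pos
  set s := Real.sin (θ' - θ) with hs
  have h1 : √3 / 2 ≤ s := by
    rw [← Real.sin_pi_div_three, hs]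
    have k1 : Real.pi / 3 ≤ θ' - θ := by linarith [hθ.2, hθ'.1]
    have k2 : θ' - θ ≤ 2 * Real.pi / 3 := by linarith [hθ.1, hθ'.2]
    rcases le_total (θ' - θ) (Real.pi / 2) with h | h
    · exact Real.sin_le_sin_of_le_of_le_pi_div_two (by linarith) h k1
    · rw [← Real.sin_pi_sub (θ' - θ)]
      exact Real.sin_le_sin_of_le_of_le_pi_div_two (by linarith) (by linarith) (by linarith)
  have h3 : (0 : ℝ) < √3 := by positivity
  have hs0 : 0 < s := by linarith
  have h2 : Real.sin θ ≤ √3 / 2 := by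
    rw [← Real.sin_pi_div_three]
    exact Real.sin_le_sin_of_le_of_le_pi_div_two (by linarith [hθ.1]) (by linarith) hθ.2
  have h2' : Real.sin θ' ≤ √3 / 2 := by
    rw [← Real.sin_pi_div_three, ← Real.sin_pi_sub θ']
    exact Real.sin_le_sin_of_le_of_le_pi_div_two (by linarith [hθ'.2]) (by linarith)
      (by linarith [hθ'.1])
  have h4 : 0 ≤ Real.sin θ := Real.sin_nonneg_of_nonneg_of_le_pi (by linarith [hθ.1])
    (by linarith [hθ.2])
  have h4' : 0 ≤ Real.sin θ' := Real.sin_nonneg_of_nonneg_of_le_pi (by linarith [hθ'.1])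
    (by linarith [hθ'.2])
  refine ⟨δ * Real.sin θ' / s, ⟨by positivity, ?_⟩, δ * Real.sin θ / s, ⟨by positivity, ?_⟩, ?_⟩
  · rw [div_le_iff₀ hs0]
    exact mul_le_mul_of_nonneg_left (h2'.trans h1) hδ
  · rw [div_le_iff₀ hs0]
    exact mul_le_mul_of_nonneg_left (h2.trans h1) hδ
  · have hsf : s = Real.sin θ' * Real.cos θ - Real.cos θ' * Real.sin θ := by
      rw [hs, Real.sin_sub]
    rw [Complex.exp_mul_I, Complex.exp_mul_I]
    apply Complex.ext
    · simp only [Complex.mul_re, Complex.add_re, Complex.ofReal_re, Complex.ofReal_im,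
        Complex.add_im, Complex.mul_im, Complex.I_re, Complex.I_im, ← Complex.ofReal_cos,
        ← Complex.ofReal_sin]
      field_simp
      rw [hsf]
      ring
    · simp only [Complex.mul_re, Complex.add_re, Complex.ofReal_re, Complex.ofReal_im,
        Complex.add_im, Complex.mul_im, Complex.I_re, Complex.I_im, ← Complex.ofReal_cos,
        ← Complex.ofReal_sin]
      field_simp
      ring

/-- the radial lengths depend continuously on the angle -/
theorem ray_continuous (hU : IsOpen U) (hψ : ContDiffOn ℝ ∞ (ψ c) U)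
    (hsub : ∀ z ∈ (e c).target, (t, z) ∈ U) {z v : Cn n} {R : ℝ} (hR : 0 ≤ R)
    (hdisc : ∀ ζ : ℂ, ‖ζ‖ ≤ R → line z v ζ ∈ (e c).target) :
    Continuous fun θ : ℝ => ∫ r in (0 : ℝ)..R,
      √(lapC (fun ζ => ψ c (t, line z v ζ)) (r * Complex.exp (θ * Complex.I))) := by
  have hn : ∀ (θ r : ℝ), ‖((max 0 (min r R) : ℝ) : ℂ) * Complex.exp (θ * Complex.I)‖ ≤ R := by
    intro θ r
    rw [norm_mul, Complex.norm_exp_ofReal_mul_I, mul_one, Complex.norm_real,
      Real.norm_of_nonneg (le_max_left _ _)]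
    exact max_le hR (min_le_right _ _)
  have h1 : (fun θ : ℝ => ∫ r in (0 : ℝ)..R,
      √(lapC (fun ζ => ψ c (t, line z v ζ)) (r * Complex.exp (θ * Complex.I)))) =
      fun θ : ℝ => ∫ r in (0 : ℝ)..R, √(4 * lev (ψ c) v
        (t, line z v (((max 0 (min r R) : ℝ) : ℂ) * Complex.exp (θ * Complex.I)))) := by
    ext θ
    refine intervalIntegral.integral_congr fun r hr => ?_
    rw [uIcc_of_le hR] at hr
    have hr' : max 0 (min r R) = r := by
      rw [min_eq_left hr.2, max_eq_right hr.1]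
    have := hn θ r
    rw [hr'] at this
    rw [lapC_line' hU hψ z v (hsub _ (hdisc _ this)), hr']
  rw [h1]
  apply intervalIntegral.continuous_parametric_intervalIntegral_of_continuous'
  have h2 : ContinuousOn (lev (ψ c) v) U := by
    unfold lev
    exact (((contDiffOn_D hU (contDiffOn_D hU hψ _) _).continuousOn).add
      ((contDiffOn_D hU (contDiffOn_D hU hψ _) _).continuousOn)).div_const 4
  refine Real.continuous_sqrt.comp (continuous_const.mul ?_)
  refine h2.comp_continuous (f := fun q : ℝ × ℝ => ((t, line z v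
    (((max 0 (min q.2 R) : ℝ) : ℂ) * Complex.exp (q.1 * Complex.I))) : ℝ × Cn n)) ?_ ?_
  · refine continuous_const.prodMk ((line_contDiff z v).continuous.comp ?_)
    fun_prop
  · intro q
    exact hsub _ (hdisc _ (hn q.1 q.2))

/-- **Two points of a complex line.** -/
theorem rdist_rays (hU : IsOpen U) (hψ : ContDiffOn ℝ ∞ (ψ c) U)
    (hsub : ∀ z ∈ (e c).target, (t, z) ∈ U)
    (hnn : ∀ z ∈ (e c).target, ∀ u, 0 ≤ lev (ψ c) u (t, z)) {z v : Cn n} {δ R : ℝ} (hδ : 0 ≤ δ)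
    (hδR : δ ≤ R) (hdisc : ∀ ζ : ℂ, ‖ζ‖ ≤ R → line z v ζ ∈ (e c).target)
    (hdisc' : ∀ ζ : ℂ, ‖ζ‖ ≤ R → line (z + δ • v) v ζ ∈ (e c).target) {C : ℝ} (hC : 0 < C)
    (hi : ∫ θ in (0 : ℝ)..2 * Real.pi, ∫ r in (0 : ℝ)..R,
      √(lapC (fun ζ => ψ c (t, line z v ζ)) (r * Complex.exp (θ * Complex.I))) ≤ C)
    (hi' : ∫ θ in (0 : ℝ)..2 * Real.pi, ∫ r in (0 : ℝ)..R,
      √(lapC (fun ζ => ψ c (t, line (z + δ • v) v ζ)) (r * Complex.exp (θ * Complex.I))) ≤ C) :
    rdist e ψ t ((e c).symm z) ((e c).symm (z + δ • v)) ≤ ENNReal.ofReal (4 * C) := by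
  have hR : 0 ≤ R := hδ.trans hδR
  have hpi := Real.pi_pos
  obtain ⟨θ, hθ, hF⟩ := exists_good_angle (ray_continuous hU hψ hsub hR hdisc)
    (fun θ => intervalIntegral.integral_nonneg hR fun r _ => Real.sqrt_nonneg _) hC hi
    (α := Real.pi / 6) (by positivity) (by linarith)
  obtain ⟨θ', hθ', hF'⟩ := exists_good_angle (ray_continuous hU hψ hsub hR hdisc')
    (fun θ => intervalIntegral.integral_nonneg hR fun r _ => Real.sqrt_nonneg _) hC hi'
    (α := 2 * Real.pi / 3) (by positivity) (by linarith)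
  obtain ⟨ρ, hρ, ρ', hρ', hm⟩ := rays_meet hδ (θ := θ) (θ' := θ')
    ⟨hθ.1, by linarith [hθ.2]⟩ ⟨hθ'.1, by linarith [hθ'.2]⟩
  have k1 := rdist_ray hU hψ hsub hnn hdisc θ hρ.1 (hρ.2.trans hδR)
  have k2 := rdist_ray hU hψ hsub hnn hdisc' θ' hρ'.1 (hρ'.2.trans hδR)
  have e1 : line (z + δ • v) v (ρ' * Complex.exp (θ' * Complex.I)) =
      line z v (ρ * Complex.exp (θ * Complex.I)) := by
    rw [hm, line_eq, line_eq, map_add]
    have : lineL v (δ : ℂ) = δ • v := by simp [lineL_apply]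
    rw [this, add_assoc]
  rw [e1, rdist_comm'] at k2
  refine (rdist_triangle' _ ((e c).symm (line z v (ρ * Complex.exp (θ * Complex.I)))) _).trans
    ((add_le_add k1 k2).trans ?_)
  refine (add_le_add (ENNReal.ofReal_le_ofReal hF) (ENNReal.ofReal_le_ofReal hF')).trans ?_
  rw [← ENNReal.ofReal_add (by positivity) (by positivity)]
  apply ENNReal.ofReal_le_ofReal
  linarith

end Pool.Agent.KRFF
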