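import Mathlib

/-!
# Nonnegative superharmonic functions in the plane: the weighted mean value inequality
-/

set_option autoImplicit false

open MeasureTheory Set Metric
open scoped ContDiff ENNReal NNReal

namespace Pool.Agent.KRFS.SupH

/-- directional derivative -/
noncomputable def dd (e : ℂ) (f : ℂ → ℝ) (z : ℂ) : ℝ := fderiv ℝ f z e

/-- the Laplacian -/
noncomputable def lap (f : ℂ → ℝ) (z : ℂ) : ℝ :=
  dd 1 (dd 1 f) z + dd Complex.I (dd Complex.I f) z

lemma contDiff_dd {f : ℂ → ℝ} {n m : WithTop ℕ∞} (hf : ContDiff ℝ n f) (h : m + 1 ≤ n) (e : ℂ) :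
    ContDiff ℝ m (dd e f) :=
  (hf.fderiv_right h).clm_apply contDiff_const

lemma continuous_dd {f : ℂ → ℝ} (hf : ContDiff ℝ 1 f) (e : ℂ) : Continuous (dd e f) :=
  (contDiff_dd hf (m := 0) (by norm_num) e).continuous

lemma continuous_dd2 {f : ℂ → ℝ} (hf : ContDiff ℝ 2 f) (e e' : ℂ) :
    Continuous (dd e' (dd e f)) :=
  continuous_dd (contDiff_dd hf (m := 1) (by norm_num) e) e'

lemma continuous_lap {f : ℂ → ℝ} (hf : ContDiff ℝ 2 f) : Continuous (lap f) :=
  (continuous_dd2 hf 1 1).add (continuous_dd2 hf _ _)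

lemma dd_support {f : ℂ → ℝ} {K : Set ℂ} (hK : IsClosed K) (hf : ∀ z ∉ K, f z = 0) (e : ℂ) :
    ∀ z ∉ K, dd e f z = 0 := by
  intro z hz
  have h1 : f =ᶠ[nhds z] fun _ => 0 := by
    filter_upwards [hK.isOpen_compl.mem_nhds hz] with w hw
    exact hf w hw
  unfold dd
  rw [h1.fderiv_eq]
  simp

lemma ibp {f g : ℂ → ℝ} (hf : ContDiff ℝ 1 f) (hg : ContDiff ℝ 1 g) {K : Set ℂ} (hK : IsCompact K)
    (hfK : ∀ z ∉ K, f z = 0) (e : ℂ) :
    ∫ z, f z * dd e g z = - ∫ z, dd e f z * g z := by
  have hdf := dd_support hK.isClosed hfK e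
  unfold dd at hdf ⊢
  have hint : ∀ F : ℂ → ℝ, Continuous F → (∀ z ∉ K, F z = 0) → Integrable F := fun F hF h0 =>
    hF.integrable_of_hasCompactSupport (HasCompactSupport.intro hK h0)
  refine integral_mul_fderiv_eq_neg_fderiv_mul_of_integrable ?_ ?_ ?_ ?_ ?_
  · refine hint _ ((continuous_dd hf e).mul hg.continuous) fun z hz => ?_
    rw [hdf z hz, zero_mul]
  · refine hint _ (hf.continuous.mul (continuous_dd hg e)) fun z hz => ?_
    rw [hfK z hz, zero_mul]
  · refine hint _ (hf.continuous.mul hg.continuous) fun z hz => ?_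
    rw [hfK z hz, zero_mul]
  · exact fun x _ => (hf.differentiable (by norm_num)).differentiableAt
  · exact fun x _ => (hg.differentiable (by norm_num)).differentiableAt

lemma ibp2 {f g : ℂ → ℝ} (hf : ContDiff ℝ 2 f) (hg : ContDiff ℝ 2 g) {K : Set ℂ} (hK : IsCompact K)
    (hfK : ∀ z ∉ K, f z = 0) (e : ℂ) :
    ∫ z, f z * dd e (dd e g) z = ∫ z, dd e (dd e f) z * g z := by
  have h1 := ibp (hf.of_le (by norm_num)) (contDiff_dd hg (m := 1) (by norm_num) e) hK hfK e
  have h2 := ibp (contDiff_dd hf (m := 1) (by norm_num) e) (hg.of_le (by norm_num)) hK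
    (dd_support hK.isClosed hfK e) e
  rw [h1, h2, neg_neg]

lemma integrable_of {K : Set ℂ} (hK : IsCompact K) {F : ℂ → ℝ} (hF : Continuous F)
    (h0 : ∀ z ∉ K, F z = 0) : Integrable F :=
  hF.integrable_of_hasCompactSupport (HasCompactSupport.intro hK h0)

lemma ibp_lap {f g : ℂ → ℝ} (hf : ContDiff ℝ 2 f) (hg : ContDiff ℝ 2 g) {K : Set ℂ}
    (hK : IsCompact K) (hfK : ∀ z ∉ K, f z = 0) :
    ∫ z, f z * lap g z = ∫ z, lap f z * g z := by
  have hf' : ∀ e, ∀ z ∉ K, dd e (dd e f) z = 0 := fun e =>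
    dd_support hK.isClosed (dd_support hK.isClosed hfK e) e
  have h1 : ∀ e, Integrable fun z => f z * dd e (dd e g) z := fun e =>
    integrable_of hK (hf.continuous.mul (continuous_dd2 hg e e)) fun z hz => by
      rw [hfK z hz, zero_mul]
  have h2 : ∀ e, Integrable fun z => dd e (dd e f) z * g z := fun e =>
    integrable_of hK ((continuous_dd2 hf e e).mul hg.continuous) fun z hz => by
      rw [hf' e z hz, zero_mul]
  unfold lap
  simp only [mul_add, add_mul]
  rw [integral_add (h1 _) (h1 _), integral_add (h2 _) (h2 _), ibp2 hf hg hK hfK, ibp2 hf hg hK hfK]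

/-! ### The weight -/

/-- `k (|z|^2)` is a radial weight on the disc of radius `r`; `K' = -k` -/
structure Weight (r : ℝ) (K k : ℝ → ℝ) : Prop where
  smooth : ContDiff ℝ 2 K
  cont : Continuous k
  deriv : ∀ s, HasDerivAt K (-k s) s
  nonneg : ∀ s, 0 ≤ k s
  zero : ∀ s, r ^ 2 ≤ s → K s = 0

lemma contDiff_normSq {n : WithTop ℕ∞} : ContDiff ℝ n (fun z : ℂ => Complex.normSq z) := by
  have : (fun z : ℂ => Complex.normSq z) = fun z => z.re * z.re + z.im * z.im := by
    ext z
    exact Complex.normSq_apply z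
  rw [this]
  exact (Complex.reCLM.contDiff.mul Complex.reCLM.contDiff).add
    (Complex.imCLM.contDiff.mul Complex.imCLM.contDiff)

lemma fderiv_normSq (z e : ℂ) :
    fderiv ℝ (fun z : ℂ => Complex.normSq z) z e = 2 * (z.re * e.re + z.im * e.im) := by
  have h0 : (fun z : ℂ => Complex.normSq z) = fun z => z.re * z.re + z.im * z.im := by
    ext z
    exact Complex.normSq_apply z
  rw [h0]
  have h1 : HasFDerivAt (fun z : ℂ => z.re) Complex.reCLM z := Complex.reCLM.hasFDerivAt
  have h2 : HasFDerivAt (fun z : ℂ => z.im) Complex.imCLM z := Complex.imCLM.hasFDerivAt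
  have h3 : HasFDerivAt (fun z : ℂ => z.re * z.re + z.im * z.im)
      ((z.re • Complex.reCLM + z.re • Complex.reCLM) +
        (z.im • Complex.imCLM + z.im • Complex.imCLM)) z := (h1.mul h1).add (h2.mul h2)
  rw [h3.fderiv]
  simp only [add_apply, smul_apply, Complex.reCLM_apply, Complex.imCLM_apply, smul_eq_mul]
  ring

namespace Weight

variable {r : ℝ} {K k : ℝ → ℝ}

lemma K_nonneg (W : Weight r K k) (s : ℝ) : 0 ≤ K s := by
  have hanti : Antitone K := antitone_of_deriv_nonpos (fun s => (W.deriv s).differentiableAt)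
    fun s => by
      rw [(W.deriv s).deriv]
      have := W.nonneg s
      linarith
  rw [← W.zero (max s (r ^ 2)) (le_max_right _ _)]
  exact hanti (le_max_left _ _)

lemma k_zero (W : Weight r K k) {s : ℝ} (hs : r ^ 2 < s) : k s = 0 := by
  have h1 : K =ᶠ[nhds s] fun _ => 0 := by
    filter_upwards [lt_mem_nhds hs] with y hy
    exact W.zero y hy.le
  have h2 : HasDerivAt K 0 s := (hasDerivAt_const s (0 : ℝ)).congr_of_eventuallyEq h1
  have := (W.deriv s).unique h2
  linarith

lemma contDiff_K (W : Weight r K k) : ContDiff ℝ 2 fun z : ℂ => K (Complex.normSq z) :=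
  W.smooth.comp contDiff_normSq

lemma continuous_k (W : Weight r K k) : Continuous fun z : ℂ => k (Complex.normSq z) :=
  W.cont.comp (contDiff_normSq (n := 0)).continuous

lemma K_off (W : Weight r K k) (hr : 0 ≤ r) {z : ℂ} (hz : r ≤ ‖z‖) :
    K (Complex.normSq z) = 0 := by
  refine W.zero _ ?_
  rw [Complex.normSq_eq_norm_sq]
  gcongr

lemma K_off' (W : Weight r K k) (hr : 0 ≤ r) {z : ℂ} (hz : z ∉ closedBall (0 : ℂ) r) :
    K (Complex.normSq z) = 0 := by
  rw [mem_closedBall, dist_zero_right, not_le] at hz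
  exact W.K_off hr hz.le

lemma k_off (W : Weight r K k) (hr : 0 ≤ r) {z : ℂ} (hz : z ∉ closedBall (0 : ℂ) r) :
    k (Complex.normSq z) = 0 := by
  refine W.k_zero ?_
  rw [mem_closedBall, dist_zero_right, not_le] at hz
  rw [Complex.normSq_eq_norm_sq]
  gcongr

lemma dd_K (W : Weight r K k) (e z : ℂ) : dd e (fun z : ℂ => K (Complex.normSq z)) z =
    -2 * (z.re * e.re + z.im * e.im) * k (Complex.normSq z) := by
  unfold dd
  have h1 := W.deriv (Complex.normSq z)
  have h3 : HasFDerivAt (fun z : ℂ => (Complex.normSq z : ℝ))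
      (fderiv ℝ (fun z : ℂ => Complex.normSq z) z) z :=
    ((contDiff_normSq (n := 1)).differentiable (by norm_num)).differentiableAt.hasFDerivAt
  have h4 := h1.comp_hasFDerivAt z h3
  have h5 : (fun z : ℂ => K (Complex.normSq z)) = K ∘ fun z : ℂ => Complex.normSq z := rfl
  rw [h5, h4.fderiv]
  simp only [smul_apply, smul_eq_mul, fderiv_normSq]
  ring

end Weight

/-! ### The mean value inequality -/

lemma fderiv_self (u : ℂ → ℝ) (z : ℂ) :
    fderiv ℝ u z z = z.re * dd 1 u z + z.im * dd Complex.I u z := by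
  unfold dd
  have h : z = z.re • (1 : ℂ) + z.im • Complex.I := by
    apply Complex.ext <;> simp
  conv_lhs => rw [h]
  rw [map_add, map_smul, map_smul, smul_eq_mul, smul_eq_mul]
  rw [← h]

section

variable {r : ℝ} {K k : ℝ → ℝ}

lemma radial_le (W : Weight r K k) (hr : 0 ≤ r) {u : ℂ → ℝ} (hu : ContDiff ℝ 2 u)
    (hlap : ∀ z ∈ ball (0 : ℂ) r, lap u z ≤ 0) :
    ∫ z, k (Complex.normSq z) * fderiv ℝ u z z ≤ 0 := by
  have hK : IsCompact (closedBall (0 : ℂ) r) := isCompact_closedBall _ _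
  have hKK : ∀ z ∉ closedBall (0 : ℂ) r, K (Complex.normSq z) = 0 := fun z hz => W.K_off' hr hz
  have hu1 : ContDiff ℝ 1 u := hu.of_le (by norm_num)
  have hK1 : ContDiff ℝ 1 (fun z : ℂ => K (Complex.normSq z)) := W.contDiff_K.of_le (by norm_num)
  have e1 : ∀ e, ∫ z, dd e (fun z : ℂ => K (Complex.normSq z)) z * dd e u z =
      - ∫ z, K (Complex.normSq z) * dd e (dd e u) z := by
    intro e
    rw [ibp hK1 (contDiff_dd hu (m := 1) (by norm_num) e) hK hKK e, neg_neg]
  have hint : ∀ e, Integrable fun z => dd e (fun z : ℂ => K (Complex.normSq z)) z * dd e u z :=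
    fun e => integrable_of hK ((continuous_dd hK1 e).mul (continuous_dd hu1 e)) fun z hz => by
      rw [dd_support hK.isClosed hKK e z hz, zero_mul]
  have hint2 : ∀ e, Integrable fun z => K (Complex.normSq z) * dd e (dd e u) z := fun e =>
    integrable_of hK (hK1.continuous.mul (continuous_dd2 hu e e)) fun z hz => by
      rw [hKK z hz, zero_mul]
  have h1 : ∀ z, k (Complex.normSq z) * fderiv ℝ u z z =
      -(1 / 2) * (dd 1 (fun z : ℂ => K (Complex.normSq z)) z * dd 1 u z +
        dd Complex.I (fun z : ℂ => K (Complex.normSq z)) z * dd Complex.I u z) := by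
    intro z
    rw [fderiv_self, W.dd_K, W.dd_K]
    simp
    ring
  simp_rw [h1]
  rw [integral_const_mul, integral_add (hint _) (hint _), e1, e1, ← neg_add,
    ← integral_add (hint2 _) (hint2 _)]
  have h2 : ∫ z, (K (Complex.normSq z) * dd 1 (dd 1 u) z +
      K (Complex.normSq z) * dd Complex.I (dd Complex.I u) z) ≤ 0 := by
    refine integral_nonpos fun z => ?_
    have h3 : K (Complex.normSq z) * dd 1 (dd 1 u) z +
        K (Complex.normSq z) * dd Complex.I (dd Complex.I u) z = K (Complex.normSq z) * lap u z := by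
      unfold lap
      ring
    simp only [Pi.zero_apply]
    rw [h3]
    by_cases hz : ‖z‖ < r
    · exact mul_nonpos_of_nonneg_of_nonpos (W.K_nonneg _) (hlap z (by simpa using hz))
    · rw [W.K_off hr (not_lt.mp hz), zero_mul]
  linarith

lemma dd_scale {u : ℂ → ℝ} (hu : Differentiable ℝ u) (ρ : ℝ) (e z : ℂ) :
    dd e (fun z => u (ρ • z)) z = ρ * dd e u (ρ • z) := by
  unfold dd
  have h1 : HasFDerivAt (fun z : ℂ => ρ • z) (ρ • ContinuousLinearMap.id ℝ ℂ) z :=
    (ContinuousLinearMap.id ℝ ℂ).hasFDerivAt.const_smul ρ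
  have h2 := (hu (ρ • z)).hasFDerivAt.comp z h1
  have h3 : (fun z => u (ρ • z)) = u ∘ fun z : ℂ => ρ • z := rfl
  rw [h3, h2.fderiv]
  simp

lemma radial_le' (W : Weight r K k) (hr : 0 ≤ r) {u : ℂ → ℝ} (hu : ContDiff ℝ 2 u)
    (hlap : ∀ z ∈ ball (0 : ℂ) r, lap u z ≤ 0) {ρ : ℝ} (h0 : 0 < ρ) (h1 : ρ ≤ 1) :
    ∫ z, k (Complex.normSq z) * fderiv ℝ u (ρ • z) z ≤ 0 := by
  have hsm : ContDiff ℝ 2 (fun z : ℂ => u (ρ • z)) := hu.comp (contDiff_const_smul ρ)
  have hd : Differentiable ℝ u := hu.differentiable (by norm_num)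
  have h2 : ∀ z ∈ ball (0 : ℂ) r, lap (fun z => u (ρ • z)) z ≤ 0 := by
    intro z hz
    have h3 : ∀ e, dd e (dd e fun z => u (ρ • z)) z = ρ ^ 2 * dd e (dd e u) (ρ • z) := by
      intro e
      have h4 : (dd e fun z => u (ρ • z)) = fun z => ρ * dd e u (ρ • z) := by
        ext z
        exact dd_scale hd ρ e z
      rw [h4]
      have h5 : Differentiable ℝ (dd e u) :=
        (contDiff_dd hu (m := 1) (by norm_num) e).differentiable (by norm_num)
      have h6 := dd_scale h5 ρ e z
      have h7 : dd e (fun z => ρ * dd e u (ρ • z)) z = ρ * dd e (fun z => dd e u (ρ • z)) z := by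
        have h8 : DifferentiableAt ℝ (fun z => dd e u (ρ • z)) z :=
          (h5 (ρ • z)).comp z (differentiable_id.const_smul ρ).differentiableAt
        rw [dd, fderiv_const_mul h8, dd]
        simp
      rw [h7, h6]
      ring
    unfold lap
    rw [h3, h3]
    have h4 := hlap (ρ • z) (by
      rw [mem_ball, dist_zero_right] at hz ⊢
      rw [norm_smul, Real.norm_eq_abs, abs_of_pos h0]
      nlinarith [norm_nonneg z])
    unfold lap at h4
    nlinarith [sq_nonneg ρ]
  have h3 := radial_le W hr hsm h2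
  have h4 : ∀ z, k (Complex.normSq z) * fderiv ℝ (fun z => u (ρ • z)) z z =
      ρ * (k (Complex.normSq z) * fderiv ℝ u (ρ • z) z) := by
    intro z
    have h5 := dd_scale hd ρ z z
    unfold dd at h5
    rw [h5]
    ring
  simp_rw [h4] at h3
  rw [integral_const_mul] at h3
  by_contra hcon
  push Not at hcon
  have := mul_pos h0 hcon
  linarith

/-- the weighted mean value inequality -/
theorem mean_value (W : Weight r K k) (hr : 0 ≤ r) {u : ℂ → ℝ} (hu : ContDiff ℝ 2 u)
    (hlap : ∀ z ∈ ball (0 : ℂ) r, lap u z ≤ 0) :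
    ∫ z, k (Complex.normSq z) * u z ≤ u 0 * ∫ z : ℂ, k (Complex.normSq z) := by
  have hK : IsCompact (closedBall (0 : ℂ) r) := isCompact_closedBall _ _
  have hkap : Integrable fun z : ℂ => k (Complex.normSq z) :=
    integrable_of hK W.continuous_k fun z hz => W.k_off hr hz
  have hku : Integrable fun z => k (Complex.normSq z) * u z :=
    integrable_of hK (W.continuous_k.mul hu.continuous) fun z hz => by
      rw [W.k_off hr hz, zero_mul]
  have hfd : Continuous (fderiv ℝ u) := hu.continuous_fderiv (by norm_num)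
  -- the difference along the rays
  have h1 : ∀ z, u z - u 0 = ∫ ρ in (0 : ℝ)..1, fderiv ℝ u (ρ • z) z := by
    intro z
    have h2 : ∀ ρ ∈ uIcc (0 : ℝ) 1, HasDerivAt (fun ρ : ℝ => u (ρ • z)) (fderiv ℝ u (ρ • z) z) ρ := by
      intro ρ _
      have h3 : HasDerivAt (fun ρ : ℝ => ρ • z) z ρ := by
        simpa using (hasDerivAt_id ρ).smul_const z
      exact ((hu.differentiable (by norm_num)) (ρ • z)).hasFDerivAt.comp_hasDerivAt ρ h3
    have h3 := intervalIntegral.integral_eq_sub_of_hasDerivAt h2 (by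
      apply Continuous.intervalIntegrable
      exact (hfd.comp (continuous_id.smul continuous_const)).clm_apply continuous_const)
    rw [h3]
    simp
  set F : ℝ → ℂ → ℝ := fun ρ z => k (Complex.normSq z) * fderiv ℝ u (ρ • z) z with hF
  have hFc : Continuous (Function.uncurry F) := by
    have h2 : Continuous fun p : ℝ × ℂ => fderiv ℝ u (p.1 • p.2) p.2 :=
      (hfd.comp (continuous_fst.smul continuous_snd)).clm_apply continuous_snd
    exact (W.continuous_k.comp continuous_snd).mul h2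
  have hFi : Integrable (Function.uncurry F) ((volume.restrict (Ioc (0 : ℝ) 1)).prod volume) := by
    have h2 : (volume.restrict (Ioc (0 : ℝ) 1)).prod (volume : Measure ℂ) =
        ((volume : Measure ℝ).prod (volume : Measure ℂ)).restrict (Ioc (0 : ℝ) 1 ×ˢ univ) := by
      rw [← Measure.prod_restrict, Measure.restrict_univ]
    rw [h2]
    have h3 : IntegrableOn (Function.uncurry F) (Icc (0 : ℝ) 1 ×ˢ closedBall (0 : ℂ) r)
        ((volume : Measure ℝ).prod (volume : Measure ℂ)) :=
      hFc.continuousOn.integrableOn_compact (isCompact_Icc.prod hK)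
    refine IntegrableOn.of_forall_sdiff_eq_zero h3 (measurableSet_Ioc.prod MeasurableSet.univ) ?_
    rintro ⟨ρ, z⟩ ⟨h4, h5⟩
    have h6 : z ∉ closedBall (0 : ℂ) r := fun h7 =>
      h5 ⟨Ioc_subset_Icc_self h4.1, h7⟩
    simp only [Function.uncurry, hF, W.k_off hr h6, zero_mul]
  have h2 : ∫ z, k (Complex.normSq z) * (u z - u 0) = ∫ ρ in Ioc (0 : ℝ) 1, ∫ z, F ρ z := by
    rw [integral_integral_swap hFi]
    refine integral_congr_ae (Filter.Eventually.of_forall fun z => ?_)
    simp only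
    rw [h1 z, intervalIntegral.integral_of_le zero_le_one, ← integral_const_mul]
  have h3 : ∫ ρ in Ioc (0 : ℝ) 1, ∫ z, F ρ z ≤ 0 := by
    refine setIntegral_nonpos measurableSet_Ioc fun ρ hρ => ?_
    exact radial_le' W hr hu hlap hρ.1 hρ.2
  have h4 : ∫ z, k (Complex.normSq z) * (u z - u 0) =
      (∫ z, k (Complex.normSq z) * u z) - u 0 * ∫ z : ℂ, k (Complex.normSq z) := by
    simp_rw [mul_sub]
    rw [integral_sub hku (hkap.mul_const _), integral_mul_const]
    ring
  linarith

end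

end Pool.Agent.KRFS.SupH
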