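import Pool.Agent.Work.MP_a2bf38_gt.I.Setup

/-!
# The tasks of Part III (statements only; nothing may import this file)
-/

open scoped ContDiff ENNReal ComplexOrder Topology
open Set MeasureTheory Filter Pool.Agent.ToricKRF Pool.Agent.ToricKRF.G Pool.Agent.KRFS

namespace Pool.Agent.KRFF

/-! ## 1. `I/FBound.lean`: the potentials (H/BoundCalc.lean and H/Bound.lean for `Flow`) -/

section Bound

variable {n : ℕ} {M : Type} [TopologicalSpace M] {κ : Type} {T : ℝ} (F : Flow n M κ T)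

theorem Flow.phi_isFun : IsFun F.e T F.phi := sorry

theorem Flow.Phi_eq {c : κ} {t : ℝ} (ht : t ∈ Ico 0 T) {p : M} (hp : p ∈ (F.e c).source) :
    F.Phi t p = F.phi c (t, F.e c p) := sorry

theorem Flow.Phi_continuousOn :
    ContinuousOn (fun q : ℝ × M => F.Phi q.1 q.2) (Ico 0 T ×ˢ univ) := sorry

theorem Flow.lev_phi {c : κ} {t : ℝ} (ht : t ∈ Ico 0 T) {z : Cn n} (hz : z ∈ (F.e c).target)
    (u : Cn n) : lev (F.phi c) u (t, z) =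
      lev (F.ψ c) u (t, z) - (1 - t / T) * lev (F.ψ c) u (0, z) - t / T * levz (F.Θ c) u z := sorry

theorem Flow.dt_phi {c : κ} {t : ℝ} (ht : t ∈ Ioo 0 T) {z : Cn n} (hz : z ∈ (F.e c).target) :
    G.dt (F.phi c) (t, z) = F.dphi c (t, z) := sorry

theorem Flow.Phi_bound [CompactSpace M] :
    ∃ C : ℝ, 0 ≤ C ∧ ∀ t ∈ Ico 0 T, ∀ p, |F.Phi t p| ≤ C := sorry

theorem Flow.dphi_le [CompactSpace M] : ∃ C : ℝ, 0 ≤ C ∧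
    ∀ c, ∀ t ∈ Ico 0 T, ∀ z ∈ (F.e c).target, F.dphi c (t, z) ≤ C := sorry

theorem Flow.dphi_ge [CompactSpace M] : ∃ C : ℝ, 0 ≤ C ∧
    ∀ c, ∀ t ∈ Ico 0 T, ∀ z ∈ (F.e c).target, -(C / (T - t)) ≤ F.dphi c (t, z) := sorry

/-- used at the minima of `φ` and of its variants -/
theorem Flow.dphi_ge_of_le [CompactSpace M] : ∃ C : ℝ, 0 ≤ C ∧
    ∀ c, ∀ t ∈ Ico 0 T, ∀ z ∈ (F.e c).target,
      (∀ u, (1 - t / T) * lev (F.ψ c) u (0, z) ≤ lev (F.ψ c) u (t, z)) →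
      n * Real.log (1 - t / T) - C ≤ F.dphi c (t, z) := sorry

theorem Flow.Phi_mono [CompactSpace M] : ∃ C : ℝ, 0 ≤ C ∧
    ∀ t₀ ∈ Ico 0 T, ∀ t ∈ Ico t₀ T, ∀ p, F.Phi t p ≤ F.Phi t₀ p + C * (t - t₀) := sorry

end Bound

/-! ## 2. `I/Exp.lean`: the exponential bound (H/Cut.lean) -/

theorem Flow.lev_le_exp {n : ℕ} {M : Type} [TopologicalSpace M] [CompactSpace M] [T2Space M]
    {κ : Type} {T : ℝ} (F : Flow n M κ T) (c : κ) {A : Set (Cn n)} (hA : IsCompact A)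
    (hAt : A ⊆ (F.e c).target) :
    ∃ C : ℝ, 0 ≤ C ∧ ∀ t ∈ Ico 0 T, ∀ z ∈ A, ∀ u,
      lev (F.ψ c) u (t, z) ≤ Real.exp (C / (T - t)) * nsq u := sorry

/-! ## 3. `I/ABP.lean` -/

theorem abp (n : ℕ) : ∃ C : ℝ, 0 < C ∧ ∀ (v : Cn n → ℝ) (f : ℝ × Cn n → ℝ) (t : ℝ)
    (V : Set (Cn n)) (U : Set (ℝ × Cn n)) (z₀ : Cn n) (r ε D₁ : ℝ),
    IsOpen V → ContDiffOn ℝ ∞ v V → IsOpen U → ContDiffOn ℝ ∞ f U → 0 < r → 0 < ε →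
    {z | nsq (z - z₀) ≤ r ^ 2} ⊆ V →
    (∀ z, nsq (z - z₀) ≤ r ^ 2 → (t, z) ∈ U ∧ (cHess f (t, z)).PosDef ∧
      (cHess f (t, z)).det.re ≤ D₁ ∧ ∀ u, levz v u z ≤ lev f u (t, z)) →
    (∀ z, nsq (z - z₀) = r ^ 2 → v z₀ + ε ≤ v z) →
    ENNReal.ofReal ((ε / r) ^ (2 * n)) ≤ ENNReal.ofReal (C * D₁ ^ 2) *
      volume {z | nsq (z - z₀) ≤ r ^ 2 ∧ v z ≤ v z₀ + ε} := sorry

/-! ## 4. `I/Psh.lean` -/

theorem psh_good (k : ℕ) : ∃ C : ℝ, 0 < C ∧ ∀ (g : Cn k → ℝ) (L : ℝ) (z₁ : Cn k),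
    ContDiffOn ℝ ∞ g (opd 9) → (∀ z ∈ opd (k := k) 9, g z ≤ 0) →
    (∀ z ∈ opd (k := k) 9, ∀ u, 0 ≤ levz g u z) → z₁ ∈ cpd 2 → -L ≤ g z₁ →
    ∀ z ∈ cpd (k := k) 2, ∀ r ∈ Ioc (0 : ℝ) 1,
      ∃ z', nsq (z' - z) ≤ r ^ 2 ∧ -(C * L * (1 / r) ^ (2 * k)) ≤ g z' := sorry

/-- mean value inequality -/
theorem psh_integral (k : ℕ) : ∃ C : ℝ, 0 < C ∧ ∀ (g : Cn k → ℝ) (L : ℝ) (z₁ : Cn k),
    ContDiffOn ℝ ∞ g (opd 9) → (∀ z ∈ opd (k := k) 9, g z ≤ 0) →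
    (∀ z ∈ opd (k := k) 9, ∀ u, 0 ≤ levz g u z) → z₁ ∈ cpd 2 → -L ≤ g z₁ →
    ∫ z in cpd (k := k) (9 / 2), -g z ≤ C * L := sorry

theorem psh_decay_of_integral (k : ℕ) : ∃ C : ℝ, 0 < C ∧ ∀ (g : Cn k → ℝ) (L : ℝ),
    ContDiffOn ℝ ∞ g (opd 5) → (∀ z ∈ opd (k := k) 5, g z ≤ 0) →
    (∀ z ∈ opd (k := k) 5, ∀ u, 0 ≤ levz g u z) → ∫ z in cpd (k := k) (9 / 2), -g z ≤ L →
    ∀ ρ ∈ Ioc (0 : ℝ) 1, ∀ N > 0, C * L * (1 + Real.log (1 / ρ)) ^ k ≤ N →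
      volume {z | z ∈ cpd (k := k) 2 ∧ g z < -N} ≤ ENNReal.ofReal (C * L * ρ / N) := sorry

/-- from the two previous ones -/
theorem psh_decay (k : ℕ) : ∃ C : ℝ, 0 < C ∧ ∀ (g : Cn k → ℝ) (L : ℝ) (z₁ : Cn k),
    ContDiffOn ℝ ∞ g (opd 9) → (∀ z ∈ opd (k := k) 9, g z ≤ 0) →
    (∀ z ∈ opd (k := k) 9, ∀ u, 0 ≤ levz g u z) → z₁ ∈ cpd 2 → -L ≤ g z₁ →
    ∀ ρ ∈ Ioc (0 : ℝ) 1, ∀ N > 0, C * L * (1 + Real.log (1 / ρ)) ^ k ≤ N →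
      volume {z | z ∈ cpd (k := k) 2 ∧ g z < -N} ≤ ENNReal.ofReal (C * L * ρ / N) := sorry

/-! ## 5. - 8. the fibration -/

section Fib

variable {k m : ℕ} {M Y : Type} [TopologicalSpace M] [CompactSpace M] [T2Space M]
  [TopologicalSpace Y] [T2Space Y] {κ P : Type} [Finite κ] {T : ℝ} (F : Fib k m M Y κ P T)

/-- `I/Fibre.lean` -/
theorem Fib.fibre : ∃ C : ℝ, 0 ≤ C ∧ ∀ t ∈ Ico 0 T, ∀ c, ∀ p,
    F.f p ∈ (F.b (F.pc c)).source → F.b (F.pc c) (F.f p) ∈ cpd 2 →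
    ∃ u ∈ cpd 2, F.Phi t p - C * (T - t) ≤
      F.phi c (t, joinC u (F.b (F.pc c) (F.f p))) := sorry

/-- `I/Sect.lean` -/
theorem Fib.sect : ∃ C₀ : ℝ, 0 ≤ C₀ ∧ ∀ c c', F.pc c = F.pc c' → ∀ u₀ ∈ cpd (k := k) 2,
    ∀ t₀ ∈ Ico 0 T, T / 2 ≤ t₀ → 2 * C₀ * (1 - t₀ / T) ≤ 1 → ∀ s ∈ Ico t₀ T, ∀ z,
    fstC z ∈ cpd 2 → sndC z ∈ cpd 2 → ∀ u,
    levz (fun z => F.phi c (s, z) -
      (1 - 2 * C₀ * (1 - t₀ / T)) * F.phi c' (t₀, joinC u₀ (sndC z))) u z ≤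
      lev (F.ψ c) u (s, z) - (1 - s / T) * lev (F.ψ c) u (0, z) := sorry

/-- `I/Gap.lean` -/
theorem Fib.gap : ∃ C : ℝ, 0 ≤ C ∧ ∀ t ∈ Ico 0 T, ∀ p p', F.f p = F.f p' →
    F.Phi t p' - F.Phi t p ≤ C * √(T - t) := sorry

/-- `I/Drop.lean` -/
theorem Fib.drop : F.toFlow.Drop (1 / 2) := sorry

end Fib

/-! ## 9. `I/Jensen.lean` -/

theorem cavg_sub_le {G : ℂ → ℝ} {R B : ℝ} (hG : ContDiffOn ℝ ∞ G (Metric.ball 0 R))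
    (h : ∀ z ∈ Metric.ball (0 : ℂ) R, lapC G z ≤ 4 * B) {r : ℝ} (hr : r ∈ Ico 0 R) :
    cavg G r - G 0 ≤ B * r ^ 2 := sorry

theorem radial_bound {a : ℝ} (ha : 0 < a) (C : ℝ) : ∃ C' : ℝ, 0 ≤ C' ∧ ∀ G : ℂ → ℝ,
    ContDiffOn ℝ ∞ G (Metric.ball 0 (1 / 2)) → (∀ z ∈ Metric.ball (0 : ℂ) (1 / 2), 0 ≤ lapC G z) →
    (∀ r ∈ Ioc (0 : ℝ) (1 / 4), cavg G r - G 0 ≤ C * Real.log (1 / r) ^ (-a)) →
    ∫ θ in (0 : ℝ)..2 * Real.pi, ∫ r in (0 : ℝ)..1 / 16,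
      √(lapC G (r * Complex.exp (θ * Complex.I))) ≤ C' := sorry

/-! ## 10. `I/Path.lean` and `I/Diam.lean` -/

section Path

variable {n : ℕ} {M : Type} [TopologicalSpace M] {κ : Type} {T : ℝ} (F : Flow n M κ T)

/-- `I/Modulus.lean` -/
theorem Flow.modulus [CompactSpace M] [T2Space M] {a : ℝ} (ha : 0 < a) (ha1 : a ≤ 1)
    (hd : F.Drop a) (c : κ) {A : Set (Cn n)}
    (hA : IsCompact A) (hAt : A ⊆ (F.e c).target) :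
    ∃ C : ℝ, 0 ≤ C ∧ ∀ t ∈ Ico 0 T, ∀ z v : Cn n, nsq v ≤ 1 →
      (∀ ζ : ℂ, ‖ζ‖ ≤ 1 / 2 → line z v ζ ∈ A) → ∀ r ∈ Ioc (0 : ℝ) (1 / 4),
      cavg (fun ζ => F.ψ c (t, line z v ζ)) r - F.ψ c (t, z) ≤
        C * Real.log (1 / r) ^ (-a) := sorry

/-- `I/Path.lean` -/
theorem Flow.two_points [CompactSpace M] [T2Space M] {a : ℝ} (ha : 0 < a) (ha1 : a ≤ 1)
    (hd : F.Drop a) (p : M) :
    ∃ C : ℝ, ∀ᶠ q in 𝓝 p, ∀ t ∈ Ico 0 T, rdist F.e F.ψ t p q ≤ ENNReal.ofReal C := sorry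

/-- `I/Diam.lean` -/
theorem Flow.diam_of_local [CompactSpace M] [ConnectedSpace M]
    (h : ∀ p, ∃ C : ℝ, ∀ᶠ q in 𝓝 p, ∀ t ∈ Ico 0 T, rdist F.e F.ψ t p q ≤ ENNReal.ofReal C) :
    ⨆ t ∈ Ico 0 T, rdiam F.e F.ψ t < ⊤ := sorry

end Path

/-! ## 11. `I/Master.lean` (helper1) -/

theorem Fib.diam_bounded {k m : ℕ} {M Y : Type} [TopologicalSpace M] [CompactSpace M] [T2Space M]
    [ConnectedSpace M] [TopologicalSpace Y] [T2Space Y] {κ P : Type} [Finite κ] {T : ℝ}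
    (F : Fib k m M Y κ P T) : ⨆ t ∈ Ico 0 T, rdiam F.e F.ψ t < ⊤ :=
  F.toFlow.diam_of_local fun p => F.toFlow.two_points (by norm_num) (by norm_num) F.drop p

end Pool.Agent.KRFF
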